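import Pool.Agent.helper31.BVM.PDef

/-!
# BVM-P02: labels of prime values can be dropped, and two elementary bounds

Proofs by helper11.

PROOF. `dsum_congr_prime`: the two sums over `c` agree term by term: if `NoLab M c` then `f c = g c`. If `c`
carries at a prime `p ≤ Y` a label `m ∈ M` and `Dv a b c n` held, then `p` would divide the prime
`a m * n + b m > Y ≥ p`, impossible (`p ≥ 2`); so the term is `0` on both sides.
`lgp_le`: if `PrimeAt a b n` then `lgp (a n + b).toNat = log (a n + b) ≤ log x`; otherwise both sides are `0`.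
`ip_le`: similarly with `log (a n + b) ≥ log y > 0`.
-/

noncomputable section

namespace BVM

open Finset Filter

variable {I : Type*} [Fintype I] [DecidableEq I]

theorem dsum_congr_prime {D Y : ℕ} (a : I → ℕ) (b : I → ℤ) (M : Finset I)
    (f g : (↥(Ps D Y) → Option I) → ℝ) (hfg : ∀ c, NoLab M c → f c = g c) (n : ℕ)
    (hn : ∀ m ∈ M, PrimeAt (a m) (b m) n ∧ (Y : ℤ) < a m * n + b m) :
    dsum a b f n = dsum a b g n := by
  classical
  unfold dsum
  apply Finset.sum_congr rfl
  intro c _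
  by_cases hD : Dv a b c n
  · rw [if_pos hD, if_pos hD]
    apply hfg
    intro p j hj hc
    obtain ⟨h1, h2⟩ := hn j hj
    have h3 := hD p j hc
    have hp := p.2
    unfold Ps at hp
    rw [Finset.mem_filter, Finset.mem_range] at hp
    unfold PrimeAt at h1
    have h4 : (((a j : ℤ) * n + b j).toNat : ℤ) = (a j : ℤ) * n + b j :=
      Int.toNat_of_nonneg (by omega)
    rw [← h4, Int.natCast_dvd_natCast] at h3
    have h5 := (Nat.prime_dvd_prime_iff_eq hp.2.1 h1).1 h3
    omega
  · rw [if_neg hD, if_neg hD]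

theorem ip_nonneg (a : ℕ) (b : ℤ) (n : ℕ) : 0 ≤ ip a b n := by
  unfold ip
  split_ifs
  · exact zero_le_one
  · exact le_rfl

theorem ip_le_one (a : ℕ) (b : ℤ) (n : ℕ) : ip a b n ≤ 1 := by
  unfold ip
  split_ifs
  · exact le_rfl
  · exact zero_le_one

theorem ip_sq (a : ℕ) (b : ℤ) (n : ℕ) : ip a b n * ip a b n = ip a b n := by
  unfold ip
  split_ifs
  · exact one_mul _
  · exact zero_mul _

theorem lgp_le (a : ℕ) (b : ℤ) (n x : ℕ) (hx : (a : ℤ) * n + b ≤ x) :
    lgp ((a : ℤ) * n + b).toNat ≤ Real.log x * ip a b n := by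
  unfold ip lgp PrimeAt
  split_ifs with h
  · rw [mul_one]
    apply Real.log_le_log
    · exact_mod_cast h.pos
    · have : ((a : ℤ) * n + b).toNat ≤ x := by omega
      exact_mod_cast this
  · rw [mul_zero]

theorem ip_le (a : ℕ) (b : ℤ) (n : ℕ) (y : ℝ) (hy : 1 < y) (hyn : y ≤ ((a : ℤ) * n + b : ℤ)) :
    ip a b n ≤ lgp ((a : ℤ) * n + b).toNat / Real.log y := by
  have hlog : 0 < Real.log y := Real.log_pos hy
  unfold ip lgp PrimeAt
  split_ifs with h
  · rw [one_le_div hlog]
    apply Real.log_le_log (by linarith)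
    have h1 : (0 : ℤ) ≤ (a : ℤ) * n + b := by
      have h2 : (0 : ℝ) ≤ (((a : ℤ) * n + b : ℤ) : ℝ) := by linarith
      exact_mod_cast h2
    have h3 : ((((a : ℤ) * n + b).toNat : ℤ) : ℝ) = (((a : ℤ) * n + b : ℤ) : ℝ) := by
      rw [Int.toNat_of_nonneg h1]
    rw [Int.cast_natCast] at h3
    rw [h3]
    exact hyn
  · rw [zero_div]

theorem lgp_eq_zero (a : ℕ) (b : ℤ) (n : ℕ) (h : ¬ PrimeAt a b n) :
    lgp ((a : ℤ) * n + b).toNat = 0 := by
  unfold PrimeAt at h
  unfold lgp
  rw [if_neg h]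

theorem lgp_nonneg (n : ℕ) : 0 ≤ lgp n := by
  unfold lgp
  split_ifs with h
  · exact Real.log_nonneg (by exact_mod_cast h.one_lt.le)
  · exact le_rfl

end BVM

end
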