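import Pool.Agent.helper31.BVM.P10
import Pool.Agent.helper31.BVM.P02

/-!
# BVM-C01: pair density and the Maynard-Tao theorem (author of the proofs: helper59)

PROOF of `pair_density`. WLOG `ε < 1/4`. Choose `ε' > 0` and `H ≥ 1` with
`(1 - 1/H)/(4 + ε') ≥ 1/4 - ε`, and `K` from `weights_of_BV ε' H`. Let `k = card I ≥ K`, `G` the set of
ordered pairs `(i, j)`, `i ≠ j`, with `GoodPair a b i j`. For each ordered pair `i ≠ j` not in `G` only
finitely many `n` have both forms prime; so there is `N₁` such that `ip_i(n) ip_j(n) = 0` for all `n ≥ N₁` and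
all those pairs. Take `N ≥ N₁` and `w` from `HasWeights`. Let `X(n) = ∑_i ip_i(n)`, `μ = ∑ w X ≥ k α ≥ H`.
`∑ w X² = ∑_i ∑ w ip_i + ∑_{i≠j} ∑ w ip_i ip_j ≤ μ + #G (4+ε') α²` (`ip_sq`). Cauchy-Schwarz with `∑ w ≤ 1`:
`μ² ≤ ∑ w X²` (e.g. expand `0 ≤ ∑ w (X - μ)²`, which gives `2μ² - μ² ∑ w ≤ ∑ w X²`). So
`#G (4+ε') α² ≥ μ² - μ ≥ (kα)² - kα ≥ (kα)²(1 - 1/H)` (`μ ↦ μ² - μ` increases for `μ ≥ 1/2`), and
`#G ≥ k² (1-1/H)/(4+ε') ≥ (1/4 - ε) k²`.
PROOF of `maynard_tao`. `weights_of_BV 1 (m+1)`: for `N` arbitrarily large, `∑ w X ≥ kα ≥ m + 1 > m ∑ w`, so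
some `n ∈ [N, 2N)` has `X(n) > m`.
-/

noncomputable section

namespace BVM

open Finset Filter

private theorem C01_ip_card {I : Type} [Fintype I] [DecidableEq I] (a : I → ℕ) (b : I → ℤ)
    (n : ℕ) [DecidablePred fun i : I => PrimeAt (a i) (b i) n] :
    ∑ i, ip (a i) (b i) n = ((univ.filter (fun i : I => PrimeAt (a i) (b i) n)).card : ℝ) := by
  rw [Finset.card_filter]
  push_cast
  refine Finset.sum_congr rfl fun i _ => ?_
  unfold ip
  by_cases h : PrimeAt (a i) (b i) n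
  · rw [if_pos h, if_pos h]
  · rw [if_neg h, if_neg h]

private theorem C01_bad {I : Type} [Fintype I] (a : I → ℕ) (b : I → ℤ) :
    ∃ N₁ : ℕ, ∀ n, N₁ ≤ n → ∀ i j, ¬ GoodPair a b i j → ip (a i) (b i) n * ip (a j) (b j) n = 0 := by
  classical
  have h1 : (⋃ q : I × I, if GoodPair a b q.1 q.2 then (∅ : Set ℕ) else
      {n : ℕ | PrimeAt (a q.1) (b q.1) n ∧ PrimeAt (a q.2) (b q.2) n}).Finite := by
    refine Set.finite_iUnion fun q => ?_
    by_cases h : GoodPair a b q.1 q.2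
    · rw [if_pos h]
      exact Set.finite_empty
    · rw [if_neg h]
      unfold GoodPair at h
      exact Set.not_infinite.1 h
  obtain ⟨M, hM⟩ := h1.bddAbove
  refine ⟨M + 1, fun n hn i j hij => ?_⟩
  have h2 : ¬ (PrimeAt (a i) (b i) n ∧ PrimeAt (a j) (b j) n) := by
    intro h3
    have h4 : n ≤ M := by
      apply hM
      refine Set.mem_iUnion.2 ⟨(i, j), ?_⟩
      change n ∈ (if GoodPair a b i j then (∅ : Set ℕ) else
        {n : ℕ | PrimeAt (a i) (b i) n ∧ PrimeAt (a j) (b j) n})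
      rw [if_neg hij]
      exact h3
    omega
  unfold ip
  by_cases h3 : PrimeAt (a i) (b i) n
  · have h4 : ¬ PrimeAt (a j) (b j) n := fun h => h2 ⟨h3, h⟩
    rw [if_neg h4, mul_zero]
  · rw [if_neg h3, zero_mul]

open Classical in
/-- In every admissible family of `k ≥ K` linear forms at least `(1/4 - ε) k²` ordered pairs of
forms are simultaneously prime infinitely often. -/
theorem pair_density (hBV : BVInput) (ε : ℝ) (hε : 0 < ε) :
    ∃ K : ℕ, ∀ (I : Type) [Fintype I] [DecidableEq I] (a : I → ℕ) (b : I → ℤ), Adm a b →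
      K ≤ Fintype.card I →
        (1 / 4 - ε) * (Fintype.card I : ℝ) ^ 2 ≤
          ((univ.filter (fun q : I × I => q.1 ≠ q.2 ∧ GoodPair a b q.1 q.2)).card : ℝ) := by
  rcases le_or_gt (1 / 4) ε with h14 | h14
  · refine ⟨0, fun I _ _ a b _ _ => ?_⟩
    have h1 : (1 / 4 - ε) * (Fintype.card I : ℝ) ^ 2 ≤ 0 :=
      mul_nonpos_of_nonpos_of_nonneg (by linarith) (by positivity)
    exact h1.trans (Nat.cast_nonneg _)
  · obtain ⟨K, hK⟩ := weights_of_BV hBV ε (1 / ε) hε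
    refine ⟨K, fun I _ _ a b hab hcard => ?_⟩
    obtain ⟨α, hα, hH, hW⟩ := hK I a b hab hcard
    obtain ⟨N₁, hN₁⟩ := C01_bad a b
    obtain ⟨N, hN, w, hw0, hw1, hw2, hw3⟩ := hW N₁
    set k : ℝ := (Fintype.card I : ℝ) with hk
    set G : ℝ := ((univ.filter (fun q : I × I => q.1 ≠ q.2 ∧ GoodPair a b q.1 q.2)).card : ℝ)
      with hG
    set X : ℕ → ℝ := fun n => ∑ i, ip (a i) (b i) n with hX
    obtain ⟨μ, hμ⟩ : ∃ μ : ℝ, μ = ∑ n ∈ Finset.Ico N (2 * N), w n * X n := ⟨_, rfl⟩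
    have hμ1 : μ = ∑ i, ∑ n ∈ Finset.Ico N (2 * N), w n * ip (a i) (b i) n := by
      rw [hμ, Finset.sum_comm]
      refine Finset.sum_congr rfl fun n _ => ?_
      rw [hX, Finset.mul_sum]
    have hμ2 : k * α ≤ μ := by
      rw [hμ1]
      have h1 : ∑ _i : I, α ≤ ∑ i, ∑ n ∈ Finset.Ico N (2 * N), w n * ip (a i) (b i) n :=
        Finset.sum_le_sum fun i _ => hw2 i
      rwa [Finset.sum_const, nsmul_eq_mul, Finset.card_univ] at h1
    -- the second moment
    have hX2 : ∑ n ∈ Finset.Ico N (2 * N), w n * X n ^ 2 ≤ μ + G * ((4 + ε) * α ^ 2) := by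
      have h1 : ∑ n ∈ Finset.Ico N (2 * N), w n * X n ^ 2 = ∑ q : I × I,
          ∑ n ∈ Finset.Ico N (2 * N), w n * (ip (a q.1) (b q.1) n * ip (a q.2) (b q.2) n) := by
        rw [Finset.sum_comm]
        refine Finset.sum_congr rfl fun n _ => ?_
        rw [hX, ← Finset.mul_sum, sq, Finset.sum_mul_sum, Fintype.sum_prod_type]
      have h2 : ∀ q : I × I, ∑ n ∈ Finset.Ico N (2 * N),
          w n * (ip (a q.1) (b q.1) n * ip (a q.2) (b q.2) n) ≤
          (if q.1 = q.2 then ∑ n ∈ Finset.Ico N (2 * N), w n * ip (a q.1) (b q.1) n else 0) +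
          (if q.1 ≠ q.2 ∧ GoodPair a b q.1 q.2 then (4 + ε) * α ^ 2 else 0) := by
        rintro ⟨i, j⟩
        change ∑ n ∈ Finset.Ico N (2 * N), w n * (ip (a i) (b i) n * ip (a j) (b j) n) ≤
          (if i = j then ∑ n ∈ Finset.Ico N (2 * N), w n * ip (a i) (b i) n else 0) +
          (if i ≠ j ∧ GoodPair a b i j then (4 + ε) * α ^ 2 else 0)
        by_cases hij : i = j
        · subst hij
          rw [if_pos rfl, if_neg (fun h => h.1 rfl), add_zero]
          refine le_of_eq (Finset.sum_congr rfl fun n _ => ?_)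
          rw [ip_sq]
        · rw [if_neg hij, zero_add]
          by_cases hg : GoodPair a b i j
          · rw [if_pos ⟨hij, hg⟩]
            exact hw3 i j hij
          · rw [if_neg (fun h => hg h.2)]
            refine le_of_eq (Finset.sum_eq_zero fun n hn => ?_)
            rw [hN₁ n (hN.trans (Finset.mem_Ico.1 hn).1) i j hg, mul_zero]
      rw [h1]
      refine (Finset.sum_le_sum fun q _ => h2 q).trans (le_of_eq ?_)
      rw [Finset.sum_add_distrib]
      congr 1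
      · rw [hμ1, Fintype.sum_prod_type]
        refine Finset.sum_congr rfl fun i _ => ?_
        rw [Finset.sum_ite_eq]
        rw [if_pos (Finset.mem_univ _)]
      · rw [← Finset.sum_filter, Finset.sum_const, nsmul_eq_mul]
    -- Cauchy-Schwarz
    have hCS : μ ^ 2 ≤ ∑ n ∈ Finset.Ico N (2 * N), w n * X n ^ 2 := by
      have h1 : 0 ≤ ∑ n ∈ Finset.Ico N (2 * N), w n * (X n - μ) ^ 2 :=
        Finset.sum_nonneg fun n _ => mul_nonneg (hw0 n) (sq_nonneg _)
      have h2 : ∑ n ∈ Finset.Ico N (2 * N), w n * (X n - μ) ^ 2 =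
          ∑ n ∈ Finset.Ico N (2 * N), w n * X n ^ 2 - 2 * μ * μ +
            μ ^ 2 * ∑ n ∈ Finset.Ico N (2 * N), w n := by
        have h3 : 2 * μ * μ = ∑ n ∈ Finset.Ico N (2 * N), 2 * μ * (w n * X n) := by
          rw [← Finset.mul_sum, ← hμ]
        have h4 : μ ^ 2 * ∑ n ∈ Finset.Ico N (2 * N), w n =
            ∑ n ∈ Finset.Ico N (2 * N), μ ^ 2 * w n := Finset.mul_sum _ _ _
        rw [h3, h4, ← Finset.sum_sub_distrib, ← Finset.sum_add_distrib]
        refine Finset.sum_congr rfl fun n _ => ?_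
        ring
      have h3 : μ ^ 2 * ∑ n ∈ Finset.Ico N (2 * N), w n ≤ μ ^ 2 * 1 :=
        mul_le_mul_of_nonneg_left hw1 (sq_nonneg _)
      nlinarith [h1, h2, h3]
    have hmain : μ ^ 2 ≤ μ + G * ((4 + ε) * α ^ 2) := hCS.trans hX2
    set m : ℝ := k * α with hm
    have hm1 : 1 ≤ ε * m := by
      rw [div_le_iff₀ hε] at hH
      linarith
    have hm0 : 4 ≤ m := by
      by_contra hcon
      push Not at hcon
      nlinarith
    have h4 : (0 : ℝ) ≤ μ + m - 1 := by linarith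
    have h5 : m ^ 2 - m ≤ μ ^ 2 - μ := by
      have h6 := mul_nonneg (sub_nonneg.2 hμ2) h4
      nlinarith [h6]
    have h6 : m ≤ ε * m ^ 2 := by nlinarith
    have h7 : (1 / 4 - ε) * (4 + ε) ≤ 1 - ε := by nlinarith
    have h8 : (1 / 4 - ε) * (4 + ε) * m ^ 2 ≤ G * ((4 + ε) * α ^ 2) := by
      have h9 : (1 / 4 - ε) * (4 + ε) * m ^ 2 ≤ (1 - ε) * m ^ 2 :=
        mul_le_mul_of_nonneg_right h7 (sq_nonneg _)
      linarith
    have h9 : 0 < (4 + ε) * α ^ 2 := by positivity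
    refine le_of_mul_le_mul_right ?_ h9
    calc (1 / 4 - ε) * k ^ 2 * ((4 + ε) * α ^ 2) = (1 / 4 - ε) * (4 + ε) * m ^ 2 := by
          rw [hm]
          ring
      _ ≤ _ := h8

open Classical in
/-- Maynard-Tao for linear forms: `m` of the forms are prime for infinitely many `n`. -/
theorem maynard_tao (hBV : BVInput) (m : ℕ) :
    ∃ K : ℕ, ∀ (I : Type) [Fintype I] [DecidableEq I] (a : I → ℕ) (b : I → ℤ), Adm a b →
      K ≤ Fintype.card I →
        {n : ℕ | m ≤ (univ.filter (fun i : I => PrimeAt (a i) (b i) n)).card}.Infinite := by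
  obtain ⟨K, hK⟩ := weights_of_BV hBV 1 (m + 1) one_pos
  refine ⟨K, fun I _ _ a b hab hcard => ?_⟩
  obtain ⟨α, hα, hH, hW⟩ := hK I a b hab hcard
  apply Set.infinite_of_forall_exists_gt
  intro N₀
  obtain ⟨N, hN, w, hw0, hw1, hw2, -⟩ := hW (N₀ + 1)
  by_contra hcon
  push Not at hcon
  have h1 : ∑ n ∈ Finset.Ico N (2 * N), w n * ∑ i, ip (a i) (b i) n ≤
      ∑ n ∈ Finset.Ico N (2 * N), w n * m := by
    refine Finset.sum_le_sum fun n hn => mul_le_mul_of_nonneg_left ?_ (hw0 n)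
    have h2 : (univ.filter (fun i : I => PrimeAt (a i) (b i) n)).card < m := by
      by_contra h3
      push Not at h3
      have h4 := hcon n h3
      have h5 := (Finset.mem_Ico.1 hn).1
      omega
    rw [C01_ip_card]
    exact_mod_cast h2.le
  have h2 : ∑ n ∈ Finset.Ico N (2 * N), w n * ∑ i, ip (a i) (b i) n =
      ∑ i, ∑ n ∈ Finset.Ico N (2 * N), w n * ip (a i) (b i) n := by
    rw [Finset.sum_comm]
    refine Finset.sum_congr rfl fun n _ => ?_
    rw [Finset.mul_sum]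
  have h3 : (Fintype.card I : ℝ) * α ≤
      ∑ i, ∑ n ∈ Finset.Ico N (2 * N), w n * ip (a i) (b i) n := by
    have h4 : ∑ _i : I, α ≤ ∑ i, ∑ n ∈ Finset.Ico N (2 * N), w n * ip (a i) (b i) n :=
      Finset.sum_le_sum fun i _ => hw2 i
    rwa [Finset.sum_const, nsmul_eq_mul, Finset.card_univ] at h4
  have h4 : ∑ n ∈ Finset.Ico N (2 * N), w n * (m : ℝ) ≤ m := by
    rw [← Finset.sum_mul]
    have h5 : (0 : ℝ) ≤ m := Nat.cast_nonneg m
    nlinarith
  linarith

end BVM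

end
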