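import Mathlib

/-!
# Project BVM: definitions shared by part A (Bombieri-Vinogradov) and part B (Maynard-Tao)

Part A (helper24) proves `BVM.BVInput`. Part B (helper31) deduces from it the weights
theorem and its consequences.
-/

noncomputable section

namespace BVM

open Finset

/-! ### The arithmetic input (part A) -/

/-- Chebyshev's function in an arithmetic progression, `∑ log p` over the primes `p ≤ y`,
`p ≡ a mod q`. -/
def theta (y q a : ℕ) : ℝ :=
  ∑ p ∈ (Finset.range (y + 1)).filter (fun p => p.Prime ∧ p ≡ a [MOD q]), Real.log p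

/-- Bombieri-Vinogradov at arbitrarily large scales `x`. -/
def BVInput : Prop :=
  ∀ A : ℕ, ∃ B : ℕ, ∃ C : ℝ, ∀ x₀ : ℕ, ∃ x : ℕ, x₀ ≤ x ∧ ∃ E : ℕ → ℝ,
    (∀ y ≤ x, ∀ q, 1 ≤ q → ∀ a, Nat.Coprime a q →
      |theta y q a - y / Nat.totient q| ≤ E q) ∧
    ∑ q ∈ Finset.Icc 1 ⌊Real.sqrt x / Real.log x ^ B⌋₊, E q ≤ C * x / Real.log x ^ A

/-! ### Linear forms -/

/-- An admissible family of pairwise non-proportional linear forms `a i * n + b i`. -/
structure Adm {I : Type*} (a : I → ℕ) (b : I → ℤ) : Prop where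
  pos : ∀ i, 0 < a i
  distinct : ∀ i j, i ≠ j → (a i : ℤ) * b j ≠ a j * b i
  adm : ∀ p : ℕ, p.Prime → ∃ n : ℕ, ∀ i, ¬ (p : ℤ) ∣ a i * n + b i

/-- The form `a n + b` is prime at `n`. -/
def PrimeAt (a : ℕ) (b : ℤ) (n : ℕ) : Prop := ((a : ℤ) * n + b).toNat.Prime

/-- Indicator of `PrimeAt`. -/
def ip (a : ℕ) (b : ℤ) (n : ℕ) : ℝ := by
  classical exact if PrimeAt a b n then 1 else 0

/-- The conclusion of the weights theorem for one family of forms, with constant `c` in the
pair bound. -/
def HasWeights {I : Type*} (a : I → ℕ) (b : I → ℤ) (α c : ℝ) : Prop :=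
  ∀ N₀ : ℕ, ∃ N : ℕ, N₀ ≤ N ∧ ∃ w : ℕ → ℝ, (∀ n, 0 ≤ w n) ∧
    ∑ n ∈ Finset.Ico N (2 * N), w n ≤ 1 ∧
    (∀ i, α ≤ ∑ n ∈ Finset.Ico N (2 * N), w n * ip (a i) (b i) n) ∧
    (∀ i j, i ≠ j →
      ∑ n ∈ Finset.Ico N (2 * N), w n * (ip (a i) (b i) n * ip (a j) (b j) n) ≤ c * α ^ 2)

/-- `n` for which both forms are prime: infinitely many. -/
def GoodPair {I : Type*} (a : I → ℕ) (b : I → ℤ) (i j : I) : Prop :=
  {n : ℕ | PrimeAt (a i) (b i) n ∧ PrimeAt (a j) (b j) n}.Infinite

/-! ### Configurations and tensor products of local matrices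

`ι` indexes the primes, `I` the forms, a configuration is `c : ι → Option I`. -/

section Tensor

variable {ι I : Type*} [Fintype ι] [DecidableEq ι] [Fintype I] [DecidableEq I]

/-- Product of `f p` over the primes that carry a label. -/
def wt (f : ι → ℝ) (c : ι → Option I) : ℝ := ∏ p, if c p = none then 1 else f p

/-- Tensor product of the local matrices `M p`, applied to the vector `f`. -/
def TA (M : ι → Option I → Option I → ℝ) (f : (ι → Option I) → ℝ) (c : ι → Option I) : ℝ :=
  ∑ c' : ι → Option I, (∏ p, M p (c p) (c' p)) * f c'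

/-- Quadratic form of the tensor product of the local matrices `M p`. -/
def QF (M : ι → Option I → Option I → ℝ) (f : (ι → Option I) → ℝ) : ℝ :=
  ∑ c : ι → Option I, ∑ c' : ι → Option I, (∏ p, M p (c p) (c' p)) * (f c * f c')

/-- The set of primes carrying the label `i`. -/
def part (c : ι → Option I) (i : I) : Finset ι := univ.filter (fun p => c p = some i)

/-- The set of primes carrying a label. -/
def supp (c : ι → Option I) : Finset ι := univ.filter (fun p => c p ≠ none)

end Tensor

section Kernels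

variable {I : Type*} [DecidableEq I]

/-- Upper triangular kernel. -/
def Zk (t : ℝ) : Option I → Option I → ℝ
  | none, none => 1
  | none, some _ => t
  | some i, some j => if i = j then 1 else 0
  | some _, none => 0

/-- Kernel of the local form. -/
def Bk (t : ℝ) : Option I → Option I → ℝ
  | none, none => 1
  | none, some _ => t
  | some _, none => t
  | some i, some j => if i = j then t else 0

/-- The local form in `z` coordinates. -/
def Bt (t : ℝ) : Option I → Option I → ℝ
  | none, none => 1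
  | some i, some j => t * ((if i = j then 1 else 0) - t)
  | _, _ => 0

/-- Dropping the labels in `M`. -/
def Dk (M : Finset I) : Option I → Option I → ℝ
  | none, none => 1
  | some i, some j => if i = j ∧ i ∉ M then 1 else 0
  | _, _ => 0

/-- Composite kernel. -/
def Sk (M : Finset I) (τ : ℝ) : Option I → Option I → ℝ
  | none, none => 1
  | none, some j => if j ∈ M then τ else -τ ^ 2
  | some i, some j => if i = j ∧ i ∉ M then 1 else 0
  | some _, none => 0

/-- Main part of the composite kernel. -/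
def Sk0 (M : Finset I) (τ : ℝ) : Option I → Option I → ℝ
  | none, none => 1
  | none, some j => if j ∈ M then τ else 0
  | some i, some j => if i = j ∧ i ∉ M then 1 else 0
  | some _, none => 0

end Kernels

section Cfg

variable {ι I : Type*}

/-- `c` carries no label from `M`. -/
def NoLab (M : Finset I) (c : ι → Option I) : Prop := ∀ p, ∀ j ∈ M, c p ≠ some j

/-- `c` is a subconfiguration of `c'`. -/
def SubC (c c' : ι → Option I) : Prop := ∀ p, c p = none ∨ c p = c' p

/-- Overlay: keep `c` where it carries a label, use `e` elsewhere. -/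
def jn (c e : ι → Option I) : ι → Option I := fun p => if (c p).isSome then c p else e p

/-- Product of the sizes over a finite set. -/
def sz (ν : ι → ℝ) (A : Finset ι) : ℝ := ∏ p ∈ A, ν p

end Cfg

section Weights

variable {ι I : Type*} [Fintype ι] [DecidableEq ι] [Fintype I] [DecidableEq I]

/-- The Maynard function: product of `h` over the labels, cut off at total size `R`. -/
def yh (h : ℝ → ℝ) (ν : ι → ℝ) (R : ℝ) (c : ι → Option I) : ℝ :=
  if sz ν (supp c) ≤ R then ∏ i, h (sz ν (part c i)) else 0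

/-- The transformed coefficients `z`. -/
def zc (τ : ι → ℝ) (y : (ι → Option I) → ℝ) (c : ι → Option I) : ℝ :=
  wt (fun p => -(1 + τ p)) c * y c

/-- The sieve coefficients `λ = Z_{-t} z`, with `t = τ / (1 + τ)`. -/
def lam (τ : ι → ℝ) (y : (ι → Option I) → ℝ) : (ι → Option I) → ℝ :=
  TA (fun p => Zk (-(τ p / (1 + τ p)))) (zc τ y)

/-- Sum of `∏ τ` over the finite sets of size at most `Y` disjoint from `S`. -/
def GS (τ ν : ι → ℝ) (Y : ℝ) (S : Finset ι) : ℝ :=
  ∑ A ∈ (univ : Finset (Finset ι)).filter (fun A => Disjoint A S ∧ sz ν A ≤ Y), ∏ p ∈ A, τ p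

/-- One-dimensional sums `∑_A τ(A) H(A)`. -/
def S1 (τ : ι → ℝ) (H : Finset ι → ℝ) : ℝ := ∑ A : Finset ι, (∏ p ∈ A, τ p) * H A

/-- Erase the label `m` from a configuration. -/
def er (m : I) (c : ι → Option I) : ι → Option I := fun p => if c p = some m then none else c p

/-- Selberg extension in `z` coordinates: `zs` is a function on configurations without the
label `m`. -/
def zext (τ ν : ι → ℝ) (Y : ℝ) (m : I) (zs : (ι → Option I) → ℝ) (c : ι → Option I) : ℝ :=
  if sz ν (part c m) ≤ Y then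
    zs (er m c) * (-1) ^ (part c m).card / GS τ ν Y (supp (er m c)) else 0

end Weights

/-! ### Divisibility -/

/-- The primes in `(D, Y]`. -/
def Ps (D Y : ℕ) : Finset ℕ := (Finset.range (Y + 1)).filter (fun p => p.Prime ∧ D < p)

/-- Product of the primes up to `D`. -/
def Wd (D : ℕ) : ℕ := ∏ p ∈ (Finset.range (D + 1)).filter Nat.Prime, p

/-- The primes above `D` do not divide the coefficients and the resultants. -/
def Sep {I : Type*} (D : ℕ) (a : I → ℕ) (b : I → ℤ) : Prop :=
  (∀ p : ℕ, p.Prime → D < p → ∀ i, ¬ p ∣ a i) ∧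
  (∀ p : ℕ, p.Prime → D < p → ∀ i j, i ≠ j → ¬ (p : ℤ) ∣ a i * b j - a j * b i)

/-- `n` satisfies the divisibility conditions of the configuration `c`. -/
def Dv {I : Type*} {D Y : ℕ} (a : I → ℕ) (b : I → ℤ) (c : ↥(Ps D Y) → Option I) (n : ℕ) :
    Prop := ∀ p : ↥(Ps D Y), ∀ i, c p = some i → ((p : ℕ) : ℤ) ∣ a i * n + b i

/-- The divisor sum `∑_c λ_c 1[c | n]`. -/
def dsum {I : Type*} [Fintype I] [DecidableEq I] {D Y : ℕ} (a : I → ℕ) (b : I → ℤ)
    (lm : (↥(Ps D Y) → Option I) → ℝ) (n : ℕ) : ℝ := by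
  classical exact ∑ c : ↥(Ps D Y) → Option I, if Dv a b c n then lm c else 0

/-- `log` on primes, `0` elsewhere. -/
def lgp (n : ℕ) : ℝ := if n.Prime then Real.log n else 0

/-- Size and weight functions for the primes in `(D, Y]`. -/
def nuP {D Y : ℕ} (p : ↥(Ps D Y)) : ℝ := ((p : ℕ) : ℝ)

/-- `1/(p-1)`. -/
def tauP {D Y : ℕ} (p : ↥(Ps D Y)) : ℝ := 1 / (((p : ℕ) : ℝ) - 1)

/-- The one-dimensional sum `∑_{r ≤ y, (r, W) = 1} μ²(r)/φ(r)`. -/
def GW (D : ℕ) (y : ℝ) : ℝ :=
  ∑ r ∈ (Finset.Icc 1 ⌊y⌋₊).filter (fun r => Squarefree r ∧ Nat.Coprime r (Wd D)),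
    (1 : ℝ) / Nat.totient r

end BVM

end
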