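import Pool.Agent.helper31.BVM.Defs
import Mathlib.Analysis.Matrix.Order

/-!
# BVM-T04: the tensor inequalities

Let `k = card I`, `0 ≤ t p` and `k t p ≤ 1`. Then in the order of quadratic forms
`⊗ diag(1, t(1 - k t)) ≤ ⊗ Bt t ≤ ⊗ diag(1, t)`.

PROOF. Local facts, for one `t` with `0 ≤ t`, `k t ≤ 1`, on vectors `x : Option I → ℝ`:
`Bt t (x,x) = x_0^2 + t (∑ x_i^2 - t (∑ x_i)^2)` and `(∑ x_i)^2 ≤ k ∑ x_i^2`, so with
`U x y = if x = y then (if x = none then 1 else t) else 0` and
`L x y = if x = y then (if x = none then 1 else t (1 - k t)) else 0` the three matrices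
`L`, `Bt t - L`, `U - Bt t` are positive semidefinite (symmetric). Hence so are `Bt t`, `U`.

Tensor step. Say that a family of matrices `M p : Option I → Option I → ℝ` is given. If all `M p` are
positive semidefinite then `K c c' = ∏_p M p (c p) (c' p)` is positive semidefinite as a matrix
indexed by `ι → Option I`: for a Finset `S` of primes the matrix `∏_{p ∈ S} M p (c p) (c' p)` is
positive semidefinite by induction on `S`: the step is the Hadamard product with the matrix
`(c, c') ↦ M p (c p) (c' p)`, a `submatrix` of `M p` (`Matrix.PosSemidef.submatrix`), and the Schur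
product theorem `Matrix.PosSemidef.hadamard` (Mathlib/Analysis/Matrix/Order.lean).
Upper bound: for a Finset `S` let `M^S p = U p` for `p ∈ S` and `Bt (t p)` for `p ∉ S`. For `p ∉ S`,
`∏ M^(S ∪ p) - ∏ M^S` is the tensor product with factor `U p - Bt (t p)` at `p` and the same factors
elsewhere, so it is positive semidefinite; by induction on `S`, `QF (Bt t) f ≤ QF U f`, and
`QF U f = ∑_c wt t c * f c ^ 2` since `∏_p U p (c p) (c' p)` vanishes unless `c = c'`.
The lower bound is the same with `L` in place of `U` (signs reversed).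
(If you prefer to avoid the matrix API: write each positive semidefinite local matrix as
`∑_e α_e v_e(x) v_e(y)`, `α_e ≥ 0`, and use `sum_prod_cfg`-type identities.)
-/

noncomputable section

namespace BVM

open Finset

variable {ι I : Type*} [Fintype ι] [DecidableEq ι] [Fintype I] [DecidableEq I]

/-- general local matrix -/
private def PP (α β γ : ℝ) : Option I → Option I → ℝ
  | none, none => α
  | some i, some j => (if i = j then β else 0) + γ
  | _, _ => 0

private theorem PP_psd {α β γ : ℝ} (hα : 0 ≤ α) (hβ : 0 ≤ β)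
    (hγ : 0 ≤ β + (Fintype.card I : ℝ) * γ) :
    (Matrix.of (PP (I := I) α β γ)).PosSemidef := by
  apply Matrix.PosSemidef.of_dotProduct_mulVec_nonneg
  · ext x y
    rw [Matrix.conjTranspose_apply]
    cases x <;> cases y <;> simp [PP, eq_comm]
  · intro x
    have h : star x ⬝ᵥ (Matrix.of (PP (I := I) α β γ)).mulVec x
        = α * x none ^ 2 + (β * ∑ i, x (some i) ^ 2 + γ * (∑ i, x (some i)) ^ 2) := by
      simp only [dotProduct, Matrix.mulVec, Fintype.sum_option, Matrix.of_apply, PP, star_trivial,
        zero_mul, sum_const_zero, add_zero, zero_add]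
      have h1 : ∀ i : I, ∑ j : I, ((if i = j then β else 0) + γ) * x (some j)
          = β * x (some i) + γ * ∑ j, x (some j) := by
        intro i
        simp only [add_mul, sum_add_distrib, ite_mul, zero_mul, Finset.sum_ite_eq,
          Finset.mem_univ, if_true, mul_sum]
      simp only [h1, mul_add, sum_add_distrib]
      have h2 : ∑ i : I, x (some i) * (β * x (some i)) = β * ∑ i, x (some i) ^ 2 := by
        rw [mul_sum]
        exact sum_congr rfl (fun i _ => by ring)
      have h3 : ∑ i : I, x (some i) * (γ * ∑ j, x (some j)) = γ * (∑ i, x (some i)) ^ 2 := by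
        rw [← sum_mul]
        ring
      rw [h2, h3]
      ring
    rw [h]
    have h1 : 0 ≤ α * x none ^ 2 := by positivity
    have h2 : 0 ≤ ∑ i, x (some i) ^ 2 := sum_nonneg (fun i _ => sq_nonneg _)
    have h3 : (∑ i, x (some i)) ^ 2 ≤ (Fintype.card I : ℝ) * ∑ i, x (some i) ^ 2 := by
      have := sq_sum_le_card_mul_sum_sq (s := (univ : Finset I)) (f := fun i => x (some i))
      simpa using this
    have h4 : 0 ≤ (∑ i, x (some i)) ^ 2 := sq_nonneg _
    rcases le_total 0 γ with hg | hg
    · positivity
    · have h5 : γ * ((Fintype.card I : ℝ) * ∑ i, x (some i) ^ 2) ≤ γ * (∑ i, x (some i)) ^ 2 :=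
        mul_le_mul_of_nonpos_left h3 hg
      have h6 : 0 ≤ (β + (Fintype.card I : ℝ) * γ) * ∑ i, x (some i) ^ 2 := mul_nonneg hγ h2
      nlinarith

/-- partial tensor product as a matrix -/
private def KK (M : ι → Option I → Option I → ℝ) (S : Finset ι) :
    Matrix (ι → Option I) (ι → Option I) ℝ :=
  Matrix.of (fun c c' => ∏ p ∈ S, M p (c p) (c' p))

private theorem KK_insert (M : ι → Option I → Option I → ℝ) (S : Finset ι) (p : ι) (hp : p ∉ S) :
    KK M (insert p S) = Matrix.hadamard
      ((Matrix.of (M p)).submatrix (fun c : ι → Option I => c p) (fun c => c p)) (KK M S) := by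
  ext c c'
  simp [KK, Matrix.hadamard_apply, prod_insert hp]

private theorem KK_psd (M : ι → Option I → Option I → ℝ)
    (hM : ∀ p, (Matrix.of (M p)).PosSemidef) (S : Finset ι) : (KK M S).PosSemidef := by
  induction S using Finset.induction_on with
  | empty =>
    have h : KK M ∅ = Matrix.of (fun _ _ : ι → Option I => (1 : ℝ)) := by
      ext c c'
      simp [KK]
    rw [h]
    apply Matrix.PosSemidef.of_dotProduct_mulVec_nonneg
    · ext c c'
      simp
    · intro x
      simp only [dotProduct, Matrix.mulVec, Matrix.of_apply, star_trivial, one_mul]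
      rw [← sum_mul]
      exact mul_self_nonneg _
  | insert p S hp ih =>
    rw [KK_insert M S p hp]
    exact ((hM p).submatrix _).hadamard ih

private theorem KK_sub_psd (M N : ι → Option I → Option I → ℝ)
    (hM : ∀ p, (Matrix.of (M p)).PosSemidef)
    (hN : ∀ p, (Matrix.of (N p)).PosSemidef)
    (hMN : ∀ p, (Matrix.of (N p) - Matrix.of (M p)).PosSemidef) (S : Finset ι) :
    (KK N S - KK M S).PosSemidef := by
  induction S using Finset.induction_on with
  | empty =>
    have h : KK N ∅ - KK M ∅ = 0 := by
      ext c c'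
      simp [KK]
    rw [h]
    exact Matrix.PosSemidef.zero
  | insert p S hp ih =>
    have h : KK N (insert p S) - KK M (insert p S)
        = Matrix.hadamard ((Matrix.of (N p) - Matrix.of (M p)).submatrix
            (fun c : ι → Option I => c p) (fun c => c p)) (KK N S)
          + Matrix.hadamard ((Matrix.of (M p)).submatrix
            (fun c : ι → Option I => c p) (fun c => c p)) (KK N S - KK M S) := by
      rw [KK_insert M S p hp, KK_insert N S p hp]
      ext c c'
      simp only [Matrix.sub_apply, Matrix.add_apply, Matrix.hadamard_apply,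
        Matrix.submatrix_apply]
      ring
    rw [h]
    exact (((hMN p).submatrix _).hadamard (KK_psd N hN S)).add (((hM p).submatrix _).hadamard ih)

private theorem QF_eq_KK (M : ι → Option I → Option I → ℝ) (f : (ι → Option I) → ℝ) :
    QF M f = star f ⬝ᵥ (KK M univ).mulVec f := by
  unfold QF
  simp only [dotProduct, Matrix.mulVec, KK, Matrix.of_apply, star_trivial]
  refine sum_congr rfl (fun c _ => ?_)
  rw [mul_sum]
  exact sum_congr rfl (fun c' _ => by ring)

private theorem QF_mono (M N : ι → Option I → Option I → ℝ)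
    (hM : ∀ p, (Matrix.of (M p)).PosSemidef)
    (hN : ∀ p, (Matrix.of (N p)).PosSemidef)
    (hMN : ∀ p, (Matrix.of (N p) - Matrix.of (M p)).PosSemidef) (f : (ι → Option I) → ℝ) :
    QF M f ≤ QF N f := by
  have h := (KK_sub_psd M N hM hN hMN univ).dotProduct_mulVec_nonneg f
  rw [Matrix.sub_mulVec, dotProduct_sub, ← QF_eq_KK, ← QF_eq_KK] at h
  linarith

private theorem QF_diag (g : ι → ℝ) (f : (ι → Option I) → ℝ) :
    QF (fun p => PP 1 (g p) 0) f = ∑ c, wt g c * f c ^ 2 := by
  unfold QF
  refine sum_congr rfl (fun c _ => ?_)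
  rw [sum_eq_single c]
  · have h : ∏ p, PP (I := I) 1 (g p) 0 (c p) (c p) = wt g c := by
      unfold wt
      refine prod_congr rfl (fun p _ => ?_)
      cases hc : c p <;> simp [PP]
    rw [h]
    ring
  · intro c' _ hc'
    have h : ∃ p, c p ≠ c' p := by
      by_contra hcon
      push Not at hcon
      exact hc' (funext hcon).symm
    obtain ⟨p, hp⟩ := h
    have h0 : ∏ p, PP (I := I) 1 (g p) 0 (c p) (c' p) = 0 := by
      apply prod_eq_zero (mem_univ p)
      cases h1 : c p with
      | none =>
        cases h2 : c' p with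
        | none => exact absurd (h1.trans h2.symm) hp
        | some j => simp [PP]
      | some i =>
        cases h2 : c' p with
        | none => simp [PP]
        | some j =>
          have hij : i ≠ j := by
            rintro rfl
            exact hp (h1.trans h2.symm)
          simp [PP, hij]
    rw [h0, zero_mul]
  · intro h
    exact absurd (mem_univ c) h

private theorem Bt_eq (t : ℝ) : (Bt t : Option I → Option I → ℝ) = PP 1 t (-t ^ 2) := by
  funext x y
  cases x with
  | none => cases y <;> simp [Bt, PP]
  | some i =>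
    cases y with
    | none => simp [Bt, PP]
    | some j =>
      by_cases h : i = j
      · simp [Bt, PP, h]
        ring
      · simp [Bt, PP, h]
        ring

private theorem PP_sub (α β γ α' β' γ' : ℝ) :
    Matrix.of (PP (I := I) α β γ) - Matrix.of (PP (I := I) α' β' γ')
      = Matrix.of (PP (I := I) (α - α') (β - β') (γ - γ')) := by
  ext x y
  simp only [Matrix.sub_apply, Matrix.of_apply]
  cases x with
  | none => cases y <;> simp [PP]
  | some i =>
    cases y with
    | none => simp [PP]
    | some j =>
      by_cases h : i = j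
      · simp [PP, h]
        ring
      · simp [PP, h]

theorem QF_Bt_le (t : ι → ℝ) (h0 : ∀ p, 0 ≤ t p) (h1 : ∀ p, (Fintype.card I : ℝ) * t p ≤ 1)
    (f : (ι → Option I) → ℝ) :
    QF (fun p => Bt (t p)) f ≤ ∑ c, wt t c * f c ^ 2 := by
  rw [← QF_diag]
  have hk : (0 : ℝ) ≤ (Fintype.card I : ℝ) := Nat.cast_nonneg _
  apply QF_mono
  · intro p
    rw [Bt_eq]
    refine PP_psd zero_le_one (h0 p) ?_
    nlinarith [h0 p, h1 p]
  · intro p
    refine PP_psd zero_le_one (h0 p) ?_
    nlinarith [h0 p, h1 p]
  · intro p
    rw [Bt_eq, PP_sub]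
    refine PP_psd (by norm_num) (by norm_num) ?_
    have : 0 ≤ (t p) ^ 2 := sq_nonneg _
    have h2 : 0 ≤ (Fintype.card I : ℝ) * (t p) ^ 2 := by positivity
    linarith

theorem QF_Bt_ge (t : ι → ℝ) (h0 : ∀ p, 0 ≤ t p) (h1 : ∀ p, (Fintype.card I : ℝ) * t p ≤ 1)
    (f : (ι → Option I) → ℝ) :
    ∑ c, wt (fun p => t p * (1 - (Fintype.card I : ℝ) * t p)) c * f c ^ 2 ≤
      QF (fun p => Bt (t p)) f := by
  rw [← QF_diag]
  have hk : (0 : ℝ) ≤ (Fintype.card I : ℝ) := Nat.cast_nonneg _
  have hβ : ∀ p, 0 ≤ t p * (1 - (Fintype.card I : ℝ) * t p) := fun p =>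
    mul_nonneg (h0 p) (by linarith [h1 p])
  apply QF_mono
  · intro p
    refine PP_psd zero_le_one (hβ p) ?_
    simpa using hβ p
  · intro p
    rw [Bt_eq]
    refine PP_psd zero_le_one (h0 p) ?_
    nlinarith [h0 p, h1 p]
  · intro p
    rw [Bt_eq, PP_sub]
    have h2 : 0 ≤ (Fintype.card I : ℝ) * (t p) ^ 2 := by positivity
    refine PP_psd (by norm_num) (by nlinarith) (by nlinarith)

end BVM

end
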