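import Pool.Agent.helper31.BVM.Defs

/-!
# BVM-T08: splitting off one label

Every configuration `c` is uniquely `c0` (no label `m`) together with the set `U = part c m`,
disjoint from `supp c0`: `c p = some m` on `U` and `c p = c0 p` off `U`.

PROOF. Use `Finset.sum_bij'` (or `Finset.sum_sigma'` first): forward `c ↦ (er m c, part c m)`,
backward `(c0, U) ↦ fun p => if p ∈ U then some m else c0 p`.
-/

noncomputable section

namespace BVM

open Finset

variable {ι I : Type*} [Fintype ι] [DecidableEq ι] [Fintype I] [DecidableEq I]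

/-- Put the label `m` on the set `U`. -/
def ins (m : I) (U : Finset ι) (c : ι → Option I) : ι → Option I :=
  fun p => if p ∈ U then some m else c p

private theorem t08_none {U : Finset ι} {c : ι → Option I} (hU : Disjoint U (supp c)) {p : ι}
    (hp : p ∈ U) : c p = none := by
  by_contra h
  exact Finset.disjoint_left.mp hU hp (by simp [supp, h])

theorem er_ins (m : I) (U : Finset ι) (c : ι → Option I) (hc : NoLab {m} c)
    (hU : Disjoint U (supp c)) : er m (ins m U c) = c := by
  funext p
  unfold er ins
  by_cases hp : p ∈ U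
  · simp [hp, t08_none hU hp]
  · have := hc p m (by simp)
    simp [hp, this]

theorem part_ins (m : I) (U : Finset ι) (c : ι → Option I) (hc : NoLab {m} c) :
    part (ins m U c) m = U := by
  ext p
  have := hc p m (by simp)
  by_cases hp : p ∈ U
  · simp [part, ins, hp]
  · simp [part, ins, hp, this]

theorem part_ins_ne (m i : I) (hi : i ≠ m) (U : Finset ι) (c : ι → Option I)
    (hU : Disjoint U (supp c)) : part (ins m U c) i = part c i := by
  ext p
  by_cases hp : p ∈ U
  · simp [part, ins, hp, t08_none hU hp, Ne.symm hi]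
  · simp [part, ins, hp]

theorem supp_ins (m : I) (U : Finset ι) (c : ι → Option I) :
    supp (ins m U c) = U ∪ supp c := by
  ext p
  by_cases hp : p ∈ U
  · simp [supp, ins, hp]
  · simp [supp, ins, hp]

theorem noLab_er (m : I) (c : ι → Option I) : NoLab {m} (er m c) := by
  intro p j hj
  rw [Finset.mem_singleton] at hj
  subst hj
  unfold er
  split_ifs with h
  · simp
  · exact h

theorem wt_ins (f : ι → ℝ) (m : I) (U : Finset ι) (c : ι → Option I)
    (hU : Disjoint U (supp c)) : wt f (ins m U c) = (∏ p ∈ U, f p) * wt f c := by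
  have h1 : ∀ p : ι, (if ins m U c p = none then (1 : ℝ) else f p) =
      (if p ∈ U then f p else 1) * (if c p = none then 1 else f p) := by
    intro p
    by_cases hp : p ∈ U
    · simp [ins, hp, t08_none hU hp]
    · simp [ins, hp]
  unfold wt
  rw [Finset.prod_congr rfl (fun p _ => h1 p), Finset.prod_mul_distrib, Finset.prod_ite_mem,
    Finset.univ_inter]

theorem wt_eq_prod_supp (f : ι → ℝ) (c : ι → Option I) : wt f c = ∏ p ∈ supp c, f p := by
  unfold wt supp
  rw [Finset.prod_filter]
  apply Finset.prod_congr rfl
  intro p _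
  by_cases h : c p = none <;> simp [h]

theorem wt_eq_prod_part (f : ι → ℝ) (c : ι → Option I) :
    wt f c = ∏ i, ∏ p ∈ part c i, f p := by
  have h1 : ∀ i : I, ∏ p ∈ part c i, f p = ∏ p, (if c p = some i then f p else 1) := by
    intro i
    unfold part
    rw [Finset.prod_filter]
  rw [Finset.prod_congr rfl (fun i _ => h1 i), Finset.prod_comm]
  unfold wt
  apply Finset.prod_congr rfl
  intro p _
  rcases hcp : c p with _ | j
  · simp
  · simp

theorem sz_supp_eq (ν : ι → ℝ) (c : ι → Option I) : sz ν (supp c) = ∏ i, sz ν (part c i) := by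
  unfold sz
  rw [← wt_eq_prod_supp, wt_eq_prod_part]

open Classical in
theorem sum_split_label (m : I) (F : (ι → Option I) → ℝ) :
    ∑ c, F c = ∑ c ∈ univ.filter (fun c : ι → Option I => NoLab {m} c),
      ∑ U ∈ univ.filter (fun U : Finset ι => Disjoint U (supp c)), F (ins m U c) := by
  rw [Finset.sum_sigma']
  symm
  apply Finset.sum_bij' (i := fun (x : (_ : ι → Option I) × Finset ι) _ => ins m x.2 x.1)
    (j := fun c _ => (⟨er m c, part c m⟩ : (_ : ι → Option I) × Finset ι))
  · intro x _
    exact Finset.mem_univ _
  · intro c _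
    rw [Finset.mem_sigma]
    refine ⟨?_, ?_⟩
    · rw [Finset.mem_filter]
      exact ⟨Finset.mem_univ _, noLab_er m c⟩
    · rw [Finset.mem_filter]
      refine ⟨Finset.mem_univ _, ?_⟩
      rw [Finset.disjoint_left]
      intro p hp hp'
      simp only [part, Finset.mem_filter, Finset.mem_univ, true_and] at hp
      simp [supp, er, hp] at hp'
  · rintro ⟨c, U⟩ hx
    rw [Finset.mem_sigma, Finset.mem_filter, Finset.mem_filter] at hx
    obtain ⟨⟨_, hc⟩, ⟨_, hU⟩⟩ := hx
    simp only at hc hU ⊢
    rw [er_ins m U c hc hU, part_ins m U c hc]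
  · intro c _
    funext p
    by_cases hp : c p = some m
    · simp [ins, part, er, hp]
    · simp [ins, part, er, hp]
  · intro x _
    rfl

end BVM

end
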