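import Pool.Agent.helper31.BVM.Defs

/-!
# BVM-V01: configurations as tuples of disjoint sets

Proofs by helper11.

The map `c ↦ (i ↦ part c i)` is a bijection from configurations onto the pairwise disjoint tuples
`f : I → Finset ι` (inverse: `p ↦ some i` if `p ∈ f i` for some, necessarily unique, `i`, else
`none`). PROOF of `sum_cfg_eq_sum_tuple`: `Finset.sum_bij`/`Finset.sum_nbij` with this map;
injectivity: `part c = part c'` gives `c p = some i ↔ c' p = some i` for all `p`, `i`.
PROOF of `sum_cfg_prod_le`: by it the left side is the sum of `∏ i, F i (f i)` over pairwise disjoint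
tuples, at most the sum over all tuples (`F ≥ 0`), which is `∏ i, ∑ A, F i A`
(`Finset.prod_univ_sum`, `Fintype.piFinset_univ`).
-/

noncomputable section

namespace BVM

open Finset

variable {ι I : Type*} [Fintype ι] [DecidableEq ι] [Fintype I] [DecidableEq I]

omit [DecidableEq ι] [Fintype I] in
private theorem V01_mem_part {c : ι → Option I} {i : I} {p : ι} :
    p ∈ part c i ↔ c p = some i := by
  simp [part]

open Classical in
theorem sum_cfg_eq_sum_tuple (Φ : (I → Finset ι) → ℝ) :
    ∑ c : ι → Option I, Φ (part c) =
      ∑ f ∈ univ.filter (fun f : I → Finset ι => ∀ i j, i ≠ j → Disjoint (f i) (f j)), Φ f := by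
  refine Finset.sum_bij (fun c _ => part c) ?_ ?_ ?_ ?_
  · intro c _
    rw [Finset.mem_filter]
    refine ⟨Finset.mem_univ _, fun i j hij => ?_⟩
    rw [Finset.disjoint_left]
    intro p h1 h2
    rw [V01_mem_part] at h1 h2
    rw [h1] at h2
    exact hij (Option.some.inj h2)
  · intro c _ c' _ h
    have h' : ∀ i p, c p = some i ↔ c' p = some i := by
      intro i p
      rw [← V01_mem_part, ← V01_mem_part, congrFun h i]
    funext p
    cases hc : c p with
    | none =>
      cases hc' : c' p with
      | none => rfl
      | some i =>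
        have := (h' i p).2 hc'
        rw [hc] at this
        exact absurd this (by simp)
    | some i => exact ((h' i p).1 hc).symm
  · intro f hf
    rw [Finset.mem_filter] at hf
    refine ⟨fun p => if h : ∃ i, p ∈ f i then some h.choose else none, Finset.mem_univ _, ?_⟩
    funext i
    ext p
    rw [V01_mem_part]
    constructor
    · intro h
      by_cases hp : ∃ i, p ∈ f i
      · rw [dif_pos hp] at h
        have h1 := hp.choose_spec
        rw [Option.some.inj h] at h1
        exact h1
      · rw [dif_neg hp] at h
        exact absurd h (by simp)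
    · intro h
      have hp : ∃ i, p ∈ f i := ⟨i, h⟩
      rw [dif_pos hp]
      congr 1
      by_contra hne
      exact Finset.disjoint_left.1 (hf.2 _ _ hne) hp.choose_spec h
  · intro c _
    rfl

theorem sum_cfg_prod_le (F : I → Finset ι → ℝ) (hF : ∀ i A, 0 ≤ F i A) :
    ∑ c : ι → Option I, ∏ i, F i (part c i) ≤ ∏ i, ∑ A : Finset ι, F i A := by
  classical
  rw [sum_cfg_eq_sum_tuple (fun f => ∏ i, F i (f i)), Finset.prod_univ_sum,
    Fintype.piFinset_univ]
  exact Finset.sum_le_univ_sum_of_nonneg (fun f => Finset.prod_nonneg fun i _ => hF i _)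

/-- Labels restricted to `M`: only the factors in `M` matter. -/
theorem sum_cfg_prod_le_of_labels (M : Finset I) (F : Finset ι → ℝ) (hF : ∀ A, 0 ≤ F A)
    (S : Finset (ι → Option I)) (hS : ∀ c ∈ S, ∀ p j, c p = some j → j ∈ M) :
    ∑ c ∈ S, ∏ i ∈ M, F (part c i) ≤ (∑ A : Finset ι, F A) ^ M.card := by
  classical
  set G : I → Finset ι → ℝ := fun i A => if i ∈ M then F A else (if A = ∅ then 1 else 0) with hG
  have hG0 : ∀ i A, 0 ≤ G i A := by
    intro i A
    simp only [hG]
    split_ifs
    · exact hF A
    · exact zero_le_one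
    · exact le_rfl
  have h1 : ∀ c ∈ S, ∏ i ∈ M, F (part c i) = ∏ i, G i (part c i) := by
    intro c hc
    rw [← Finset.prod_subset (Finset.subset_univ M)]
    · apply Finset.prod_congr rfl
      intro i hi
      simp only [hG, if_pos hi]
    · intro i _ hi
      have hpe : part c i = ∅ := by
        rw [Finset.eq_empty_iff_forall_notMem]
        intro p hp
        rw [V01_mem_part] at hp
        exact hi (hS c hc p i hp)
      simp only [hG, if_neg hi, hpe, if_true]
  rw [Finset.sum_congr rfl h1]
  have h2 : ∑ c ∈ S, ∏ i, G i (part c i) ≤ ∑ c : ι → Option I, ∏ i, G i (part c i) :=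
    Finset.sum_le_univ_sum_of_nonneg (fun c => Finset.prod_nonneg fun i _ => hG0 i _)
  refine h2.trans ((sum_cfg_prod_le G hG0).trans (le_of_eq ?_))
  rw [← Finset.prod_subset (Finset.subset_univ M)]
  · rw [← Finset.prod_const]
    apply Finset.prod_congr rfl
    intro i hi
    simp only [hG, if_pos hi]
  · intro i _ hi
    simp only [hG, if_neg hi]
    rw [Finset.sum_ite_eq']
    simp

end BVM

end
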