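import Pool.Agent.helper31.BVM.T03
import Pool.Agent.helper31.BVM.T04
import Pool.Agent.helper31.BVM.V01
import Pool.Agent.helper31.BVM.T08

/-!
# BVM-V04: the form for all integers, upper bound (author: helper59)

PROOF. `QF_Bk_le`, `QF_Bk_ge`: `QF_Bk_eq` (T03) and `QF_Bt_le`, `QF_Bt_ge` (T04).
`QF_upper`: with `t = τ/(1+τ)` (`0 ≤ t`, `k t ≤ k τ ≤ 1`), `TA (Zk t) (lam τ y) = zc τ y` by
`TA_Zk_inv` (T02), so `QF ≤ ∑_c wt t c * (wt (-(1+τ)) c * y c)^2 = ∑_c wt (τ(1+τ)) c * y c ^ 2`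
(prime by prime `t (1+τ)^2 = τ (1+τ)`). Here `y c ^ 2 ≤ ∏_i h (sz ν (part c i)) ^ 2` (drop the cut-off)
and `wt f c = ∏_i ∏_{p ∈ part c i} f p` (`wt_eq_prod_part`, T08). Then `sum_cfg_prod_le` (V01) with
`F i A = (∏_{p∈A} τ p (1+τ p)) * h (sz ν A) ^ 2`, and `Finset.prod_const`, `Finset.card_univ`.
-/

noncomputable section

namespace BVM

open Finset

variable {ι I : Type*} [Fintype ι] [DecidableEq ι] [Fintype I] [DecidableEq I]

private theorem V04_wt_mul (f g : ι → ℝ) (c : ι → Option I) :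
    wt f c * wt g c = wt (fun p => f p * g p) c := by
  unfold wt
  rw [← Finset.prod_mul_distrib]
  refine Finset.prod_congr rfl fun p _ => ?_
  split_ifs
  · rw [mul_one]
  · rfl

private theorem V04_sz_mono (ν : ι → ℝ) (hν : ∀ p, 1 ≤ ν p) {A B : Finset ι} (h : A ⊆ B) :
    sz ν A ≤ sz ν B := by
  unfold sz
  have h1 : (1 : ℝ) ≤ ∏ p ∈ B \ A, ν p := by
    have := Finset.prod_le_prod (s := B \ A) (f := fun _ => (1 : ℝ)) (g := ν)
      (fun _ _ => zero_le_one) (fun p _ => hν p)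
    simpa using this
  rw [← Finset.prod_sdiff h]
  exact le_mul_of_one_le_left (Finset.prod_nonneg fun p _ => by linarith [hν p]) h1

theorem QF_Bk_le (t : ι → ℝ) (h0 : ∀ p, 0 ≤ t p) (h1 : ∀ p, (Fintype.card I : ℝ) * t p ≤ 1)
    (f : (ι → Option I) → ℝ) :
    QF (fun p => Bk (t p)) f ≤ ∑ c, wt t c * TA (fun p => Zk (t p)) f c ^ 2 := by
  rw [QF_Bk_eq]
  exact QF_Bt_le t h0 h1 _

theorem QF_Bk_ge (t : ι → ℝ) (h0 : ∀ p, 0 ≤ t p) (h1 : ∀ p, (Fintype.card I : ℝ) * t p ≤ 1)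
    (f : (ι → Option I) → ℝ) :
    ∑ c, wt (fun p => t p * (1 - (Fintype.card I : ℝ) * t p)) c *
      TA (fun p => Zk (t p)) f c ^ 2 ≤ QF (fun p => Bk (t p)) f := by
  rw [QF_Bk_eq]
  exact QF_Bt_ge t h0 h1 _

theorem yh_nonneg (h : ℝ → ℝ) (hh : ∀ x, 0 ≤ h x) (ν : ι → ℝ) (R : ℝ) (c : ι → Option I) :
    0 ≤ yh h ν R c := by
  unfold yh
  split_ifs
  · exact Finset.prod_nonneg fun i _ => hh _
  · exact le_rfl

theorem yh_mono (h : ℝ → ℝ) (hh : ∀ x, 0 ≤ h x) (ha : Antitone h) (ν : ι → ℝ)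
    (hν : ∀ p, 1 ≤ ν p) (R : ℝ) (c c' : ι → Option I) (hs : SubC c c') :
    yh h ν R c' ≤ yh h ν R c := by
  have hsupp : supp c ⊆ supp c' := by
    intro p hp
    simp only [supp, Finset.mem_filter, Finset.mem_univ, true_and] at hp ⊢
    rcases hs p with h1 | h1
    · exact absurd h1 hp
    · rwa [← h1]
  have hpart : ∀ i, part c i ⊆ part c' i := by
    intro i p hp
    simp only [part, Finset.mem_filter, Finset.mem_univ, true_and] at hp ⊢
    rcases hs p with h1 | h1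
    · rw [h1] at hp
      exact absurd hp (by simp)
    · rwa [← h1]
  by_cases hR : sz ν (supp c') ≤ R
  · have hR' : sz ν (supp c) ≤ R := (V04_sz_mono ν hν hsupp).trans hR
    unfold yh
    rw [if_pos hR, if_pos hR']
    exact Finset.prod_le_prod (fun i _ => hh _) fun i _ => ha (V04_sz_mono ν hν (hpart i))
  · have h1 : yh h ν R c' = 0 := by
      unfold yh
      rw [if_neg hR]
    rw [h1]
    exact yh_nonneg h hh ν R c

theorem QF_upper (τ ν : ι → ℝ) (hτ : ∀ p, 0 ≤ τ p)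
    (hk : ∀ p, (Fintype.card I : ℝ) * τ p ≤ 1) (h : ℝ → ℝ) (hh : ∀ x, 0 ≤ h x) (R : ℝ) :
    QF (fun p => Bk (τ p / (1 + τ p))) (lam τ (yh h ν R) : (ι → Option I) → ℝ) ≤
      S1 (fun p => τ p * (1 + τ p)) (fun A => h (sz ν A) ^ 2) ^ Fintype.card I := by
  have ht0 : ∀ p, 0 ≤ τ p / (1 + τ p) := fun p => by
    have := hτ p
    positivity
  have htτ : ∀ p, τ p / (1 + τ p) ≤ τ p := fun p => div_le_self (hτ p) (by linarith [hτ p])
  have ht1 : ∀ p, (Fintype.card I : ℝ) * (τ p / (1 + τ p)) ≤ 1 := fun p =>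
    (mul_le_mul_of_nonneg_left (htτ p) (Nat.cast_nonneg _)).trans (hk p)
  have h1 := QF_Bk_le (fun p => τ p / (1 + τ p)) ht0 ht1
    (lam τ (yh h ν R) : (ι → Option I) → ℝ)
  refine h1.trans ?_
  have h2 : TA (fun p => Zk (τ p / (1 + τ p))) (lam τ (yh h ν R) : (ι → Option I) → ℝ) =
      zc τ (yh h ν R) := by
    unfold lam
    exact TA_Zk_inv _ _
  rw [h2]
  have h3 : ∀ c : ι → Option I, wt (fun p => τ p / (1 + τ p)) c * zc τ (yh h ν R) c ^ 2 =
      wt (fun p => τ p * (1 + τ p)) c * yh h ν R c ^ 2 := by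
    intro c
    unfold zc
    rw [mul_pow, sq (wt (fun p => -(1 + τ p)) c), V04_wt_mul, ← mul_assoc, V04_wt_mul]
    congr 2
    funext p
    have : 1 + τ p ≠ 0 := by linarith [hτ p]
    field_simp
  have hw : ∀ c : ι → Option I, 0 ≤ wt (fun p => τ p * (1 + τ p)) c := by
    intro c
    unfold wt
    refine Finset.prod_nonneg fun p _ => ?_
    have := hτ p
    split_ifs <;> positivity
  have h4 : ∀ c : ι → Option I, wt (fun p => τ p * (1 + τ p)) c * yh h ν R c ^ 2 ≤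
      ∏ i, ((∏ p ∈ part c i, τ p * (1 + τ p)) * h (sz ν (part c i)) ^ 2) := by
    intro c
    rw [Finset.prod_mul_distrib, ← wt_eq_prod_part (fun p => τ p * (1 + τ p)) c]
    refine mul_le_mul_of_nonneg_left ?_ (hw c)
    have h5 : 0 ≤ ∏ i, h (sz ν (part c i)) := Finset.prod_nonneg fun i _ => hh _
    rw [Finset.prod_pow]
    refine pow_le_pow_left₀ (yh_nonneg h hh ν R c) ?_ 2
    unfold yh
    split_ifs
    · exact le_rfl
    · exact h5
  calc ∑ c : ι → Option I, wt (fun p => τ p / (1 + τ p)) c * zc τ (yh h ν R) c ^ 2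
      = ∑ c : ι → Option I, wt (fun p => τ p * (1 + τ p)) c * yh h ν R c ^ 2 :=
        Finset.sum_congr rfl fun c _ => h3 c
    _ ≤ ∑ c : ι → Option I,
        ∏ i, ((∏ p ∈ part c i, τ p * (1 + τ p)) * h (sz ν (part c i)) ^ 2) :=
        Finset.sum_le_sum fun c _ => h4 c
    _ ≤ ∏ _i : I, ∑ A : Finset ι, ((∏ p ∈ A, τ p * (1 + τ p)) * h (sz ν A) ^ 2) := by
        refine sum_cfg_prod_le
          (fun _ A => (∏ p ∈ A, τ p * (1 + τ p)) * h (sz ν A) ^ 2) fun i A => ?_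
        refine mul_nonneg (Finset.prod_nonneg fun p _ => ?_) (sq_nonneg _)
        have := hτ p
        positivity
    _ = S1 (fun p => τ p * (1 + τ p)) (fun A => h (sz ν A) ^ 2) ^ Fintype.card I := by
        rw [Finset.prod_const, Finset.card_univ]
        rfl

end BVM

end
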