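import Pool.Agent.helper31.BVM.Defs

/-!
# BVM-S06: manipulations of one-dimensional sums `S1 τ H = ∑_A (∏_{p∈A} τ p) H A`

PROOFS.
* `sum_mem_le`: the sets containing `p` are `insert p A`, `p ∉ A` (bijection `Finset.sum_bij` or
  `Finset.sum_image` with injectivity on sets not containing `p`), so the sum is
  `∑_{A ∌ p} F (insert p A) ≤ τ p ∑_{A ∌ p} F A ≤ τ p ∑_A F A`.
* `S1_disjoint_ge`: induction on `S`: for one prime `q`, `∑_A = ∑_{q ∉ A} + ∑_{q ∈ A}`, and
  `∑_{q ∈ A, A ∩ S = ∅} τ(A) H(A) ≤ τ q ∑_{A, q ∉ A, A ∩ S = ∅} τ(A) H(A)`, so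
  `∑_{A ∩ S = ∅} ≤ (1 + τ q) ∑_{A ∩ (insert q S) = ∅}` for `q ∉ S`.
* `S1_compare`: `∏_{p∈A} ω p ≤ ∏_{p∈A} τ p (1 + c τ p) = τ(A) ∑_{B ⊆ A} ∏_{p∈B} c τ p`
  (`Finset.prod_add_one`/`Finset.prod_one_add`), so `S1 ω H ≤ ∑_B ∏_{p∈B} (c τ p^2)
  ∑_{A' disjoint from B} τ(A') H(A' ∪ B) ≤ ∑_B ∏_{p∈B} (c τ p^2) S1 τ H = ∏_p (1 + c τ p^2) S1 τ H`.
* `prod_one_add_le_GS`: `∏_{p∈S} (1 + τ p) = ∑_{B ⊆ S} τ(B)` and every `B ⊆ S` has size
  `sz B ≤ sz S ≤ Y`.
* `GS_disjoint_le`: `S1_disjoint_ge` with `H A = if sz ν A ≤ Y then 1 else 0`.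
-/

noncomputable section

namespace BVM

open Finset

variable {ι : Type*} [Fintype ι] [DecidableEq ι]

private theorem split_q (G : Finset ι → ℝ) (q : ι) :
    ∑ A ∈ univ.filter (fun A : Finset ι => q ∈ A), G A =
      ∑ A ∈ univ.filter (fun A : Finset ι => q ∉ A), G (insert q A) := by
  refine Finset.sum_nbij' (fun A => A.erase q) (fun A => insert q A) ?_ ?_ ?_ ?_ ?_
  · intro A _
    simp
  · intro A _
    simp
  · intro A hA
    exact Finset.insert_erase (Finset.mem_filter.1 hA).2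
  · intro A hA
    exact Finset.erase_insert (Finset.mem_filter.1 hA).2
  · intro A hA
    rw [Finset.insert_erase (Finset.mem_filter.1 hA).2]

private theorem split_q' (G : Finset ι → ℝ) (q : ι) :
    ∑ A, G A = ∑ A ∈ univ.filter (fun A : Finset ι => q ∉ A), G A +
      ∑ A ∈ univ.filter (fun A : Finset ι => q ∉ A), G (insert q A) := by
  rw [← split_q G q, add_comm]
  exact (Finset.sum_filter_add_sum_filter_not Finset.univ (fun A : Finset ι => q ∈ A) G).symm

private theorem mem_le_q (t : ℝ) (F : Finset ι → ℝ) (q : ι)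
    (h : ∀ A, q ∉ A → F (insert q A) ≤ t * F A) :
    ∑ A ∈ univ.filter (fun A : Finset ι => q ∈ A), F A ≤
      t * ∑ A ∈ univ.filter (fun A : Finset ι => q ∉ A), F A := by
  rw [split_q, Finset.mul_sum]
  exact Finset.sum_le_sum fun A hA => h A (Finset.mem_filter.1 hA).2

theorem sum_mem_le (τ : ι → ℝ) (hτ : ∀ p, 0 ≤ τ p) (F : Finset ι → ℝ) (hF : ∀ A, 0 ≤ F A)
    (hmono : ∀ p A, p ∉ A → F (insert p A) ≤ τ p * F A) (p : ι) :
    ∑ A ∈ univ.filter (fun A : Finset ι => p ∈ A), F A ≤ τ p * ∑ A, F A := by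
  refine (mem_le_q (τ p) F p (hmono p)).trans (mul_le_mul_of_nonneg_left ?_ (hτ p))
  exact Finset.sum_le_sum_of_subset_of_nonneg (Finset.filter_subset _ _) fun A _ _ => hF A

omit [Fintype ι] [DecidableEq ι] in
private theorem prod_nn (τ : ι → ℝ) (hτ : ∀ p, 0 ≤ τ p) (A : Finset ι) : 0 ≤ ∏ p ∈ A, τ p :=
  Finset.prod_nonneg fun p _ => hτ p

theorem S1_disjoint_ge (τ : ι → ℝ) (hτ : ∀ p, 0 ≤ τ p) (H : Finset ι → ℝ) (hH : ∀ A, 0 ≤ H A)
    (hanti : ∀ A B, A ⊆ B → H B ≤ H A) (S : Finset ι) :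
    S1 τ H ≤ (∏ p ∈ S, (1 + τ p)) *
      ∑ A ∈ univ.filter (fun A : Finset ι => Disjoint A S), (∏ p ∈ A, τ p) * H A := by
  induction S using Finset.induction_on with
  | empty =>
    rw [Finset.prod_empty, one_mul]
    unfold S1
    refine le_of_eq (Finset.sum_congr ?_ fun _ _ => rfl)
    rw [Finset.filter_true_of_mem]
    intro A _
    exact Finset.disjoint_empty_right A
  | insert q S hq ih =>
    set F : Finset ι → ℝ := fun A => if Disjoint A S then (∏ p ∈ A, τ p) * H A else 0 with hF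
    have e1 : ∑ A ∈ univ.filter (fun A : Finset ι => Disjoint A S), (∏ p ∈ A, τ p) * H A =
        ∑ A, F A := by
      rw [Finset.sum_filter]
    have e2 : ∑ A ∈ univ.filter (fun A : Finset ι => Disjoint A (insert q S)),
        (∏ p ∈ A, τ p) * H A = ∑ A ∈ univ.filter (fun A : Finset ι => q ∉ A), F A := by
      rw [hF, ← Finset.sum_filter, Finset.filter_filter]
      refine Finset.sum_congr ?_ fun _ _ => rfl
      refine Finset.filter_congr fun A _ => ?_
      rw [Finset.disjoint_insert_right]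
    have h1 : ∀ A, q ∉ A → F (insert q A) ≤ τ q * F A := by
      intro A hA
      by_cases hd : Disjoint A S
      · have hd' : Disjoint (insert q A) S := by
          rw [Finset.disjoint_insert_left]
          exact ⟨hq, hd⟩
        show (if Disjoint (insert q A) S then (∏ p ∈ insert q A, τ p) * H (insert q A) else 0) ≤
          τ q * (if Disjoint A S then (∏ p ∈ A, τ p) * H A else 0)
        rw [if_pos hd, if_pos hd', Finset.prod_insert hA, mul_assoc]
        exact mul_le_mul_of_nonneg_left (mul_le_mul_of_nonneg_left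
          (hanti _ _ (Finset.subset_insert q A)) (prod_nn τ hτ A)) (hτ q)
      · have hd' : ¬ Disjoint (insert q A) S := by
          rw [Finset.disjoint_insert_left]
          exact fun h => hd h.2
        show (if Disjoint (insert q A) S then (∏ p ∈ insert q A, τ p) * H (insert q A) else 0) ≤
          τ q * (if Disjoint A S then (∏ p ∈ A, τ p) * H A else 0)
        rw [if_neg hd, if_neg hd', mul_zero]
    have h2 : ∑ A, F A ≤
        (1 + τ q) * ∑ A ∈ univ.filter (fun A : Finset ι => q ∉ A), F A := by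
      have h3 := mem_le_q (τ q) F q h1
      have h4 := Finset.sum_filter_add_sum_filter_not Finset.univ (fun A : Finset ι => q ∈ A) F
      linarith
    rw [e1] at ih
    rw [e2, Finset.prod_insert hq]
    have h5 : 0 ≤ ∏ p ∈ S, (1 + τ p) :=
      Finset.prod_nonneg fun p _ => by linarith [hτ p]
    calc S1 τ H ≤ (∏ p ∈ S, (1 + τ p)) * ∑ A, F A := ih
      _ ≤ (∏ p ∈ S, (1 + τ p)) *
          ((1 + τ q) * ∑ A ∈ univ.filter (fun A : Finset ι => q ∉ A), F A) :=
        mul_le_mul_of_nonneg_left h2 h5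
      _ = (1 + τ q) * (∏ p ∈ S, (1 + τ p)) *
          ∑ A ∈ univ.filter (fun A : Finset ι => q ∉ A), F A := by ring

private theorem S1_step (σ σ' : ι → ℝ) (q : ι) (t c : ℝ) (hc : 0 ≤ c) (ht : 0 ≤ t)
    (hσ' : ∀ p, 0 ≤ σ' p)
    (hne : ∀ p, p ≠ q → σ p = σ' p) (hq' : σ' q = t) (hq : σ q ≤ t * (1 + c * t))
    (H : Finset ι → ℝ) (hH : ∀ A, 0 ≤ H A) (hanti : ∀ A B, A ⊆ B → H B ≤ H A) :
    S1 σ H ≤ (1 + c * t ^ 2) * S1 σ' H := by
  unfold S1
  rw [split_q' (fun A => (∏ p ∈ A, σ p) * H A) q, split_q' (fun A => (∏ p ∈ A, σ' p) * H A) q,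
    ← Finset.sum_add_distrib, ← Finset.sum_add_distrib, Finset.mul_sum]
  refine Finset.sum_le_sum fun A hA => ?_
  have hqA : q ∉ A := (Finset.mem_filter.1 hA).2
  have e1 : ∏ p ∈ A, σ p = ∏ p ∈ A, σ' p :=
    Finset.prod_congr rfl fun p hp => hne p (fun h => hqA (h ▸ hp))
  rw [Finset.prod_insert hqA, Finset.prod_insert hqA, e1, hq']
  have hP : 0 ≤ ∏ p ∈ A, σ' p := prod_nn σ' hσ' A
  set P := ∏ p ∈ A, σ' p
  have h1 : 0 ≤ H A := hH A
  have h2 : 0 ≤ H (insert q A) := hH _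
  have h3 : H (insert q A) ≤ H A := hanti _ _ (Finset.subset_insert q A)
  have h4 : σ q * (P * H (insert q A)) ≤ t * (1 + c * t) * (P * H (insert q A)) :=
    mul_le_mul_of_nonneg_right hq (mul_nonneg hP h2)
  have h5 : P * H (insert q A) ≤ P * H A := mul_le_mul_of_nonneg_left h3 hP
  have h6 : c * t ^ 2 * (P * H (insert q A)) ≤ c * t ^ 2 * (P * H A) :=
    mul_le_mul_of_nonneg_left h5 (by positivity)
  have h7 : 0 ≤ c * t ^ 2 * (t * (P * H (insert q A))) := by positivity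
  calc P * H A + σ q * P * H (insert q A)
      = P * H A + σ q * (P * H (insert q A)) := by ring
    _ ≤ P * H A + t * (1 + c * t) * (P * H (insert q A)) := by linarith
    _ = P * H A + t * (P * H (insert q A)) + c * t ^ 2 * (P * H (insert q A)) := by ring
    _ ≤ P * H A + t * (P * H (insert q A)) + c * t ^ 2 * (P * H A) +
        c * t ^ 2 * (t * (P * H (insert q A))) := by linarith
    _ = (1 + c * t ^ 2) * (P * H A + t * P * H (insert q A)) := by ring

theorem S1_compare (τ ω : ι → ℝ) (c : ℝ) (hc : 0 ≤ c) (hτ : ∀ p, 0 ≤ τ p)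
    (hω0 : ∀ p, 0 ≤ ω p) (hω : ∀ p, ω p ≤ τ p * (1 + c * τ p)) (H : Finset ι → ℝ)
    (hH : ∀ A, 0 ≤ H A) (hanti : ∀ A B, A ⊆ B → H B ≤ H A) :
    S1 ω H ≤ (∏ p, (1 + c * τ p ^ 2)) * S1 τ H := by
  have key : ∀ B : Finset ι, S1 (fun p => if p ∈ B then ω p else τ p) H ≤
      (∏ p ∈ B, (1 + c * τ p ^ 2)) * S1 τ H := by
    intro B
    induction B using Finset.induction_on with
    | empty => simp
    | insert q B hq ih =>
      have h1 : S1 (fun p => if p ∈ insert q B then ω p else τ p) H ≤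
          (1 + c * τ q ^ 2) * S1 (fun p => if p ∈ B then ω p else τ p) H := by
        refine S1_step _ _ q (τ q) c hc (hτ q) ?_ ?_ ?_ ?_ H hH hanti
        · intro p
          show 0 ≤ if p ∈ B then ω p else τ p
          split_ifs
          · exact hω0 p
          · exact hτ p
        · intro p hp
          show (if p ∈ insert q B then ω p else τ p) = if p ∈ B then ω p else τ p
          have h4 : (p ∈ insert q B) = (p ∈ B) := by
            rw [Finset.mem_insert]
            exact propext ⟨fun h => h.resolve_left hp, Or.inr⟩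
          simp only [h4]
        · show (if q ∈ B then ω q else τ q) = τ q
          rw [if_neg hq]
        · show (if q ∈ insert q B then ω q else τ q) ≤ _
          rw [if_pos (Finset.mem_insert_self q B)]
          exact hω q
      rw [Finset.prod_insert hq, mul_assoc]
      exact h1.trans (mul_le_mul_of_nonneg_left ih (by positivity))
  have h1 := key Finset.univ
  simpa using h1

theorem one_le_sz (ν : ι → ℝ) (hν : ∀ p, 1 ≤ ν p) (A : Finset ι) : 1 ≤ sz ν A := by
  unfold sz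
  exact Finset.prod_induction _ (fun x => (1 : ℝ) ≤ x)
    (fun a b ha hb => one_le_mul_of_one_le_of_one_le ha hb) le_rfl (fun p _ => hν p)

theorem sz_mono (ν : ι → ℝ) (hν : ∀ p, 1 ≤ ν p) (A B : Finset ι) (h : A ⊆ B) :
    sz ν A ≤ sz ν B := by
  have h1 := one_le_sz ν hν A
  have h2 := one_le_sz ν hν (B \ A)
  have h3 : sz ν (B \ A) * sz ν A = sz ν B := Finset.prod_sdiff h
  rw [← h3]
  nlinarith

theorem prod_one_add_le_GS (τ ν : ι → ℝ) (hτ : ∀ p, 0 ≤ τ p) (hν : ∀ p, 1 ≤ ν p) (Y : ℝ)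
    (S : Finset ι) (hS : sz ν S ≤ Y) : ∏ p ∈ S, (1 + τ p) ≤ GS τ ν Y ∅ := by
  rw [Finset.prod_one_add]
  unfold GS
  refine Finset.sum_le_sum_of_subset_of_nonneg ?_ fun A _ _ => prod_nn τ hτ A
  intro B hB
  rw [Finset.mem_filter]
  exact ⟨Finset.mem_univ _, Finset.disjoint_empty_right B,
    (sz_mono ν hν B S (Finset.mem_powerset.1 hB)).trans hS⟩

theorem GS_disjoint_le (τ ν : ι → ℝ) (hτ : ∀ p, 0 ≤ τ p) (hν : ∀ p, 1 ≤ ν p) (Y : ℝ)
    (S : Finset ι) : GS τ ν Y ∅ ≤ (∏ p ∈ S, (1 + τ p)) * GS τ ν Y S := by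
  have h1 := S1_disjoint_ge τ hτ (fun A => if sz ν A ≤ Y then 1 else 0)
    (fun A => by
      show (0 : ℝ) ≤ if sz ν A ≤ Y then 1 else 0
      split_ifs
      · exact zero_le_one
      · exact le_rfl)
    (fun A B hAB => by
      show (if sz ν B ≤ Y then (1 : ℝ) else 0) ≤ if sz ν A ≤ Y then 1 else 0
      by_cases hB : sz ν B ≤ Y
      · rw [if_pos hB, if_pos ((sz_mono ν hν A B hAB).trans hB)]
      · rw [if_neg hB]
        split_ifs
        · exact zero_le_one
        · exact le_rfl) S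
  have e1 : S1 τ (fun A => if sz ν A ≤ Y then 1 else 0) = GS τ ν Y ∅ := by
    unfold S1 GS
    rw [Finset.sum_filter]
    refine Finset.sum_congr rfl fun A _ => ?_
    show (∏ p ∈ A, τ p) * (if sz ν A ≤ Y then 1 else 0) = _
    by_cases h : sz ν A ≤ Y
    · rw [if_pos h, if_pos ⟨Finset.disjoint_empty_right A, h⟩, mul_one]
    · rw [if_neg h, if_neg (fun h' => h h'.2), mul_zero]
  have e2 : ∑ A ∈ univ.filter (fun A : Finset ι => Disjoint A S),
      (∏ p ∈ A, τ p) * (if sz ν A ≤ Y then 1 else 0) = GS τ ν Y S := by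
    unfold GS
    rw [Finset.sum_filter, Finset.sum_filter]
    refine Finset.sum_congr rfl fun A _ => ?_
    by_cases hd : Disjoint A S
    · by_cases h : sz ν A ≤ Y
      · rw [if_pos hd, if_pos h, if_pos ⟨hd, h⟩, mul_one]
      · rw [if_pos hd, if_neg h, if_neg (fun h' => h h'.2), mul_zero]
    · rw [if_neg hd, if_neg (fun h' => hd h'.1)]
  rw [e1, e2] at h1
  exact h1

theorem GS_mono (τ ν : ι → ℝ) (hτ : ∀ p, 0 ≤ τ p) (Y Y' : ℝ) (h : Y ≤ Y') (S : Finset ι) :
    GS τ ν Y S ≤ GS τ ν Y' S := by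
  unfold GS
  refine Finset.sum_le_sum_of_subset_of_nonneg ?_ fun A _ _ => prod_nn τ hτ A
  intro A hA
  rw [Finset.mem_filter] at hA ⊢
  exact ⟨hA.1, hA.2.1, hA.2.2.trans h⟩

end BVM

end
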