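import Pool.Agent.helper31.BVM.T02
import Pool.Agent.helper31.BVM.V04
import Pool.Agent.helper31.BVM.S06

/-!
# BVM-V08: size of the coefficients

Notation: `G X = GS τ ν X ∅`, `k = card I`, `t = τ/(1+τ)`.

PROOFS.
`sum_wt_le`: `∑_{e : sz (supp e) ≤ X} wt τ e ≤ (G X)^k`: each part of `e` has size `≤ X`
(`sz_mono`), `wt τ e = ∏_i ∏_{p ∈ part e i} τ p`, and V01 (`sum_cfg_prod_le`) with
`F i A = if sz ν A ≤ X then ∏_{p∈A} τ p else 0`. `sum_wt_le'` is the same with the weaker hypothesis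
that every part has size `≤ X`.
`card_cfg_le`: `1 ≤ X * wt τ e` when `sz (supp e) ≤ X` as `τ p ≥ 1/ν p`. Sum over `e`.
`lam_supp`: by `TA_Zk_apply` (T02) `lam c` is a sum over `c' ⊇ c` of multiples of `yh c'`, which is `0`
if `sz (supp c') > R`, and `sz (supp c) ≤ sz (supp c')`.
`lam_bound`: `|lam c| ≤ ∑_{c' ⊇ c} ∏_{c' minus c} t * wt (1+τ) c' * yh c'`, `wt (1+τ) c' =
wt (1+τ) c ∏_{c' minus c}(1+τ)`, `t (1+τ) = τ`, `yh ≤ 1`, so for `sz (supp c) ≤ R`,
`|lam c| ≤ wt (1+τ) c * ∑_{c' ⊇ c, sz (supp c') ≤ R} ∏_{c' minus c} τ`; the first factor is `≤ G R`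
(`prod_one_add_le_GS`), the second is `≤ ∑_{e : sz (supp e) ≤ R} wt τ e` with `e = c' minus c`, i.e.
`e p = if c p = none then c' p else none` (injective in `c' ⊇ c` for fixed `c`), so `≤ (G R)^k`.
-/

noncomputable section

namespace BVM

open Finset

variable {ι I : Type*} [Fintype ι] [DecidableEq ι] [Fintype I] [DecidableEq I]

private theorem V08_GS_eq (τ ν : ι → ℝ) (X : ℝ) :
    ∑ A : Finset ι, (if sz ν A ≤ X then ∏ p ∈ A, τ p else 0) = GS τ ν X ∅ := by
  unfold GS
  rw [Finset.sum_filter]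
  refine Finset.sum_congr rfl fun A _ => ?_
  simp

private theorem V08_GS_nonneg (τ ν : ι → ℝ) (hτ : ∀ p, 0 ≤ τ p) (X : ℝ) :
    0 ≤ GS τ ν X ∅ := by
  unfold GS
  exact Finset.sum_nonneg fun A _ => Finset.prod_nonneg fun p _ => hτ p

private theorem V08_part_subset (c : ι → Option I) (i : I) : part c i ⊆ supp c := by
  intro p hp
  unfold part at hp
  unfold supp
  rw [Finset.mem_filter] at hp ⊢
  exact ⟨hp.1, by rw [hp.2]; exact Option.some_ne_none i⟩

private theorem V08_supp_mono {c c' : ι → Option I} (hs : ∀ p, c p = none ∨ c p = c' p) :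
    supp c ⊆ supp c' := by
  intro p hp
  unfold supp at hp ⊢
  rw [Finset.mem_filter] at hp ⊢
  refine ⟨hp.1, ?_⟩
  rw [← (hs p).resolve_left hp.2]
  exact hp.2

private theorem V08_main (τ ν : ι → ℝ) (hτ : ∀ p, 0 ≤ τ p) (X : ℝ) (T : Finset (ι → Option I))
    (hT : ∀ e ∈ T, ∀ i, sz ν (part e i) ≤ X) :
    ∑ e ∈ T, wt τ e ≤ GS τ ν X ∅ ^ Fintype.card I := by
  have hF : ∀ (_ : I) (A : Finset ι), 0 ≤ (if sz ν A ≤ X then ∏ p ∈ A, τ p else 0) := by
    intro _ A
    split_ifs
    · exact Finset.prod_nonneg fun p _ => hτ p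
    · exact le_rfl
  calc ∑ e ∈ T, wt τ e =
      ∑ e ∈ T, ∏ i : I, (if sz ν (part e i) ≤ X then ∏ p ∈ part e i, τ p else 0) := by
        refine Finset.sum_congr rfl fun e he => ?_
        rw [wt_eq_prod_part]
        refine Finset.prod_congr rfl fun i _ => ?_
        rw [if_pos (hT e he i)]
    _ ≤ ∑ e : ι → Option I, ∏ i : I,
          (if sz ν (part e i) ≤ X then ∏ p ∈ part e i, τ p else 0) := by
        apply Finset.sum_le_sum_of_subset_of_nonneg (Finset.subset_univ _)
        intro e _ _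
        exact Finset.prod_nonneg fun i _ => hF i _
    _ ≤ ∏ _i : I, ∑ A : Finset ι, (if sz ν A ≤ X then ∏ p ∈ A, τ p else 0) :=
        sum_cfg_prod_le (fun _ A => if sz ν A ≤ X then ∏ p ∈ A, τ p else 0) hF
    _ = GS τ ν X ∅ ^ Fintype.card I := by
        rw [Finset.prod_const, Finset.card_univ, V08_GS_eq]

private theorem V08_abs_wt (f : ι → ℝ) (c : ι → Option I) :
    |wt f c| = wt (fun p => |f p|) c := by
  unfold wt
  rw [Finset.abs_prod]
  refine Finset.prod_congr rfl fun p _ => ?_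
  split_ifs <;> simp

theorem sum_wt_le (τ ν : ι → ℝ) (hτ : ∀ p, 0 ≤ τ p) (hν : ∀ p, 1 ≤ ν p) (X : ℝ) :
    ∑ e : ι → Option I, (if sz ν (supp e) ≤ X then wt τ e else 0) ≤
      GS τ ν X ∅ ^ Fintype.card I := by
  rw [← Finset.sum_filter]
  apply V08_main τ ν hτ X
  intro e he i
  rw [Finset.mem_filter] at he
  exact (sz_mono ν hν _ _ (V08_part_subset e i)).trans he.2

theorem sum_wt_le' (τ ν : ι → ℝ) (hτ : ∀ p, 0 ≤ τ p) (X : ℝ) (T : Finset (ι → Option I))
    (hT : ∀ e ∈ T, ∀ i, sz ν (part e i) ≤ X) :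
    ∑ e ∈ T, wt τ e ≤ GS τ ν X ∅ ^ Fintype.card I := by
  exact V08_main τ ν hτ X T hT

theorem card_cfg_le (τ ν : ι → ℝ) (hν : ∀ p, 1 ≤ ν p) (hτν : ∀ p, 1 ≤ ν p * τ p)
    (X : ℝ) (hX : 0 ≤ X) :
    ∑ e : ι → Option I, (if sz ν (supp e) ≤ X then (1 : ℝ) else 0) ≤
      X * GS τ ν X ∅ ^ Fintype.card I := by
  have hτ : ∀ p, 0 ≤ τ p := by
    intro p
    by_contra hneg
    push Not at hneg
    have h1 := hν p
    have h2 := hτν p
    nlinarith
  have hwt : ∀ e : ι → Option I, 0 ≤ wt τ e := by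
    intro e
    rw [wt_eq_prod_supp]
    exact Finset.prod_nonneg fun p _ => hτ p
  have hkey : ∀ e : ι → Option I, (if sz ν (supp e) ≤ X then (1 : ℝ) else 0) ≤
      X * (if sz ν (supp e) ≤ X then wt τ e else 0) := by
    intro e
    split_ifs with hs
    · have h1 : 1 ≤ sz ν (supp e) * wt τ e := by
        rw [wt_eq_prod_supp]
        unfold sz
        rw [← Finset.prod_mul_distrib]
        have h2 : ∏ _p ∈ supp e, (1 : ℝ) ≤ ∏ p ∈ supp e, ν p * τ p :=
          Finset.prod_le_prod (fun _ _ => zero_le_one) (fun p _ => hτν p)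
        simpa using h2
      exact h1.trans (mul_le_mul_of_nonneg_right hs (hwt e))
    · simp
  calc ∑ e : ι → Option I, (if sz ν (supp e) ≤ X then (1 : ℝ) else 0) ≤
      ∑ e : ι → Option I, X * (if sz ν (supp e) ≤ X then wt τ e else 0) :=
        Finset.sum_le_sum fun e _ => hkey e
    _ = X * ∑ e : ι → Option I, (if sz ν (supp e) ≤ X then wt τ e else 0) := by
        rw [Finset.mul_sum]
    _ ≤ X * GS τ ν X ∅ ^ Fintype.card I :=
        mul_le_mul_of_nonneg_left (sum_wt_le τ ν hτ hν X) hX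

theorem lam_supp (τ ν : ι → ℝ) (hν : ∀ p, 1 ≤ ν p) (h : ℝ → ℝ) (R : ℝ) (c : ι → Option I)
    (hc : R < sz ν (supp c)) : lam τ (yh h ν R) c = 0 := by
  unfold lam
  rw [TA_Zk_apply (fun p => -(τ p / (1 + τ p)))]
  refine Finset.sum_eq_zero fun c' _ => ?_
  split_ifs with hs
  · have h1 : supp c ⊆ supp c' := V08_supp_mono hs
    have h2 : ¬ sz ν (supp c') ≤ R := by
      have := sz_mono ν hν _ _ h1
      linarith
    simp [zc, yh, h2]
  · rfl

theorem lam_bound (τ ν : ι → ℝ) (hτ : ∀ p, 0 ≤ τ p) (hν : ∀ p, 1 ≤ ν p) (h : ℝ → ℝ)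
    (hh : ∀ x, 0 ≤ h x) (hh1 : ∀ x, h x ≤ 1) (R : ℝ) (c : ι → Option I) :
    |lam τ (yh h ν R) c| ≤ GS τ ν R ∅ ^ (Fintype.card I + 1) := by
  classical
  have hG := V08_GS_nonneg τ ν hτ R
  by_cases hc : sz ν (supp c) ≤ R
  swap
  · rw [lam_supp τ ν hν h R c (not_le.1 hc), abs_zero]
    exact pow_nonneg hG _
  have h1 : wt (fun p => 1 + τ p) c ≤ GS τ ν R ∅ := by
    rw [wt_eq_prod_supp]
    exact prod_one_add_le_GS τ ν hτ hν R _ hc
  have hwt0 : 0 ≤ wt (fun p => 1 + τ p) c := by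
    rw [wt_eq_prod_supp]
    exact Finset.prod_nonneg fun p _ => by linarith [hτ p]
  set E : (ι → Option I) → (ι → Option I) := fun c' p => if c p = none then c' p else none
    with hE
  set S : Finset (ι → Option I) :=
    univ.filter (fun c' => (∀ p, c p = none ∨ c p = c' p) ∧ sz ν (supp c') ≤ R) with hS
  have h2 : |lam τ (yh h ν R) c| ≤ ∑ c' ∈ S, wt (fun p => 1 + τ p) c * wt τ (E c') := by
    unfold lam
    rw [TA_Zk_apply (fun p => -(τ p / (1 + τ p))), hS, Finset.sum_filter]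
    refine (Finset.abs_sum_le_sum_abs _ _).trans ?_
    refine Finset.sum_le_sum fun c' _ => ?_
    by_cases hs : ∀ p, c p = none ∨ c p = c' p
    · rw [if_pos hs]
      by_cases hR : sz ν (supp c') ≤ R
      · rw [if_pos ⟨hs, hR⟩]
        have hy0 : 0 ≤ yh h ν R c' := by
          unfold yh
          rw [if_pos hR]
          exact Finset.prod_nonneg fun i _ => hh _
        have hy1 : yh h ν R c' ≤ 1 := by
          unfold yh
          rw [if_pos hR]
          exact Finset.prod_le_one (fun i _ => hh _) (fun i _ => hh1 _)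
        have hid : |∏ p, (if c p = none ∧ c' p ≠ none then -(τ p / (1 + τ p)) else 1)| *
            |wt (fun p => -(1 + τ p)) c'| = wt (fun p => 1 + τ p) c * wt τ (E c') := by
          rw [V08_abs_wt, Finset.abs_prod]
          unfold wt
          rw [← Finset.prod_mul_distrib, ← Finset.prod_mul_distrib]
          refine Finset.prod_congr rfl fun p _ => ?_
          have hτp := hτ p
          have hpos : 0 < 1 + τ p := by linarith
          have ha : |-(1 + τ p)| = 1 + τ p := by rw [abs_neg, abs_of_pos hpos]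
          have hb : |-(τ p / (1 + τ p))| = τ p / (1 + τ p) := by
            rw [abs_neg, abs_of_nonneg (div_nonneg hτp hpos.le)]
          by_cases hcp : c p = none
          · by_cases hcp' : c' p = none
            · simp [hE, hcp, hcp']
            · simp only [hE, hcp, hcp', ne_eq, not_false_eq_true, and_self, if_true, if_false,
                one_mul, ha, hb]
              field_simp
          · have hcc : c' p = c p := ((hs p).resolve_left hcp).symm
            simp only [hE, hcp, hcc, ne_eq, not_false_eq_true, false_and, if_true, if_false,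
              abs_one, one_mul, mul_one, ha]
        unfold zc
        rw [abs_mul, abs_mul, ← mul_assoc, hid, abs_of_nonneg hy0]
        have hnn : 0 ≤ wt (fun p => 1 + τ p) c * wt τ (E c') := by
          rw [← hid]
          positivity
        calc _ ≤ wt (fun p => 1 + τ p) c * wt τ (E c') * 1 :=
              mul_le_mul_of_nonneg_left hy1 hnn
          _ = _ := mul_one _
      · rw [if_neg (fun hcon => hR hcon.2)]
        simp [zc, yh, hR]
    · rw [if_neg hs, if_neg (fun hcon => hs hcon.1)]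
      simp
  have hinj : Set.InjOn E (S : Set (ι → Option I)) := by
    intro c₁ h₁ c₂ h₂ h12
    rw [Finset.mem_coe, hS, Finset.mem_filter] at h₁ h₂
    funext p
    by_cases hcp : c p = none
    · have h3 := congrFun h12 p
      simpa [hE, hcp] using h3
    · rw [← (h₁.2.1 p).resolve_left hcp, ← (h₂.2.1 p).resolve_left hcp]
  have h3 : ∑ c' ∈ S, wt τ (E c') ≤ GS τ ν R ∅ ^ Fintype.card I := by
    rw [← Finset.sum_image (f := fun e => wt τ e) hinj]
    apply V08_main τ ν hτ R
    intro e he i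
    obtain ⟨c', hc', rfl⟩ := Finset.mem_image.1 he
    rw [hS, Finset.mem_filter] at hc'
    refine (sz_mono ν hν _ _ ?_).trans hc'.2.2
    intro p hp
    unfold part at hp
    unfold supp
    rw [Finset.mem_filter] at hp ⊢
    refine ⟨hp.1, ?_⟩
    have h4 := hp.2
    simp only [hE] at h4
    split_ifs at h4
    rw [h4]
    exact Option.some_ne_none i
  calc |lam τ (yh h ν R) c| ≤ ∑ c' ∈ S, wt (fun p => 1 + τ p) c * wt τ (E c') := h2
    _ = wt (fun p => 1 + τ p) c * ∑ c' ∈ S, wt τ (E c') := by rw [Finset.mul_sum]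
    _ ≤ wt (fun p => 1 + τ p) c * GS τ ν R ∅ ^ Fintype.card I :=
        mul_le_mul_of_nonneg_left h3 hwt0
    _ ≤ GS τ ν R ∅ * GS τ ν R ∅ ^ Fintype.card I :=
        mul_le_mul_of_nonneg_right h1 (pow_nonneg hG _)
    _ = GS τ ν R ∅ ^ (Fintype.card I + 1) := by ring

end BVM

end
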