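import Pool.Agent.helper31.BVM.PDef

/-!
# BVM-P09: choice of the parameters

PROOF of `params`. `(1+η)/(1/4-2η)/(1-2η)^2 → 4` as `η → 0+`, so some `η ≤ 1/100` satisfies the third
inequality. `cJ J ≥ (2/3)(1 + J/2)^2`, so `(1-2η) η^2 cJ J/(4+3J) → ∞` as `J → ∞`: choose `J` with this `≥ H`;
note `k * ((1-2η) (η²/(k(4+3J)) cJ J)) = (1-2η) η² cJ J/(4+3J)` for `k ≥ 1`. Finally
`2^J η²/(k(4+3J)) ≤ η/2` for `k ≥ 2^(J+1)`.
PROOF of `params2`. Let `ζ = η²/(k(4+3J))`, `y = 1/4 - 2η`. Then `k ζ (1+3J/4) = η²/4` and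
`η - 2^J ζ ≥ η/2`, so the last term of `brc` is `≤ η/2`. As `D → ∞`: `exp(2k/D) → 1`,
`brc → 1 - (that term) ≥ 1 - η/2`, so `lbc → ≥ (1-η/2) ζ cJ J > (1-2η) ζ cJ J`, `ubc → (ζ cJ J)²/y`. So for
large `D` and small `s > 0` all the strict inequalities persist. (`cJ J > 0`, `ζ > 0`, `y > 0`.)
-/

noncomputable section

namespace BVM

open Finset Filter

private theorem P09_half (J : ℕ) : 0 < (1 / 2 : ℝ) ^ J ∧ (1 / 2 : ℝ) ^ J ≤ 1 :=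
  ⟨by positivity, pow_le_one₀ (by norm_num) (by norm_num)⟩

theorem cJ_pos (J : ℕ) : 0 < cJ J := by
  unfold cJ
  have h := P09_half J
  have h1 : (0 : ℝ) < (3 - (1 / 2 : ℝ) ^ J) / 2 := by linarith [h.2]
  positivity

private theorem P09_cJ (J : ℕ) : (2 + (J : ℝ)) / 18 ≤ cJ J / (4 + 3 * (J : ℝ)) := by
  have h := P09_half J
  have hJ : (0 : ℝ) ≤ J := Nat.cast_nonneg J
  have h1 : (0 : ℝ) < (3 - (1 / 2 : ℝ) ^ J) / 2 := by linarith [h.2]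
  have h2 : (1 + (J : ℝ) / 2) ^ 2 / (3 / 2) ≤ cJ J := by
    unfold cJ
    exact div_le_div_of_nonneg_left (by positivity) h1 (by linarith [h.1])
  rw [le_div_iff₀ (by positivity)]
  refine le_trans ?_ h2
  rw [le_div_iff₀ (by norm_num)]
  nlinarith

theorem params (ε H : ℝ) (hε : 0 < ε) :
    ∃ (η : ℝ) (J K : ℕ), 0 < η ∧ η ≤ 1 / 100 ∧
      (1 + η) / (1 / 4 - 2 * η) ≤ (4 + ε) * (1 - 2 * η) ^ 2 ∧
      ∀ k : ℕ, K ≤ k → 1 ≤ k ∧ 2 ^ J * (η ^ 2 / (k * (4 + 3 * (J : ℝ)))) ≤ η / 2 ∧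
        H ≤ k * ((1 - 2 * η) * (η ^ 2 / (k * (4 + 3 * (J : ℝ))) * cJ J)) := by
  have hc : ContinuousAt (fun η : ℝ => (4 + ε) * (1 - 2 * η) ^ 2 - (1 + η) / (1 / 4 - 2 * η)) 0 := by
    refine ContinuousAt.sub (by fun_prop) (ContinuousAt.div (by fun_prop) (by fun_prop) (by norm_num))
  have hev : ∀ᶠ η : ℝ in nhds 0,
      0 < (4 + ε) * (1 - 2 * η) ^ 2 - (1 + η) / (1 / 4 - 2 * η) := by
    refine hc.eventually (lt_mem_nhds ?_)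
    norm_num
    linarith
  have hev2 : ∀ᶠ η : ℝ in nhdsWithin 0 (Set.Ioi 0), η ∈ Set.Ioc (0 : ℝ) (1 / 100) :=
    Ioc_mem_nhdsGT (by norm_num)
  obtain ⟨η, h1, h2⟩ := ((hev.filter_mono nhdsWithin_le_nhds).and hev2).exists
  have hη : 0 < η := h2.1
  have hη1 : η ≤ 1 / 100 := h2.2
  have hp : 0 < (1 - 2 * η) * η ^ 2 := mul_pos (by linarith) (by positivity)
  obtain ⟨J, hJ⟩ := exists_nat_ge (18 * H / ((1 - 2 * η) * η ^ 2))
  refine ⟨η, J, 2 ^ (J + 1), hη, hη1, by linarith, fun k hk => ?_⟩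
  have hk1 : 1 ≤ k := le_trans Nat.one_le_two_pow hk
  have hk0 : (0 : ℝ) < k := by exact_mod_cast hk1
  have hJ0 : (0 : ℝ) ≤ J := Nat.cast_nonneg J
  have hk2 : (2 : ℝ) ^ J * 2 ≤ k := by
    have h3 : ((2 ^ (J + 1) : ℕ) : ℝ) ≤ k := by exact_mod_cast hk
    rw [pow_succ] at h3
    push_cast at h3
    exact h3
  refine ⟨hk1, ?_, ?_⟩
  · rw [← mul_div_assoc, div_le_iff₀ (by positivity)]
    have h3 : (2 : ℝ) ^ J * η ^ 2 ≤ (k / 2) * η := by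
      have h4 : η ^ 2 ≤ η := by nlinarith
      have h5 : (2 : ℝ) ^ J ≤ k / 2 := by linarith
      exact mul_le_mul h5 h4 (by positivity) (by positivity)
    have h6 : (k / 2) * η ≤ η / 2 * (k * (4 + 3 * (J : ℝ))) := by
      have h7 : 0 ≤ η * k := by positivity
      nlinarith [mul_nonneg h7 hJ0]
    linarith
  · have h3 : (k : ℝ) * ((1 - 2 * η) * (η ^ 2 / (k * (4 + 3 * (J : ℝ))) * cJ J)) =
        (1 - 2 * η) * η ^ 2 * (cJ J / (4 + 3 * (J : ℝ))) := by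
      have h4 : (4 + 3 * (J : ℝ)) ≠ 0 := by positivity
      field_simp
    rw [h3]
    have h5 : (1 - 2 * η) * η ^ 2 * ((2 + (J : ℝ)) / 18) ≤
        (1 - 2 * η) * η ^ 2 * (cJ J / (4 + 3 * (J : ℝ))) :=
      mul_le_mul_of_nonneg_left (P09_cJ J) hp.le
    refine le_trans ?_ h5
    rw [div_le_iff₀ hp] at hJ
    nlinarith

private theorem P09_T (k J : ℕ) (hk : 1 ≤ k) (η ζ : ℝ) (hη : 0 < η)
    (hζ : ζ = η ^ 2 / (k * (4 + 3 * (J : ℝ)))) (hJ : 2 ^ J * ζ ≤ η / 2) :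
    (k : ℝ) * (ζ * (1 + 3 * (J : ℝ) / 4)) / (η - 2 ^ J * ζ) ≤ η / 2 := by
  have hk0 : (0 : ℝ) < k := by exact_mod_cast hk
  have hJ0 : (0 : ℝ) ≤ J := Nat.cast_nonneg J
  have h1 : (k : ℝ) * (ζ * (1 + 3 * (J : ℝ) / 4)) = η ^ 2 / 4 := by
    rw [hζ]
    have h4 : (4 + 3 * (J : ℝ)) ≠ 0 := by positivity
    field_simp
  rw [h1, div_le_iff₀ (by linarith)]
  nlinarith

theorem params2 (k J : ℕ) (hk : 1 ≤ k) (η ζ : ℝ) (hη : 0 < η) (hη1 : η ≤ 1 / 100)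
    (hζ : ζ = η ^ 2 / (k * (4 + 3 * (J : ℝ)))) (hJ : 2 ^ J * ζ ≤ η / 2) (D₁ : ℕ) :
    ∃ (D : ℕ) (s : ℝ), D₁ ≤ D ∧ k + 2 ≤ D ∧ 0 < s ∧ Real.exp (2 * k / D) ≤ 2 ∧
      0 < brc k D J ζ η ∧
      (1 - 2 * η) * (ζ * cJ J) * (Real.exp (2 * k / D) + s) ≤ lbc k D J ζ η - s ∧
      ubc k D J ζ (1 / 4 - 2 * η) + s ≤ (1 + η) / (1 / 4 - 2 * η) * (ζ * cJ J) ^ 2 := by
  have hk0 : (0 : ℝ) < k := by exact_mod_cast hk
  have hJ0 : (0 : ℝ) ≤ J := Nat.cast_nonneg J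
  have hζ0 : 0 < ζ := by rw [hζ]; positivity
  have hX : 0 < ζ * cJ J := mul_pos hζ0 (cJ_pos J)
  have hy : (0 : ℝ) < 1 / 4 - 2 * η := by linarith
  have hT := P09_T k J hk η ζ hη hζ hJ
  obtain ⟨T, hTd⟩ : ∃ T, (k : ℝ) * (ζ * (1 + 3 * (J : ℝ) / 4)) / (η - 2 ^ J * ζ) = T := ⟨_, rfl⟩
  rw [hTd] at hT
  obtain ⟨X, hXd⟩ : ∃ X, ζ * cJ J = X := ⟨_, rfl⟩
  rw [hXd] at hX
  have hu : Tendsto (fun D : ℕ => (1 : ℝ) / D) atTop (nhds 0) :=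
    tendsto_const_div_atTop_nhds_zero_nat 1
  -- the four functions of `u = 1 / D`
  have c1 : Continuous fun u : ℝ => Real.exp (2 * k * u) := by fun_prop
  have c2 : Continuous fun u : ℝ => 1 - ((k : ℝ) * (k + 2) + (k : ℝ) ^ 2) * (2 * u) - T := by
    fun_prop
  have c3 : Continuous fun u : ℝ =>
      (2 - Real.exp (2 * k * u)) ^ 2 * (1 - ((k : ℝ) * (k + 2) + (k : ℝ) ^ 2) * (2 * u) - T) * X -
        (1 - 2 * η) * X * Real.exp (2 * k * u) := by fun_prop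
  have c4 : Continuous fun u : ℝ =>
      (1 + η) / (1 / 4 - 2 * η) * X ^ 2 - Real.exp (18 * k * u) * X ^ 2 / (1 / 4 - 2 * η) := by
    fun_prop
  obtain ⟨A, hA⟩ : ∃ A, A = η * X / 2 := ⟨_, rfl⟩
  have hA0 : 0 < A := by rw [hA]; positivity
  obtain ⟨B, hB⟩ : ∃ B, B = η * X ^ 2 / (1 / 4 - 2 * η) / 2 := ⟨_, rfl⟩
  have hB0 : 0 < B := by rw [hB]; positivity
  have e1 : ∀ᶠ u : ℝ in nhds 0, Real.exp (2 * k * u) < 2 := by
    refine c1.continuousAt.eventually (gt_mem_nhds ?_)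
    norm_num
  have e2 : ∀ᶠ u : ℝ in nhds 0,
      0 < 1 - ((k : ℝ) * (k + 2) + (k : ℝ) ^ 2) * (2 * u) - T := by
    refine c2.continuousAt.eventually (lt_mem_nhds ?_)
    show 0 < 1 - ((k : ℝ) * (k + 2) + (k : ℝ) ^ 2) * (2 * 0) - T
    linarith
  have e3 : ∀ᶠ u : ℝ in nhds 0, A <
      (2 - Real.exp (2 * k * u)) ^ 2 * (1 - ((k : ℝ) * (k + 2) + (k : ℝ) ^ 2) * (2 * u) - T) * X -
        (1 - 2 * η) * X * Real.exp (2 * k * u) := by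
    refine c3.continuousAt.eventually (lt_mem_nhds ?_)
    show A < (2 - Real.exp (2 * k * 0)) ^ 2 *
      (1 - ((k : ℝ) * (k + 2) + (k : ℝ) ^ 2) * (2 * 0) - T) * X -
        (1 - 2 * η) * X * Real.exp (2 * k * 0)
    rw [mul_zero, Real.exp_zero, hA]
    nlinarith [mul_le_mul_of_nonneg_right hT hX.le, mul_pos hη hX]
  have e4 : ∀ᶠ u : ℝ in nhds 0, B <
      (1 + η) / (1 / 4 - 2 * η) * X ^ 2 - Real.exp (18 * k * u) * X ^ 2 / (1 / 4 - 2 * η) := by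
    refine c4.continuousAt.eventually (lt_mem_nhds ?_)
    show B < (1 + η) / (1 / 4 - 2 * η) * X ^ 2 -
      Real.exp (18 * k * 0) * X ^ 2 / (1 / 4 - 2 * η)
    rw [mul_zero, Real.exp_zero]
    have h1 : (1 + η) / (1 / 4 - 2 * η) * X ^ 2 - 1 * X ^ 2 / (1 / 4 - 2 * η) = 2 * B := by
      rw [hB]
      field_simp
      ring
    rw [h1]
    linarith
  obtain ⟨D, ⟨⟨h1, h2⟩, h3, h4⟩, h5, h6⟩ :=
    ((hu.eventually ((e1.and e2).and (e3.and e4))).and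
      ((eventually_ge_atTop D₁).and (eventually_ge_atTop (k + 2)))).exists
  have hM : 0 < (1 - 2 * η) * X + 1 := by
    have : 0 < (1 - 2 * η) * X := mul_pos (by linarith) hX
    linarith
  obtain ⟨s, hs⟩ : ∃ s, s = min (A / ((1 - 2 * η) * X + 1)) B := ⟨_, rfl⟩
  have hs0 : 0 < s := by rw [hs]; exact lt_min (div_pos hA0 hM) hB0
  have hsA : s * ((1 - 2 * η) * X + 1) ≤ A := by
    rw [← le_div_iff₀ hM, hs]
    exact min_le_left _ _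
  have hsB : s ≤ B := by rw [hs]; exact min_le_right _ _
  have q1 : 2 * (k : ℝ) / D = 2 * k * (1 / D) := by ring
  have q2 : 18 * (k : ℝ) / D = 18 * k * (1 / D) := by ring
  have q3 : brc k D J ζ η = 1 - ((k : ℝ) * (k + 2) + (k : ℝ) ^ 2) * (2 * (1 / D)) - T := by
    unfold brc
    rw [hTd]
    ring
  refine ⟨D, s, h5, h6, hs0, ?_, ?_, ?_, ?_⟩
  · rw [q1]
    exact h1.le
  · rw [q3]
    exact h2
  · unfold lbc
    rw [hXd, q1, q3]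
    nlinarith [h3, hsA]
  · unfold ubc
    rw [hXd, q2]
    linarith

end BVM

end
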