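import Pool.Agent.helper31.BVM.Defs

/-!
# BVM-X06: preparing an admissible family

PROOF. Let `D₁` be larger than all `a i` and all `|a i b j - a j b i|` (`i ≠ j`; these are nonzero by
`h.distinct`). A prime `p > D ≥ D₁` cannot divide a nonzero integer of absolute value `< p`; this is
`Sep D a b`. For `v0`: for every prime `p ≤ D` take `n_p` from `h.adm p`; by the Chinese remainder
theorem there is `v0` with `v0 ≡ n_p mod p` for all primes `p ≤ D`
(`Nat.chineseRemainderOfFinset`, or induction). If a prime `p` divides `a i * v0 + b i` and `Wd D`, then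
`p ≤ D` and `p ∣ a i * n_p + b i`, a contradiction; so the gcd is `1`
(`Int.isCoprime_iff_gcd_eq_one`, `Nat.Coprime` via `Nat.Coprime.prod_right`...).
`totient_mul_Wd`: all primes dividing `a` divide `Wd D`, hence `φ(a * W) = a * φ(W)`
(`Nat.totient_mul_of_prime_of_dvd` and induction on the prime factorisation of `a`, or the formula
`Nat.totient_eq_mul_prod_factors`).
`adm_of_injective`: for an admissible family every form is primitive (a prime dividing `a i` and
`b i` divides all values), so `a i * b j = a j * b i` with `a i, a j > 0` forces `(a i, b i) = (a j, b j)`: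
`a i ∣ a j * b i` and `gcd(a i, b i) = 1` give `a i ∣ a j`, and symmetrically.
-/

noncomputable section

namespace BVM

open Finset

variable {I : Type*} [Fintype I] [DecidableEq I]

private theorem x06_dvd_Wd {D p : ℕ} (hp : p.Prime) (h : p ≤ D) : p ∣ Wd D := by
  unfold Wd
  apply Finset.dvd_prod_of_mem
  rw [Finset.mem_filter, Finset.mem_range]
  exact ⟨by omega, hp⟩

private theorem x06_le_of_dvd_Wd {D p : ℕ} (hp : p.Prime) (h : p ∣ Wd D) : p ≤ D := by
  unfold Wd at h
  rw [Prime.dvd_finset_prod_iff hp.prime] at h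
  obtain ⟨q, hq, hpq⟩ := h
  rw [Finset.mem_filter, Finset.mem_range] at hq
  have := (Nat.prime_dvd_prime_iff_eq hp hq.2).mp hpq
  omega

theorem exists_sep (a : I → ℕ) (b : I → ℤ) (h : Adm a b) :
    ∃ D₁ : ℕ, ∀ D, D₁ ≤ D → Sep D a b ∧
      ∃ v0 : ℕ, ∀ i, Int.gcd (a i * v0 + b i) (Wd D) = 1 := by
  refine ⟨(∑ i, a i) + ∑ i, ∑ j, ((a i : ℤ) * b j - a j * b i).natAbs, ?_⟩
  intro D hD
  have ha : ∀ i, a i ≤ D := by
    intro i
    have h1 : a i ≤ ∑ i, a i := Finset.single_le_sum (fun _ _ => Nat.zero_le _)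
      (Finset.mem_univ i)
    omega
  have hb : ∀ i j, ((a i : ℤ) * b j - a j * b i).natAbs ≤ D := by
    intro i j
    have h1 : ((a i : ℤ) * b j - a j * b i).natAbs ≤
        ∑ j, ((a i : ℤ) * b j - a j * b i).natAbs :=
      Finset.single_le_sum (f := fun j => ((a i : ℤ) * b j - a j * b i).natAbs)
        (fun _ _ => Nat.zero_le _) (Finset.mem_univ j)
    have h2 : ∑ j, ((a i : ℤ) * b j - a j * b i).natAbs ≤
        ∑ i, ∑ j, ((a i : ℤ) * b j - a j * b i).natAbs :=
      Finset.single_le_sum (f := fun i => ∑ j, ((a i : ℤ) * b j - a j * b i).natAbs)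
        (fun _ _ => Nat.zero_le _) (Finset.mem_univ i)
    omega
  refine ⟨⟨?_, ?_⟩, ?_⟩
  · intro p _ hDp i hdvd
    have := Nat.le_of_dvd (h.pos i) hdvd
    have := ha i
    omega
  · intro p _ hDp i j hij hdvd
    have hne : (a i : ℤ) * b j - a j * b i ≠ 0 := sub_ne_zero.mpr (h.distinct i j hij)
    have h1 : p ∣ ((a i : ℤ) * b j - a j * b i).natAbs := Int.natCast_dvd.mp hdvd
    have h2 := Nat.le_of_dvd (Int.natAbs_pos.mpr hne) h1
    have := hb i j
    omega
  · choose! np hnp using h.adm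
    have hco : Set.Pairwise (((Finset.range (D + 1)).filter Nat.Prime : Finset ℕ) : Set ℕ)
        (Function.onFun Nat.Coprime (fun p : ℕ => p)) := by
      intro p hp q hq hpq
      rw [Finset.mem_coe, Finset.mem_filter] at hp hq
      exact (Nat.coprime_primes hp.2 hq.2).mpr hpq
    obtain ⟨v0, hv0⟩ := Nat.chineseRemainderOfFinset np (fun p : ℕ => p)
      ((Finset.range (D + 1)).filter Nat.Prime)
      (fun p hp => (Finset.mem_filter.mp hp).2.ne_zero) hco
    refine ⟨v0, fun i => ?_⟩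
    by_contra hne
    obtain ⟨p, hp, hpd⟩ := Nat.exists_prime_and_dvd hne
    have h1 : (p : ℤ) ∣ a i * v0 + b i := by
      have : ((Int.gcd (a i * v0 + b i) (Wd D) : ℕ) : ℤ) ∣ a i * v0 + b i := Int.gcd_dvd_left ..
      exact (Int.natCast_dvd_natCast.mpr hpd).trans this
    have h2 : p ∣ Wd D := by
      have : ((Int.gcd (a i * v0 + b i) (Wd D) : ℕ) : ℤ) ∣ (Wd D : ℤ) := Int.gcd_dvd_right ..
      exact Int.natCast_dvd_natCast.mp ((Int.natCast_dvd_natCast.mpr hpd).trans this)
    have h3 : p ≤ D := x06_le_of_dvd_Wd hp h2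
    have h4 : v0 ≡ np p [MOD p] := hv0 p (Finset.mem_filter.mpr
      ⟨Finset.mem_range.mpr (by omega), hp⟩)
    have h5 : (p : ℤ) ∣ (np p : ℤ) - v0 := (Nat.modEq_iff_dvd).mp h4
    apply hnp p hp i
    have h6 : (a i : ℤ) * np p + b i = (a i * v0 + b i) + a i * ((np p : ℤ) - v0) := by ring
    rw [h6]
    exact dvd_add h1 (Dvd.dvd.mul_left h5 _)

theorem totient_mul_Wd (D a : ℕ) (ha : 0 < a) (h : ∀ p : ℕ, p.Prime → D < p → ¬ p ∣ a) :
    Nat.totient (a * Wd D) = a * Nat.totient (Wd D) := by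
  revert ha h
  induction a using induction_on_primes with
  | zero => intro h0; exact absurd h0 (lt_irrefl _)
  | one => intro _ _; simp
  | prime_mul p a hp ih =>
    intro hpos h
    have ha : 0 < a := Nat.pos_of_mul_pos_left hpos
    have ih' := ih ha (fun q hq hDq hqa => h q hq hDq (Dvd.dvd.mul_left hqa p))
    have hpD : p ≤ D := by
      by_contra hlt
      exact h p hp (by omega) (dvd_mul_right p a)
    have hd : p ∣ a * Wd D := Dvd.dvd.mul_left (x06_dvd_Wd hp hpD) a
    rw [mul_assoc, Nat.totient_mul_of_prime_of_dvd hp hd, ih', mul_assoc]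

theorem adm_of_injective (a : I → ℕ) (b : I → ℤ) (hpos : ∀ i, 0 < a i)
    (hinj : ∀ i j, i ≠ j → (a i, b i) ≠ (a j, b j))
    (hadm : ∀ p : ℕ, p.Prime → ∃ n : ℕ, ∀ i, ¬ (p : ℤ) ∣ a i * n + b i) : Adm a b := by
  have hprim : ∀ i, IsCoprime (a i : ℤ) (b i) := by
    intro i
    rw [Int.isCoprime_iff_gcd_eq_one]
    by_contra hne
    obtain ⟨p, hp, hpd⟩ := Nat.exists_prime_and_dvd hne
    obtain ⟨n, hn⟩ := hadm p hp
    have h1 : (p : ℤ) ∣ (a i : ℤ) :=
      (Int.natCast_dvd_natCast.mpr hpd).trans (Int.gcd_dvd_left ..)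
    have h2 : (p : ℤ) ∣ b i :=
      (Int.natCast_dvd_natCast.mpr hpd).trans (Int.gcd_dvd_right ..)
    exact hn i (dvd_add (Dvd.dvd.mul_right h1 _) h2)
  refine ⟨hpos, ?_, hadm⟩
  intro i j hij heq
  have h1 : (a i : ℤ) ∣ a j := by
    have : (a i : ℤ) ∣ a j * b i := ⟨b j, heq.symm⟩
    exact (hprim i).dvd_of_dvd_mul_right this
  have h2 : (a j : ℤ) ∣ a i := by
    have : (a j : ℤ) ∣ a i * b j := ⟨b i, heq⟩
    exact (hprim j).dvd_of_dvd_mul_right this
  have h3 : a i = a j := Nat.dvd_antisymm (Int.natCast_dvd_natCast.mp h1)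
    (Int.natCast_dvd_natCast.mp h2)
  have h4 : (a i : ℤ) ≠ 0 := by
    have := hpos i
    omega
  have h5 : b j = b i := by
    rw [← h3] at heq
    exact mul_left_cancel₀ h4 heq
  exact hinj i j hij (by rw [h3, h5])

end BVM

end
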