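import Pool.Agent.helper31.BVM.C01
import Pool.Agent.helper31.BVM.X06

/-!
# BVM-C02: five groups (author of the proof: helper59)

For distinct positive integers `β 0, ..., β 4` and an infinite set `S` of integers there are `i ≠ j` and
`s, s' ∈ S` such that `β i (n + s) + 1` and `β j (n + s') + 1` are simultaneously prime for infinitely many
`n`.

PROOF. Let `K` be given by `pair_density` with `ε = 1/100`, `L ≥ max(K, 1)`. By the pigeonhole principle
an infinite subset of `S` lies in one residue class modulo `M = ∏_{p ≤ 5L} p` (or `(5L)!`); choose `L` distinct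
elements `σ : Fin L → ℤ` of it. The family `I = Fin 5 × Fin L`, `a (i,l) = β i`, `b (i,l) = β i * σ l + 1` is
admissible (`Adm`): positivity clear. Distinctness: `a b' - a' b = β i β j (σ l' - σ l) + (β i - β j)`; if
`i = j` this is `β i² (σ l' - σ l) ≠ 0`; if `i ≠ j` and it vanished then `β i β j` would divide `β j - β i ≠ 0`,
whose absolute value is `< max(β i, β j) ≤ β i β j`, a contradiction. Admissibility at a prime `p ≤ 5L`: all
`σ l` are congruent to some `σ` mod `p`; take `n ≡ -σ mod p` (`n : ℕ`): all values are `≡ 1`. At `p > 5L`: each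
form has at most one root mod `p` (none if `p ∣ β i`, then the value is `≡ 1`), so at most `5L < p` residues are
forbidden. By `pair_density` at least `(24/100) (5L)²` ordered pairs of distinct forms are good; the pairs
inside a group number `5 L (L-1) < (5L)²/5`, so some good pair has `i ≠ j`.
-/

noncomputable section

namespace BVM

open Finset Filter

private theorem C02_sigma (S : Set ℤ) (hS : S.Infinite) (M : ℕ) (hM : 0 < M) :
    ∃ σ : ℕ → ℤ, Function.Injective σ ∧ (∀ l, σ l ∈ S) ∧ ∀ l l', (M : ℤ) ∣ σ l - σ l' := by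
  haveI : Infinite S := hS.to_subtype
  haveI : NeZero M := ⟨hM.ne'⟩
  obtain ⟨y, hy⟩ := Finite.exists_infinite_fiber (fun s : S => ((s : ℤ) : ZMod M))
  haveI := hy
  let e := Infinite.natEmbedding ((fun s : S => ((s : ℤ) : ZMod M)) ⁻¹' {y})
  refine ⟨fun l => ((e l : S) : ℤ), ?_, fun l => (e l : S).2, fun l l' => ?_⟩
  · intro l l' h
    exact e.injective (Subtype.ext (Subtype.ext h))
  · have h1 : (((e l : S) : ℤ) : ZMod M) = y := (e l).2
    have h2 : (((e l' : S) : ℤ) : ZMod M) = y := (e l').2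
    have h3 : ((((e l : S) : ℤ) - ((e l' : S) : ℤ) : ℤ) : ZMod M) = 0 := by
      rw [Int.cast_sub, h1, h2, sub_self]
    exact (ZMod.intCast_zmod_eq_zero_iff_dvd _ _).1 h3

private theorem C02_adm (β : Fin 5 → ℕ) (hβ : ∀ i, 0 < β i)
    (hinj : Function.Injective β) (L : ℕ) (σ : ℕ → ℤ) (hσ : Function.Injective σ)
    (hM : ∀ l l', (((5 * L).factorial : ℕ) : ℤ) ∣ σ l - σ l') :
    Adm (fun q : Fin 5 × Fin L => β q.1)
      (fun q : Fin 5 × Fin L => (β q.1 : ℤ) * σ q.2 + 1) := by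
  refine adm_of_injective _ _ (fun q => hβ q.1) ?_ ?_
  · rintro ⟨i, l⟩ ⟨j, l'⟩ hne h
    apply hne
    have h1 : β i = β j := congrArg Prod.fst h
    have h2 : (β i : ℤ) * σ l + 1 = (β j : ℤ) * σ l' + 1 := congrArg Prod.snd h
    have h3 : i = j := hinj h1
    subst h3
    have h4 : (β i : ℤ) * σ l = (β i : ℤ) * σ l' := by linarith
    have h5 : (β i : ℤ) ≠ 0 := by
      have := hβ i
      omega
    have h6 := mul_left_cancel₀ h5 h4
    rw [Fin.ext (hσ h6)]
  · intro p hp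
    rcases le_or_gt p (5 * L) with h | h
    · have hpM : (p : ℤ) ∣ (((5 * L).factorial : ℕ) : ℤ) :=
        Int.natCast_dvd_natCast.2 ((Nat.Prime.dvd_factorial hp).2 h)
      have hp0 : (0 : ℤ) < p := by exact_mod_cast hp.pos
      refine ⟨((-σ 0) % (p : ℤ)).toNat, ?_⟩
      rintro ⟨i, l⟩ hdvd
      have h1 : ((((-σ 0) % (p : ℤ)).toNat : ℕ) : ℤ) = (-σ 0) % (p : ℤ) :=
        Int.toNat_of_nonneg (Int.emod_nonneg _ hp0.ne')
      have h2 : (p : ℤ) ∣ (-σ 0) % (p : ℤ) + σ 0 := by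
        have h3 := Int.emod_add_mul_ediv (-σ 0) p
        refine ⟨-((-σ 0) / (p : ℤ)), ?_⟩
        linarith
      have h3 : (p : ℤ) ∣ σ l - σ 0 := hpM.trans (hM l 0)
      have hd : (p : ℤ) ∣ (β i : ℤ) * ((((-σ 0) % (p : ℤ)).toNat : ℕ) : ℤ) +
          ((β i : ℤ) * σ l + 1) := hdvd
      rw [h1] at hd
      have h4 : (p : ℤ) ∣ (β i : ℤ) * (((-σ 0) % (p : ℤ) + σ 0) + (σ l - σ 0)) :=
        Dvd.dvd.mul_left (dvd_add h2 h3) _
      have h5 : (p : ℤ) ∣ 1 := by
        have h6 := dvd_sub hd h4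
        have h7 : (β i : ℤ) * ((-σ 0) % (p : ℤ)) + ((β i : ℤ) * σ l + 1) -
            (β i : ℤ) * (((-σ 0) % (p : ℤ) + σ 0) + (σ l - σ 0)) = 1 := by ring
        rwa [h7] at h6
      have h8 := Int.natCast_dvd_natCast.1 (by exact_mod_cast h5 : (p : ℤ) ∣ ((1 : ℕ) : ℤ))
      exact hp.one_lt.ne' (Nat.dvd_one.1 h8)
    · by_contra hcon
      push Not at hcon
      choose F hF using hcon
      have hinjF : Function.Injective (fun r : Fin p => F r) := by
        intro r r' hrr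
        have h1 := hF r
        have h2 := hF r'
        have h3 : F r = F r' := hrr
        rw [← h3] at h2
        set q := F r with hq
        have h4 : (p : ℤ) ∣ (β q.1 : ℤ) * ((r : ℕ) : ℤ) + ((β q.1 : ℤ) * σ q.2 + 1) := h1
        have h5 : (p : ℤ) ∣ (β q.1 : ℤ) * ((r' : ℕ) : ℤ) + ((β q.1 : ℤ) * σ q.2 + 1) := h2
        have h6 : (p : ℤ) ∣ (β q.1 : ℤ) * (((r : ℕ) : ℤ) - ((r' : ℕ) : ℤ)) := by
          have h7 := dvd_sub h4 h5
          have h8 : (β q.1 : ℤ) * ((r : ℕ) : ℤ) + ((β q.1 : ℤ) * σ q.2 + 1) -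
              ((β q.1 : ℤ) * ((r' : ℕ) : ℤ) + ((β q.1 : ℤ) * σ q.2 + 1)) =
              (β q.1 : ℤ) * (((r : ℕ) : ℤ) - ((r' : ℕ) : ℤ)) := by ring
          rwa [h8] at h7
        have hpp : Prime (p : ℤ) := Nat.prime_iff_prime_int.1 hp
        rcases hpp.dvd_or_dvd h6 with h7 | h7
        · exfalso
          have h8 : (p : ℤ) ∣ 1 := by
            have h9 : (p : ℤ) ∣ (β q.1 : ℤ) * (((r : ℕ) : ℤ) + σ q.2) := Dvd.dvd.mul_right h7 _
            have h10 := dvd_sub h4 h9
            have h11 : (β q.1 : ℤ) * ((r : ℕ) : ℤ) + ((β q.1 : ℤ) * σ q.2 + 1) -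
                (β q.1 : ℤ) * (((r : ℕ) : ℤ) + σ q.2) = 1 := by ring
            rwa [h11] at h10
          exact hpp.not_unit (isUnit_of_dvd_one h8)
        · have h8 := Int.eq_zero_of_abs_lt_dvd h7 (by
            have h9 := r.2
            have h10 := r'.2
            rw [abs_lt]
            constructor <;> omega)
          apply Fin.ext
          omega
      have h1 := Fintype.card_le_of_injective _ hinjF
      rw [Fintype.card_fin, Fintype.card_prod, Fintype.card_fin, Fintype.card_fin] at h1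
      omega

theorem five_groups (hBV : BVInput) (β : Fin 5 → ℕ) (hβ : ∀ i, 0 < β i)
    (hinj : Function.Injective β) (S : Set ℤ) (hS : S.Infinite) :
    ∃ i j : Fin 5, i ≠ j ∧ ∃ s ∈ S, ∃ s' ∈ S,
      {n : ℕ | PrimeAt (β i) (β i * s + 1) n ∧ PrimeAt (β j) (β j * s' + 1) n}.Infinite := by
  classical
  obtain ⟨K, hK⟩ := pair_density hBV (1 / 100) (by norm_num)
  set L := K + 1 with hL
  obtain ⟨σ, hσ1, hσ2, hσ3⟩ := C02_sigma S hS (5 * L).factorial (Nat.factorial_pos _)
  have hadm := C02_adm β hβ hinj L σ hσ1 hσ3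
  have hcard : Fintype.card (Fin 5 × Fin L) = 5 * L := by
    rw [Fintype.card_prod, Fintype.card_fin, Fintype.card_fin]
  have h1 := hK (Fin 5 × Fin L) (fun q => β q.1) (fun q => (β q.1 : ℤ) * σ q.2 + 1) hadm
    (by rw [hcard]; omega)
  by_contra hcon
  have h2 : (univ.filter (fun q : (Fin 5 × Fin L) × (Fin 5 × Fin L) => q.1 ≠ q.2 ∧
      GoodPair (fun q : Fin 5 × Fin L => β q.1)
        (fun q : Fin 5 × Fin L => (β q.1 : ℤ) * σ q.2 + 1) q.1 q.2)).card ≤ 5 * (L * L) := by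
    have h3 : Fintype.card (Fin 5 × (Fin L × Fin L)) = 5 * (L * L) := by
      rw [Fintype.card_prod, Fintype.card_prod, Fintype.card_fin, Fintype.card_fin]
    rw [← h3, ← Finset.card_univ]
    refine Finset.card_le_card_of_injOn (fun q => (q.1.1, (q.1.2, q.2.2)))
      (fun q _ => Finset.mem_coe.2 (Finset.mem_univ _)) ?_
    have hsame : ∀ q ∈ (univ.filter (fun q : (Fin 5 × Fin L) × (Fin 5 × Fin L) => q.1 ≠ q.2 ∧
      GoodPair (fun q : Fin 5 × Fin L => β q.1)
        (fun q : Fin 5 × Fin L => (β q.1 : ℤ) * σ q.2 + 1) q.1 q.2)), q.1.1 = q.2.1 := by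
      intro q hq
      by_contra hne
      apply hcon
      refine ⟨q.1.1, q.2.1, hne, σ q.1.2, hσ2 _, σ q.2.2, hσ2 _, ?_⟩
      exact (Finset.mem_filter.1 hq).2.2
    intro q hq q' hq' h
    have h4 := hsame q (Finset.mem_coe.1 hq)
    have h5 := hsame q' (Finset.mem_coe.1 hq')
    have h0 : (q.1.1, (q.1.2, q.2.2)) = (q'.1.1, (q'.1.2, q'.2.2)) := h
    rw [Prod.mk.injEq, Prod.mk.injEq] at h0
    obtain ⟨h6, h7, h8⟩ := h0
    refine Prod.ext (Prod.ext h6 h7) (Prod.ext ?_ h8)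
    rw [← h4, ← h5, h6]
  have h3 : (L : ℝ) ≥ 1 := by
    rw [hL]
    push_cast
    linarith [(Nat.cast_nonneg K : (0 : ℝ) ≤ K)]
  have h4 := h1.trans (by exact_mod_cast h2 : _ ≤ (5 * (L * L) : ℝ))
  rw [hcard] at h4
  push_cast at h4
  nlinarith

end BVM

end
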