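import Mathlib

/-!
# BVM-C03: from pair density to lower density (pure combinatorics)

Let `T ⊆ ℕ` and suppose that in every finite `B ⊆ ℕ` with at least `K` elements at least `δ |B|²` ordered
pairs `(b, b')`, `b ≠ b'`, have `|b - b'| ∈ T`. Then `T` has lower density at least `δ`.

PROOF. `e(B)` = the number of such ordered pairs, `e k = min {e(B) : |B| = k}` (a natural number). For
`k ≥ K`, `e k ≥ δ k²`. Given `ε > 0` there is `k ≥ max(K,1)` with `e (k+1) - e k ≥ 2 (δ - ε) k`: otherwise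
`e k ≤ e K' + ∑_{K' ≤ j < k} 2 (δ-ε) j ≤ e K' + (δ-ε) k²` for all `k ≥ K' = max(K,1)` (if `δ - ε ≥ 0`; if
`δ - ε < 0` the conclusion is trivial), against `e k ≥ δ k²` for large `k`. Take `B` with `|B| = k`,
`e(B) = e k`. For every `x ∉ B`, `e(B ∪ {x}) = e(B) + 2 deg(x)`, `deg(x) = #{b ∈ B : |x - b| ∈ T}`, so
`deg(x) ≥ (δ - ε) k`. Let `m = max B`. Summing over `m < x ≤ X`:
`(δ-ε) k (X - m) ≤ ∑_{b ∈ B} #{x ∈ (m, X] : x - b ∈ T} ≤ k #(T ∩ [1, X])`. So
`#(T ∩ [1,X]) ≥ (δ - ε)(X - m) ≥ (δ - 2ε) X` for large `X`.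
-/

noncomputable section

namespace BVM

open Finset Filter

open Classical in
private def EE (T : Set ℕ) (B : Finset ℕ) : ℕ :=
  ((B ×ˢ B).filter (fun q => q.1 ≠ q.2 ∧ ((q.1 : ℤ) - q.2).natAbs ∈ T)).card

private def ee (T : Set ℕ) (k : ℕ) : ℕ :=
  sInf {n | ∃ B : Finset ℕ, B.card = k ∧ EE T B = n}

private theorem ee_le (T : Set ℕ) (B : Finset ℕ) : ee T B.card ≤ EE T B :=
  Nat.sInf_le ⟨B, rfl, rfl⟩

private theorem ee_mem (T : Set ℕ) (k : ℕ) : ∃ B : Finset ℕ, B.card = k ∧ EE T B = ee T k := by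
  have h : ({n | ∃ B : Finset ℕ, B.card = k ∧ EE T B = n} : Set ℕ).Nonempty :=
    ⟨EE T (Finset.range k), Finset.range k, Finset.card_range k, rfl⟩
  exact Nat.sInf_mem h

open Classical in
private theorem EE_insert (T : Set ℕ) (B : Finset ℕ) (x : ℕ) (hx : ∀ b ∈ B, b < x) :
    EE T (insert x B) ≤ EE T B + 2 * (B.filter (fun b => x - b ∈ T)).card := by
  unfold EE
  have h : ((insert x B ×ˢ insert x B).filter
      (fun q : ℕ × ℕ => q.1 ≠ q.2 ∧ ((q.1 : ℤ) - q.2).natAbs ∈ T)) ⊆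
      (((B ×ˢ B).filter (fun q : ℕ × ℕ => q.1 ≠ q.2 ∧ ((q.1 : ℤ) - q.2).natAbs ∈ T)) ∪
      ((B.filter (fun b => x - b ∈ T)).image (fun b => (x, b)))) ∪
      ((B.filter (fun b => x - b ∈ T)).image (fun b => (b, x))) := by
    rintro ⟨a, b⟩ h
    simp only [Finset.mem_filter, Finset.mem_product, Finset.mem_insert] at h
    obtain ⟨⟨ha, hb⟩, hne, hT⟩ := h
    simp only [Finset.mem_union, Finset.mem_filter, Finset.mem_product, Finset.mem_image,
      Prod.mk.injEq]
    rcases ha with ha | ha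
    · rcases hb with hb | hb
      · exact absurd (ha.trans hb.symm) hne
      · left; right
        subst ha
        refine ⟨b, ⟨hb, ?_⟩, rfl, rfl⟩
        have h1 := hx b hb
        have h2 : ((a : ℤ) - b).natAbs = a - b := by omega
        rwa [h2] at hT
    · rcases hb with hb | hb
      · right
        subst hb
        refine ⟨a, ⟨ha, ?_⟩, rfl, rfl⟩
        have h1 := hx a ha
        have h2 : ((a : ℤ) - b).natAbs = b - a := by omega
        rwa [h2] at hT
      · left; left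
        exact ⟨⟨ha, hb⟩, hne, hT⟩
  refine (Finset.card_le_card h).trans ?_
  refine (Finset.card_union_le _ _).trans ?_
  have h1 := Finset.card_union_le
    ((B ×ˢ B).filter (fun q : ℕ × ℕ => q.1 ≠ q.2 ∧ ((q.1 : ℤ) - q.2).natAbs ∈ T))
    ((B.filter (fun b => x - b ∈ T)).image (fun b => (x, b)))
  have h2 : ((B.filter (fun b => x - b ∈ T)).image (fun b => (x, b))).card ≤
    (B.filter (fun b => x - b ∈ T)).card := Finset.card_image_le
  have h3 : ((B.filter (fun b => x - b ∈ T)).image (fun b => (b, x))).card ≤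
    (B.filter (fun b => x - b ∈ T)).card := Finset.card_image_le
  omega

private theorem jump (T : Set ℕ) (δ η : ℝ) (K : ℕ)
    (hT : ∀ k, K ≤ k → δ * (k : ℝ) ^ 2 ≤ (ee T k : ℝ)) (hη : 0 < η) (hd : 0 ≤ δ - η) :
    ∃ k, 1 ≤ k ∧ 2 * (δ - η) * k ≤ (ee T (k + 1) : ℝ) - ee T k := by
  by_contra hcon
  push Not at hcon
  set K' := max K 1 with hK'
  have h1 : ∀ k, K' ≤ k → (ee T k : ℝ) ≤ ee T K' + (δ - η) * (k : ℝ) ^ 2 := by
    intro k hk
    induction k, hk using Nat.le_induction with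
    | base => nlinarith [sq_nonneg (K' : ℝ)]
    | succ k hk ih =>
      have h2 := hcon k (le_trans (le_max_right _ _) hk)
      push_cast
      nlinarith
  obtain ⟨N, hN⟩ := exists_nat_gt ((ee T K' : ℝ) / η)
  set k := max N K' with hk
  have hkN : (N : ℝ) ≤ k := by exact_mod_cast le_max_left _ _
  have hk1 : (1 : ℝ) ≤ k := by
    exact_mod_cast (le_trans (le_max_right K 1) (le_max_right N K'))
  have h2 := h1 k (le_max_right _ _)
  have h3 := hT k (le_trans (le_max_left K 1) (le_max_right N K'))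
  have h4 : η * (k : ℝ) ^ 2 ≤ ee T K' := by linarith
  rw [div_lt_iff₀ hη] at hN
  have h5 : (k : ℝ) ≤ (k : ℝ) ^ 2 := by nlinarith
  have h6 : η * (k : ℝ) ≤ η * (k : ℝ) ^ 2 := mul_le_mul_of_nonneg_left h5 hη.le
  have h7 : η * (N : ℝ) ≤ η * (k : ℝ) := mul_le_mul_of_nonneg_left hkN hη.le
  linarith

open Classical in
private theorem count (T : Set ℕ) (B : Finset ℕ) (m : ℕ) (hm : ∀ b ∈ B, b ≤ m) (X : ℕ) :
    (∑ x ∈ Finset.Ioc m X, (B.filter (fun b => x - b ∈ T)).card) ≤
      B.card * ((Finset.Icc 1 X).filter (fun t => t ∈ T)).card := by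
  simp_rw [Finset.card_filter (fun b => _ - b ∈ T)]
  rw [Finset.sum_comm]
  rw [← smul_eq_mul, ← Finset.sum_const]
  apply Finset.sum_le_sum
  intro b hb
  rw [← Finset.card_filter]
  have hb' := hm b hb
  apply Finset.card_le_card_of_injOn (fun x => x - b)
  · intro x hx
    simp only [Finset.coe_filter, Finset.mem_Ioc, Set.mem_ofPred_eq] at hx
    simp only [Finset.coe_filter, Finset.mem_Icc, Set.mem_ofPred_eq]
    refine ⟨⟨by omega, by omega⟩, hx.2⟩
  · intro x hx y hy hxy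
    simp only [Finset.coe_filter, Finset.mem_Ioc, Set.mem_ofPred_eq] at hx hy
    simp only at hxy
    omega

open Classical in
theorem lower_density (T : Set ℕ) (δ : ℝ) (K : ℕ)
    (hT : ∀ B : Finset ℕ, K ≤ B.card → δ * (B.card : ℝ) ^ 2 ≤
      (((B ×ˢ B).filter (fun q => q.1 ≠ q.2 ∧ ((q.1 : ℤ) - q.2).natAbs ∈ T)).card : ℝ))
    (ε : ℝ) (hε : 0 < ε) :
    ∀ᶠ X : ℕ in atTop, (δ - ε) * X ≤ (((Finset.Icc 1 X).filter (fun t => t ∈ T)).card : ℝ) := by
  by_cases hd : 0 ≤ δ - ε / 2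
  · have hT' : ∀ k, K ≤ k → δ * (k : ℝ) ^ 2 ≤ (ee T k : ℝ) := by
      intro k hk
      obtain ⟨B, hB, hE⟩ := ee_mem T k
      have h1 := hT B (by rw [hB]; exact hk)
      rw [hB] at h1
      rw [← hE]
      exact h1
    obtain ⟨k, hk1, hk⟩ := jump T δ (ε / 2) K hT' (by linarith) hd
    obtain ⟨B, hB, hE⟩ := ee_mem T k
    set m := B.sup id with hm
    have hBm : ∀ b ∈ B, b ≤ m := fun b hb => Finset.le_sup (f := id) hb
    have hdeg : ∀ x, m < x → (δ - ε / 2) * k ≤ ((B.filter (fun b => x - b ∈ T)).card : ℝ) := by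
      intro x hx
      have h1 : ∀ b ∈ B, b < x := fun b hb => lt_of_le_of_lt (hBm b hb) hx
      have hxB : x ∉ B := fun h => lt_irrefl _ (h1 x h)
      have h2 := EE_insert T B x h1
      have h3 := ee_le T (insert x B)
      rw [Finset.card_insert_of_notMem hxB, hB] at h3
      have h4 : (ee T (k + 1) : ℝ) ≤ ee T k + 2 * ((B.filter (fun b => x - b ∈ T)).card : ℝ) := by
        rw [← hE]
        exact_mod_cast h3.trans h2
      linarith
    obtain ⟨N, hN⟩ := exists_nat_gt ((δ - ε / 2) * m / (ε / 2))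
    filter_upwards [eventually_ge_atTop N, eventually_ge_atTop m] with X hXN hXm
    have h5 : (δ - ε / 2) * k * ((X : ℝ) - m) ≤
        (∑ x ∈ Finset.Ioc m X, ((B.filter (fun b => x - b ∈ T)).card : ℝ)) := by
      have h6 : (∑ x ∈ Finset.Ioc m X, (δ - ε / 2) * (k : ℝ)) ≤
          ∑ x ∈ Finset.Ioc m X, ((B.filter (fun b => x - b ∈ T)).card : ℝ) := by
        apply Finset.sum_le_sum
        intro x hx
        exact hdeg x (Finset.mem_Ioc.1 hx).1
      rw [Finset.sum_const, Nat.card_Ioc, nsmul_eq_mul, Nat.cast_sub hXm] at h6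
      linarith
    have h7 : (∑ x ∈ Finset.Ioc m X, ((B.filter (fun b => x - b ∈ T)).card : ℝ)) ≤
        k * (((Finset.Icc 1 X).filter (fun t => t ∈ T)).card : ℝ) := by
      have := count T B m hBm X
      rw [hB] at this
      exact_mod_cast this
    have hkpos : (0 : ℝ) < k := by
      have : (1 : ℝ) ≤ k := by exact_mod_cast hk1
      linarith
    have h8 : (δ - ε / 2) * ((X : ℝ) - m) ≤
        (((Finset.Icc 1 X).filter (fun t => t ∈ T)).card : ℝ) := by
      have h9 : (k : ℝ) * ((δ - ε / 2) * ((X : ℝ) - m)) ≤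
          k * (((Finset.Icc 1 X).filter (fun t => t ∈ T)).card : ℝ) := by
        calc (k : ℝ) * ((δ - ε / 2) * ((X : ℝ) - m)) = (δ - ε / 2) * k * ((X : ℝ) - m) := by ring
          _ ≤ _ := h5.trans h7
      exact le_of_mul_le_mul_left h9 hkpos
    rw [div_lt_iff₀ (by linarith)] at hN
    have h10 : (N : ℝ) ≤ X := by exact_mod_cast hXN
    have h11 : (N : ℝ) * (ε / 2) ≤ X * (ε / 2) := mul_le_mul_of_nonneg_right h10 (by linarith)
    linarith
  · filter_upwards with X
    have h1 : (δ - ε) * X ≤ 0 := mul_nonpos_of_nonpos_of_nonneg (by linarith) (Nat.cast_nonneg X)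
    exact h1.trans (Nat.cast_nonneg _)

end BVM

end
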