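import Pool.Agent.helper31.BVM.C01
import Pool.Agent.helper31.BVM.C02
import Pool.Agent.helper31.BVM.C03

/-!
# BVM-C04: chains `p`, `a^t (p - 1) + 1`

PROOF of `power_density`. Let `T = {t : ∃^∞ p prime, a^t (p-1) + 1 prime}`. For a finite `B ⊆ ℕ` consider the
family `I = ↥B`, forms `a^b n + 1`: `Adm` holds (positive; `a^b ≠ a^b'` for `b ≠ b'` as `a ≥ 2`; at `n = 0`
all values are `1`). If `(b, b')`, `b < b'`, is a `GoodPair` then for infinitely many `n` both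
`p = a^b n + 1` and `a^b' n + 1 = a^(b'-b) (p - 1) + 1` are prime, and `n ↦ p` is injective, so `b' - b ∈ T`. So
`pair_density` with `ε/2` gives the hypothesis of `lower_density` (C03) with `δ = 1/4 - ε/2`.
(`#B` ordered pairs: map `(b, b') ∈ I × I` to `B ×ˢ B`.)
PROOF of `small_power`. `five_groups` (C02) with `β i = a^i` gives `i ≠ j`, `s, s' ∈ S`; by symmetry (swap the
two forms) let `i < j`, `t = j - i`. For the infinitely many `n` put `p = a^i (n + s) + 1` (a prime, as a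
natural number `toNat`) and `q = a^j (n + s') + 1 = a^t (p - 1) + 1 + a^j (s' - s)`; `n ↦ p` is injective.
-/

noncomputable section

namespace BVM

open Finset Filter

private theorem C04_key (a : ℕ) (ha : 2 ≤ a) {b b' : ℕ} (hbb : b < b')
    (h : {n : ℕ | PrimeAt (a ^ b) 1 n ∧ PrimeAt (a ^ b') 1 n}.Infinite) :
    {p : ℕ | p.Prime ∧ (a ^ (b' - b) * (p - 1) + 1).Prime}.Infinite := by
  have hval : ∀ c n : ℕ, (((a ^ c : ℕ) : ℤ) * (n : ℤ) + 1).toNat = a ^ c * n + 1 := by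
    intro c n
    have e : ((a ^ c : ℕ) : ℤ) * (n : ℤ) + 1 = ((a ^ c * n + 1 : ℕ) : ℤ) := by
      push_cast
      ring
    rw [e, Int.toNat_natCast]
  have hpos : 0 < a ^ b := pow_pos (by omega) b
  refine Set.infinite_of_injOn_mapsTo (f := fun n : ℕ => a ^ b * n + 1) ?_ ?_ h
  · intro n _ m _ hnm
    have h1 : a ^ b * n + 1 = a ^ b * m + 1 := hnm
    have h2 : a ^ b * n = a ^ b * m := by omega
    exact Nat.eq_of_mul_eq_mul_left hpos h2
  · intro n hn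
    obtain ⟨h1, h2⟩ := hn
    unfold PrimeAt at h1 h2
    rw [hval] at h1 h2
    refine ⟨h1, ?_⟩
    have e : a ^ (b' - b) * (a ^ b * n + 1 - 1) + 1 = a ^ b' * n + 1 := by
      rw [Nat.add_sub_cancel, ← mul_assoc, ← pow_add, Nat.sub_add_cancel hbb.le]
    show (a ^ (b' - b) * (a ^ b * n + 1 - 1) + 1).Prime
    rw [e]
    exact h2

private theorem C04_adm (a : ℕ) (ha : 2 ≤ a) (B : Finset ℕ) :
    Adm (fun i : ↥B => a ^ (i : ℕ)) (fun _ => (1 : ℤ)) := by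
  refine ⟨fun i => pow_pos (by omega) _, ?_, ?_⟩
  · intro i j hij h
    apply hij
    have h1 : ((a ^ (i : ℕ) : ℕ) : ℤ) = ((a ^ (j : ℕ) : ℕ) : ℤ) := by
      simpa using h
    have h2 : a ^ (i : ℕ) = a ^ (j : ℕ) := by exact_mod_cast h1
    exact Subtype.ext (Nat.pow_right_injective ha h2)
  · intro p hp
    refine ⟨0, fun i h => ?_⟩
    have h1 : (p : ℤ) ∣ 1 := by simpa using h
    have h2 : p ∣ 1 := by exact_mod_cast h1
    exact hp.one_lt.ne' (Nat.dvd_one.1 h2)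

open Classical in
private theorem C04_count (a : ℕ) (ha : 2 ≤ a) (B : Finset ℕ) :
    (univ.filter (fun q : ↥B × ↥B => q.1 ≠ q.2 ∧
      GoodPair (fun i : ↥B => a ^ (i : ℕ)) (fun _ => (1 : ℤ)) q.1 q.2)).card ≤
    ((B ×ˢ B).filter (fun q => q.1 ≠ q.2 ∧ ((q.1 : ℤ) - q.2).natAbs ∈
      {t : ℕ | {p : ℕ | p.Prime ∧ (a ^ t * (p - 1) + 1).Prime}.Infinite})).card := by
  apply Finset.card_le_card_of_injOn (fun q : ↥B × ↥B => ((q.1 : ℕ), (q.2 : ℕ)))
  · intro q hq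
    have hq' := (Finset.mem_filter.1 (Finset.mem_coe.1 hq)).2
    obtain ⟨hne, hgood⟩ := hq'
    have hne' : (q.1 : ℕ) ≠ (q.2 : ℕ) := fun h => hne (Subtype.ext h)
    apply Finset.mem_coe.2
    rw [Finset.mem_filter, Finset.mem_product]
    refine ⟨⟨q.1.2, q.2.2⟩, hne', ?_⟩
    show {p : ℕ | p.Prime ∧ (a ^ (((q.1 : ℕ) : ℤ) - ((q.2 : ℕ) : ℤ)).natAbs * (p - 1) + 1).Prime}.Infinite
    rcases lt_or_gt_of_ne hne' with h | h
    · have e : (((q.1 : ℕ) : ℤ) - ((q.2 : ℕ) : ℤ)).natAbs = (q.2 : ℕ) - (q.1 : ℕ) := by omega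
      rw [e]
      exact C04_key a ha h hgood
    · have e : (((q.1 : ℕ) : ℤ) - ((q.2 : ℕ) : ℤ)).natAbs = (q.1 : ℕ) - (q.2 : ℕ) := by omega
      rw [e]
      apply C04_key a ha h
      apply Set.Infinite.mono _ hgood
      intro n hn
      exact ⟨hn.2, hn.1⟩
  · intro q _ r _ hqr
    have h := Prod.mk.inj hqr
    exact Prod.ext (Subtype.ext h.1) (Subtype.ext h.2)

open Classical in
theorem power_density (hBV : BVInput) (a : ℕ) (ha : 2 ≤ a) (ε : ℝ) (hε : 0 < ε) :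
    ∀ᶠ X : ℕ in atTop, (1 / 4 - ε) * X ≤ (((Finset.Icc 1 X).filter (fun t =>
      {p : ℕ | p.Prime ∧ (a ^ t * (p - 1) + 1).Prime}.Infinite)).card : ℝ) := by
  obtain ⟨K, hK⟩ := pair_density hBV (ε / 2) (by positivity)
  have hmain := lower_density
    {t : ℕ | {p : ℕ | p.Prime ∧ (a ^ t * (p - 1) + 1).Prime}.Infinite} (1 / 4 - ε / 2) K ?_
    (ε / 2) (by positivity)
  · filter_upwards [hmain] with X hX
    have e : (1 / 4 - ε) * (X : ℝ) = (1 / 4 - ε / 2 - ε / 2) * (X : ℝ) := by ring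
    rw [e]
    exact hX
  · intro B hB
    have h1 := hK ↥B (fun i : ↥B => a ^ (i : ℕ)) (fun _ => (1 : ℤ)) (C04_adm a ha B)
      (by rw [Fintype.card_coe]; exact hB)
    rw [Fintype.card_coe] at h1
    refine h1.trans ?_
    have h2 := C04_count a ha B
    exact_mod_cast h2

private theorem C04_small (a : ℕ) (ha : 2 ≤ a) {i j : ℕ} (hij : i < j) (s s' : ℤ)
    (h : {n : ℕ | PrimeAt (a ^ i) (((a ^ i : ℕ) : ℤ) * s + 1) n ∧
      PrimeAt (a ^ j) (((a ^ j : ℕ) : ℤ) * s' + 1) n}.Infinite) :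
    {p : ℕ | p.Prime ∧
      ((a : ℤ) ^ (j - i) * ((p : ℤ) - 1) + 1 + (a : ℤ) ^ j * (s' - s)).toNat.Prime}.Infinite := by
  have hcast : ∀ z : ℤ, z.toNat.Prime → ((z.toNat : ℕ) : ℤ) = z := by
    intro z hz
    apply Int.toNat_of_nonneg
    by_contra hneg
    have : z.toNat = 0 := Int.toNat_of_nonpos (by omega)
    rw [this] at hz
    exact Nat.not_prime_zero hz
  have hpos : (0 : ℤ) < ((a ^ i : ℕ) : ℤ) := by
    have : 0 < a ^ i := pow_pos (by omega) i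
    exact_mod_cast this
  refine Set.infinite_of_injOn_mapsTo
    (f := fun n : ℕ => (((a ^ i : ℕ) : ℤ) * n + (((a ^ i : ℕ) : ℤ) * s + 1)).toNat) ?_ ?_ h
  · intro n hn m hm hnm
    have h1 := hcast _ hn.1
    have h2 := hcast _ hm.1
    have h3 : (((a ^ i : ℕ) : ℤ) * n + (((a ^ i : ℕ) : ℤ) * s + 1)).toNat =
      (((a ^ i : ℕ) : ℤ) * m + (((a ^ i : ℕ) : ℤ) * s + 1)).toNat := hnm
    rw [h3, h2] at h1
    have h4 : ((a ^ i : ℕ) : ℤ) * (m : ℤ) = ((a ^ i : ℕ) : ℤ) * (n : ℤ) := by linarith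
    have h5 := mul_left_cancel₀ hpos.ne' h4
    exact_mod_cast h5.symm
  · intro n hn
    obtain ⟨h1, h2⟩ := hn
    refine ⟨h1, ?_⟩
    have h3 := hcast _ h1
    unfold PrimeAt at h2
    show ((a : ℤ) ^ (j - i) * ((((((a ^ i : ℕ) : ℤ) * n +
      (((a ^ i : ℕ) : ℤ) * s + 1)).toNat : ℕ) : ℤ) - 1) + 1 + (a : ℤ) ^ j * (s' - s)).toNat.Prime
    rw [h3]
    have e : (a : ℤ) ^ (j - i) * (((a ^ i : ℕ) : ℤ) * n + (((a ^ i : ℕ) : ℤ) * s + 1) - 1) + 1 +
        (a : ℤ) ^ j * (s' - s) = ((a ^ j : ℕ) : ℤ) * n + (((a ^ j : ℕ) : ℤ) * s' + 1) := by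
      have hj : (a : ℤ) ^ j = (a : ℤ) ^ (j - i) * (a : ℤ) ^ i := by
        rw [← pow_add, Nat.sub_add_cancel hij.le]
      push_cast
      rw [hj]
      ring
    rw [e]
    exact h2

theorem small_power (hBV : BVInput) (a : ℕ) (ha : 2 ≤ a) (S : Set ℤ) (hS : S.Infinite) :
    ∃ t j : ℕ, 1 ≤ t ∧ t ≤ j ∧ j ≤ 4 ∧ ∃ s ∈ S, ∃ s' ∈ S,
      {p : ℕ | p.Prime ∧
        ((a : ℤ) ^ t * ((p : ℤ) - 1) + 1 + (a : ℤ) ^ j * (s' - s)).toNat.Prime}.Infinite := by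
  obtain ⟨i, j, hij, s, hs, s', hs', hinf⟩ := five_groups hBV (fun i => a ^ (i : ℕ))
    (fun i => pow_pos (by omega) _)
    (fun i j h => Fin.ext (Nat.pow_right_injective ha h)) S hS
  have hne : (i : ℕ) ≠ (j : ℕ) := fun h => hij (Fin.ext h)
  rcases lt_or_gt_of_ne hne with h | h
  · exact ⟨(j : ℕ) - i, j, by omega, by omega, by omega, s, hs, s', hs',
      C04_small a ha h s s' hinf⟩
  · refine ⟨(i : ℕ) - j, i, by omega, by omega, by omega, s', hs', s, hs,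
      C04_small a ha h s' s ?_⟩
    apply Set.Infinite.mono _ hinf
    intro n hn
    exact ⟨hn.2, hn.1⟩

end BVM

end
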