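import Pool.Agent.helper31.BVM.C01
import Pool.Agent.helper31.BVM.C05

/-!
# BVM-C06: exponents `t` with infinitely many primes `p`, `a^t (p - 1) + 1`: lower Banach density

As C04 (helper76), with the Banach density version C05 of the combinatorial lemma.
-/

noncomputable section

namespace BVM

open Finset Filter

private theorem C06_key (a : ℕ) (ha : 2 ≤ a) {b b' : ℕ} (hbb : b < b')
    (h : {n : ℕ | PrimeAt (a ^ b) 1 n ∧ PrimeAt (a ^ b') 1 n}.Infinite) :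
    {p : ℕ | p.Prime ∧ (a ^ (b' - b) * (p - 1) + 1).Prime}.Infinite := by
  have hval : ∀ c n : ℕ, (((a ^ c : ℕ) : ℤ) * (n : ℤ) + 1).toNat = a ^ c * n + 1 := by
    intro c n
    have e : ((a ^ c : ℕ) : ℤ) * (n : ℤ) + 1 = ((a ^ c * n + 1 : ℕ) : ℤ) := by
      push_cast
      ring
    rw [e, Int.toNat_natCast]
  have hpos : 0 < a ^ b := pow_pos (by omega) b
  refine Set.infinite_of_injOn_mapsTo (f := fun n : ℕ => a ^ b * n + 1) ?_ ?_ h
  · intro n _ m _ hnm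
    have h1 : a ^ b * n + 1 = a ^ b * m + 1 := hnm
    have h2 : a ^ b * n = a ^ b * m := by omega
    exact Nat.eq_of_mul_eq_mul_left hpos h2
  · intro n hn
    obtain ⟨h1, h2⟩ := hn
    unfold PrimeAt at h1 h2
    rw [hval] at h1 h2
    refine ⟨h1, ?_⟩
    have e : a ^ (b' - b) * (a ^ b * n + 1 - 1) + 1 = a ^ b' * n + 1 := by
      rw [Nat.add_sub_cancel, ← mul_assoc, ← pow_add, Nat.sub_add_cancel hbb.le]
    show (a ^ (b' - b) * (a ^ b * n + 1 - 1) + 1).Prime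
    rw [e]
    exact h2

private theorem C06_adm (a : ℕ) (ha : 2 ≤ a) (B : Finset ℕ) :
    Adm (fun i : ↥B => a ^ (i : ℕ)) (fun _ => (1 : ℤ)) := by
  refine ⟨fun i => pow_pos (by omega) _, ?_, ?_⟩
  · intro i j hij h
    apply hij
    have h1 : ((a ^ (i : ℕ) : ℕ) : ℤ) = ((a ^ (j : ℕ) : ℕ) : ℤ) := by
      simpa using h
    have h2 : a ^ (i : ℕ) = a ^ (j : ℕ) := by exact_mod_cast h1
    exact Subtype.ext (Nat.pow_right_injective ha h2)
  · intro p hp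
    refine ⟨0, fun i h => ?_⟩
    have h1 : (p : ℤ) ∣ 1 := by simpa using h
    have h2 : p ∣ 1 := by exact_mod_cast h1
    exact hp.one_lt.ne' (Nat.dvd_one.1 h2)

open Classical in
private theorem C06_count (a : ℕ) (ha : 2 ≤ a) (B : Finset ℕ) :
    (univ.filter (fun q : ↥B × ↥B => q.1 ≠ q.2 ∧
      GoodPair (fun i : ↥B => a ^ (i : ℕ)) (fun _ => (1 : ℤ)) q.1 q.2)).card ≤
    ((B ×ˢ B).filter (fun q => q.1 ≠ q.2 ∧ ((q.1 : ℤ) - q.2).natAbs ∈
      {t : ℕ | {p : ℕ | p.Prime ∧ (a ^ t * (p - 1) + 1).Prime}.Infinite})).card := by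
  apply Finset.card_le_card_of_injOn (fun q : ↥B × ↥B => ((q.1 : ℕ), (q.2 : ℕ)))
  · intro q hq
    have hq' := (Finset.mem_filter.1 (Finset.mem_coe.1 hq)).2
    obtain ⟨hne, hgood⟩ := hq'
    have hne' : (q.1 : ℕ) ≠ (q.2 : ℕ) := fun h => hne (Subtype.ext h)
    apply Finset.mem_coe.2
    rw [Finset.mem_filter, Finset.mem_product]
    refine ⟨⟨q.1.2, q.2.2⟩, hne', ?_⟩
    show {p : ℕ | p.Prime ∧ (a ^ (((q.1 : ℕ) : ℤ) - ((q.2 : ℕ) : ℤ)).natAbs * (p - 1) + 1).Prime}.Infinite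
    rcases lt_or_gt_of_ne hne' with h | h
    · have e : (((q.1 : ℕ) : ℤ) - ((q.2 : ℕ) : ℤ)).natAbs = (q.2 : ℕ) - (q.1 : ℕ) := by omega
      rw [e]
      exact C06_key a ha h hgood
    · have e : (((q.1 : ℕ) : ℤ) - ((q.2 : ℕ) : ℤ)).natAbs = (q.1 : ℕ) - (q.2 : ℕ) := by omega
      rw [e]
      apply C06_key a ha h
      apply Set.Infinite.mono _ hgood
      intro n hn
      exact ⟨hn.2, hn.1⟩
  · intro q _ r _ hqr
    have h := Prod.mk.inj hqr
    exact Prod.ext (Subtype.ext h.1) (Subtype.ext h.2)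

open Classical in
theorem power_banach (hBV : BVInput) (a : ℕ) (ha : 2 ≤ a) (ε : ℝ) (hε : 0 < ε) :
    ∃ L₀ : ℕ, ∀ L, L₀ ≤ L → ∀ y : ℕ,
      (1 / 4 - ε) * L ≤ (((Finset.Ioc y (y + L)).filter (fun t =>
        {p : ℕ | p.Prime ∧ (a ^ t * (p - 1) + 1).Prime}.Infinite)).card : ℝ) := by
  obtain ⟨K, hK⟩ := pair_density hBV (ε / 2) (by positivity)
  have hmain := banach_density
    {t : ℕ | {p : ℕ | p.Prime ∧ (a ^ t * (p - 1) + 1).Prime}.Infinite} (1 / 4 - ε / 2) K ?_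
    (ε / 2) (by positivity)
  · obtain ⟨L₀, hL₀⟩ := hmain
    refine ⟨L₀, fun L hL y => ?_⟩
    have e : (1 / 4 - ε) * (L : ℝ) = (1 / 4 - ε / 2 - ε / 2) * (L : ℝ) := by ring
    rw [e]
    exact hL₀ L hL y
  · intro B hB
    have h1 := hK ↥B (fun i : ↥B => a ^ (i : ℕ)) (fun _ => (1 : ℤ)) (C06_adm a ha B)
      (by rw [Fintype.card_coe]; exact hB)
    rw [Fintype.card_coe] at h1
    refine h1.trans ?_
    have h2 := C06_count a ha B
    exact_mod_cast h2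

end BVM

end
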