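import Pool.Agent.helper31.BVM.Defs

/-!
# BVM-S04: sets of primes and squarefree integers (author: helper59)

For `ι = ↥(Ps D Y)` the map `A ↦ r = ∏_{p ∈ A} p` is an injection from finite sets of primes in
`(D, Y]` to the squarefree integers coprime to `Wd D`, with image the `r` all of whose prime factors are
`≤ Y`; `sz nuP A = r`, `∏_{p∈A} tauP p = ∏ 1/(p-1) = 1/φ(r)` (`Nat.totient` of a product of distinct primes).
PROOFS. `GS_le_GW`: injectivity and nonnegativity (`r ≤ ⌊y⌋` iff `r ≤ y`). `GS_eq_GW`: for `y ≤ Y` every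
squarefree `r ≤ y` coprime to `Wd D` has its prime factors in `(D, Y]`
(take `A` = the prime factors of `r`).
`sum_tauP_sq_le`: `∑_{p > D} 1/(p-1)^2 ≤ ∑_{n ≥ D} 1/n^2 ≤ 1/D^2 + 1/D ≤ 2/D` (telescoping
`1/n^2 ≤ 1/(n-1) - 1/n`).
`prod_le_exp`: `1 + x ≤ exp x`.
-/

noncomputable section

namespace BVM

open Finset Filter

private theorem S04_prime {D Y : ℕ} (p : ↥(Ps D Y)) : (p : ℕ).Prime := by
  have := p.2
  simp only [Ps, Finset.mem_filter] at this
  exact this.2.1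

private theorem S04_lt {D Y : ℕ} (p : ↥(Ps D Y)) : D < (p : ℕ) := by
  have := p.2
  simp only [Ps, Finset.mem_filter] at this
  exact this.2.2

private theorem S04_le {D Y : ℕ} (p : ↥(Ps D Y)) : (p : ℕ) ≤ Y := by
  have := p.2
  simp only [Ps, Finset.mem_filter, Finset.mem_range] at this
  omega

/-- the product of the primes in `A` -/
private def S04_R {D Y : ℕ} (A : Finset ↥(Ps D Y)) : ℕ :=
  ∏ p ∈ A.map (Function.Embedding.subtype _), p

private theorem S04_R_eq {D Y : ℕ} (A : Finset ↥(Ps D Y)) : S04_R A = ∏ p ∈ A, (p : ℕ) := by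
  unfold S04_R
  rw [Finset.prod_map]
  rfl

private theorem S04_map_prime {D Y : ℕ} (A : Finset ↥(Ps D Y)) :
    ∀ p ∈ A.map (Function.Embedding.subtype _), p.Prime := by
  intro p hp
  obtain ⟨q, -, rfl⟩ := Finset.mem_map.1 hp
  exact S04_prime q

private theorem S04_primeFactors {D Y : ℕ} (A : Finset ↥(Ps D Y)) :
    (S04_R A).primeFactors = A.map (Function.Embedding.subtype _) :=
  Nat.primeFactors_prod (S04_map_prime A)

private theorem S04_inj {D Y : ℕ} {A B : Finset ↥(Ps D Y)} (h : S04_R A = S04_R B) : A = B := by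
  have h1 := congrArg Nat.primeFactors h
  rw [S04_primeFactors, S04_primeFactors] at h1
  exact Finset.map_injective _ h1

private theorem S04_sz {D Y : ℕ} (A : Finset ↥(Ps D Y)) : sz nuP A = (S04_R A : ℝ) := by
  rw [S04_R_eq]
  unfold sz nuP
  push_cast
  rfl

private theorem S04_pos {D Y : ℕ} (A : Finset ↥(Ps D Y)) : 0 < S04_R A := by
  rw [S04_R_eq]
  exact Finset.prod_pos fun p _ => (S04_prime p).pos

private theorem S04_sqfree {D Y : ℕ} (A : Finset ↥(Ps D Y)) : Squarefree (S04_R A) := by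
  rw [S04_R_eq]
  refine Finset.squarefree_prod_of_pairwise_isCoprime ?_ fun p _ => (S04_prime p).squarefree
  intro p _ q _ hpq
  change IsRelPrime (p : ℕ) (q : ℕ)
  rw [← Nat.coprime_iff_isRelPrime, Nat.coprime_primes (S04_prime p) (S04_prime q)]
  exact fun h => hpq (Subtype.ext h)

private theorem S04_coprime {D Y : ℕ} (A : Finset ↥(Ps D Y)) :
    Nat.Coprime (S04_R A) (Wd D) := by
  rw [S04_R_eq]
  unfold Wd
  refine Nat.Coprime.prod_left fun p _ => Nat.Coprime.prod_right fun q hq => ?_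
  rw [Finset.mem_filter, Finset.mem_range] at hq
  rw [Nat.coprime_primes (S04_prime p) hq.2]
  have := S04_lt p
  omega

private theorem S04_tot {D Y : ℕ} (A : Finset ↥(Ps D Y)) :
    ∏ p ∈ A, tauP p = (1 : ℝ) / Nat.totient (S04_R A) := by
  have h1 := Nat.totient_mul_prod_primeFactors (S04_R A)
  rw [Nat.prod_primeFactors_of_squarefree (S04_sqfree A), mul_comm] at h1
  have h2 : (S04_R A).totient = ∏ p ∈ (S04_R A).primeFactors, (p - 1) :=
    Nat.eq_of_mul_eq_mul_left (S04_pos A) h1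
  rw [h2, S04_primeFactors, Finset.prod_map, one_div, Nat.cast_prod, ← Finset.prod_inv_distrib]
  refine Finset.prod_congr rfl fun p _ => ?_
  unfold tauP
  have h3 : 1 ≤ (p : ℕ) := (S04_prime p).one_lt.le
  rw [one_div]
  congr 1
  change ((p : ℕ) : ℝ) - 1 = (((p : ℕ) - 1 : ℕ) : ℝ)
  rw [Nat.cast_sub h3, Nat.cast_one]

private theorem S04_GS {D Y : ℕ} (y : ℝ) :
    GS (ι := ↥(Ps D Y)) tauP nuP y ∅ =
      ∑ r ∈ ((univ : Finset (Finset ↥(Ps D Y))).filter fun A => (S04_R A : ℝ) ≤ y).image S04_R,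
        (1 : ℝ) / Nat.totient r := by
  rw [Finset.sum_image fun A _ B _ h => S04_inj h]
  unfold GS
  refine Finset.sum_congr ?_ fun A _ => S04_tot A
  ext A
  simp only [Finset.mem_filter, Finset.mem_univ, true_and, Finset.disjoint_empty_right, S04_sz]

private theorem S04_sub {D Y : ℕ} (y : ℝ) :
    ((univ : Finset (Finset ↥(Ps D Y))).filter fun A => (S04_R A : ℝ) ≤ y).image S04_R ⊆
      (Finset.Icc 1 ⌊y⌋₊).filter (fun r => Squarefree r ∧ Nat.Coprime r (Wd D)) := by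
  intro r hr
  obtain ⟨A, hA, rfl⟩ := Finset.mem_image.1 hr
  rw [Finset.mem_filter] at hA
  rw [Finset.mem_filter, Finset.mem_Icc]
  exact ⟨⟨S04_pos A, Nat.le_floor hA.2⟩, S04_sqfree A, S04_coprime A⟩

theorem GS_le_GW (D Y : ℕ) (y : ℝ) (hy : 0 ≤ y) :
    GS (ι := ↥(Ps D Y)) tauP nuP y ∅ ≤ GW D y := by
  rw [S04_GS]
  unfold GW
  exact Finset.sum_le_sum_of_subset_of_nonneg (S04_sub y) fun r _ _ => by positivity

theorem GS_eq_GW (D Y : ℕ) (y : ℝ) (hy : y ≤ Y) (hy0 : 0 ≤ y) :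
    GS (ι := ↥(Ps D Y)) tauP nuP y ∅ = GW D y := by
  rw [S04_GS]
  unfold GW
  refine Finset.sum_congr (Finset.Subset.antisymm (S04_sub y) ?_) fun _ _ => rfl
  intro r hr
  rw [Finset.mem_filter, Finset.mem_Icc] at hr
  obtain ⟨⟨hr1, hry⟩, hsq, hcop⟩ := hr
  have hry' : (r : ℝ) ≤ y := (Nat.le_floor_iff hy0).1 hry
  have hrY : r ≤ Y := by exact_mod_cast hry'.trans hy
  set A : Finset ↥(Ps D Y) := univ.filter fun p => (p : ℕ) ∣ r with hA
  have hmap : A.map (Function.Embedding.subtype _) = r.primeFactors := by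
    ext p
    rw [Finset.mem_map, Nat.mem_primeFactors]
    constructor
    · rintro ⟨q, hq, rfl⟩
      rw [hA, Finset.mem_filter] at hq
      exact ⟨S04_prime q, hq.2, by omega⟩
    · rintro ⟨hp, hpr, -⟩
      have hpY : p ≤ Y := (Nat.le_of_dvd (by omega) hpr).trans hrY
      have hpD : D < p := by
        by_contra hcon
        push Not at hcon
        have h1 : p ∣ Wd D := by
          unfold Wd
          exact Finset.dvd_prod_of_mem _
            (Finset.mem_filter.2 ⟨Finset.mem_range.2 (by omega), hp⟩)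
        exact Nat.not_coprime_of_dvd_of_dvd hp.one_lt hpr h1 hcop
      have hmem : p ∈ Ps D Y := by
        unfold Ps
        exact Finset.mem_filter.2 ⟨Finset.mem_range.2 (by omega), hp, hpD⟩
      exact ⟨⟨p, hmem⟩, Finset.mem_filter.2 ⟨Finset.mem_univ _, hpr⟩, rfl⟩
  have hR : S04_R A = r := by
    unfold S04_R
    rw [hmap]
    exact Nat.prod_primeFactors_of_squarefree hsq
  refine Finset.mem_image.2 ⟨A, Finset.mem_filter.2 ⟨Finset.mem_univ _, ?_⟩, hR⟩
  rw [hR]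
  exact hry'

theorem tauP_nonneg {D Y : ℕ} (p : ↥(Ps D Y)) : 0 ≤ tauP p := by
  unfold tauP
  have h1 : (1 : ℝ) ≤ (p : ℕ) := by exact_mod_cast (S04_prime p).one_lt.le
  exact div_nonneg zero_le_one (by linarith)

theorem tauP_le {D Y : ℕ} (hD : 1 ≤ D) (p : ↥(Ps D Y)) : tauP p ≤ 1 / (D : ℝ) := by
  unfold tauP
  have h1 : (D : ℝ) + 1 ≤ (p : ℕ) := by exact_mod_cast S04_lt p
  have h2 : (1 : ℝ) ≤ D := by exact_mod_cast hD
  exact one_div_le_one_div_of_le (by linarith) (by linarith)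

theorem one_le_nuP {D Y : ℕ} (p : ↥(Ps D Y)) : 1 ≤ nuP p := by
  unfold nuP
  exact_mod_cast (S04_prime p).one_lt.le

theorem one_le_nuP_mul_tauP {D Y : ℕ} (p : ↥(Ps D Y)) : 1 ≤ nuP p * tauP p := by
  unfold nuP tauP
  have h1 : (2 : ℝ) ≤ (p : ℕ) := by exact_mod_cast (S04_prime p).two_le
  rw [mul_one_div, le_div_iff₀ (by linarith)]
  linarith

theorem sum_tauP_sq_le (D Y : ℕ) (hD : 1 ≤ D) :
    ∑ p : ↥(Ps D Y), tauP p ^ 2 ≤ 2 / (D : ℝ) := by
  have h1 : ∑ p : ↥(Ps D Y), tauP p ^ 2 = ∑ p ∈ Ps D Y, ((((p - 1 : ℕ) : ℝ)) ^ 2)⁻¹ := by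
    rw [← Finset.sum_coe_sort (Ps D Y) (fun p : ℕ => ((((p - 1 : ℕ) : ℝ)) ^ 2)⁻¹)]
    refine Finset.sum_congr rfl fun p _ => ?_
    unfold tauP
    have h3 : 1 ≤ (p : ℕ) := (S04_prime p).one_lt.le
    rw [Nat.cast_sub h3, Nat.cast_one, one_div, inv_pow]
  have h2 : ∑ p ∈ Ps D Y, ((((p - 1 : ℕ) : ℝ)) ^ 2)⁻¹ =
      ∑ m ∈ (Ps D Y).image (fun p : ℕ => p - 1), ((m : ℝ) ^ 2)⁻¹ := by
    rw [Finset.sum_image]
    intro p hp q hq he
    have h3 : D < p := (Finset.mem_filter.1 hp).2.2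
    have h4 : D < q := (Finset.mem_filter.1 hq).2.2
    have h5 : p - 1 = q - 1 := he
    omega
  rw [h1, h2]
  have h3 : (Ps D Y).image (fun p : ℕ => p - 1) ⊆ Finset.Ioo (D - 1) Y := by
    intro m hm
    obtain ⟨p, hp, rfl⟩ := Finset.mem_image.1 hm
    have h4 : D < p := (Finset.mem_filter.1 hp).2.2
    have h5 : p < Y + 1 := Finset.mem_range.1 (Finset.mem_filter.1 hp).1
    rw [Finset.mem_Ioo]
    constructor <;> omega
  refine (Finset.sum_le_sum_of_subset_of_nonneg h3 fun m _ _ => by positivity).trans ?_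
  have h6 := sum_Ioo_inv_sq_le (α := ℝ) (D - 1) Y
  have h7 : (((D - 1 : ℕ) : ℝ)) + 1 = D := by
    rw [Nat.cast_sub hD, Nat.cast_one]
    ring
  rwa [h7] at h6

theorem prod_tauP_le_exp (D Y : ℕ) (hD : 1 ≤ D) (c : ℝ) (hc : 0 ≤ c) :
    ∏ p : ↥(Ps D Y), (1 + c * tauP p ^ 2) ≤ Real.exp (2 * c / D) := by
  calc ∏ p : ↥(Ps D Y), (1 + c * tauP p ^ 2)
      ≤ ∏ p : ↥(Ps D Y), Real.exp (c * tauP p ^ 2) := by
        refine Finset.prod_le_prod (fun p _ => ?_) fun p _ => ?_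
        · have := sq_nonneg (tauP p)
          positivity
        · rw [add_comm]
          exact Real.add_one_le_exp _
    _ = Real.exp (c * ∑ p : ↥(Ps D Y), tauP p ^ 2) := by
        rw [← Real.exp_sum, Finset.mul_sum]
    _ ≤ Real.exp (2 * c / D) := by
        apply Real.exp_le_exp.2
        have h1 := mul_le_mul_of_nonneg_left (sum_tauP_sq_le D Y hD) hc
        refine h1.trans (le_of_eq ?_)
        ring

end BVM

end
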