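import Pool.Agent.helper31.BVM.Defs

/-!
# BVM-X03: the residue class of a configuration

PROOF. For a prime `p > D` with a label `i`: `p ∤ a i`, so `p ∣ a i * n + b i` iff `n ≡ ρ mod p` for some
`ρ : ℕ` (inverse of `a i` mod `p`). The conditions are `n ≡ v0 mod Wd D` and `n ≡ ρ_p mod p` for
`p ∈ supp e`; the moduli are pairwise coprime (the primes in `supp e` are distinct and `> D`, the primes
dividing `Wd D` are `≤ D`), so the Chinese remainder theorem (`Nat.chineseRemainder`, by induction over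
a Finset, or `Nat.chineseRemainderOfFinset`) gives `r` with: the conditions hold for `n` iff
`n ≡ r mod Wd D * ∏_{p ∈ supp e} p`.
Coprimality: let `m` be a label not used by `e`, and suppose a prime `q` divides `a m * r + b m` and
`a m * (Wd D * ∏ p)`. If `q ≤ D` then `q ∣ Wd D`, `r ≡ v0 mod q`, and `q ∣ a m * v0 + b m`,
against `hv0`. If `q > D` then `q ∤ a m` (`hsep.1`), `q ∤ Wd D`, so `q = p ∈ supp e` with a label `i ≠ m`,
`q ∣ a i * r + b i`, hence `q ∣ a i (a m r + b m) - a m (a i r + b i) = a i b m - a m b i`, against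
`hsep.2`. The condition `Dv` for `r` itself holds since `r ≡ r`.
`dvd_disjoint`: same computation: `p` cannot divide two different forms at the same `n`.
-/

noncomputable section

namespace BVM

open Finset

variable {I : Type*} [Fintype I] [DecidableEq I]

theorem X03_prime {D Y : ℕ} (p : ↥(Ps D Y)) : (p : ℕ).Prime := by
  have h := p.2
  unfold Ps at h
  rw [Finset.mem_filter] at h
  exact h.2.1

theorem X03_lt {D Y : ℕ} (p : ↥(Ps D Y)) : D < (p : ℕ) := by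
  have h := p.2
  unfold Ps at h
  rw [Finset.mem_filter] at h
  exact h.2.2

theorem X03_coprime_Wd {D p : ℕ} (hp : p.Prime) (h : D < p) : Nat.Coprime (Wd D) p := by
  unfold Wd
  apply Nat.Coprime.prod_left
  intro q hq
  rw [Finset.mem_filter, Finset.mem_range] at hq
  rw [Nat.coprime_primes hq.2 hp]
  omega

theorem X03_coprime_prod {D Y : ℕ} (U : Finset ↥(Ps D Y)) (p : ↥(Ps D Y)) (hp : p ∉ U) :
    Nat.Coprime (Wd D * ∏ q ∈ U, (q : ℕ)) (p : ℕ) := by
  apply Nat.Coprime.mul_left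
  · exact X03_coprime_Wd (X03_prime p) (X03_lt p)
  · apply Nat.Coprime.prod_left
    intro q hq
    rw [Nat.coprime_primes (X03_prime q) (X03_prime p)]
    intro h
    exact hp (by rwa [← Subtype.ext h])

theorem X03_class_one {p : ℕ} (hp : p.Prime) (a : ℕ) (b : ℤ) (ha : ¬ p ∣ a) :
    ∃ ρ : ℕ, ∀ n : ℕ, (p : ℤ) ∣ a * n + b ↔ n ≡ ρ [MOD p] := by
  have : Fact p.Prime := ⟨hp⟩
  have ha' : ((a : ℕ) : ZMod p) ≠ 0 := by
    rw [Ne, ZMod.natCast_eq_zero_iff]
    exact ha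
  refine ⟨(-(b : ZMod p) / (a : ZMod p)).val, fun n => ?_⟩
  rw [← ZMod.natCast_eq_natCast_iff, ZMod.natCast_zmod_val, ← ZMod.intCast_zmod_eq_zero_iff_dvd]
  push_cast
  rw [eq_div_iff ha']
  constructor
  · intro h
    linear_combination h
  · intro h
    linear_combination h

theorem X03_crt {D Y : ℕ} (v0 : ℕ) (ρ : ↥(Ps D Y) → ℕ) (U : Finset ↥(Ps D Y)) :
    ∃ r : ℕ, ∀ n : ℕ, (n ≡ v0 [MOD Wd D] ∧ ∀ p ∈ U, n ≡ ρ p [MOD (p : ℕ)]) ↔
      n ≡ r [MOD Wd D * ∏ p ∈ U, (p : ℕ)] := by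
  induction U using Finset.induction_on with
  | empty =>
    refine ⟨v0, fun n => ?_⟩
    simp
  | insert q U hq ih =>
    obtain ⟨r, hr⟩ := ih
    have hc := X03_coprime_prod U q hq
    obtain ⟨k, hk1, hk2⟩ := Nat.chineseRemainder hc r (ρ q)
    refine ⟨k, fun n => ?_⟩
    have e : Wd D * ∏ p ∈ insert q U, (p : ℕ) = (Wd D * ∏ p ∈ U, (p : ℕ)) * (q : ℕ) := by
      rw [Finset.prod_insert hq]; ring
    rw [e, ← Nat.modEq_and_modEq_iff_modEq_mul hc]
    constructor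
    · rintro ⟨h1, h2⟩
      have h3 := (hr n).1 ⟨h1, fun p hp => h2 p (Finset.mem_insert_of_mem hp)⟩
      exact ⟨h3.trans hk1.symm, (h2 q (Finset.mem_insert_self _ _)).trans hk2.symm⟩
    · rintro ⟨h1, h2⟩
      obtain ⟨h3, h4⟩ := (hr n).2 (h1.trans hk1)
      refine ⟨h3, fun p hp => ?_⟩
      rw [Finset.mem_insert] at hp
      rcases hp with rfl | hp
      · exact h2.trans hk2
      · exact h4 p hp

theorem X03_disj {D : ℕ} (a : I → ℕ) (b : I → ℤ) (hsep : Sep D a b) (n : ℕ)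
    {p : ℕ} (hp : p.Prime) (hD : D < p) (i j : I) (hij : i ≠ j) (hi : (p : ℤ) ∣ a i * n + b i)
    (hj : (p : ℤ) ∣ a j * n + b j) : False := by
  apply hsep.2 p hp hD i j hij
  have h := (hj.mul_left (a i : ℤ)).sub (hi.mul_left (a j : ℤ))
  have e : (a i : ℤ) * (a j * n + b j) - a j * (a i * n + b i) = a i * b j - a j * b i := by ring
  rwa [e] at h

theorem crt_class {D Y : ℕ} (a : I → ℕ) (b : I → ℤ) (hsep : Sep D a b) (v0 : ℕ)
    (hv0 : ∀ i, Int.gcd (a i * v0 + b i) (Wd D) = 1) (e : ↥(Ps D Y) → Option I) :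
    ∃ r : ℕ,
      (∀ n : ℕ, (n ≡ v0 [MOD Wd D] ∧ Dv a b e n) ↔
        n ≡ r [MOD Wd D * ∏ p ∈ supp e, (p : ℕ)]) ∧
      ∀ m, NoLab {m} e →
        Int.gcd (a m * r + b m) ((a m * (Wd D * ∏ p ∈ supp e, (p : ℕ)) : ℕ) : ℤ) = 1 := by
  have h1 : ∀ p : ↥(Ps D Y), ∃ ρ : ℕ, ∀ i, e p = some i →
      ∀ n : ℕ, ((p : ℕ) : ℤ) ∣ a i * n + b i ↔ n ≡ ρ [MOD (p : ℕ)] := by
    intro p
    rcases h : e p with _ | i
    · exact ⟨0, fun i hi => by simp at hi⟩
    · obtain ⟨ρ, hρ⟩ := X03_class_one (X03_prime p) (a i) (b i) (hsep.1 p (X03_prime p) (X03_lt p) i)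
      refine ⟨ρ, fun j hj => ?_⟩
      have hij : i = j := by simpa using hj
      subst hij
      exact hρ
  choose ρ hρ using h1
  obtain ⟨r, hr⟩ := X03_crt v0 ρ (supp e)
  have hDv : ∀ n, Dv a b e n ↔ ∀ p ∈ supp e, n ≡ ρ p [MOD (p : ℕ)] := by
    intro n
    constructor
    · intro h p hp
      unfold supp at hp
      rw [Finset.mem_filter] at hp
      obtain ⟨i, hi⟩ := Option.ne_none_iff_exists'.1 hp.2
      exact (hρ p i hi n).1 (h p i hi)
    · intro h p i hi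
      refine (hρ p i hi n).2 (h p ?_)
      unfold supp
      rw [Finset.mem_filter]
      exact ⟨Finset.mem_univ _, by rw [hi]; simp⟩
  have hiff : ∀ n : ℕ, (n ≡ v0 [MOD Wd D] ∧ Dv a b e n) ↔
      n ≡ r [MOD Wd D * ∏ p ∈ supp e, (p : ℕ)] := by
    intro n
    rw [hDv n]
    exact hr n
  refine ⟨r, hiff, ?_⟩
  intro m hm
  obtain ⟨hr1, hr2⟩ := (hiff r).2 rfl
  by_contra hne
  obtain ⟨q, hq, hqd⟩ := Nat.exists_prime_and_dvd hne
  have hq1 : (q : ℤ) ∣ a m * r + b m := (Int.natCast_dvd_natCast.2 hqd).trans (Int.gcd_dvd_left ..)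
  have hq2 : q ∣ a m * (Wd D * ∏ p ∈ supp e, (p : ℕ)) :=
    Int.natCast_dvd_natCast.1 ((Int.natCast_dvd_natCast.2 hqd).trans (Int.gcd_dvd_right ..))
  by_cases hqD : q ≤ D
  · have hqW : q ∣ Wd D := by
      unfold Wd
      apply Finset.dvd_prod_of_mem (fun p => p)
      rw [Finset.mem_filter, Finset.mem_range]
      exact ⟨by omega, hq⟩
    have h2 : r ≡ v0 [MOD q] := hr1.of_dvd hqW
    have h3 : (q : ℤ) ∣ (v0 : ℤ) - r := (Nat.modEq_iff_dvd).1 h2
    have h4 : (q : ℤ) ∣ a m * v0 + b m := by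
      have h5 := (h3.mul_left (a m : ℤ)).add hq1
      have e1 : (a m : ℤ) * ((v0 : ℤ) - r) + (a m * r + b m) = a m * v0 + b m := by ring
      rwa [e1] at h5
    have h6 : (q : ℤ) ∣ ((Int.gcd (a m * v0 + b m) (Wd D) : ℕ) : ℤ) :=
      Int.dvd_coe_gcd h4 (Int.natCast_dvd_natCast.2 hqW)
    rw [hv0 m] at h6
    have h7 : q ∣ 1 := Int.natCast_dvd_natCast.1 h6
    exact hq.one_lt.ne' (Nat.dvd_one.1 h7)
  · push Not at hqD
    rcases (Nat.Prime.dvd_mul hq).1 hq2 with h | h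
    · exact hsep.1 q hq hqD m h
    rcases (Nat.Prime.dvd_mul hq).1 h with h | h
    · have h8 := X03_coprime_Wd hq hqD
      have h9 := Nat.Coprime.eq_one_of_dvd (Nat.Coprime.symm h8) h
      exact hq.one_lt.ne' h9
    · obtain ⟨p, hp, hqp⟩ := (Prime.dvd_finsetProd_iff hq.prime _).1 h
      have h10 : q = (p : ℕ) := (Nat.prime_dvd_prime_iff_eq hq (X03_prime p)).1 hqp
      unfold supp at hp
      rw [Finset.mem_filter] at hp
      obtain ⟨i, hi⟩ := Option.ne_none_iff_exists'.1 hp.2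
      have him : i ≠ m := by
        rintro rfl
        exact hm p i (Finset.mem_singleton_self _) hi
      have h11 := hr2 p i hi
      rw [← h10] at h11
      exact X03_disj a b hsep r hq hqD i m him h11 hq1

theorem dvd_disjoint {D Y : ℕ} (a : I → ℕ) (b : I → ℤ) (hsep : Sep D a b) (n : ℕ)
    (p : ↥(Ps D Y)) (i j : I) (hij : i ≠ j) (hi : ((p : ℕ) : ℤ) ∣ a i * n + b i)
    (hj : ((p : ℕ) : ℤ) ∣ a j * n + b j) : False := by
  exact X03_disj a b hsep n (X03_prime p) (X03_lt p) i j hij hi hj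

theorem coprime_Wd_prod {D Y : ℕ} (U : Finset ↥(Ps D Y)) :
    Nat.Coprime (Wd D) (∏ p ∈ U, (p : ℕ)) := by
  apply Nat.Coprime.prod_right
  intro p _
  exact X03_coprime_Wd (X03_prime p) (X03_lt p)

end BVM

end
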