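import Pool.Agent.helper31.BVM.Defs

/-!
# BVM-X04: counting in a class, and primes in a class

PROOFS. `count_class`: the number of `n ∈ [N, 2N)` with `n ≡ r mod q` is between `⌊N/q⌋` and
`⌊N/q⌋ + 1` (an interval of length `N` splits into `⌊N/q⌋` blocks of length `q` and a shorter one).
Mathlib has `Nat.Ico_filter_modEq_card` / `Nat.count_modEq_card` and `Int.Ico_filter_modEq_card`.
`lgp_class`: the map `n ↦ ℓ = a n + b` is a bijection from `{n ∈ [N, 2N), n ≡ r mod q}` onto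
`{ℓ ∈ [aN+b, 2aN+b), ℓ ≡ a r + b mod a q}` (`a > 0`), because `a (n - r) ≡ 0 mod a q` iff `n ≡ r mod q`,
and every `ℓ ≡ a r + b mod a q` is `≡ b mod a`. Let `c : ℕ` be a representative of `a r + b` mod `a q`
(`c = (a r + b) % (a q)` as an integer, then `toNat`), `Nat.Coprime c (a q)`. With
`y1 = (a N + b - 1).toNat`, `y2 = (2 a N + b - 1).toNat` (both integers are `≥ 0`) the sum is
`theta y2 (a q) c - theta y1 (a q) c`, and `y2 - y1 = a N`. Apply the hypothesis twice (`y1 ≤ y2 ≤ x`).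
-/

noncomputable section

namespace BVM

open Finset

theorem count_class (N q r : ℕ) (hq : 0 < q) :
    |∑ n ∈ Finset.Ico N (2 * N), (if n ≡ r [MOD q] then (1 : ℝ) else 0) - N / q| ≤ 1 := by
  have h0 : ∑ n ∈ Finset.Ico N (2 * N), (if n ≡ r [MOD q] then (1 : ℝ) else 0) =
      (((Finset.Ico N (2 * N)).filter (fun n => n ≡ r [MOD q])).card : ℝ) := by
    rw [Finset.sum_ite]
    simp
  have h1 := Nat.Ico_filter_modEq_card N (2 * N) hq r
  set K := ((Finset.Ico N (2 * N)).filter (fun n => n ≡ r [MOD q])).card with hK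
  set u : ℤ := ⌈(((2 * N : ℕ) : ℚ) - r) / (q : ℚ)⌉ with hu
  set v : ℤ := ⌈((N : ℚ) - r) / (q : ℚ)⌉ with hv
  have hu1 := Int.le_ceil ((((2 * N : ℕ) : ℚ) - r) / (q : ℚ))
  have hu2 := Int.ceil_lt_add_one ((((2 * N : ℕ) : ℚ) - r) / (q : ℚ))
  have hv1 := Int.le_ceil (((N : ℚ) - r) / (q : ℚ))
  have hv2 := Int.ceil_lt_add_one (((N : ℚ) - r) / (q : ℚ))
  rw [← hu] at hu1 hu2
  rw [← hv] at hv1 hv2
  have hq0 : (0 : ℚ) < q := by exact_mod_cast hq
  have e1 : (((2 * N : ℕ) : ℚ) - r) / (q : ℚ) = ((N : ℚ) - r) / (q : ℚ) + N / q := by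
    push_cast
    field_simp
    ring
  rw [e1] at hu1 hu2
  have hNq : (0 : ℚ) ≤ N / q := by positivity
  have h2 : |((K : ℚ)) - N / q| ≤ 1 := by
    have h3 : ((K : ℤ) : ℚ) = max ((u : ℚ) - v) 0 := by
      rw [h1]
      push_cast
      rfl
    have h4 : (K : ℚ) = max ((u : ℚ) - v) 0 := by
      rw [← h3]
      push_cast
      rfl
    rw [h4, abs_le]
    constructor
    · have := le_max_left ((u : ℚ) - v) 0
      linarith
    · rcases max_cases ((u : ℚ) - v) 0 with ⟨h, _⟩ | ⟨h, _⟩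
      · rw [h]
        linarith
      · rw [h]
        linarith
  rw [h0]
  have h5 : (((|((K : ℚ)) - N / q| : ℚ)) : ℝ) ≤ ((1 : ℚ) : ℝ) := by exact_mod_cast h2
  push_cast at h5
  exact h5

private theorem X04_theta_sub {y1 y2 q c : ℕ} (h : y1 ≤ y2) :
    theta y2 q c - theta y1 q c =
      ∑ p ∈ (Finset.Ioc y1 y2).filter (fun p => p.Prime ∧ p ≡ c [MOD q]), Real.log p := by
  have hd : Disjoint ((Finset.range (y1 + 1)).filter (fun p => p.Prime ∧ p ≡ c [MOD q]))
      ((Finset.Ioc y1 y2).filter (fun p => p.Prime ∧ p ≡ c [MOD q])) := by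
    rw [Finset.disjoint_left]
    intro p hp hp'
    rw [Finset.mem_filter, Finset.mem_range] at hp
    rw [Finset.mem_filter, Finset.mem_Ioc] at hp'
    omega
  have hu : (Finset.range (y2 + 1)).filter (fun p => p.Prime ∧ p ≡ c [MOD q]) =
      (Finset.range (y1 + 1)).filter (fun p => p.Prime ∧ p ≡ c [MOD q]) ∪
        (Finset.Ioc y1 y2).filter (fun p => p.Prime ∧ p ≡ c [MOD q]) := by
    ext p
    simp only [Finset.mem_union, Finset.mem_filter, Finset.mem_range, Finset.mem_Ioc]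
    constructor
    · rintro ⟨h1, h2⟩
      by_cases hp : p < y1 + 1
      · exact Or.inl ⟨hp, h2⟩
      · exact Or.inr ⟨by omega, h2⟩
    · rintro (⟨h1, h2⟩ | ⟨h1, h2⟩)
      · exact ⟨by omega, h2⟩
      · exact ⟨by omega, h2⟩
  unfold theta
  rw [hu, Finset.sum_union hd]
  ring

theorem lgp_class (E : ℕ → ℝ) (x : ℕ)
    (hE : ∀ y ≤ x, ∀ q, 1 ≤ q → ∀ c, Nat.Coprime c q →
      |theta y q c - y / Nat.totient q| ≤ E q)
    (a : ℕ) (b : ℤ) (ha : 0 < a) (N q r : ℕ) (hq : 0 < q)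
    (hN : 1 ≤ (a : ℤ) * N + b) (hx : 2 * (a : ℤ) * N + b ≤ x)
    (hc : Int.gcd (a * r + b) ((a * q : ℕ) : ℤ) = 1) :
    |∑ n ∈ Finset.Ico N (2 * N), (if n ≡ r [MOD q] then lgp ((a : ℤ) * n + b).toNat else 0)
      - a * N / Nat.totient (a * q)| ≤ 2 * E (a * q) := by
  have haq : 0 < a * q := Nat.mul_pos ha hq
  have haZ : (0 : ℤ) < a := by exact_mod_cast ha
  have haqZ : (0 : ℤ) < ((a * q : ℕ) : ℤ) := by exact_mod_cast haq
  set y1 : ℕ := ((a : ℤ) * N + b - 1).toNat with hy1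
  set y2 : ℕ := (2 * (a : ℤ) * N + b - 1).toNat with hy2
  set c : ℕ := (((a : ℤ) * r + b) % ((a * q : ℕ) : ℤ)).toNat with hcdef
  have haN : (0 : ℤ) ≤ (a : ℤ) * N := by positivity
  have hy1Z : (y1 : ℤ) = (a : ℤ) * N + b - 1 := by
    rw [hy1, Int.toNat_of_nonneg (by linarith)]
  have hy2Z : (y2 : ℤ) = 2 * (a : ℤ) * N + b - 1 := by
    rw [hy2, Int.toNat_of_nonneg (by linarith)]
  have hcZ : (c : ℤ) = ((a : ℤ) * r + b) % ((a * q : ℕ) : ℤ) := by
    rw [hcdef, Int.toNat_of_nonneg (Int.emod_nonneg _ haqZ.ne')]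
  have hcmod : (c : ℤ) ≡ (a : ℤ) * r + b [ZMOD ((a * q : ℕ) : ℤ)] := by
    rw [hcZ]
    exact Int.mod_modEq _ _
  have hcop : Nat.Coprime c (a * q) := by
    have h1 : IsCoprime ((a : ℤ) * r + b) ((a * q : ℕ) : ℤ) := Int.isCoprime_iff_gcd_eq_one.2 hc
    have h2 : (a : ℤ) * r + b =
        (c : ℤ) + ((a * q : ℕ) : ℤ) * (((a : ℤ) * r + b) / ((a * q : ℕ) : ℤ)) := by
      rw [hcZ, Int.emod_add_mul_ediv]
    rw [h2, IsCoprime.add_mul_left_left_iff] at h1
    exact Nat.isCoprime_iff_coprime.1 h1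
  have hy12 : y1 ≤ y2 := by
    have : (y1 : ℤ) ≤ y2 := by
      rw [hy1Z, hy2Z]
      linarith
    exact_mod_cast this
  have hy2x : y2 ≤ x := by
    have : (y2 : ℤ) ≤ x := by
      rw [hy2Z]
      linarith
    exact_mod_cast this
  have hsum : ∑ n ∈ Finset.Ico N (2 * N),
      (if n ≡ r [MOD q] then lgp ((a : ℤ) * n + b).toNat else 0) =
      theta y2 (a * q) c - theta y1 (a * q) c := by
    rw [X04_theta_sub hy12]
    have e1 : ∑ n ∈ Finset.Ico N (2 * N),
        (if n ≡ r [MOD q] then lgp ((a : ℤ) * n + b).toNat else 0) =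
        ∑ n ∈ (Finset.Ico N (2 * N)).filter
          (fun n => n ≡ r [MOD q] ∧ ((a : ℤ) * n + b).toNat.Prime),
            Real.log (((a : ℤ) * n + b).toNat : ℕ) := by
      rw [Finset.sum_filter]
      refine Finset.sum_congr rfl fun n _ => ?_
      unfold lgp
      by_cases h1 : n ≡ r [MOD q]
      · by_cases h2 : ((a : ℤ) * n + b).toNat.Prime
        · simp [h1, h2]
        · simp [h2]
      · simp [h1]
    rw [e1]
    refine Finset.sum_bij (fun n _ => ((a : ℤ) * n + b).toNat) ?_ ?_ ?_ ?_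
    · intro n hn
      rw [Finset.mem_filter, Finset.mem_Ico] at hn
      obtain ⟨⟨hn1, hn2⟩, hn3, hn4⟩ := hn
      have g1 : (a : ℤ) * N ≤ a * n := by
        have : (N : ℤ) ≤ n := by exact_mod_cast hn1
        exact mul_le_mul_of_nonneg_left this haZ.le
      have g2 : (a : ℤ) * n + 1 ≤ 2 * a * N := by
        have : (n : ℤ) + 1 ≤ 2 * N := by exact_mod_cast hn2
        nlinarith
      have hp : ((((a : ℤ) * n + b).toNat : ℕ) : ℤ) = (a : ℤ) * n + b :=
        Int.toNat_of_nonneg (by linarith)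
      rw [Finset.mem_filter, Finset.mem_Ioc]
      refine ⟨⟨?_, ?_⟩, hn4, ?_⟩
      · have : (y1 : ℤ) < (((a : ℤ) * n + b).toNat : ℕ) := by
          rw [hp, hy1Z]
          linarith
        exact_mod_cast this
      · have : ((((a : ℤ) * n + b).toNat : ℕ) : ℤ) ≤ y2 := by
          rw [hp, hy2Z]
          linarith
        exact_mod_cast this
      · rw [← Int.natCast_modEq_iff, hp]
        refine Int.ModEq.trans ?_ hcmod.symm
        have h3 : (n : ℤ) ≡ r [ZMOD q] := Int.natCast_modEq_iff.2 hn3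
        have h4 : (a : ℤ) * n ≡ a * r [ZMOD ((a * q : ℕ) : ℤ)] := by
          push_cast
          exact h3.mul_left'
        exact h4.add_right b
    · intro n hn n' hn' h
      rw [Finset.mem_filter, Finset.mem_Ico] at hn hn'
      have hge : ∀ m : ℕ, N ≤ m → (0 : ℤ) ≤ (a : ℤ) * m + b := by
        intro m hm
        have : (N : ℤ) ≤ m := by exact_mod_cast hm
        nlinarith
      have h1 : (a : ℤ) * n + b = (a : ℤ) * n' + b := by
        have h2 := congrArg (fun k : ℕ => (k : ℤ)) h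
        rwa [Int.toNat_of_nonneg (hge n hn.1.1), Int.toNat_of_nonneg (hge n' hn'.1.1)] at h2
      have h2 : (n : ℤ) = n' := by
        have : (a : ℤ) * n = a * n' := by linarith
        exact mul_left_cancel₀ haZ.ne' this
      exact_mod_cast h2
    · intro p hp
      rw [Finset.mem_filter, Finset.mem_Ioc] at hp
      obtain ⟨⟨hp1, hp2⟩, hp3, hp4⟩ := hp
      have h1 : (p : ℤ) ≡ (a : ℤ) * r + b [ZMOD ((a * q : ℕ) : ℤ)] :=
        (Int.natCast_modEq_iff.2 hp4).trans hcmod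
      obtain ⟨k, hk⟩ := h1.symm.dvd
      push_cast at hk
      have h2 : (p : ℤ) = a * (r + q * k) + b := by linarith
      have hp1' : (y1 : ℤ) < p := by exact_mod_cast hp1
      have hp2' : (p : ℤ) ≤ y2 := by exact_mod_cast hp2
      rw [hy1Z] at hp1'
      rw [hy2Z] at hp2'
      have h3 : (N : ℤ) ≤ r + q * k := by
        have : (a : ℤ) * N ≤ a * (r + q * k) := by linarith
        exact le_of_mul_le_mul_left this haZ
      have h4 : (r + q * k : ℤ) < 2 * N := by
        have : (a : ℤ) * (r + q * k) < a * (2 * N) := by linarith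
        exact lt_of_mul_lt_mul_left this haZ.le
      have h5 : (0 : ℤ) ≤ r + q * k := le_trans (by positivity) h3
      have h6 : (((r + q * k : ℤ).toNat : ℕ) : ℤ) = r + q * k := Int.toNat_of_nonneg h5
      have h7 : ((a : ℤ) * ((r + q * k : ℤ).toNat : ℕ) + b).toNat = p := by
        rw [h6, ← h2, Int.toNat_natCast]
      refine ⟨(r + q * k : ℤ).toNat, ?_, h7⟩
      rw [Finset.mem_filter, Finset.mem_Ico]
      refine ⟨⟨?_, ?_⟩, ?_, ?_⟩
      · have : (N : ℤ) ≤ ((r + q * k : ℤ).toNat : ℕ) := by rw [h6]; exact h3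
        exact_mod_cast this
      · have : (((r + q * k : ℤ).toNat : ℕ) : ℤ) < ((2 * N : ℕ) : ℤ) := by
          rw [h6]
          push_cast
          exact h4
        exact_mod_cast this
      · rw [← Int.natCast_modEq_iff, h6]
        exact (Int.modEq_iff_dvd.2 ⟨-k, by ring⟩)
      · rw [h7]
        exact hp3
    · intro n _
      rfl
  have h1 := hE y2 hy2x (a * q) haq c hcop
  have h2 := hE y1 (hy12.trans hy2x) (a * q) haq c hcop
  rw [hsum]
  have h3 : (y2 : ℝ) - y1 = a * N := by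
    have : (y2 : ℤ) - y1 = a * N := by
      rw [hy1Z, hy2Z]
      ring
    exact_mod_cast this
  have h4 : theta y2 (a * q) c - theta y1 (a * q) c - a * N / Nat.totient (a * q) =
      (theta y2 (a * q) c - y2 / Nat.totient (a * q)) -
        (theta y1 (a * q) c - y1 / Nat.totient (a * q)) := by
    rw [← h3]
    ring
  rw [h4]
  calc |(theta y2 (a * q) c - y2 / Nat.totient (a * q)) -
        (theta y1 (a * q) c - y1 / Nat.totient (a * q))| ≤ _ := abs_sub _ _
    _ ≤ 2 * E (a * q) := by linarith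

end BVM

end
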