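import Pool.Agent.helper31.BVM.X01
import Pool.Agent.helper31.BVM.X03
import Pool.Agent.helper31.BVM.X04

/-!
# BVM-X05: expansions of the three basic sums

Both proofs apply `expansion` (X01) with `ι = ↥(Ps D Y)`, `Ev p i n = (p ∣ a i * n + b i)`,
`hdisj = dvd_disjoint` (X03), `dsum a b lm n = ∑_c if Dv a b c n then lm c else 0`.

`S0_expansion`: `T = {n ∈ [N, 2N) : n ≡ v0 mod Wd D}`, `F = 1`, `J = univ`, `X = N / Wd D`, `E U = 1`,
`t p = tauP p / (1 + tauP p) = 1/p`. The hypothesis `hE`: by `crt_class` the sum over `T` of the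
indicator of `Dv a b e n` is the number of `n ∈ [N,2N)`, `n ≡ r mod q`, `q = Wd D * ∏_{p∈supp e} p`, and
`count_class` gives `N / q + O(1)`, where `N / q = (N / Wd D) * wt (1/p) e` (`wt t e` is the product
over `supp e`). The error sum is at most `∑_{c,c'} |lm c| |lm c'| = (∑ |lm c|)^2`.
`Sm_expansion`: the same `T`, `F n = lgp (a m * n + b m)`, `J = univ.erase m`,
`X = a m * N / φ(a m * Wd D)`, `t = tauP`, `E U = 2 E (a m * (Wd D * ∏_{p ∈ U} p))`. Hypothesis `hE`: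
`crt_class` and `lgp_class` with `q = Wd D * ∏_{p∈supp e} p` (coprimality by the second part of
`crt_class`, as `e` has no label `m`), and `φ(a m * Wd D * ∏ p) = φ(a m * Wd D) * ∏ (p - 1)`: the
primes `p ∈ supp e` are `> D`, hence coprime to `a m * Wd D` (`hsep.1`, and `Wd D` is a product of primes
`≤ D`), distinct, so `Nat.totient_mul` and `Nat.totient_prime` by induction over the Finset.
-/

noncomputable section

namespace BVM

open Finset

variable {I : Type*} [Fintype I] [DecidableEq I]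

open Classical in
theorem X05_exp {ι : Type*} [Fintype ι] [DecidableEq ι] {Ω : Type*} (T : Finset Ω) (F : Ω → ℝ)
    (Ev : ι → I → Ω → Prop)
    (hdisj : ∀ ω ∈ T, ∀ p i j, i ≠ j → Ev p i ω → Ev p j ω → False)
    (J : Finset I) (X : ℝ) (t : ι → ℝ) (E : Finset ι → ℝ)
    (Dvv : (ι → Option I) → Ω → Prop)
    (hD : ∀ c ω, Dvv c ω ↔ ∀ p i, c p = some i → Ev p i ω)
    (hE : ∀ e : ι → Option I, (∀ p i, e p = some i → i ∈ J) →
      |∑ ω ∈ T, (if Dvv e ω then F ω else 0) - X * wt t e| ≤ E (supp e))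
    (lm : (ι → Option I) → ℝ) (hlm : ∀ c, lm c ≠ 0 → ∀ p i, c p = some i → i ∈ J)
    (G : Ω → ℝ) (hG : ∀ ω ∈ T, G ω = ∑ c : ι → Option I, if Dvv c ω then lm c else 0) :
    |∑ ω ∈ T, F ω * G ω ^ 2 - X * QF (fun p => Bk (t p)) lm| ≤
    ∑ c : ι → Option I, ∑ c' : ι → Option I,
      if Compat c c' then |lm c| * |lm c'| * E (supp c ∪ supp c') else 0 := by
  have h1 : ∀ (c : ι → Option I) (ω : Ω) (x : ℝ), (if Dvv c ω then x else 0) =
      if ∀ p i, c p = some i → Ev p i ω then x else 0 := by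
    intro c ω x
    by_cases h : Dvv c ω
    · rw [if_pos h, if_pos ((hD c ω).mp h)]
    · rw [if_neg h, if_neg (fun h2 => h ((hD c ω).mpr h2))]
  have hmain := expansion T F Ev hdisj J X t E (by
    intro e he
    have h2 := hE e he
    rw [Finset.sum_congr rfl (fun ω _ => h1 e ω (F ω))] at h2
    exact h2) lm hlm
  have hL : ∑ ω ∈ T, F ω * G ω ^ 2 = ∑ ω ∈ T, F ω * (∑ c : ι → Option I,
        if ∀ p i, c p = some i → Ev p i ω then lm c else 0) ^ 2 := by
    apply Finset.sum_congr rfl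
    intro ω hω
    rw [hG ω hω, Finset.sum_congr rfl (fun c _ => h1 c ω (lm c))]
  rw [hL]
  exact hmain

theorem X05_Wd_pos (D : ℕ) : 0 < Wd D := by
  unfold Wd
  apply Finset.prod_pos
  intro p hp
  exact (Finset.mem_filter.mp hp).2.pos

theorem X05_mem {D Y : ℕ} (p : ↥(Ps D Y)) : (p : ℕ).Prime ∧ D < (p : ℕ) :=
  (Finset.mem_filter.mp p.2).2

theorem X05_prod_pos {D Y : ℕ} (U : Finset ↥(Ps D Y)) : 0 < ∏ p ∈ U, (p : ℕ) :=
  Finset.prod_pos (fun p _ => (X05_mem p).1.pos)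

theorem X05_wt {D Y : ℕ} (t : ↥(Ps D Y) → ℝ) (e : ↥(Ps D Y) → Option I) :
    wt t e = ∏ p ∈ supp e, t p := by
  unfold wt supp
  rw [Finset.prod_filter]
  apply Finset.prod_congr rfl
  intro p _
  by_cases h : e p = none
  · simp [h]
  · simp [h]

theorem X05_t {D Y : ℕ} (p : ↥(Ps D Y)) : tauP p / (1 + tauP p) = 1 / ((p : ℕ) : ℝ) := by
  have h1 : (2 : ℝ) ≤ ((p : ℕ) : ℝ) := by exact_mod_cast (X05_mem p).1.two_le
  unfold tauP
  have h2 : ((p : ℕ) : ℝ) - 1 ≠ 0 := by linarith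
  have h3 : ((p : ℕ) : ℝ) ≠ 0 := by linarith
  have h4 : 1 + 1 / (((p : ℕ) : ℝ) - 1) = ((p : ℕ) : ℝ) / (((p : ℕ) : ℝ) - 1) := by
    field_simp
    ring
  rw [h4]
  field_simp

theorem X05_totient {D Y : ℕ} (a : I → ℕ) (b : I → ℤ) (hsep : Sep D a b) (m : I)
    (U : Finset ↥(Ps D Y)) :
    ((Nat.totient (a m * (Wd D * ∏ p ∈ U, (p : ℕ))) : ℕ) : ℝ) =
      Nat.totient (a m * Wd D) * ∏ p ∈ U, (((p : ℕ) : ℝ) - 1) := by
  classical
  induction U using Finset.induction_on with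
  | empty => simp
  | insert p U hp ih =>
    have hpp := X05_mem p
    have hcop : Nat.Coprime (p : ℕ) (a m * (Wd D * ∏ p ∈ U, (p : ℕ))) := by
      rw [Nat.Prime.coprime_iff_not_dvd hpp.1]
      intro hd
      rw [hpp.1.dvd_mul, hpp.1.dvd_mul] at hd
      rcases hd with hd | hd | hd
      · exact hsep.1 p hpp.1 hpp.2 m hd
      · unfold Wd at hd
        rw [Prime.dvd_finset_prod_iff hpp.1.prime] at hd
        obtain ⟨q, hq, hd⟩ := hd
        have hq' := Finset.mem_filter.mp hq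
        have h1 := (Nat.prime_dvd_prime_iff_eq hpp.1 hq'.2).mp hd
        have h2 := Finset.mem_range.mp hq'.1
        omega
      · rw [Prime.dvd_finset_prod_iff hpp.1.prime] at hd
        obtain ⟨q, hq, hd⟩ := hd
        have h1 := (Nat.prime_dvd_prime_iff_eq hpp.1 (X05_mem q).1).mp hd
        have h2 : p = q := Subtype.ext h1
        exact hp (h2 ▸ hq)
    rw [Finset.prod_insert hp, Finset.prod_insert hp]
    have h1 : a m * (Wd D * ((p : ℕ) * ∏ x ∈ U, (x : ℕ))) =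
        (p : ℕ) * (a m * (Wd D * ∏ p ∈ U, (p : ℕ))) := by ring
    rw [h1, Nat.totient_mul hcop, Nat.totient_prime hpp.1, Nat.cast_mul, ih,
      Nat.cast_sub hpp.1.one_le]
    push_cast
    ring

open Classical in
theorem X05_sum {D Y : ℕ} (a : I → ℕ) (b : I → ℤ) (v0 : ℕ) (N : ℕ) (F : ℕ → ℝ)
    (e : ↥(Ps D Y) → Option I) (q r : ℕ)
    (hr : ∀ n : ℕ, (n ≡ v0 [MOD Wd D] ∧ Dv a b e n) ↔ n ≡ r [MOD q]) :
    ∑ n ∈ (Finset.Ico N (2 * N)).filter (fun n => n ≡ v0 [MOD Wd D]),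
      (if Dv a b e n then F n else 0) =
    ∑ n ∈ Finset.Ico N (2 * N), (if n ≡ r [MOD q] then F n else 0) := by
  rw [Finset.sum_filter]
  apply Finset.sum_congr rfl
  intro n _
  have h := hr n
  by_cases h1 : n ≡ v0 [MOD Wd D]
  · by_cases h2 : Dv a b e n
    · rw [if_pos h1, if_pos h2, if_pos (h.mp ⟨h1, h2⟩)]
    · rw [if_pos h1, if_neg h2, if_neg (fun h3 => h2 (h.mpr h3).2)]
  · rw [if_neg h1, if_neg (fun h3 => h1 (h.mpr h3).1)]

theorem X05_fac0 {D Y : ℕ} (N : ℕ) (e : ↥(Ps D Y) → Option I) :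
    (N : ℝ) / Wd D * wt (fun p => tauP p / (1 + tauP p)) e =
          (N : ℝ) / ((Wd D * ∏ p ∈ supp e, (p : ℕ) : ℕ) : ℝ) := by
  rw [X05_wt]
  have h4 : ∏ p ∈ supp e, tauP p / (1 + tauP p) = 1 / ∏ p ∈ supp e, ((p : ℕ) : ℝ) := by
    rw [Finset.prod_congr rfl (fun p _ => X05_t p), Finset.prod_div_distrib]
    simp
  rw [h4]
  push_cast
  have h5 : (0 : ℝ) < Wd D := by exact_mod_cast X05_Wd_pos D
  have h6 : (0 : ℝ) < ∏ p ∈ supp e, ((p : ℕ) : ℝ) := by
    exact_mod_cast X05_prod_pos (supp e)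
  field_simp

theorem X05_fac1 {D Y : ℕ} (a : I → ℕ) (b : I → ℤ) (hpos : ∀ i, 0 < a i)
    (hsep : Sep D a b) (N : ℕ) (m : I) (e : ↥(Ps D Y) → Option I) :
    (a m : ℝ) * N / Nat.totient (a m * Wd D) * wt (fun p => tauP p) e =
          (a m : ℝ) * N / Nat.totient (a m * (Wd D * ∏ p ∈ supp e, (p : ℕ))) := by
  rw [X05_wt, X05_totient a b hsep m (supp e)]
  have h4 : ∏ p ∈ supp e, tauP p = 1 / ∏ p ∈ supp e, (((p : ℕ) : ℝ) - 1) := by
    unfold tauP
    rw [Finset.prod_div_distrib]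
    simp
  rw [h4]
  have h5 : (0 : ℝ) < Nat.totient (a m * Wd D) := by
    have := Nat.totient_pos.mpr (Nat.mul_pos (hpos m) (X05_Wd_pos D))
    exact_mod_cast this
  have h6 : (0 : ℝ) < ∏ p ∈ supp e, (((p : ℕ) : ℝ) - 1) := by
    apply Finset.prod_pos
    intro p _
    have : (2 : ℝ) ≤ ((p : ℕ) : ℝ) := by exact_mod_cast (X05_mem p).1.two_le
    linarith
  field_simp

theorem S0_expansion {D Y : ℕ} (a : I → ℕ) (b : I → ℤ) (hsep : Sep D a b) (v0 : ℕ)
    (hv0 : ∀ i, Int.gcd (a i * v0 + b i) (Wd D) = 1) (N : ℕ)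
    (lm : (↥(Ps D Y) → Option I) → ℝ) :
    |∑ n ∈ Finset.Ico N (2 * N), (if n ≡ v0 [MOD Wd D] then dsum a b lm n ^ 2 else 0)
      - N / Wd D * QF (fun p : ↥(Ps D Y) => Bk (tauP p / (1 + tauP p))) lm| ≤
    (∑ c, |lm c|) ^ 2 := by
  classical
  have hmain := X05_exp (ι := ↥(Ps D Y)) (I := I)
    ((Finset.Ico N (2 * N)).filter (fun n => n ≡ v0 [MOD Wd D])) (fun _ => (1 : ℝ))
    (fun (p : ↥(Ps D Y)) (i : I) (n : ℕ) => ((p : ℕ) : ℤ) ∣ a i * n + b i)
    (fun n _ p i j hij hi hj => dvd_disjoint a b hsep n p i j hij hi hj)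
    univ ((N : ℝ) / Wd D) (fun p => tauP p / (1 + tauP p)) (fun _ => 1)
    (fun c n => Dv a b c n) (fun c n => Iff.rfl)
    (by
      intro e _
      obtain ⟨r, hr, _⟩ := crt_class a b hsep v0 hv0 e
      have h1 := X05_sum a b v0 N (fun _ => (1 : ℝ)) e _ r hr
      have h2 := count_class N (Wd D * ∏ p ∈ supp e, (p : ℕ)) r
        (Nat.mul_pos (X05_Wd_pos D) (X05_prod_pos _))
      rw [← X05_fac0, ← h1] at h2
      exact h2)
    lm (fun _ _ _ _ _ => Finset.mem_univ _) (fun n => dsum a b lm n) (fun n _ => rfl)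
  have hL : ∑ n ∈ Finset.Ico N (2 * N),
      (if n ≡ v0 [MOD Wd D] then dsum a b lm n ^ 2 else 0) =
      ∑ n ∈ (Finset.Ico N (2 * N)).filter (fun n => n ≡ v0 [MOD Wd D]), (fun _ => (1 : ℝ)) n *
        (fun n => dsum a b lm n) n ^ 2 := by
    rw [Finset.sum_filter]
    apply Finset.sum_congr rfl
    intro n _
    simp only [one_mul]
  rw [hL]
  refine le_trans hmain ?_
  rw [sq, Finset.sum_mul_sum]
  apply Finset.sum_le_sum
  intro c _
  apply Finset.sum_le_sum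
  intro c' _
  by_cases h : Compat c c'
  · rw [if_pos h, mul_one]
  · rw [if_neg h]
    positivity

open Classical in
theorem Sm_expansion {D Y : ℕ} (a : I → ℕ) (b : I → ℤ) (hpos : ∀ i, 0 < a i)
    (hsep : Sep D a b) (v0 : ℕ)
    (hv0 : ∀ i, Int.gcd (a i * v0 + b i) (Wd D) = 1) (E : ℕ → ℝ) (x : ℕ)
    (hE : ∀ y ≤ x, ∀ q, 1 ≤ q → ∀ c, Nat.Coprime c q →
      |theta y q c - y / Nat.totient q| ≤ E q)
    (N : ℕ) (m : I) (hN : 1 ≤ (a m : ℤ) * N + b m) (hx : 2 * (a m : ℤ) * N + b m ≤ x)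
    (lm : (↥(Ps D Y) → Option I) → ℝ) (hlm : ∀ c, ¬ NoLab {m} c → lm c = 0) :
    |∑ n ∈ Finset.Ico N (2 * N),
        (if n ≡ v0 [MOD Wd D] then lgp ((a m : ℤ) * n + b m).toNat * dsum a b lm n ^ 2 else 0)
      - a m * N / Nat.totient (a m * Wd D) * QF (fun p : ↥(Ps D Y) => Bk (tauP p)) lm| ≤
    ∑ c : ↥(Ps D Y) → Option I, ∑ c' : ↥(Ps D Y) → Option I,
      if Compat c c' then |lm c| * |lm c'| *
        (2 * E (a m * (Wd D * ∏ p ∈ supp c ∪ supp c', (p : ℕ)))) else 0 := by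
  have hmain := X05_exp (ι := ↥(Ps D Y)) (I := I)
    ((Finset.Ico N (2 * N)).filter (fun n => n ≡ v0 [MOD Wd D]))
    (fun n : ℕ => lgp ((a m : ℤ) * n + b m).toNat)
    (fun (p : ↥(Ps D Y)) (i : I) (n : ℕ) => ((p : ℕ) : ℤ) ∣ a i * n + b i)
    (fun n _ p i j hij hi hj => dvd_disjoint a b hsep n p i j hij hi hj)
    (univ.erase m) ((a m : ℝ) * N / Nat.totient (a m * Wd D)) (fun p => tauP p)
    (fun U => 2 * E (a m * (Wd D * ∏ p ∈ U, (p : ℕ))))
    (fun c n => Dv a b c n) (fun c n => Iff.rfl)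
    (by
      intro e he
      have hNo : NoLab {m} e := by
        intro p j hj hpj
        rw [Finset.mem_singleton] at hj
        have := he p j hpj
        rw [hj] at this
        exact Finset.notMem_erase m _ this
      obtain ⟨r, hr, hc⟩ := crt_class a b hsep v0 hv0 e
      have h1 := X05_sum a b v0 N (fun n : ℕ => lgp ((a m : ℤ) * n + b m).toNat) e _ r hr
      have h2 := lgp_class E x hE (a m) (b m) (hpos m) N (Wd D * ∏ p ∈ supp e, (p : ℕ)) r
        (Nat.mul_pos (X05_Wd_pos D) (X05_prod_pos _)) hN hx (hc m hNo)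
      rw [← X05_fac1 a b hpos hsep, ← h1] at h2
      exact h2)
    lm (by
      intro c hc p i hi
      rw [Finset.mem_erase]
      refine ⟨fun him => hc (hlm c ?_), Finset.mem_univ _⟩
      intro hNo
      exact hNo p i (by rw [him]; exact Finset.mem_singleton_self m) hi)
    (fun n => dsum a b lm n) (fun n _ => rfl)
  have hL : ∑ n ∈ Finset.Ico N (2 * N),
      (if n ≡ v0 [MOD Wd D] then lgp ((a m : ℤ) * n + b m).toNat * dsum a b lm n ^ 2 else 0) =
      ∑ n ∈ (Finset.Ico N (2 * N)).filter (fun n => n ≡ v0 [MOD Wd D]),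
        (fun n : ℕ => lgp ((a m : ℤ) * n + b m).toNat) n * (fun n => dsum a b lm n) n ^ 2 := by
    rw [Finset.sum_filter]
  rw [hL]
  exact hmain

end BVM

end
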