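import Pool.Agent.helper31.BVM.V01
import Pool.Agent.helper31.BVM.S06
import Pool.Agent.helper31.BVM.T08

/-!
# BVM-X07: the sum of the errors over the moduli

Notation: `ι = ↥(Ps D Y)`, sizes `nuP p = p`, weights `tauP p = 1/(p-1)`.

PROOFS. `sum_pow_tau_le`: `∑_{U : sz U ≤ Q} n^{|U|} ∏_{p∈U} τ p ≤ (GS τ ν Q ∅)^n`: a set `U` with a function
`U → Fin n` is a configuration with labels in `Fin n`, so the left side is
`∑_{c : ι → Option (Fin n), sz (supp c) ≤ Q} wt τ c` (group by `supp c = U`: there are `n^{|U|}`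
configurations with support `U`), and each part has size `≤ Q`; use `sum_cfg_prod_le` (V01) with
`F i A = if sz ν A ≤ Q then ∏_{p∈A} τ p else 0`. (Alternatively induct on `n`:
`(n+1)^{|U|} = ∑_{B ⊆ U} n^{|B|}` and `∏_U τ = ∏_B τ ∏_{U minus B} τ`.)
`bv_sum`: write `q_U = q0 * ∏_{p∈U} p`; for `sz U ≤ Q` it is at most `q0 Q ≤ Qx`, and `U ↦ q_U` is injective
(unique factorisation: `p ∈ U` iff `p ∣ ∏_{p∈U} p`). By Cauchy-Schwarz
(`Finset.sum_mul_sq_le_sq_mul_sq` / `Real.sum_mul_le_sqrt_mul_sqrt` / `inner_mul_le_norm_mul_norm`)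
`∑_U K^{|U|} E(q_U) = ∑_U (K^{|U|} √E(q_U)) √E(q_U) ≤ √(∑_U K^{2|U|} E(q_U)) √(∑_U E(q_U))`.
The second sum is at most `∑_{q ∈ Icc 1 Qx} E q ≤ Δ`. The first is at most
`M ∑_U (K^2)^{|U|} / q_U ≤ M ∑_U (K^2)^{|U|} ∏_{p∈U} 1/(p-1) ≤ M (GS tauP nuP Q ∅)^(K^2)`.
-/

noncomputable section

namespace BVM

open Finset

private theorem X07_step {ι : Type*} [Fintype ι] [DecidableEq ι] (τ ν : ι → ℝ)
    (hτ : ∀ p, 0 ≤ τ p) (hν : ∀ p, 1 ≤ ν p) (Q : ℝ) (n : ℕ) :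
    ∑ U ∈ univ.filter (fun U : Finset ι => sz ν U ≤ Q), ((n + 1 : ℕ) : ℝ) ^ U.card *
        ∏ p ∈ U, τ p ≤
      (∑ U ∈ univ.filter (fun U : Finset ι => sz ν U ≤ Q), (n : ℝ) ^ U.card * ∏ p ∈ U, τ p) *
        ∑ A ∈ univ.filter (fun U : Finset ι => sz ν U ≤ Q), ∏ p ∈ A, τ p := by
  obtain ⟨T, hT⟩ : ∃ T : Finset (Finset ι),
    T = univ.filter (fun U : Finset ι => sz ν U ≤ Q) := ⟨_, rfl⟩
  rw [← hT, Finset.sum_mul_sum, ← Finset.sum_product']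
  have hsz : ∀ {A B : Finset ι}, A ⊆ B → sz ν A ≤ sz ν B := by
    intro A B hAB
    unfold sz
    rw [← Finset.prod_sdiff hAB]
    have h1 : 1 ≤ ∏ p ∈ B \ A, ν p :=
      Finset.prod_induction _ (fun x => 1 ≤ x)
        (fun a b ha hb => one_le_mul_of_one_le_of_one_le ha hb) le_rfl fun p _ => hν p
    have h2 : 0 ≤ ∏ p ∈ A, ν p := Finset.prod_nonneg fun p _ => zero_le_one.trans (hν p)
    nlinarith
  have hdown : ∀ {A B : Finset ι}, A ⊆ B → B ∈ T → A ∈ T := by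
    intro A B hAB hB
    rw [hT, Finset.mem_filter] at hB ⊢
    exact ⟨Finset.mem_univ _, (hsz hAB).trans hB.2⟩
  have h1 : ∀ U : Finset ι, ((n + 1 : ℕ) : ℝ) ^ U.card * ∏ p ∈ U, τ p =
      ∑ B ∈ U.powerset, ((n : ℝ) ^ B.card * ∏ p ∈ B, τ p) * ∏ p ∈ U \ B, τ p := by
    intro U
    have h2 := Finset.sum_pow_mul_eq_add_pow (n : ℝ) 1 U
    have h3 : ((n + 1 : ℕ) : ℝ) = (n : ℝ) + 1 := by push_cast; ring
    rw [h3, ← h2, Finset.sum_mul]
    refine Finset.sum_congr rfl fun B hB => ?_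
    rw [← Finset.prod_sdiff (Finset.mem_powerset.1 hB), one_pow]
    ring
  rw [Finset.sum_congr rfl fun U _ => h1 U, Finset.sum_sigma']
  have h4 : Set.InjOn (fun x : (_ : Finset ι) × Finset ι => (x.2, x.1 \ x.2))
      (T.sigma fun U => U.powerset : Finset ((_ : Finset ι) × Finset ι)) := by
    rintro ⟨U, B⟩ hx ⟨U', B'⟩ hx' h
    simp only [Finset.coe_sigma, Set.mem_sigma_iff, Finset.mem_coe,
      Finset.mem_powerset] at hx hx'
    simp only [Prod.mk.injEq] at h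
    obtain ⟨h5, h6⟩ := h
    subst h5
    have h7 : U = U' := by
      rw [← Finset.sdiff_union_of_subset hx.2, h6, Finset.sdiff_union_of_subset hx'.2]
    subst h7
    rfl
  have h5 := Finset.sum_image (f := fun y : Finset ι × Finset ι =>
    ((n : ℝ) ^ y.1.card * ∏ p ∈ y.1, τ p) * ∏ p ∈ y.2, τ p) h4
  refine (le_of_eq h5.symm).trans ?_
  refine Finset.sum_le_sum_of_subset_of_nonneg ?_ ?_
  · intro y hy
    rw [Finset.mem_image] at hy
    obtain ⟨⟨U, B⟩, hx, rfl⟩ := hy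
    rw [Finset.mem_sigma, Finset.mem_powerset] at hx
    rw [Finset.mem_product]
    exact ⟨hdown hx.2 hx.1, hdown Finset.sdiff_subset hx.1⟩
  · intro y _ _
    exact mul_nonneg (mul_nonneg (pow_nonneg (Nat.cast_nonneg _) _)
      (Finset.prod_nonneg fun p _ => hτ p)) (Finset.prod_nonneg fun p _ => hτ p)

theorem sum_pow_tau_le {ι : Type*} [Fintype ι] [DecidableEq ι] (τ ν : ι → ℝ)
    (hτ : ∀ p, 0 ≤ τ p) (hν : ∀ p, 1 ≤ ν p) (Q : ℝ) (n : ℕ) :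
    ∑ U ∈ univ.filter (fun U : Finset ι => sz ν U ≤ Q), (n : ℝ) ^ U.card * ∏ p ∈ U, τ p ≤
      GS τ ν Q ∅ ^ n := by
  have hGS : GS τ ν Q ∅ =
      ∑ A ∈ univ.filter (fun U : Finset ι => sz ν U ≤ Q), ∏ p ∈ A, τ p := by
    unfold GS
    refine Finset.sum_congr ?_ fun _ _ => rfl
    ext A
    simp
  have h0 : 0 ≤ GS τ ν Q ∅ := by
    rw [hGS]
    exact Finset.sum_nonneg fun A _ => Finset.prod_nonneg fun p _ => hτ p
  induction n with
  | zero =>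
    rw [pow_zero, Nat.cast_zero]
    have h1 : ∀ U ∈ univ.filter (fun U : Finset ι => sz ν U ≤ Q), U ≠ ∅ →
        (0 : ℝ) ^ U.card * ∏ p ∈ U, τ p = 0 := by
      intro U _ hU
      rw [zero_pow (by rwa [Ne, Finset.card_eq_zero]), zero_mul]
    by_cases h2 : (∅ : Finset ι) ∈ univ.filter (fun U : Finset ι => sz ν U ≤ Q)
    · rw [Finset.sum_eq_single_of_mem ∅ h2 h1]
      simp
    · rw [Finset.sum_eq_zero]
      · exact zero_le_one
      · intro U hU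
        exact h1 U hU (by rintro rfl; exact h2 hU)
  | succ n ih =>
    refine (X07_step τ ν hτ hν Q n).trans ?_
    rw [← hGS, pow_succ]
    exact mul_le_mul_of_nonneg_right ih h0

theorem bv_sum {D Y : ℕ} (E : ℕ → ℝ) (hE0 : ∀ q, 0 ≤ E q) (q0 : ℕ) (hq0 : 0 < q0)
    (M : ℝ) (hM : 0 ≤ M) (Qx : ℕ) (htriv : ∀ q, 1 ≤ q → q ≤ Qx → E q ≤ M / q) (Δ : ℝ)
    (hΔ : ∑ q ∈ Finset.Icc 1 Qx, E q ≤ Δ) (Q : ℝ) (hQ : q0 * Q ≤ Qx) (K : ℕ) :
    ∑ U ∈ univ.filter (fun U : Finset ↥(Ps D Y) => sz nuP U ≤ Q),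
        (K : ℝ) ^ U.card * E (q0 * ∏ p ∈ U, (p : ℕ)) ≤
      Real.sqrt (M * GS (ι := ↥(Ps D Y)) tauP nuP Q ∅ ^ (K ^ 2)) * Real.sqrt Δ := by
  obtain ⟨T, hT⟩ : ∃ T : Finset (Finset ↥(Ps D Y)),
    T = univ.filter (fun U : Finset ↥(Ps D Y) => sz nuP U ≤ Q) := ⟨_, rfl⟩
  have hprime : ∀ p : ↥(Ps D Y), (p : ℕ).Prime := fun p =>
    (Finset.mem_filter.1 p.2).2.1
  have hp2 : ∀ p : ↥(Ps D Y), (2 : ℝ) ≤ ((p : ℕ) : ℝ) := fun p => by
    exact_mod_cast (hprime p).two_le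
  have hτ : ∀ p : ↥(Ps D Y), 0 ≤ tauP p := fun p => by
    unfold tauP
    have := hp2 p
    exact div_nonneg zero_le_one (by linarith)
  have hν : ∀ p : ↥(Ps D Y), 1 ≤ nuP p := fun p => by
    unfold nuP
    have := hp2 p
    linarith
  have hpos : ∀ U : Finset ↥(Ps D Y), 0 < ∏ p ∈ U, (p : ℕ) := fun U =>
    Finset.prod_pos fun p _ => (hprime p).pos
  have hcast : ∀ U : Finset ↥(Ps D Y), ((∏ p ∈ U, (p : ℕ) : ℕ) : ℝ) = sz nuP U := by
    intro U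
    unfold sz nuP
    push_cast
    rfl
  have hq1 : ∀ U : Finset ↥(Ps D Y), 1 ≤ q0 * ∏ p ∈ U, (p : ℕ) := fun U =>
    Nat.mul_pos hq0 (hpos U)
  have hqx : ∀ U ∈ T, q0 * ∏ p ∈ U, (p : ℕ) ≤ Qx := by
    intro U hU
    rw [hT, Finset.mem_filter] at hU
    have h1 : ((q0 * ∏ p ∈ U, (p : ℕ) : ℕ) : ℝ) ≤ Qx := by
      rw [Nat.cast_mul, hcast]
      exact (mul_le_mul_of_nonneg_left hU.2 (Nat.cast_nonneg _)).trans hQ
    exact_mod_cast h1
  have hcs := Real.sum_mul_le_sqrt_mul_sqrt T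
    (fun U => (K : ℝ) ^ U.card * Real.sqrt (E (q0 * ∏ p ∈ U, (p : ℕ))))
    (fun U => Real.sqrt (E (q0 * ∏ p ∈ U, (p : ℕ))))
  have h1 : ∑ U ∈ T, (K : ℝ) ^ U.card * E (q0 * ∏ p ∈ U, (p : ℕ)) =
      ∑ U ∈ T, (K : ℝ) ^ U.card * Real.sqrt (E (q0 * ∏ p ∈ U, (p : ℕ))) *
        Real.sqrt (E (q0 * ∏ p ∈ U, (p : ℕ))) := by
    refine Finset.sum_congr rfl fun U _ => ?_
    rw [mul_assoc, Real.mul_self_sqrt (hE0 _)]
  rw [← hT, h1]
  refine hcs.trans ?_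
  refine mul_le_mul (Real.sqrt_le_sqrt ?_) (Real.sqrt_le_sqrt ?_) (Real.sqrt_nonneg _)
    (Real.sqrt_nonneg _)
  · have h2 := sum_pow_tau_le (ι := ↥(Ps D Y)) tauP nuP hτ hν Q (K ^ 2)
    rw [← hT] at h2
    refine le_trans ?_ (mul_le_mul_of_nonneg_left h2 hM)
    rw [Finset.mul_sum]
    refine Finset.sum_le_sum fun U hU => ?_
    rw [mul_pow, Real.sq_sqrt (hE0 _)]
    have h3 := htriv _ (hq1 U) (hqx U hU)
    have h4 : M / ((q0 * ∏ p ∈ U, (p : ℕ) : ℕ) : ℝ) ≤ M * ∏ p ∈ U, tauP p := by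
      rw [div_eq_mul_inv]
      refine mul_le_mul_of_nonneg_left ?_ hM
      have h5 : ∏ p ∈ U, (((p : ℕ) : ℝ))⁻¹ ≤ ∏ p ∈ U, tauP p := by
        refine Finset.prod_le_prod (fun p _ => by positivity) fun p _ => ?_
        unfold tauP
        have := hp2 p
        rw [inv_eq_one_div]
        exact one_div_le_one_div_of_le (by linarith) (by linarith)
      refine le_trans ?_ h5
      rw [Finset.prod_inv_distrib, Nat.cast_mul, Nat.cast_prod]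
      have h6 : 0 < ∏ p ∈ U, (((p : ℕ) : ℝ)) :=
        Finset.prod_pos fun p _ => by have := hp2 p; linarith
      refine inv_anti₀ h6 ?_
      have h7 : (1 : ℝ) ≤ q0 := by exact_mod_cast hq0
      nlinarith
    have h5 : ((K : ℝ) ^ U.card) ^ 2 = ((K ^ 2 : ℕ) : ℝ) ^ U.card := by
      push_cast
      rw [← pow_mul, ← pow_mul, mul_comm]
    rw [h5]
    have h6 := mul_le_mul_of_nonneg_left (h3.trans h4)
      (pow_nonneg (Nat.cast_nonneg (K ^ 2)) U.card : (0 : ℝ) ≤ ((K ^ 2 : ℕ) : ℝ) ^ U.card)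
    refine h6.trans (le_of_eq ?_)
    ring
  · refine le_trans ?_ hΔ
    have h2 : ∀ U ∈ T, Real.sqrt (E (q0 * ∏ p ∈ U, (p : ℕ))) ^ 2 =
        E (q0 * ∏ p ∈ U, (p : ℕ)) := fun U _ => Real.sq_sqrt (hE0 _)
    rw [Finset.sum_congr rfl h2]
    have hinj : Set.InjOn (fun U : Finset ↥(Ps D Y) => q0 * ∏ p ∈ U, (p : ℕ)) T := by
      intro U _ V _ hUV
      have h3 : ∏ p ∈ U, (p : ℕ) = ∏ p ∈ V, (p : ℕ) := Nat.eq_of_mul_eq_mul_left hq0 hUV
      have hmem : ∀ (W : Finset ↥(Ps D Y)) (p : ↥(Ps D Y)),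
          p ∈ W ↔ (p : ℕ) ∣ ∏ r ∈ W, (r : ℕ) := by
        intro W p
        rw [Prime.dvd_finsetProd_iff (Nat.Prime.prime (hprime p))]
        constructor
        · intro h
          exact ⟨p, h, dvd_rfl⟩
        · rintro ⟨r, hr, hd⟩
          have := (Nat.prime_dvd_prime_iff_eq (hprime p) (hprime r)).1 hd
          rwa [Subtype.ext this]
      ext p
      rw [hmem U, hmem V, h3]
    have h4 := Finset.sum_image (f := E) hinj
    refine (le_of_eq h4.symm).trans ?_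
    refine Finset.sum_le_sum_of_subset_of_nonneg ?_ fun q _ _ => hE0 q
    intro q hq
    rw [Finset.mem_image] at hq
    obtain ⟨U, hU, rfl⟩ := hq
    exact Finset.mem_Icc.2 ⟨hq1 U, hqx U hU⟩

end BVM

end
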