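import Pool.Agent.helper31.BVM.X02
import Pool.Agent.helper31.BVM.X05
import Pool.Agent.helper31.BVM.X07
import Pool.Agent.helper31.BVM.S04

/-!
# BVM-P03: the sum with one prime, with its total error

PROOF. `Sm_expansion` (X05) gives the main term with the error
`∑_{c,c' compatible} |lm c||lm c'| 2 E(a m * (W * ∏_{p ∈ supp c ∪ supp c'} p))`, `W = Wd D`. Apply
`error_group` (X02; `ν = nuP`, `one_le_nuP`) with `E U = 2 E(a m * (W * ∏_{p∈U} p))`: at most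
`L^2 * 2 * ∑_{U : sz U ≤ S^2} (3k)^{|U|} E((a m * W) * ∏_{p∈U} p)`, and then `bv_sum` (X07) with
`q0 = a m * W` (positive: `hpos`, and `Wd D > 0`), `M = 5 x log x`, `Q = S^2`, `K = 3k`
(cast `((3 * k : ℕ) : ℝ) = 3 * (k : ℝ)`). `M ≥ 0` as `x ≥ 3`.
-/

noncomputable section

namespace BVM

open Finset Filter

variable {I : Type*} [Fintype I] [DecidableEq I]

theorem Sm_bound {D Y : ℕ} (a : I → ℕ) (b : I → ℤ) (hpos : ∀ i, 0 < a i)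
    (hsep : Sep D a b) (v0 : ℕ)
    (hv0 : ∀ i, Int.gcd (a i * v0 + b i) (Wd D) = 1) (E : ℕ → ℝ) (x : ℕ) (hx3 : 3 ≤ x)
    (hE : ∀ y ≤ x, ∀ q, 1 ≤ q → ∀ c, Nat.Coprime c q →
      |theta y q c - y / Nat.totient q| ≤ E q)
    (hE0 : ∀ q, 0 ≤ E q) (Qx : ℕ) (hQx : Qx ≤ x)
    (htriv : ∀ q, 1 ≤ q → q ≤ x → E q ≤ 5 * x * Real.log x / q) (Δ : ℝ)
    (hΔ : ∑ q ∈ Finset.Icc 1 Qx, E q ≤ Δ)
    (N : ℕ) (m : I) (hN : 1 ≤ (a m : ℤ) * N + b m) (hx : 2 * (a m : ℤ) * N + b m ≤ x)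
    (lm : (↥(Ps D Y) → Option I) → ℝ) (hlm : ∀ c, ¬ NoLab {m} c → lm c = 0)
    (L S : ℝ) (hL : 0 ≤ L) (hlmL : ∀ c, |lm c| ≤ L)
    (hS : ∀ c, S < sz nuP (supp c) → lm c = 0) (hQ : (a m * Wd D : ℕ) * S ^ 2 ≤ Qx) :
    |∑ n ∈ Finset.Ico N (2 * N),
        (if n ≡ v0 [MOD Wd D] then lgp ((a m : ℤ) * n + b m).toNat * dsum a b lm n ^ 2 else 0)
      - a m * N / Nat.totient (a m * Wd D) * QF (fun p : ↥(Ps D Y) => Bk (tauP p)) lm| ≤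
    2 * L ^ 2 * (Real.sqrt (5 * x * Real.log x *
      GS (ι := ↥(Ps D Y)) tauP nuP (S ^ 2) ∅ ^ ((3 * Fintype.card I) ^ 2)) *
        Real.sqrt Δ) := by
  have hW : 0 < Wd D := Finset.prod_pos fun p hp => (Finset.mem_filter.1 hp).2.pos
  have hx1 : (1 : ℝ) ≤ x := by
    have : (3 : ℝ) ≤ x := by exact_mod_cast hx3
    linarith
  have hM : 0 ≤ 5 * (x : ℝ) * Real.log x :=
    mul_nonneg (by linarith) (Real.log_nonneg hx1)
  have h1 := Sm_expansion a b hpos hsep v0 hv0 E x hE N m hN hx lm hlm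
  refine h1.trans ?_
  have h2 := error_group (ι := ↥(Ps D Y)) (I := I) nuP (fun p => one_le_nuP p)
    (fun U => 2 * E (a m * (Wd D * ∏ p ∈ U, (p : ℕ))))
    (fun U => mul_nonneg zero_le_two (hE0 _)) lm L S hL hlmL hS
  have h3 := bv_sum (D := D) (Y := Y) E hE0 (a m * Wd D) (Nat.mul_pos (hpos m) hW)
    (5 * x * Real.log x) hM Qx (fun q hq1 hq2 => htriv q hq1 (hq2.trans hQx)) Δ hΔ (S ^ 2) hQ
    (3 * Fintype.card I)
  have h4 : ∑ U ∈ univ.filter (fun U : Finset ↥(Ps D Y) => sz nuP U ≤ S ^ 2),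
      (3 * (Fintype.card I : ℝ)) ^ U.card * (2 * E (a m * (Wd D * ∏ p ∈ U, (p : ℕ)))) =
      2 * ∑ U ∈ univ.filter (fun U : Finset ↥(Ps D Y) => sz nuP U ≤ S ^ 2),
        ((3 * Fintype.card I : ℕ) : ℝ) ^ U.card * E (a m * Wd D * ∏ p ∈ U, (p : ℕ)) := by
    rw [Finset.mul_sum]
    refine Finset.sum_congr rfl fun U _ => ?_
    rw [mul_assoc (a m)]
    push_cast
    ring
  refine h2.trans ?_
  · rw [h4]
    calc L ^ 2 * (2 * ∑ U ∈ univ.filter (fun U : Finset ↥(Ps D Y) => sz nuP U ≤ S ^ 2),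
        ((3 * Fintype.card I : ℕ) : ℝ) ^ U.card * E (a m * Wd D * ∏ p ∈ U, (p : ℕ)))
        = 2 * L ^ 2 * ∑ U ∈ univ.filter (fun U : Finset ↥(Ps D Y) => sz nuP U ≤ S ^ 2),
        ((3 * Fintype.card I : ℕ) : ℝ) ^ U.card * E (a m * Wd D * ∏ p ∈ U, (p : ℕ)) := by ring
      _ ≤ _ := mul_le_mul_of_nonneg_left h3 (by positivity)

end BVM

end
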