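import Pool.Agent.helper31.BVM.PDef

/-!
# BVM-P04: the error term is small

PROOF. For large `x`, `3(1 + log x) ≤ 6 log x`. The left side is at most a constant (depending on `k`, `C`)
times `(log x)^(2(k+3)) * x * (log x)^(1/2 + 9k²/2 - Ak k/2)`, and
`2(k+3) + 1/2 + 9k²/2 - (9k² + 4k + 30)/2 = -17/2`. To avoid half-integer powers bound
`√(U) * √(V) = √(U V)` with `U V = 5 C x² (log x) (3(1+log x))^(9k²) / (log x)^(Ak k) ≤
C' x² (log x)^(-4k-29)` and `√` of this is at most `√C' x (log x)^(-2k-14)`; so the left side is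
`≤ C'' x (log x)^(2k+6-2k-14) = C'' x (log x)^(-8) ≤ x/(log x)^2` for large `x`.
(If `C < 0` the last square root is `0`.)
`Qx_large`: `N ≤ x`, `q0 N^σ ≤ ⌊√x/(log x)^B⌋` for large `x`, as `σ < 1/2`: `q0 x^σ + 1 ≤ √x/(log x)^B`.
-/

noncomputable section

namespace BVM

open Finset Filter

private theorem p04_log_tendsto : Tendsto (fun x : ℕ => Real.log x) atTop atTop :=
  Real.tendsto_log_atTop.comp tendsto_natCast_atTop_atTop

private theorem p04_div_ge (c : ℕ) (hc : 0 < c) (x : ℕ) (hx : c ≤ x) :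
    (x : ℝ) / (2 * c) ≤ ((x / c : ℕ) : ℝ) := by
  have h1 : x < c * (x / c + 1) := Nat.lt_mul_div_succ x hc
  have h2 : 1 ≤ x / c := Nat.div_pos hx hc
  have h3 : x ≤ (x / c) * (2 * c) := by nlinarith
  have hc' : (0 : ℝ) < 2 * c := by
    have : (0 : ℝ) < c := by exact_mod_cast hc
    linarith
  rw [div_le_iff₀ hc']
  exact_mod_cast h3

theorem err_small (k : ℕ) (C : ℝ) :
    ∀ᶠ x : ℕ in atTop,
      2 * (2 * (3 * (1 + Real.log x)) ^ (k + 3)) ^ 2 *
        (Real.sqrt (5 * x * Real.log x * (3 * (1 + Real.log x)) ^ ((3 * k) ^ 2)) *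
          Real.sqrt (C * x / Real.log x ^ Ak k)) ≤ x / Real.log x ^ 2 := by
  obtain ⟨c1, hc1⟩ : ∃ c1 : ℝ, c1 = 5 * 6 ^ (9 * k ^ 2) * |C| := ⟨_, rfl⟩
  obtain ⟨c2, hc2⟩ : ∃ c2 : ℝ, c2 = 8 * 6 ^ (2 * k + 6) * Real.sqrt c1 := ⟨_, rfl⟩
  have hc10 : 0 ≤ c1 := by rw [hc1]; positivity
  filter_upwards [p04_log_tendsto.eventually_ge_atTop 1,
    p04_log_tendsto.eventually_ge_atTop c2] with x hL1 hL2
  obtain ⟨L, hLdef⟩ : ∃ L, L = Real.log x := ⟨_, rfl⟩
  rw [← hLdef] at hL1 hL2 ⊢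
  have hL0 : 0 < L := by linarith
  have hx0 : (0 : ℝ) ≤ x := Nat.cast_nonneg x
  have h1 : 3 * (1 + L) ≤ 6 * L := by linarith
  have h10 : 0 ≤ 3 * (1 + L) := by linarith
  have hA : 2 * (2 * (3 * (1 + L)) ^ (k + 3)) ^ 2 ≤ 8 * 6 ^ (2 * k + 6) * L ^ (2 * k + 6) := by
    calc 2 * (2 * (3 * (1 + L)) ^ (k + 3)) ^ 2 ≤ 2 * (2 * (6 * L) ^ (k + 3)) ^ 2 := by gcongr
      _ = 8 * 6 ^ (2 * k + 6) * L ^ (2 * k + 6) := by
        rw [show 2 * k + 6 = (k + 3) * 2 by ring, pow_mul, pow_mul, mul_pow 2, ← pow_mul,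
          mul_pow 6 L, ← pow_mul, ← pow_mul]
        ring
  have hU0 : 0 ≤ 5 * (x : ℝ) * L * (3 * (1 + L)) ^ ((3 * k) ^ 2) := by positivity
  have hUV : 5 * (x : ℝ) * L * (3 * (1 + L)) ^ ((3 * k) ^ 2) * (C * x / L ^ Ak k) ≤
      c1 * (x / L ^ (2 * k + 14)) ^ 2 := by
    have e1 : C * x / L ^ Ak k ≤ |C| * x / L ^ Ak k := by
      gcongr
      exact le_abs_self C
    have e2 : 5 * (x : ℝ) * L * (3 * (1 + L)) ^ ((3 * k) ^ 2) ≤
        5 * (x : ℝ) * L * (6 * L) ^ (9 * k ^ 2) := by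
      rw [show (3 * k) ^ 2 = 9 * k ^ 2 by ring]
      gcongr
    calc 5 * (x : ℝ) * L * (3 * (1 + L)) ^ ((3 * k) ^ 2) * (C * x / L ^ Ak k)
        ≤ 5 * (x : ℝ) * L * (3 * (1 + L)) ^ ((3 * k) ^ 2) * (|C| * x / L ^ Ak k) :=
          mul_le_mul_of_nonneg_left e1 hU0
      _ ≤ 5 * (x : ℝ) * L * (6 * L) ^ (9 * k ^ 2) * (|C| * x / L ^ Ak k) := by
          apply mul_le_mul_of_nonneg_right e2
          positivity
      _ = c1 * x ^ 2 * (L ^ (9 * k ^ 2 + 1) / L ^ Ak k) := by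
          rw [hc1, mul_pow, pow_succ]
          ring
      _ = c1 * x ^ 2 * (1 / L ^ (4 * k + 29)) := by
          congr 1
          unfold Ak
          rw [show 9 * k ^ 2 + 4 * k + 30 = (9 * k ^ 2 + 1) + (4 * k + 29) by ring,
            pow_add L (9 * k ^ 2 + 1) (4 * k + 29), div_eq_div_iff (by positivity) (by positivity)]
          ring
      _ ≤ c1 * x ^ 2 * (1 / L ^ (4 * k + 28)) := by
          gcongr
          norm_num
      _ = c1 * (x / L ^ (2 * k + 14)) ^ 2 := by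
          rw [div_pow, ← pow_mul, show (2 * k + 14) * 2 = 4 * k + 28 by ring]
          ring
  have hS : Real.sqrt (5 * x * L * (3 * (1 + L)) ^ ((3 * k) ^ 2)) *
      Real.sqrt (C * x / L ^ Ak k) ≤ Real.sqrt c1 * (x / L ^ (2 * k + 14)) := by
    rw [← Real.sqrt_mul hU0]
    refine (Real.sqrt_le_sqrt hUV).trans ?_
    rw [Real.sqrt_mul hc10, Real.sqrt_sq (by positivity)]
  have hc20 : 0 ≤ c2 := by rw [hc2]; positivity
  have hL6 : c2 ≤ L ^ 6 := by
    have : L ^ 1 ≤ L ^ 6 := pow_le_pow_right₀ hL1 (by norm_num)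
    rw [pow_one] at this
    linarith
  calc 2 * (2 * (3 * (1 + L)) ^ (k + 3)) ^ 2 *
        (Real.sqrt (5 * x * L * (3 * (1 + L)) ^ ((3 * k) ^ 2)) *
          Real.sqrt (C * x / L ^ Ak k))
      ≤ (8 * 6 ^ (2 * k + 6) * L ^ (2 * k + 6)) * (Real.sqrt c1 * (x / L ^ (2 * k + 14))) :=
        mul_le_mul hA hS (by positivity) (by positivity)
    _ = c2 * (x / L ^ 8) := by
        rw [hc2, show 2 * k + 14 = (2 * k + 6) + 8 by ring, pow_add L (2 * k + 6) 8]
        field_simp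
    _ ≤ L ^ 6 * (x / L ^ 8) := by
        apply mul_le_mul_of_nonneg_right hL6
        positivity
    _ = x / L ^ 2 := by
        rw [show (8 : ℕ) = 6 + 2 by norm_num, pow_add]
        field_simp

theorem Qx_large (B q0 : ℕ) (σ : ℝ) (hσ : 0 < σ) (hσ2 : σ < 1 / 2) :
    ∀ᶠ x : ℕ in atTop, ∀ N : ℕ, N ≤ x →
      (q0 : ℝ) * (N : ℝ) ^ σ ≤ (⌊Real.sqrt x / Real.log x ^ B⌋₊ : ℝ) := by
  have hδ : 0 < 1 / 2 - σ := by linarith
  have hlo := (isLittleO_log_rpow_rpow_atTop (B : ℝ) hδ).bound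
    (show (0 : ℝ) < 1 / (q0 + 1) by positivity)
  have hlo' := tendsto_natCast_atTop_atTop (R := ℝ) |>.eventually hlo
  filter_upwards [p04_log_tendsto.eventually_ge_atTop 1, hlo', eventually_ge_atTop 1] with
    x hL1 hb hx1 N hN
  have hx0 : (1 : ℝ) ≤ x := by exact_mod_cast hx1
  have hLB : 0 < Real.log x ^ B := by positivity
  rw [Real.rpow_natCast, Real.norm_of_nonneg hLB.le,
    Real.norm_of_nonneg (Real.rpow_nonneg (by linarith) _)] at hb
  have hNx : (N : ℝ) ^ σ ≤ (x : ℝ) ^ σ :=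
    Real.rpow_le_rpow (Nat.cast_nonneg _) (by exact_mod_cast hN) hσ.le
  have hxσ : 1 ≤ (x : ℝ) ^ σ := Real.one_le_rpow hx0 hσ.le
  have hq0 : (0 : ℝ) ≤ q0 := Nat.cast_nonneg _
  have hmain : (q0 : ℝ) * (x : ℝ) ^ σ + 1 ≤ Real.sqrt x / Real.log x ^ B := by
    rw [le_div_iff₀ hLB]
    calc ((q0 : ℝ) * (x : ℝ) ^ σ + 1) * Real.log x ^ B
        ≤ ((q0 + 1) * (x : ℝ) ^ σ) * (1 / (q0 + 1) * (x : ℝ) ^ (1 / 2 - σ)) := by
          apply mul_le_mul _ hb hLB.le (by positivity)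
          linarith
      _ = (x : ℝ) ^ σ * (x : ℝ) ^ (1 / 2 - σ) := by
          have : (q0 : ℝ) + 1 ≠ 0 := by positivity
          field_simp
      _ = Real.sqrt x := by
          rw [← Real.rpow_add (by linarith), Real.sqrt_eq_rpow]
          congr 1
          ring
  have hfl := Nat.sub_one_lt_floor (Real.sqrt x / Real.log x ^ B)
  have : (q0 : ℝ) * (N : ℝ) ^ σ ≤ q0 * (x : ℝ) ^ σ := mul_le_mul_of_nonneg_left hNx hq0
  linarith

theorem Qx_le (B : ℕ) : ∀ᶠ x : ℕ in atTop, ⌊Real.sqrt x / Real.log x ^ B⌋₊ ≤ x := by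
  filter_upwards [p04_log_tendsto.eventually_ge_atTop 1, eventually_ge_atTop 1] with x hL1 hx1
  apply Nat.floor_le_of_le
  have hx0 : (1 : ℝ) ≤ x := by exact_mod_cast hx1
  have hLB : 1 ≤ Real.log x ^ B := one_le_pow₀ hL1
  have h1 : Real.sqrt x ≤ x := by
    rw [Real.sqrt_le_left (by linarith)]
    nlinarith
  refine (div_le_self (Real.sqrt_nonneg _) hLB).trans h1

/-- `N = x / c` and `x` have asymptotically equal logarithms. -/
theorem log_div_tendsto (c : ℕ) (hc : 0 < c) :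
    Tendsto (fun x : ℕ => Real.log ((x / c : ℕ) : ℝ) / Real.log x) atTop (nhds 1) := by
  have hc' : (0 : ℝ) < c := by exact_mod_cast hc
  have hlow : Tendsto (fun x : ℕ => 1 - Real.log (2 * c) / Real.log x) atTop (nhds 1) := by
    have h1 : Tendsto (fun x : ℕ => Real.log (2 * c) / Real.log x) atTop (nhds 0) :=
      tendsto_const_nhds.div_atTop p04_log_tendsto
    simpa using tendsto_const_nhds.sub h1
  refine tendsto_of_tendsto_of_tendsto_of_le_of_le' hlow tendsto_const_nhds ?_ ?_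
  · filter_upwards [p04_log_tendsto.eventually_ge_atTop 1, eventually_ge_atTop c] with x hL1 hx
    have hL0 : 0 < Real.log x := by linarith
    have hx0 : (0 : ℝ) < x := by exact_mod_cast lt_of_lt_of_le hc hx
    have h1 := p04_div_ge c hc x hx
    have h2 := Real.log_le_log (by positivity) h1
    rw [Real.log_div hx0.ne' (by positivity)] at h2
    rw [le_div_iff₀ hL0, sub_mul, one_mul, div_mul_cancel₀ _ hL0.ne']
    exact h2
  · filter_upwards [p04_log_tendsto.eventually_ge_atTop 1, eventually_ge_atTop c] with x hL1 hx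
    have hL0 : 0 < Real.log x := by linarith
    rw [div_le_one hL0]
    apply Real.log_le_log
    · exact_mod_cast Nat.div_pos hx hc
    · exact_mod_cast Nat.div_le_self x c

theorem div_ge (c : ℕ) (hc : 0 < c) :
    ∀ᶠ x : ℕ in atTop, (x : ℝ) / (2 * c) ≤ ((x / c : ℕ) : ℝ) := by
  filter_upwards [eventually_ge_atTop c] with x hx
  exact p04_div_ge c hc x hx

end BVM

end
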