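import Pool.Agent.helper31.BVM.T01

/-!
# BVM-T06: comparison of the composite kernel with its main part

For `y ≥ 0` which decreases when primes are added,
`|∑ Sk y - ∑ Sk0 y| ≤ (∏_p (1 + k τ_p^2) - 1) ∑ Sk0 y`, `k = card I`.

PROOF. Let `E p x y = Sk M (τ p) x y - Sk0 M (τ p) x y`: it is `-τ_p^2` at `(none, some j)`, `j ∉ M`,
and `0` elsewhere. Expand `∏_p (Sk0 + E) (c p)(c' p) = ∑_{B ⊆ ι} ∏_{p∈B} E ∏_{p∉B} Sk0`
(`Finset.prod_add`); the term `B = ∅` is the `Sk0` kernel. It suffices to show, for every `B`,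
(*) `∑_{c'} (∏_{p∈B} |E p (c p)(c' p)|) (∏_{p∉B} Sk0 (c p)(c' p)) y c' ≤ (∏_{p∈B} k τ_p^2) ∑_{c'} (∏_p Sk0 (c p)(c' p)) y c'`,
because `∑_{B ≠ ∅} ∏_{p∈B} k τ_p^2 = ∏_p (1 + k τ_p^2) - 1` (`Finset.prod_add` or
`Finset.prod_one_add`). Proof of (*) by induction on `B`, one prime `q` at a time, for all kernels:
more generally let `P p x y ≥ 0` be arbitrary nonnegative kernels for `p ≠ q`; then
`∑_{c'} |E q (c q)(c' q)| (∏_{p≠q} P p (c p)(c' p)) y c' ≤ k τ_q^2 ∑_{c'} Sk0 (c q)(c' q) (∏_{p≠q} P p (c p)(c' p)) y c'`.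
Indeed if `c q ≠ none` the left side is `0`. If `c q = none`: sum over the value `x = c' q` first
(split `c'` into `c' q` and the rest: every `c'` is `Function.update c'' q x` with `c'' q = none`);
`y (update c'' q (some j)) ≤ y c''` for `c'' q = none`, so the left side is at most
`(∑_{j ∉ M} τ_q^2) ∑_{c'' : c'' q = none} (∏_{p≠q} P) y c''`, and the right side is at least
`k τ_q^2` times the terms with `c' q = none`, where `Sk0 none none = 1`.
-/

noncomputable section

namespace BVM

open Finset

variable {ι I : Type*} [Fintype ι] [DecidableEq ι] [Fintype I] [DecidableEq I]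

/-- The difference of the two kernels (up to sign). -/
private def EE (M : Finset I) (t : ℝ) : Option I → Option I → ℝ
  | none, some j => if j ∈ M then 0 else t ^ 2
  | _, _ => 0

omit [Fintype I] in
private theorem EE_nonneg (M : Finset I) (t : ℝ) (x y : Option I) : 0 ≤ EE M t x y := by
  cases x <;> cases y <;> simp only [EE, le_refl]
  split_ifs <;> positivity

omit [Fintype I] in
private theorem Sk0_nonneg' (M : Finset I) {t : ℝ} (ht : 0 ≤ t) (x y : Option I) :
    0 ≤ Sk0 M t x y := by
  cases x <;> cases y <;> simp only [Sk0, le_refl, zero_le_one]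
  · split_ifs <;> simp [ht]
  · split_ifs <;> simp

omit [Fintype I] in
private theorem Sk_eq (M : Finset I) (t : ℝ) (x y : Option I) :
    Sk M t x y = Sk0 M t x y - EE M t x y := by
  cases x <;> cases y <;> simp only [Sk, Sk0, EE, sub_zero]
  split_ifs <;> ring

omit [Fintype ι] [DecidableEq ι] in
private theorem prod_close (s : Finset ι) (a e : ι → ℝ) (ha : ∀ p, 0 ≤ a p) (he : ∀ p, 0 ≤ e p) :
    0 ≤ ∏ p ∈ s, a p ∧ |∏ p ∈ s, (a p - e p)| ≤ ∏ p ∈ s, (a p + e p) ∧
      |∏ p ∈ s, (a p - e p) - ∏ p ∈ s, a p| ≤ ∏ p ∈ s, (a p + e p) - ∏ p ∈ s, a p := by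
  classical
  induction s using Finset.induction_on with
  | empty => simp
  | insert q s hq ih =>
    obtain ⟨h1, h2, h3⟩ := ih
    rw [Finset.prod_insert hq, Finset.prod_insert hq, Finset.prod_insert hq]
    set A := ∏ p ∈ s, a p
    set X := ∏ p ∈ s, (a p - e p)
    set Y := ∏ p ∈ s, (a p + e p)
    have hY : 0 ≤ Y := (abs_nonneg X).trans h2
    have h4 : |a q - e q| ≤ a q + e q := by
      rw [abs_le]
      constructor <;> linarith [ha q, he q]
    refine ⟨mul_nonneg (ha q) h1, ?_, ?_⟩
    · rw [abs_mul]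
      exact mul_le_mul h4 h2 (abs_nonneg _) (by linarith [ha q, he q])
    · have h5 : (a q - e q) * X - a q * A = a q * (X - A) - e q * X := by ring
      have h6 : (a q + e q) * Y - a q * A = a q * (Y - A) + e q * Y := by ring
      rw [h5, h6]
      calc |a q * (X - A) - e q * X| ≤ |a q * (X - A)| + |e q * X| := abs_sub _ _
        _ = a q * |X - A| + e q * |X| := by
          rw [abs_mul, abs_mul, abs_of_nonneg (ha q), abs_of_nonneg (he q)]
        _ ≤ a q * (Y - A) + e q * Y :=
          add_le_add (mul_le_mul_of_nonneg_left h3 (ha q)) (mul_le_mul_of_nonneg_left h2 (he q))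

private theorem sum_EE_le (M : Finset I) (t : ℝ) :
    ∑ x : Option I, EE M t none x ≤ (Fintype.card I : ℝ) * t ^ 2 := by
  rw [Fintype.sum_option]
  have h1 : EE M t (none : Option I) none = 0 := rfl
  rw [h1, zero_add]
  calc ∑ j : I, EE M t none (some j) ≤ ∑ _j : I, t ^ 2 := by
        refine Finset.sum_le_sum fun j _ => ?_
        show (if j ∈ M then (0 : ℝ) else t ^ 2) ≤ t ^ 2
        split_ifs
        · positivity
        · exact le_rfl
    _ = (Fintype.card I : ℝ) * t ^ 2 := by
        rw [Finset.sum_const, Finset.card_univ, nsmul_eq_mul]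

private theorem step_q (M : Finset I) (t : ℝ) (q : ι)
    (K K' : ι → Option I → Option I → ℝ) (hK : ∀ p, p ≠ q → K p = K' p)
    (h0 : ∀ p x y, 0 ≤ K' p x y) (hq' : K' q = Sk0 M t)
    (hq : ∀ x y, K q x y = Sk0 M t x y + EE M t x y)
    (y : (ι → Option I) → ℝ) (hy : ∀ c, 0 ≤ y c) (hmono : ∀ c c', SubC c c' → y c' ≤ y c)
    (c : ι → Option I) :
    TA K y c ≤ (1 + (Fintype.card I : ℝ) * t ^ 2) * TA K' y c := by
  classical
  set Q : (ι → Option I) → ℝ := fun c' => ∏ p ∈ Finset.univ.erase q, K' p (c p) (c' p) with hQ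
  have hQ0 : ∀ c', 0 ≤ Q c' := fun c' => Finset.prod_nonneg fun p _ => h0 p _ _
  have e1 : TA K y c = ∑ c' : ι → Option I, (K q (c q) (c' q) * Q c') * y c' := by
    unfold TA
    refine Finset.sum_congr rfl fun c' _ => ?_
    rw [← Finset.mul_prod_erase Finset.univ (fun p => K p (c p) (c' p)) (Finset.mem_univ q), hQ]
    congr 2
    refine Finset.prod_congr rfl fun p hp => ?_
    rw [hK p (Finset.ne_of_mem_erase hp)]
  have e2 : TA K' y c = ∑ c' : ι → Option I, (K' q (c q) (c' q) * Q c') * y c' := by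
    unfold TA
    refine Finset.sum_congr rfl fun c' _ => ?_
    rw [← Finset.mul_prod_erase Finset.univ (fun p => K' p (c p) (c' p)) (Finset.mem_univ q)]
  have hT0 : 0 ≤ TA K' y c := by
    rw [e2]
    exact Finset.sum_nonneg fun c' _ => mul_nonneg (mul_nonneg (h0 q _ _) (hQ0 c')) (hy c')
  set D : ℝ := ∑ c' : ι → Option I, (EE M t (c q) (c' q) * Q c') * y c' with hD
  have e3 : TA K y c = TA K' y c + D := by
    rw [e1, e2, hD, ← Finset.sum_add_distrib]
    refine Finset.sum_congr rfl fun c' _ => ?_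
    rw [hq, hq']
    ring
  have e4 : D ≤ (Fintype.card I : ℝ) * t ^ 2 * TA K' y c := by
    by_cases hc : c q = none
    · let e : Option I × ({j // j ≠ q} → Option I) ≃ (ι → Option I) :=
        (Equiv.funSplitAt q (Option I)).symm
      have eq1 : ∀ x r, e (x, r) q = x := by
        intro x r
        simp [e]
      have eq2 : ∀ x r p, p ≠ q → e (x, r) p = e (none, r) p := by
        intro x r p hp
        simp [e, hp]
      have hQe : ∀ x r, Q (e (x, r)) = Q (e (none, r)) := by
        intro x r
        rw [hQ]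
        refine Finset.prod_congr rfl fun p hp => ?_
        rw [eq2 x r p (Finset.ne_of_mem_erase hp)]
      have hye : ∀ x r, y (e (x, r)) ≤ y (e (none, r)) := by
        intro x r
        refine hmono _ _ fun p => ?_
        by_cases hp : p = q
        · left
          rw [hp, eq1]
        · right
          rw [eq2 x r p hp]
      set S : ℝ := ∑ r : {j // j ≠ q} → Option I, Q (e (none, r)) * y (e (none, r)) with hS
      have hS0 : 0 ≤ S := Finset.sum_nonneg fun r _ => mul_nonneg (hQ0 _) (hy _)
      have h1 : D ≤ ∑ x : Option I, EE M t none x * S := by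
        rw [hD, ← Equiv.sum_comp e, Fintype.sum_prod_type]
        refine Finset.sum_le_sum fun x _ => ?_
        rw [hS, Finset.mul_sum]
        refine Finset.sum_le_sum fun r _ => ?_
        rw [eq1, hc, hQe, mul_assoc]
        exact mul_le_mul_of_nonneg_left (mul_le_mul_of_nonneg_left (hye x r) (hQ0 _))
          (EE_nonneg M t none x)
      have h2 : S ≤ TA K' y c := by
        rw [e2, ← Equiv.sum_comp e, Fintype.sum_prod_type]
        refine le_trans ?_ (Finset.single_le_sum (f := fun x : Option I =>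
          ∑ r : {j // j ≠ q} → Option I, K' q (c q) (e (x, r) q) * Q (e (x, r)) * y (e (x, r)))
          (fun x _ => Finset.sum_nonneg fun r _ =>
            mul_nonneg (mul_nonneg (h0 q _ _) (hQ0 _)) (hy _)) (Finset.mem_univ none))
        rw [hS]
        refine Finset.sum_le_sum fun r _ => ?_
        rw [eq1, hc, hq']
        have h3 : Sk0 M t (none : Option I) none = 1 := rfl
        rw [h3, one_mul]
      rw [← Finset.sum_mul] at h1
      calc D ≤ (∑ x : Option I, EE M t none x) * S := h1
        _ ≤ ((Fintype.card I : ℝ) * t ^ 2) * S := mul_le_mul_of_nonneg_right (sum_EE_le M t) hS0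
        _ ≤ ((Fintype.card I : ℝ) * t ^ 2) * TA K' y c :=
          mul_le_mul_of_nonneg_left h2 (by positivity)
    · have h1 : D = 0 := by
        rw [hD]
        refine Finset.sum_eq_zero fun c' _ => ?_
        obtain ⟨i, hi⟩ := Option.ne_none_iff_exists'.1 hc
        have h2 : EE M t (c q) (c' q) = 0 := by
          rw [hi]
          rfl
        rw [h2, zero_mul, zero_mul]
      rw [h1]
      exact mul_nonneg (by positivity) hT0
  rw [e3]
  linarith

theorem Sk_close (M : Finset I) (τ : ι → ℝ) (hτ : ∀ p, 0 ≤ τ p) (y : (ι → Option I) → ℝ)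
    (hy : ∀ c, 0 ≤ y c) (hmono : ∀ c c', SubC c c' → y c' ≤ y c) (c : ι → Option I) :
    |TA (fun p => Sk M (τ p)) y c - TA (fun p => Sk0 M (τ p)) y c| ≤
      (∏ p, (1 + (Fintype.card I : ℝ) * τ p ^ 2) - 1) * TA (fun p => Sk0 M (τ p)) y c := by
  classical
  set KB : Finset ι → ι → Option I → Option I → ℝ := fun B p x y =>
    Sk0 M (τ p) x y + (if p ∈ B then EE M (τ p) x y else 0) with hKB
  have h1 : |TA (fun p => Sk M (τ p)) y c - TA (fun p => Sk0 M (τ p)) y c| ≤
      TA (KB Finset.univ) y c - TA (fun p => Sk0 M (τ p)) y c := by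
    unfold TA
    rw [← Finset.sum_sub_distrib, ← Finset.sum_sub_distrib]
    refine (Finset.abs_sum_le_sum_abs _ _).trans (Finset.sum_le_sum fun c' _ => ?_)
    rw [← sub_mul, ← sub_mul, abs_mul, abs_of_nonneg (hy c')]
    refine mul_le_mul_of_nonneg_right ?_ (hy c')
    have h2 := (prod_close Finset.univ (fun p => Sk0 M (τ p) (c p) (c' p))
      (fun p => EE M (τ p) (c p) (c' p)) (fun p => Sk0_nonneg' M (hτ p) _ _)
      (fun p => EE_nonneg M _ _ _)).2.2
    have h3 : ∏ p, Sk M (τ p) (c p) (c' p) =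
        ∏ p, (Sk0 M (τ p) (c p) (c' p) - EE M (τ p) (c p) (c' p)) :=
      Finset.prod_congr rfl fun p _ => Sk_eq M (τ p) (c p) (c' p)
    have h4 : ∏ p, KB Finset.univ p (c p) (c' p) =
        ∏ p, (Sk0 M (τ p) (c p) (c' p) + EE M (τ p) (c p) (c' p)) := by
      refine Finset.prod_congr rfl fun p _ => ?_
      show Sk0 M (τ p) (c p) (c' p) + (if p ∈ Finset.univ then EE M (τ p) (c p) (c' p) else 0) = _
      rw [if_pos (Finset.mem_univ p)]
    rw [h3, h4]
    exact h2
  have h2 : ∀ B : Finset ι, TA (KB B) y c ≤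
      (∏ p ∈ B, (1 + (Fintype.card I : ℝ) * τ p ^ 2)) * TA (fun p => Sk0 M (τ p)) y c := by
    intro B
    induction B using Finset.induction_on with
    | empty =>
      rw [Finset.prod_empty, one_mul]
      have h3 : KB ∅ = fun p => Sk0 M (τ p) := by
        funext p x y
        show Sk0 M (τ p) x y + (if p ∈ (∅ : Finset ι) then EE M (τ p) x y else 0) = _
        rw [if_neg (Finset.notMem_empty p), add_zero]
      rw [h3]
    | insert q B hqB ih =>
      have h3 : TA (KB (insert q B)) y c ≤ (1 + (Fintype.card I : ℝ) * τ q ^ 2) * TA (KB B) y c := by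
        refine step_q M (τ q) q (KB (insert q B)) (KB B) ?_ ?_ ?_ ?_ y hy hmono c
        · intro p hp
          funext x y
          show Sk0 M (τ p) x y + (if p ∈ insert q B then EE M (τ p) x y else 0) =
            Sk0 M (τ p) x y + (if p ∈ B then EE M (τ p) x y else 0)
          have h4 : (p ∈ insert q B) = (p ∈ B) := by
            rw [Finset.mem_insert]
            exact propext ⟨fun h => h.resolve_left hp, Or.inr⟩
          simp only [h4]
        · intro p x y
          show 0 ≤ Sk0 M (τ p) x y + (if p ∈ B then EE M (τ p) x y else 0)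
          have h4 := Sk0_nonneg' M (hτ p) x y
          have h5 := EE_nonneg M (τ p) x y
          split_ifs <;> linarith
        · funext x y
          show Sk0 M (τ q) x y + (if q ∈ B then EE M (τ q) x y else 0) = Sk0 M (τ q) x y
          rw [if_neg hqB, add_zero]
        · intro x y
          show Sk0 M (τ q) x y + (if q ∈ insert q B then EE M (τ q) x y else 0) = _
          rw [if_pos (Finset.mem_insert_self q B)]
      rw [Finset.prod_insert hqB, mul_assoc]
      exact h3.trans (mul_le_mul_of_nonneg_left ih (by positivity))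
  have h3 := h2 Finset.univ
  calc |TA (fun p => Sk M (τ p)) y c - TA (fun p => Sk0 M (τ p)) y c|
      ≤ TA (KB Finset.univ) y c - TA (fun p => Sk0 M (τ p)) y c := h1
    _ ≤ (∏ p, (1 + (Fintype.card I : ℝ) * τ p ^ 2) - 1) * TA (fun p => Sk0 M (τ p)) y c := by
        rw [sub_mul, one_mul]
        linarith

end BVM

end
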