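import Pool.Agent.helper31.BVM.V02
import Pool.Agent.helper31.BVM.T08
import Pool.Agent.helper31.BVM.S06

/-!
# BVM-V03: lower bound for sums over configurations (independence and union bound)

PROOF. Write `S i = ∑_A F i A > 0`, `Π = ∏_i S i`. By `sum_cfg_eq_sum_tuple` (V01), with
`wt (1 - κτ) c = ∏_i ∏_{p ∈ part c i} (1 - κ τ p)` (`wt_eq_prod_part`, T08) and
`sz ν (supp c) = ∏_i sz ν (part c i)` (`sz_supp_eq`, T08), the left side (the sum over `c`) is
`∑_f (∏ i, F i (f i)) * (if disjoint ∧ ∏ sz ≤ Q then ∏∏ (1 - κτ) else 0)` over all tuples `f`.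
Apply `tuple_pointwise` (V02), multiplied by `∏ F i (f i) ≥ 0`, and evaluate the three expectations by
`sum_tuple_single`, `sum_tuple_pair`:
* `∑_f ∏F ∑_i ∑_{p ∈ f i} κ τ p = ∑_i ∑_p κ τ p (∑_{A ∋ p} F i A) ∏_{j≠i} S j ≤ k κ (∑_p τ p^2) Π`,
  by `sum_mem_le` (S06): `∑_{A ∋ p} F i A ≤ τ p S i`;
* for `i ≠ j`: `∑_f ∏F ∑_p 1[p ∈ f i] 1[p ∈ f j] ≤ (∑_p τ p^2) Π`, at most `k^2` pairs;
* `∑_f ∏F log sz (f i) / log Q = (∑_A F i A log sz A) / (S i log Q) Π`.
-/

noncomputable section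

namespace BVM

open Finset

variable {ι I : Type*} [Fintype ι] [DecidableEq ι] [Fintype I] [DecidableEq I]

private theorem v03_total (F : I → Finset ι → ℝ) :
    ∑ f : I → Finset ι, ∏ i, F i (f i) = ∏ i, ∑ A, F i A := by
  rw [Finset.prod_univ_sum, Fintype.piFinset_univ]

private theorem v03_single (τ : ι → ℝ) (κ : ℝ) (hτ : ∀ p, 0 ≤ τ p) (hκ : 0 ≤ κ)
    (F : I → Finset ι → ℝ) (hF : ∀ i A, 0 ≤ F i A)
    (hmono : ∀ i p A, p ∉ A → F i (insert p A) ≤ τ p * F i A) (i : I) :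
    ∑ f : I → Finset ι, (∏ l, F l (f l)) * (∑ p ∈ f i, κ * τ p) ≤
      (∏ l, ∑ A, F l A) * (κ * ∑ p, τ p ^ 2) := by
  classical
  rw [sum_tuple_single F (fun A => ∑ p ∈ A, κ * τ p) i]
  have h1 : ∑ A, F i A * (∑ p ∈ A, κ * τ p) ≤ (∑ A, F i A) * (κ * ∑ p, τ p ^ 2) := by
    have h2 : ∑ A, F i A * (∑ p ∈ A, κ * τ p) =
        ∑ p, κ * τ p * ∑ A ∈ univ.filter (fun A : Finset ι => p ∈ A), F i A := by
      have h3 : ∀ A : Finset ι, F i A * (∑ p ∈ A, κ * τ p) =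
          ∑ p, (if p ∈ A then κ * τ p * F i A else 0) := by
        intro A
        rw [← Finset.sum_filter, Finset.filter_univ_mem, Finset.mul_sum]
        refine Finset.sum_congr rfl fun p _ => ?_
        ring
      simp_rw [h3]
      rw [Finset.sum_comm]
      refine Finset.sum_congr rfl fun p _ => ?_
      rw [← Finset.sum_filter, Finset.mul_sum]
    rw [h2, Finset.mul_sum, Finset.mul_sum]
    refine Finset.sum_le_sum fun p _ => ?_
    have h4 := sum_mem_le τ hτ (F i) (hF i) (hmono i) p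
    have h5 : 0 ≤ κ * τ p := mul_nonneg hκ (hτ p)
    calc κ * τ p * ∑ A ∈ univ.filter (fun A : Finset ι => p ∈ A), F i A
        ≤ κ * τ p * (τ p * ∑ A, F i A) := mul_le_mul_of_nonneg_left h4 h5
      _ = (∑ A, F i A) * (κ * τ p ^ 2) := by ring
  have h6 : 0 ≤ ∏ l ∈ univ.erase i, ∑ A, F l A :=
    Finset.prod_nonneg fun l _ => Finset.sum_nonneg fun A _ => hF l A
  calc (∑ A, F i A * (∑ p ∈ A, κ * τ p)) * ∏ l ∈ univ.erase i, ∑ A, F l A
      ≤ ((∑ A, F i A) * (κ * ∑ p, τ p ^ 2)) * ∏ l ∈ univ.erase i, ∑ A, F l A :=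
        mul_le_mul_of_nonneg_right h1 h6
    _ = ((∑ A, F i A) * ∏ l ∈ univ.erase i, ∑ A, F l A) * (κ * ∑ p, τ p ^ 2) := by ring
    _ = (∏ l, ∑ A, F l A) * (κ * ∑ p, τ p ^ 2) := by
        rw [Finset.mul_prod_erase univ (fun l => ∑ A, F l A) (mem_univ i)]

private theorem v03_pair (τ : ι → ℝ) (hτ : ∀ p, 0 ≤ τ p)
    (F : I → Finset ι → ℝ) (hF : ∀ i A, 0 ≤ F i A)
    (hmono : ∀ i p A, p ∉ A → F i (insert p A) ≤ τ p * F i A) (i j : I) (hij : i ≠ j) :
    ∑ f : I → Finset ι, (∏ l, F l (f l)) *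
        (∑ p, (if p ∈ f i ∧ p ∈ f j then (1 : ℝ) else 0)) ≤
      (∏ l, ∑ A, F l A) * ∑ p, τ p ^ 2 := by
  classical
  have h0 : ∀ f : I → Finset ι, (∏ l, F l (f l)) *
        (∑ p, (if p ∈ f i ∧ p ∈ f j then (1 : ℝ) else 0)) =
      ∑ p, (∏ l, F l (f l)) * ((if p ∈ f i then (1 : ℝ) else 0) *
        (if p ∈ f j then (1 : ℝ) else 0)) := by
    intro f
    rw [Finset.mul_sum]
    refine Finset.sum_congr rfl fun p _ => ?_
    congr 1
    by_cases h1 : p ∈ f i <;> by_cases h2 : p ∈ f j <;> simp [h1, h2]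
  simp_rw [h0]
  rw [Finset.sum_comm, Finset.mul_sum]
  refine Finset.sum_le_sum fun p _ => ?_
  rw [sum_tuple_pair F (fun A => if p ∈ A then (1 : ℝ) else 0)
    (fun A => if p ∈ A then (1 : ℝ) else 0) i j hij]
  have h1 : ∀ l, ∑ A, F l A * (if p ∈ A then (1 : ℝ) else 0) ≤ τ p * ∑ A, F l A := by
    intro l
    have h2 : ∑ A, F l A * (if p ∈ A then (1 : ℝ) else 0) =
        ∑ A ∈ univ.filter (fun A : Finset ι => p ∈ A), F l A := by
      rw [Finset.sum_filter]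
      refine Finset.sum_congr rfl fun A _ => ?_
      by_cases h3 : p ∈ A <;> simp [h3]
    rw [h2]
    exact sum_mem_le τ hτ (F l) (hF l) (hmono l) p
  have h2 : ∀ l, 0 ≤ ∑ A, F l A * (if p ∈ A then (1 : ℝ) else 0) := fun l =>
    Finset.sum_nonneg fun A _ => mul_nonneg (hF l A) (by split_ifs <;> norm_num)
  have h3 : ∀ l, 0 ≤ ∑ A, F l A := fun l => Finset.sum_nonneg fun A _ => hF l A
  have h4 : 0 ≤ ∏ l ∈ (univ.erase i).erase j, ∑ A, F l A :=
    Finset.prod_nonneg fun l _ => h3 l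
  have hji : j ∈ univ.erase i := Finset.mem_erase.2 ⟨hij.symm, mem_univ j⟩
  calc (∑ A, F i A * (if p ∈ A then (1 : ℝ) else 0)) *
        (∑ A, F j A * (if p ∈ A then (1 : ℝ) else 0)) *
        ∏ l ∈ (univ.erase i).erase j, ∑ A, F l A
      ≤ (τ p * ∑ A, F i A) * (τ p * ∑ A, F j A) *
        ∏ l ∈ (univ.erase i).erase j, ∑ A, F l A := by
          apply mul_le_mul_of_nonneg_right _ h4
          exact mul_le_mul (h1 i) (h1 j) (h2 j) (mul_nonneg (hτ p) (h3 i))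
    _ = ((∑ A, F i A) * ((∑ A, F j A) * ∏ l ∈ (univ.erase i).erase j, ∑ A, F l A)) *
        τ p ^ 2 := by ring
    _ = (∏ l, ∑ A, F l A) * τ p ^ 2 := by
        rw [Finset.mul_prod_erase (univ.erase i) (fun l => ∑ A, F l A) hji,
          Finset.mul_prod_erase univ (fun l => ∑ A, F l A) (mem_univ i)]

private theorem v03_log (ν : ι → ℝ) (Q : ℝ) (F : I → Finset ι → ℝ)
    (hS : ∀ i, 0 < ∑ A, F i A) (i : I) :
    ∑ f : I → Finset ι, (∏ l, F l (f l)) * (Real.log (sz ν (f i)) / Real.log Q) =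
      (∏ l, ∑ A, F l A) *
        ((∑ A, F i A * Real.log (sz ν A)) / ((∑ A, F i A) * Real.log Q)) := by
  classical
  rw [sum_tuple_single F (fun A => Real.log (sz ν A) / Real.log Q) i]
  rw [← Finset.mul_prod_erase univ (fun l => ∑ A, F l A) (mem_univ i)]
  have h1 : ∑ A, F i A * (Real.log (sz ν A) / Real.log Q) =
      (∑ A, F i A * Real.log (sz ν A)) / Real.log Q := by
    rw [Finset.sum_div]
    refine Finset.sum_congr rfl fun A _ => ?_
    ring
  rw [h1]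
  have h2 := (hS i).ne'
  by_cases hQ : Real.log Q = 0
  · rw [hQ]; simp
  · field_simp

theorem sum_cfg_lower (τ ν : ι → ℝ) (κ Q : ℝ) (hτ : ∀ p, 0 ≤ τ p) (hκ : 0 ≤ κ)
    (hκτ : ∀ p, κ * τ p ≤ 1) (hν : ∀ p, 1 ≤ ν p) (hQ : 1 < Q) (F : I → Finset ι → ℝ)
    (hF : ∀ i A, 0 ≤ F i A) (hS : ∀ i, 0 < ∑ A, F i A)
    (hmono : ∀ i p A, p ∉ A → F i (insert p A) ≤ τ p * F i A) :
    (∏ i, ∑ A, F i A) *
      (1 - (Fintype.card I : ℝ) * κ * ∑ p, τ p ^ 2 - (Fintype.card I : ℝ) ^ 2 * ∑ p, τ p ^ 2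
        - ∑ i, (∑ A, F i A * Real.log (sz ν A)) / ((∑ A, F i A) * Real.log Q)) ≤
    ∑ c : ι → Option I, if sz ν (supp c) ≤ Q then
      wt (fun p => 1 - κ * τ p) c * ∏ i, F i (part c i) else 0 := by
  classical
  set k : ℝ := (Fintype.card I : ℝ) with hk
  set P : ℝ := ∏ i, ∑ A, F i A with hP
  set V : ℝ := ∑ p, τ p ^ 2 with hV
  have hP0 : 0 ≤ P := Finset.prod_nonneg fun i _ => (hS i).le
  have hV0 : 0 ≤ V := Finset.sum_nonneg fun p _ => sq_nonneg _
  -- the right side as a sum over tuples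
  have hR : ∑ c : ι → Option I, (if sz ν (supp c) ≤ Q then
      wt (fun p => 1 - κ * τ p) c * ∏ i, F i (part c i) else 0) =
      ∑ f : I → Finset ι, (∏ i, F i (f i)) *
        (if (∀ i j, i ≠ j → Disjoint (f i) (f j)) ∧ ∏ i, sz ν (f i) ≤ Q then
          ∏ i, ∏ p ∈ f i, (1 - κ * τ p) else 0) := by
    have h1 := sum_cfg_eq_sum_tuple (ι := ι) (I := I) (fun f => if ∏ i, sz ν (f i) ≤ Q then
      (∏ i, ∏ p ∈ f i, (1 - κ * τ p)) * ∏ i, F i (f i) else 0)
    have h2 : ∀ c : ι → Option I, (if sz ν (supp c) ≤ Q then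
        wt (fun p => 1 - κ * τ p) c * ∏ i, F i (part c i) else 0) =
        (if ∏ i, sz ν (part c i) ≤ Q then
          (∏ i, ∏ p ∈ part c i, (1 - κ * τ p)) * ∏ i, F i (part c i) else 0) := by
      intro c
      rw [sz_supp_eq, wt_eq_prod_part]
    rw [Finset.sum_congr rfl fun c _ => h2 c, h1, Finset.sum_filter]
    refine Finset.sum_congr rfl fun f _ => ?_
    by_cases hd : ∀ i j, i ≠ j → Disjoint (f i) (f j)
    · rw [if_pos hd]
      by_cases hq : ∏ i, sz ν (f i) ≤ Q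
      · rw [if_pos hq, if_pos ⟨hd, hq⟩, mul_comm]
      · rw [if_neg hq, if_neg (fun h => hq h.2), mul_zero]
    · rw [if_neg hd, if_neg (fun h => hd h.1), mul_zero]
  rw [hR]
  -- pointwise inequality
  have hpt : ∑ f : I → Finset ι, (∏ i, F i (f i)) * (1 - ∑ i, ∑ p ∈ f i, κ * τ p
      - ∑ i, ∑ j, (if i ≠ j then ∑ p, (if p ∈ f i ∧ p ∈ f j then (1 : ℝ) else 0) else 0)
      - ∑ i, Real.log (sz ν (f i)) / Real.log Q) ≤
      ∑ f : I → Finset ι, (∏ i, F i (f i)) *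
        (if (∀ i j, i ≠ j → Disjoint (f i) (f j)) ∧ ∏ i, sz ν (f i) ≤ Q then
          ∏ i, ∏ p ∈ f i, (1 - κ * τ p) else 0) := by
    refine Finset.sum_le_sum fun f _ => ?_
    refine mul_le_mul_of_nonneg_left ?_ (Finset.prod_nonneg fun i _ => hF i (f i))
    have := tuple_pointwise τ ν κ Q hτ hκ hκτ hν hQ f
    convert! this using 2
  refine le_trans ?_ hpt
  -- expand
  have hexp : ∑ f : I → Finset ι, (∏ i, F i (f i)) * (1 - ∑ i, ∑ p ∈ f i, κ * τ p
      - ∑ i, ∑ j, (if i ≠ j then ∑ p, (if p ∈ f i ∧ p ∈ f j then (1 : ℝ) else 0) else 0)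
      - ∑ i, Real.log (sz ν (f i)) / Real.log Q) =
      P - ∑ i, ∑ f : I → Finset ι, (∏ l, F l (f l)) * (∑ p ∈ f i, κ * τ p)
      - ∑ i, ∑ j, ∑ f : I → Finset ι, (∏ l, F l (f l)) *
          (if i ≠ j then ∑ p, (if p ∈ f i ∧ p ∈ f j then (1 : ℝ) else 0) else 0)
      - ∑ i, ∑ f : I → Finset ι, (∏ l, F l (f l)) *
          (Real.log (sz ν (f i)) / Real.log Q) := by
    have e1 : ∑ i, ∑ f : I → Finset ι, (∏ l, F l (f l)) * (∑ p ∈ f i, κ * τ p) =
        ∑ f : I → Finset ι, (∏ l, F l (f l)) * ∑ i, ∑ p ∈ f i, κ * τ p := by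
      rw [Finset.sum_comm]
      exact Finset.sum_congr rfl fun f _ => (Finset.mul_sum _ _ _).symm
    have e2 : ∑ i, ∑ j, ∑ f : I → Finset ι, (∏ l, F l (f l)) *
          (if i ≠ j then ∑ p, (if p ∈ f i ∧ p ∈ f j then (1 : ℝ) else 0) else 0) =
        ∑ f : I → Finset ι, (∏ l, F l (f l)) * ∑ i, ∑ j,
          (if i ≠ j then ∑ p, (if p ∈ f i ∧ p ∈ f j then (1 : ℝ) else 0) else 0) := by
      have : ∀ i : I, ∑ j, ∑ f : I → Finset ι, (∏ l, F l (f l)) *
          (if i ≠ j then ∑ p, (if p ∈ f i ∧ p ∈ f j then (1 : ℝ) else 0) else 0) =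
          ∑ f : I → Finset ι, (∏ l, F l (f l)) * ∑ j,
          (if i ≠ j then ∑ p, (if p ∈ f i ∧ p ∈ f j then (1 : ℝ) else 0) else 0) := by
        intro i
        rw [Finset.sum_comm]
        exact Finset.sum_congr rfl fun f _ => (Finset.mul_sum _ _ _).symm
      rw [Finset.sum_congr rfl fun i _ => this i, Finset.sum_comm]
      exact Finset.sum_congr rfl fun f _ => (Finset.mul_sum _ _ _).symm
    have e3 : ∑ i, ∑ f : I → Finset ι, (∏ l, F l (f l)) *
          (Real.log (sz ν (f i)) / Real.log Q) =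
        ∑ f : I → Finset ι, (∏ l, F l (f l)) * ∑ i, Real.log (sz ν (f i)) / Real.log Q := by
      rw [Finset.sum_comm]
      exact Finset.sum_congr rfl fun f _ => (Finset.mul_sum _ _ _).symm
    rw [e1, e2, e3, hP, ← v03_total F, ← Finset.sum_sub_distrib, ← Finset.sum_sub_distrib,
      ← Finset.sum_sub_distrib]
    refine Finset.sum_congr rfl fun f _ => ?_
    ring
  rw [hexp]
  have b1 : ∑ i, ∑ f : I → Finset ι, (∏ l, F l (f l)) * (∑ p ∈ f i, κ * τ p) ≤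
      k * (P * (κ * V)) := by
    calc ∑ i, ∑ f : I → Finset ι, (∏ l, F l (f l)) * (∑ p ∈ f i, κ * τ p)
        ≤ ∑ _i : I, P * (κ * V) :=
          Finset.sum_le_sum fun i _ => v03_single τ κ hτ hκ F hF hmono i
      _ = k * (P * (κ * V)) := by rw [Finset.sum_const, nsmul_eq_mul, Finset.card_univ]
  have b2 : ∑ i, ∑ j, ∑ f : I → Finset ι, (∏ l, F l (f l)) *
          (if i ≠ j then ∑ p, (if p ∈ f i ∧ p ∈ f j then (1 : ℝ) else 0) else 0) ≤
      k * (k * (P * V)) := by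
    calc ∑ i, ∑ j, ∑ f : I → Finset ι, (∏ l, F l (f l)) *
          (if i ≠ j then ∑ p, (if p ∈ f i ∧ p ∈ f j then (1 : ℝ) else 0) else 0)
        ≤ ∑ _i : I, ∑ _j : I, P * V := by
          refine Finset.sum_le_sum fun i _ => Finset.sum_le_sum fun j _ => ?_
          by_cases hij : i = j
          · simp only [hij, ne_eq, not_true_eq_false, if_false, mul_zero, Finset.sum_const_zero]
            exact mul_nonneg hP0 hV0
          · simp only [ne_eq, hij, not_false_eq_true, if_true]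
            exact v03_pair τ hτ F hF hmono i j hij
      _ = k * (k * (P * V)) := by
          rw [Finset.sum_const, Finset.sum_const, nsmul_eq_mul, nsmul_eq_mul, Finset.card_univ]
  have b3 : ∑ i, ∑ f : I → Finset ι, (∏ l, F l (f l)) *
          (Real.log (sz ν (f i)) / Real.log Q) =
      P * ∑ i, (∑ A, F i A * Real.log (sz ν A)) / ((∑ A, F i A) * Real.log Q) := by
    rw [Finset.mul_sum]
    exact Finset.sum_congr rfl fun i _ => v03_log ν Q F hS i
  rw [b3]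
  calc P * (1 - k * κ * V - k ^ 2 * V
        - ∑ i, (∑ A, F i A * Real.log (sz ν A)) / ((∑ A, F i A) * Real.log Q))
      = P - k * (P * (κ * V)) - k * (k * (P * V)) -
        P * ∑ i, (∑ A, F i A * Real.log (sz ν A)) / ((∑ A, F i A) * Real.log Q) := by ring
    _ ≤ _ := by linarith

end BVM

end
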