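import Pool.Agent.helper31.BVM.T09
import Pool.Agent.helper31.BVM.V04
import Pool.Agent.helper31.BVM.S06

/-!
# BVM-V05: upper and lower bounds for the main transform of `yh`

PROOFS. `TA_Sk0_le`: by `TA_Sk0_eq` (T09) the left side is
`∑_{e : labels in M, supp e ∩ supp c = ∅} wt τ e * yh (jn c e)`; for `i ∈ M` the part of `jn c e` is
`part e i` (`part_jn`, `c` has no label in `M`), for `i ∉ M` it is `part c i`. Dropping the cut-off,
`yh (jn c e) ≤ ∏_{i ∉ M} h (sz (part c i)) ∏_{i ∈ M} h (sz (part e i))`, and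
`wt τ e = ∏_{i ∈ M} ∏_{p ∈ part e i} τ p` (`wt_eq_prod_part`; the parts outside `M` are empty). Conclude
with `sum_cfg_prod_le_of_labels` (V01).
`TA_Sk0_ge`: keep, in `TA_Sk0_eq` for `M = {m}`, only (equivalently, all) `e = e_A`, where
`e_A p = if p ∈ A then some m else none`, `A` disjoint from `supp c` (all terms are `≥ 0`). If
`h (sz A) ≠ 0` then `sz A ≤ Z`, so `sz (supp (jn c e_A)) = sz (supp c) * sz A ≤ R` and
`yh (jn c e_A) = h (sz A) ∏_{i ≠ m} h (sz (part c i))`; if `h (sz A) = 0` both are `≥ 0` and the bound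
is trivial. So the transform is at least `∏_{i≠m} h(...) ∑_{A ∩ supp c = ∅} τ(A) h(sz A)`. Then
`S1_disjoint_ge` (S06) with `H A = h (sz ν A)` (antitone by `sz_mono`).
-/

noncomputable section

namespace BVM

open Finset

variable {ι I : Type*} [Fintype ι] [DecidableEq ι] [Fintype I] [DecidableEq I]

private theorem v05_part_empty_of_label {M : Finset I} {e : ι → Option I}
    (he : ∀ p j, e p = some j → j ∈ M) {i : I} (hi : i ∉ M) : part e i = ∅ := by
  unfold part
  rw [Finset.filter_eq_empty_iff]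
  intro p _ hp
  exact hi (he p i hp)

private theorem v05_part_empty_of_noLab {M : Finset I} {c : ι → Option I}
    (hc : NoLab M c) {i : I} (hi : i ∈ M) : part c i = ∅ := by
  unfold part
  rw [Finset.filter_eq_empty_iff]
  intro p _ hp
  exact hc p i hi hp

private theorem v05_sz_nonneg (ν : ι → ℝ) (hν : ∀ p, 1 ≤ ν p) (A : Finset ι) : 0 ≤ sz ν A :=
  Finset.prod_nonneg (fun p _ => zero_le_one.trans (hν p))

private theorem v05_yh_le (h : ℝ → ℝ) (hh : ∀ x, 0 ≤ h x) (ν : ι → ℝ) (R : ℝ)
    (c : ι → Option I) : yh h ν R c ≤ ∏ i, h (sz ν (part c i)) := by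
  unfold yh
  split_ifs
  · exact le_refl _
  · exact Finset.prod_nonneg (fun i _ => hh _)

private theorem v05_split (M : Finset I) (F : I → ℝ) :
    ∏ i, F i = (∏ i ∈ M, F i) * ∏ i ∈ univ.filter (fun i => i ∉ M), F i := by
  rw [← Finset.prod_filter_mul_prod_filter_not univ (fun i => i ∈ M)]
  congr 1
  apply Finset.prod_congr _ (fun _ _ => rfl)
  ext i
  simp

theorem TA_Sk0_le (M : Finset I) (τ ν : ι → ℝ) (hτ : ∀ p, 0 ≤ τ p) (h : ℝ → ℝ)
    (hh : ∀ x, 0 ≤ h x) (R : ℝ) (c : ι → Option I) (hc : NoLab M c) :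
    TA (fun p => Sk0 M (τ p)) (yh h ν R) c ≤
      (∏ i ∈ univ.filter (fun i => i ∉ M), h (sz ν (part c i))) *
        S1 τ (fun A => h (sz ν A)) ^ M.card := by
  classical
  rw [TA_Sk0_eq M τ _ c hc]
  set S := univ.filter (fun e : ι → Option I =>
        (∀ p j, e p = some j → j ∈ M) ∧ Disjoint (supp e) (supp c)) with hS
  set F : Finset ι → ℝ := fun A => (∏ p ∈ A, τ p) * h (sz ν A) with hF
  set P : ℝ := ∏ i ∈ univ.filter (fun i => i ∉ M), h (sz ν (part c i)) with hP
  have hP0 : 0 ≤ P := Finset.prod_nonneg (fun i _ => hh _)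
  have hF0 : ∀ A, 0 ≤ F A := fun A =>
    mul_nonneg (Finset.prod_nonneg (fun p _ => hτ p)) (hh _)
  have key : ∀ e ∈ S, wt τ e * yh h ν R (jn c e) ≤ P * ∏ i ∈ M, F (part e i) := by
    intro e he
    rw [hS, Finset.mem_filter] at he
    obtain ⟨-, heM, hed⟩ := he
    have hw : wt τ e = ∏ i ∈ M, ∏ p ∈ part e i, τ p := by
      rw [wt_eq_prod_part, v05_split M]
      rw [Finset.prod_eq_one (s := univ.filter (fun i => i ∉ M)), mul_one]
      intro i hi
      rw [Finset.mem_filter] at hi
      rw [v05_part_empty_of_label heM hi.2, Finset.prod_empty]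
    have hw0 : 0 ≤ wt τ e := by
      rw [hw]
      exact Finset.prod_nonneg (fun i _ => Finset.prod_nonneg (fun p _ => hτ p))
    have hy : yh h ν R (jn c e) ≤ (∏ i ∈ M, h (sz ν (part e i))) * P := by
      refine (v05_yh_le h hh ν R (jn c e)).trans (le_of_eq ?_)
      rw [v05_split M]
      congr 1
      · apply Finset.prod_congr rfl
        intro i hi
        rw [part_jn c e hed, v05_part_empty_of_noLab hc hi, Finset.empty_union]
      · rw [hP]
        apply Finset.prod_congr rfl
        intro i hi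
        rw [Finset.mem_filter] at hi
        rw [part_jn c e hed, v05_part_empty_of_label heM hi.2, Finset.union_empty]
    calc wt τ e * yh h ν R (jn c e) ≤ wt τ e * ((∏ i ∈ M, h (sz ν (part e i))) * P) :=
          mul_le_mul_of_nonneg_left hy hw0
      _ = P * ∏ i ∈ M, F (part e i) := by
          rw [hw, hF, Finset.prod_mul_distrib]
          ring
  calc ∑ e ∈ S, wt τ e * yh h ν R (jn c e) ≤ ∑ e ∈ S, P * ∏ i ∈ M, F (part e i) :=
        Finset.sum_le_sum key
    _ = P * ∑ e ∈ S, ∏ i ∈ M, F (part e i) := by rw [Finset.mul_sum]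
    _ ≤ P * (∑ A : Finset ι, F A) ^ M.card := by
        apply mul_le_mul_of_nonneg_left _ hP0
        apply sum_cfg_prod_le_of_labels M F hF0 S
        intro e he
        rw [hS, Finset.mem_filter] at he
        exact he.2.1
    _ = P * S1 τ (fun A => h (sz ν A)) ^ M.card := rfl

theorem TA_Sk0_ge (m : I) (τ ν : ι → ℝ) (hτ : ∀ p, 0 ≤ τ p) (hν : ∀ p, 1 ≤ ν p) (h : ℝ → ℝ)
    (hh : ∀ x, 0 ≤ h x) (ha : Antitone h) (Z R : ℝ) (hZ : ∀ x, Z < x → h x = 0)
    (c : ι → Option I) (hc : NoLab {m} c) (hcR : sz ν (supp c) * Z ≤ R) :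
    (∏ i ∈ univ.erase m, h (sz ν (part c i))) * S1 τ (fun A => h (sz ν A)) ≤
      (∏ p ∈ supp c, (1 + τ p)) * TA (fun p => Sk0 {m} (τ p)) (yh h ν R) c := by
  classical
  set S := supp c with hSdef
  set P : ℝ := ∏ i ∈ univ.erase m, h (sz ν (part c i)) with hP
  have hP0 : 0 ≤ P := Finset.prod_nonneg (fun i _ => hh _)
  have h1 := S1_disjoint_ge τ hτ (fun A => h (sz ν A)) (fun A => hh _)
    (fun A B hAB => ha (sz_mono ν hν A B hAB)) S
  have hprod0 : 0 ≤ ∏ p ∈ S, (1 + τ p) :=
    Finset.prod_nonneg (fun p _ => add_nonneg zero_le_one (hτ p))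
  set T : Finset (Finset ι) := univ.filter (fun A : Finset ι => Disjoint A S) with hT
  set E : Finset ι → (ι → Option I) := fun A => ins m A (fun _ => none) with hE
  have hnone : supp (fun _ : ι => (none : Option I)) = ∅ := by
    unfold supp
    rw [Finset.filter_eq_empty_iff]
    intro p _ hp
    exact hp rfl
  have hnolab : NoLab {m} (fun _ : ι => (none : Option I)) := by
    intro p j _ hp
    exact absurd hp (by simp)
  have hEsupp : ∀ A, supp (E A) = A := by
    intro A
    rw [hE, supp_ins, hnone, Finset.union_empty]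
  have hEpart : ∀ A, part (E A) m = A := fun A => part_ins m A _ hnolab
  have hElab : ∀ A p j, E A p = some j → j ∈ ({m} : Finset I) := by
    intro A p j hp
    simp only [hE, ins] at hp
    split_ifs at hp with h2
    rw [Option.some.injEq] at hp
    rw [← hp]
    exact Finset.mem_singleton_self _
  have hEwt : ∀ A, wt τ (E A) = ∏ p ∈ A, τ p := by
    intro A
    rw [hE, wt_ins τ m A _ (by rw [hnone]; exact Finset.disjoint_empty_right _)]
    rw [wt_eq_prod_supp, hnone, Finset.prod_empty, mul_one]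
  have key : ∀ A ∈ T, P * ((∏ p ∈ A, τ p) * h (sz ν A)) ≤ wt τ (E A) * yh h ν R (jn c (E A)) := by
    intro A hA
    rw [hT, Finset.mem_filter] at hA
    have hd : Disjoint (supp (E A)) (supp c) := by
      rw [hEsupp]
      exact hA.2
    have hτA : 0 ≤ ∏ p ∈ A, τ p := Finset.prod_nonneg (fun p _ => hτ p)
    have hyn : 0 ≤ yh h ν R (jn c (E A)) := yh_nonneg h hh ν R _
    by_cases h0 : h (sz ν A) = 0
    · rw [h0, mul_zero, mul_zero, hEwt]
      exact mul_nonneg hτA hyn
    · have hle : sz ν A ≤ Z := by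
        by_contra hcon
        exact h0 (hZ _ (not_le.1 hcon))
      have hcut : sz ν (supp (jn c (E A))) ≤ R := by
        have hd' : Disjoint (supp c) A := hA.2.symm
        rw [supp_jn, hEsupp]
        have e1 : sz ν (supp c ∪ A) = sz ν (supp c) * sz ν A := by
          unfold sz
          rw [Finset.prod_union hd']
        rw [e1]
        exact (mul_le_mul_of_nonneg_left hle (v05_sz_nonneg ν hν _)).trans hcR
      have hy : yh h ν R (jn c (E A)) = h (sz ν A) * P := by
        unfold yh
        rw [if_pos hcut, ← Finset.mul_prod_erase univ _ (Finset.mem_univ m)]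
        congr 1
        · rw [part_jn c (E A) hd, hEpart,
            v05_part_empty_of_noLab hc (Finset.mem_singleton_self m), Finset.empty_union]
        · rw [hP]
          apply Finset.prod_congr rfl
          intro i hi
          rw [Finset.mem_erase] at hi
          rw [part_jn c (E A) hd, v05_part_empty_of_label (hElab A)
            (by rw [Finset.mem_singleton]; exact hi.1), Finset.union_empty]
      rw [hy, hEwt]
      apply le_of_eq
      ring
  have h2 : P * ∑ A ∈ T, (∏ p ∈ A, τ p) * h (sz ν A) ≤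
      TA (fun p => Sk0 {m} (τ p)) (yh h ν R) c := by
    rw [Finset.mul_sum, TA_Sk0_eq {m} τ _ c hc]
    refine (Finset.sum_le_sum key).trans ?_
    have hinj : Set.InjOn E (T : Set (Finset ι)) := by
      intro A _ B _ hAB
      rw [← hEsupp A, ← hEsupp B, hAB]
    rw [← Finset.sum_image (f := fun e => wt τ e * yh h ν R (jn c e)) hinj]
    apply Finset.sum_le_sum_of_subset_of_nonneg
    · intro e he
      rw [Finset.mem_image] at he
      obtain ⟨A, hA, rfl⟩ := he
      rw [hT, Finset.mem_filter] at hA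
      rw [Finset.mem_filter]
      refine ⟨Finset.mem_univ _, hElab A, ?_⟩
      rw [hEsupp]
      exact hA.2
    · intro e _ _
      apply mul_nonneg _ (yh_nonneg h hh ν R _)
      rw [wt_eq_prod_supp]
      exact Finset.prod_nonneg (fun p _ => hτ p)
  calc P * S1 τ (fun A => h (sz ν A))
      ≤ P * ((∏ p ∈ S, (1 + τ p)) * ∑ A ∈ T, (∏ p ∈ A, τ p) * h (sz ν A)) :=
        mul_le_mul_of_nonneg_left h1 hP0
    _ = (∏ p ∈ S, (1 + τ p)) * (P * ∑ A ∈ T, (∏ p ∈ A, τ p) * h (sz ν A)) := by ring
    _ ≤ (∏ p ∈ S, (1 + τ p)) * TA (fun p => Sk0 {m} (τ p)) (yh h ν R) c :=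
        mul_le_mul_of_nonneg_left h2 hprod0

end BVM

end
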