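import Pool.Agent.helper31.BVM.T05
import Pool.Agent.helper31.BVM.T06
import Pool.Agent.helper31.BVM.V03
import Pool.Agent.helper31.BVM.V05

/-!
# BVM-V06: the form with one prime, lower bound

Notation: `k = card I`, `J = S1 τ (h ∘ sz)`, `I2 = S1 τ (h^2 ∘ sz)`, `P = ∏_p (1 + k τ_p^2) ≤ 2`,
`λ_m = TA (Dk {m}) (lam τ (yh h ν R))`, `Q = R / Z`.

PROOF. By `QF_Bk_ge` (V04) and `TA_composite` (T05),
`QF (Bk τ) λ_m ≥ ∑_c wt (τ(1 - kτ)) c * (wt (-(1+τ)) c)^2 * (Y c)^2`, `Y c = TA (Sk {m} τ) (yh h ν R) c`.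
All terms are `≥ 0`; keep only `c` with `NoLab {m} c` and `sz (supp c) ≤ Q`. For those, `Sk_close` (T06;
`yh_nonneg`, `yh_mono` in V04) gives `Y c ≥ (2 - P) Y0 c ≥ 0`, and `TA_Sk0_ge` (V05; `Q Z = R`) gives
`Y0 c ≥ (∏_{i≠m} h(sz (part c i))) J / ∏_{p∈supp c}(1+τ p)`. Prime by prime
`τ(1-kτ)(1+τ)^2/(1+τ)^2 = τ(1-kτ) ≥ τ(1-(k+2)τ)`. So
`QF ≥ (2-P)^2 J^2 ∑_{c : NoLab {m}, sz (supp c) ≤ Q} wt (τ(1-(k+2)τ)) c ∏_{i≠m} h(sz(part c i))^2`.
This is the sum of V03 (`sum_cfg_lower`) with `κ = k+2`, `F i A = (∏_{p∈A} τ p) h(sz A)^2` for `i ≠ m`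
and `F m A = if A = ∅ then 1 else 0` (then `∏_i F i (part c i) = 0` unless `NoLab {m} c`, and
`wt τ c = ∏_i ∏_{p∈part c i} τ p`); `∑_A F m A = 1`, `log (sz ∅) = 0`, and
`F i (insert p A) ≤ τ p F i A` because `h` is antitone and `≥ 0`. Finally `k - 1 ≤ k` in the last
sum: `∑_{i≠m} (M1/(I2 log Q)) ≤ k M1/(I2 log Q)`.
-/

noncomputable section

namespace BVM

open Finset

variable {ι I : Type*} [Fintype ι] [DecidableEq ι] [Fintype I] [DecidableEq I]

private theorem v6_wt_mul (f g : ι → ℝ) (c : ι → Option I) :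
    wt f c * wt g c = wt (fun p => f p * g p) c := by
  unfold wt
  rw [← Finset.prod_mul_distrib]
  apply Finset.prod_congr rfl
  intro p _
  split_ifs <;> simp

private theorem v6_wt_nonneg (f : ι → ℝ) (hf : ∀ p, 0 ≤ f p) (c : ι → Option I) :
    0 ≤ wt f c := by
  unfold wt
  apply Finset.prod_nonneg
  intro p _
  split_ifs
  · exact zero_le_one
  · exact hf p

private theorem v6_wt_mono (f g : ι → ℝ) (hf : ∀ p, 0 ≤ f p) (hfg : ∀ p, f p ≤ g p)
    (c : ι → Option I) : wt f c ≤ wt g c := by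
  unfold wt
  apply Finset.prod_le_prod
  · intro p _
    split_ifs
    · exact zero_le_one
    · exact hf p
  · intro p _
    split_ifs
    · exact le_rfl
    · exact hfg p

private theorem v6_wt_neg_sq (τ : ι → ℝ) (c : ι → Option I) :
    wt (fun p => -(1 + τ p)) c ^ 2 = (∏ p ∈ supp c, (1 + τ p)) ^ 2 := by
  rw [wt_eq_prod_supp, ← Finset.prod_pow, ← Finset.prod_pow]
  apply Finset.prod_congr rfl
  intro p _
  ring

/-- The function `F` of the proof. -/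
private def v6F (m : I) (τ ν : ι → ℝ) (h : ℝ → ℝ) (i : I) (A : Finset ι) : ℝ :=
  if i = m then (if A = ∅ then 1 else 0) else (∏ p ∈ A, τ p) * h (sz ν A) ^ 2

private theorem v6F_self (m : I) (τ ν : ι → ℝ) (h : ℝ → ℝ) (A : Finset ι) :
    v6F m τ ν h m A = if A = ∅ then 1 else 0 := by
  simp [v6F]

private theorem v6F_ne (m : I) (τ ν : ι → ℝ) (h : ℝ → ℝ) (i : I) (hi : i ≠ m) (A : Finset ι) :
    v6F m τ ν h i A = (∏ p ∈ A, τ p) * h (sz ν A) ^ 2 := by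
  simp [v6F, hi]

private theorem v6F_nonneg (m : I) (τ ν : ι → ℝ) (hτ : ∀ p, 0 ≤ τ p) (h : ℝ → ℝ) (i : I)
    (A : Finset ι) : 0 ≤ v6F m τ ν h i A := by
  unfold v6F
  split_ifs
  · exact zero_le_one
  · exact le_rfl
  · exact mul_nonneg (Finset.prod_nonneg fun p _ => hτ p) (sq_nonneg _)

private theorem v6_sz_empty (ν : ι → ℝ) : sz ν (∅ : Finset ι) = 1 := by
  simp [sz]

private theorem v6F_mono (m : I) (τ ν : ι → ℝ) (hτ : ∀ p, 0 ≤ τ p) (hν : ∀ p, 1 ≤ ν p)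
    (h : ℝ → ℝ) (hh : ∀ x, 0 ≤ h x) (ha : Antitone h) (i : I) (p : ι) (A : Finset ι)
    (hp : p ∉ A) : v6F m τ ν h i (insert p A) ≤ τ p * v6F m τ ν h i A := by
  by_cases hi : i = m
  · subst hi
    rw [v6F_self, v6F_self, if_neg (Finset.insert_ne_empty p A)]
    apply mul_nonneg (hτ p)
    split_ifs
    · exact zero_le_one
    · exact le_rfl
  · rw [v6F_ne m τ ν h i hi, v6F_ne m τ ν h i hi, Finset.prod_insert hp]
    have h1 : h (sz ν (insert p A)) ≤ h (sz ν A) :=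
      ha (sz_mono ν hν A (insert p A) (Finset.subset_insert p A))
    have h2 : h (sz ν (insert p A)) ^ 2 ≤ h (sz ν A) ^ 2 :=
      pow_le_pow_left₀ (hh _) h1 2
    have h3 : 0 ≤ τ p * ∏ x ∈ A, τ x :=
      mul_nonneg (hτ p) (Finset.prod_nonneg fun x _ => hτ x)
    calc τ p * (∏ x ∈ A, τ x) * h (sz ν (insert p A)) ^ 2
        ≤ τ p * (∏ x ∈ A, τ x) * h (sz ν A) ^ 2 := mul_le_mul_of_nonneg_left h2 h3
      _ = τ p * ((∏ x ∈ A, τ x) * h (sz ν A) ^ 2) := by ring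

private theorem v6F_sum_self (m : I) (τ ν : ι → ℝ) (h : ℝ → ℝ) :
    ∑ A : Finset ι, v6F m τ ν h m A = 1 := by
  simp [v6F_self]

private theorem v6F_sum_ne (m : I) (τ ν : ι → ℝ) (h : ℝ → ℝ) (i : I) (hi : i ≠ m) :
    ∑ A : Finset ι, v6F m τ ν h i A = S1 τ (fun A => h (sz ν A) ^ 2) := by
  unfold S1
  apply Finset.sum_congr rfl
  intro A _
  rw [v6F_ne m τ ν h i hi]

private theorem v6_I2_pos (τ ν : ι → ℝ) (hτ : ∀ p, 0 ≤ τ p) (h : ℝ → ℝ)
    (h1 : 0 < h 1) : 0 < S1 τ (fun A => h (sz ν A) ^ 2) := by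
  unfold S1
  apply Finset.sum_pos'
  · intro A _
    exact mul_nonneg (Finset.prod_nonneg fun p _ => hτ p) (sq_nonneg _)
  · refine ⟨∅, Finset.mem_univ _, ?_⟩
    show 0 < (∏ p ∈ (∅ : Finset ι), τ p) * h (sz ν ∅) ^ 2
    rw [v6_sz_empty, Finset.prod_empty, one_mul]
    positivity

private theorem v6_prod_F (m : I) (τ ν : ι → ℝ) (h : ℝ → ℝ) (c : ι → Option I)
    (hc : part c m = ∅) :
    ∏ i, v6F m τ ν h i (part c i) =
      wt τ c * (∏ i ∈ univ.erase m, h (sz ν (part c i))) ^ 2 := by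
  rw [← Finset.mul_prod_erase univ (fun i => v6F m τ ν h i (part c i)) (Finset.mem_univ m)]
  rw [hc, v6F_self, if_pos rfl, one_mul, wt_eq_prod_part]
  rw [← Finset.mul_prod_erase univ (fun i => ∏ p ∈ part c i, τ p) (Finset.mem_univ m)]
  rw [hc, Finset.prod_empty, one_mul, ← Finset.prod_pow, ← Finset.prod_mul_distrib]
  apply Finset.prod_congr rfl
  intro i hi
  rw [v6F_ne m τ ν h i (Finset.ne_of_mem_erase hi)]

private theorem v6_term (m : I) (τ ν : ι → ℝ) (hτ : ∀ p, 0 ≤ τ p) (hν : ∀ p, 1 ≤ ν p)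
    (hk : ∀ p, ((Fintype.card I : ℝ) + 2) * τ p ≤ 1)
    (hP : ∏ p, (1 + (Fintype.card I : ℝ) * τ p ^ 2) ≤ 2)
    (h : ℝ → ℝ) (hh : ∀ x, 0 ≤ h x) (ha : Antitone h) (Z R : ℝ) (hZ0 : 1 ≤ Z)
    (hZ : ∀ x, Z < x → h x = 0) (c : ι → Option I) :
    (2 - ∏ p, (1 + (Fintype.card I : ℝ) * τ p ^ 2)) ^ 2 * S1 τ (fun A => h (sz ν A)) ^ 2 *
      (if sz ν (supp c) ≤ R / Z then
        wt (fun p => 1 - ((Fintype.card I : ℝ) + 2) * τ p) c *
          ∏ i, v6F m τ ν h i (part c i) else 0) ≤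
    wt (fun p => τ p * (1 - (Fintype.card I : ℝ) * τ p)) c *
      (wt (fun p => -(1 + τ p)) c * TA (fun p => Sk {m} (τ p)) (yh h ν R) c) ^ 2 := by
  set k : ℝ := (Fintype.card I : ℝ) with hkdef
  have hk0 : 0 ≤ k := Nat.cast_nonneg _
  have hkτ : ∀ p, k * τ p ≤ 1 := fun p => by
    have := hk p; have := hτ p; nlinarith
  have ha0 : ∀ p, 0 ≤ τ p * (1 - k * τ p) := fun p =>
    mul_nonneg (hτ p) (by have := hkτ p; linarith)
  have hrhs : 0 ≤ wt (fun p => τ p * (1 - k * τ p)) c *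
      (wt (fun p => -(1 + τ p)) c * TA (fun p => Sk {m} (τ p)) (yh h ν R) c) ^ 2 :=
    mul_nonneg (v6_wt_nonneg _ ha0 c) (sq_nonneg _)
  by_cases hs : sz ν (supp c) ≤ R / Z
  swap
  · rw [if_neg hs, mul_zero]
    exact hrhs
  rw [if_pos hs]
  by_cases hc : part c m = ∅
  swap
  · have : ∏ i, v6F m τ ν h i (part c i) = 0 := by
      apply Finset.prod_eq_zero (Finset.mem_univ m)
      rw [v6F_self, if_neg hc]
    rw [this, mul_zero, mul_zero]
    exact hrhs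
  have hnl : NoLab {m} c := by
    intro p j hj he
    rw [Finset.mem_singleton] at hj
    subst hj
    have : p ∈ part c j := by simp [part, he]
    rw [hc] at this
    exact absurd this (Finset.notMem_empty p)
  rw [v6_prod_F m τ ν h c hc]
  set P := ∏ p, (1 + k * τ p ^ 2) with hPdef
  set J := S1 τ (fun A => h (sz ν A)) with hJdef
  set H := ∏ i ∈ univ.erase m, h (sz ν (part c i)) with hHdef
  set V := ∏ p ∈ supp c, (1 + τ p) with hVdef
  set Y := TA (fun p => Sk {m} (τ p)) (yh h ν R) c with hYdef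
  set Y0 := TA (fun p => Sk0 {m} (τ p)) (yh h ν R) c with hY0def
  have hH0 : 0 ≤ H := Finset.prod_nonneg fun i _ => hh _
  have hJ0 : 0 ≤ J := by
    rw [hJdef]; unfold S1
    exact Finset.sum_nonneg fun A _ =>
      mul_nonneg (Finset.prod_nonneg fun p _ => hτ p) (hh _)
  have hV0 : 0 ≤ V := Finset.prod_nonneg fun p _ => by have := hτ p; linarith
  have hcR : sz ν (supp c) * Z ≤ R := by
    rwa [le_div_iff₀ (by linarith)] at hs
  have hge : H * J ≤ V * Y0 := TA_Sk0_ge m τ ν hτ hν h hh ha Z R hZ c hnl hcR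
  have hY00 : 0 ≤ Y0 := TA_Sk0_nonneg {m} τ hτ (yh h ν R) (fun c => yh_nonneg h hh ν R c) c
  have hclose := Sk_close {m} τ hτ (yh h ν R) (fun c => yh_nonneg h hh ν R c)
    (fun c c' hs => yh_mono h hh ha ν hν R c c' hs) c
  have hY : (2 - P) * Y0 ≤ Y := by
    have := (abs_le.mp hclose).1
    change -((P - 1) * Y0) ≤ Y - Y0 at this
    linarith
  have h2P : 0 ≤ 2 - P := by linarith
  have hY1 : 0 ≤ (2 - P) * Y0 := mul_nonneg h2P hY00
  -- the square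
  have hsq : (2 - P) ^ 2 * (H * J) ^ 2 ≤ (wt (fun p => -(1 + τ p)) c * Y) ^ 2 := by
    rw [mul_pow (wt (fun p => -(1 + τ p)) c) Y, v6_wt_neg_sq]
    have e1 : (H * J) ^ 2 ≤ (V * Y0) ^ 2 := pow_le_pow_left₀ (mul_nonneg hH0 hJ0) hge 2
    have e2 : ((2 - P) * Y0) ^ 2 ≤ Y ^ 2 := pow_le_pow_left₀ hY1 hY 2
    calc (2 - P) ^ 2 * (H * J) ^ 2 ≤ (2 - P) ^ 2 * (V * Y0) ^ 2 :=
          mul_le_mul_of_nonneg_left e1 (sq_nonneg _)
      _ = V ^ 2 * ((2 - P) * Y0) ^ 2 := by ring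
      _ ≤ V ^ 2 * Y ^ 2 := mul_le_mul_of_nonneg_left e2 (sq_nonneg _)
  have hwt : wt (fun p => 1 - (k + 2) * τ p) c * wt τ c ≤
      wt (fun p => τ p * (1 - k * τ p)) c := by
    rw [v6_wt_mul]
    apply v6_wt_mono
    · intro p
      exact mul_nonneg (by have := hk p; linarith) (hτ p)
    · intro p
      have := hτ p
      nlinarith
  calc (2 - P) ^ 2 * J ^ 2 * (wt (fun p => 1 - (k + 2) * τ p) c * (wt τ c * H ^ 2))
      = (wt (fun p => 1 - (k + 2) * τ p) c * wt τ c) * ((2 - P) ^ 2 * (H * J) ^ 2) := by ring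
    _ ≤ wt (fun p => τ p * (1 - k * τ p)) c * ((2 - P) ^ 2 * (H * J) ^ 2) :=
        mul_le_mul_of_nonneg_right hwt (by positivity)
    _ ≤ wt (fun p => τ p * (1 - k * τ p)) c * (wt (fun p => -(1 + τ p)) c * Y) ^ 2 :=
        mul_le_mul_of_nonneg_left hsq (v6_wt_nonneg _ ha0 c)

theorem QF_lower (m : I) (τ ν : ι → ℝ) (hτ : ∀ p, 0 ≤ τ p) (hν : ∀ p, 1 ≤ ν p)
    (hk : ∀ p, ((Fintype.card I : ℝ) + 2) * τ p ≤ 1)
    (hP : ∏ p, (1 + (Fintype.card I : ℝ) * τ p ^ 2) ≤ 2)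
    (h : ℝ → ℝ) (hh : ∀ x, 0 ≤ h x) (ha : Antitone h) (h1 : 0 < h 1) (Z R : ℝ) (hZ0 : 1 ≤ Z)
    (hZR : Z < R) (hZ : ∀ x, Z < x → h x = 0) :
    (2 - ∏ p, (1 + (Fintype.card I : ℝ) * τ p ^ 2)) ^ 2 * S1 τ (fun A => h (sz ν A)) ^ 2 *
      S1 τ (fun A => h (sz ν A) ^ 2) ^ (Fintype.card I - 1) *
      (1 - (Fintype.card I : ℝ) * ((Fintype.card I : ℝ) + 2) * ∑ p, τ p ^ 2
        - (Fintype.card I : ℝ) ^ 2 * ∑ p, τ p ^ 2
        - (Fintype.card I : ℝ) * S1 τ (fun A => h (sz ν A) ^ 2 * Real.log (sz ν A)) /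
            (S1 τ (fun A => h (sz ν A) ^ 2) * Real.log (R / Z))) ≤
    QF (fun p => Bk (τ p)) (TA (fun _ => Dk {m}) (lam τ (yh h ν R))) := by
  have hk0 : (0 : ℝ) ≤ (Fintype.card I : ℝ) := Nat.cast_nonneg _
  have hkτ : ∀ p, (Fintype.card I : ℝ) * τ p ≤ 1 := fun p => by
    have := hk p; have := hτ p; nlinarith
  have hQ : 1 < R / Z := by
    rw [one_lt_div (by linarith)]
    exact hZR
  have hlogQ : 0 < Real.log (R / Z) := Real.log_pos hQ
  have hI2 : 0 < S1 τ (fun A => h (sz ν A) ^ 2) := v6_I2_pos τ ν hτ h h1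
  have hM1 : 0 ≤ S1 τ (fun A => h (sz ν A) ^ 2 * Real.log (sz ν A)) := by
    unfold S1
    exact Finset.sum_nonneg fun A _ => mul_nonneg (Finset.prod_nonneg fun p _ => hτ p)
      (mul_nonneg (sq_nonneg _) (Real.log_nonneg (one_le_sz ν hν A)))
  have hV3 := sum_cfg_lower τ ν ((Fintype.card I : ℝ) + 2) (R / Z) hτ (by linarith) hk hν hQ
    (v6F m τ ν h) (v6F_nonneg m τ ν hτ h)
    (by
      intro i
      by_cases hi : i = m
      · subst hi
        rw [v6F_sum_self]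
        exact one_pos
      · rw [v6F_sum_ne m τ ν h i hi]
        exact hI2)
    (v6F_mono m τ ν hτ hν h hh ha)
  have hprodS : ∏ i, ∑ A, v6F m τ ν h i A =
      S1 τ (fun A => h (sz ν A) ^ 2) ^ (Fintype.card I - 1) := by
    rw [← Finset.mul_prod_erase univ (fun i => ∑ A, v6F m τ ν h i A) (Finset.mem_univ m)]
    rw [v6F_sum_self, one_mul]
    rw [Finset.prod_congr rfl (fun i hi => v6F_sum_ne m τ ν h i (Finset.ne_of_mem_erase hi))]
    rw [Finset.prod_const, Finset.card_erase_of_mem (Finset.mem_univ m), Finset.card_univ]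
  have hlogs : ∑ i, (∑ A, v6F m τ ν h i A * Real.log (sz ν A)) /
      ((∑ A, v6F m τ ν h i A) * Real.log (R / Z)) ≤
      (Fintype.card I : ℝ) * S1 τ (fun A => h (sz ν A) ^ 2 * Real.log (sz ν A)) /
            (S1 τ (fun A => h (sz ν A) ^ 2) * Real.log (R / Z)) := by
    have hterm : ∀ i ∈ (univ : Finset I), (∑ A, v6F m τ ν h i A * Real.log (sz ν A)) /
      ((∑ A, v6F m τ ν h i A) * Real.log (R / Z)) ≤
      S1 τ (fun A => h (sz ν A) ^ 2 * Real.log (sz ν A)) /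
            (S1 τ (fun A => h (sz ν A) ^ 2) * Real.log (R / Z)) := by
      intro i _
      by_cases hi : i = m
      · subst hi
        have : ∑ A : Finset ι, v6F i τ ν h i A * Real.log (sz ν A) = 0 := by
          apply Finset.sum_eq_zero
          intro A _
          rw [v6F_self]
          split_ifs with hA
          · rw [hA, v6_sz_empty, Real.log_one, mul_zero]
          · rw [zero_mul]
        rw [this, zero_div]
        exact div_nonneg hM1 (mul_nonneg hI2.le hlogQ.le)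
      · rw [v6F_sum_ne m τ ν h i hi]
        have : ∑ A : Finset ι, v6F m τ ν h i A * Real.log (sz ν A) =
            S1 τ (fun A => h (sz ν A) ^ 2 * Real.log (sz ν A)) := by
          unfold S1
          apply Finset.sum_congr rfl
          intro A _
          rw [v6F_ne m τ ν h i hi]
          ring
        rw [this]
    refine (Finset.sum_le_sum hterm).trans ?_
    rw [Finset.sum_const, Finset.card_univ, nsmul_eq_mul, mul_div_assoc]
  rw [hprodS] at hV3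
  have hpos : 0 ≤ (2 - ∏ p, (1 + (Fintype.card I : ℝ) * τ p ^ 2)) ^ 2 *
      S1 τ (fun A => h (sz ν A)) ^ 2 := by positivity
  have hQF := QF_Bk_ge τ hτ hkτ
    (TA (fun _ => Dk {m}) (lam τ (yh h ν R)) : (ι → Option I) → ℝ)
  calc (2 - ∏ p, (1 + (Fintype.card I : ℝ) * τ p ^ 2)) ^ 2 * S1 τ (fun A => h (sz ν A)) ^ 2 *
      S1 τ (fun A => h (sz ν A) ^ 2) ^ (Fintype.card I - 1) *
      (1 - (Fintype.card I : ℝ) * ((Fintype.card I : ℝ) + 2) * ∑ p, τ p ^ 2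
        - (Fintype.card I : ℝ) ^ 2 * ∑ p, τ p ^ 2
        - (Fintype.card I : ℝ) * S1 τ (fun A => h (sz ν A) ^ 2 * Real.log (sz ν A)) /
            (S1 τ (fun A => h (sz ν A) ^ 2) * Real.log (R / Z)))
      ≤ (2 - ∏ p, (1 + (Fintype.card I : ℝ) * τ p ^ 2)) ^ 2 * S1 τ (fun A => h (sz ν A)) ^ 2 *
      (S1 τ (fun A => h (sz ν A) ^ 2) ^ (Fintype.card I - 1) *
      (1 - (Fintype.card I : ℝ) * ((Fintype.card I : ℝ) + 2) * ∑ p, τ p ^ 2
        - (Fintype.card I : ℝ) ^ 2 * ∑ p, τ p ^ 2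
        - ∑ i, (∑ A, v6F m τ ν h i A * Real.log (sz ν A)) /
      ((∑ A, v6F m τ ν h i A) * Real.log (R / Z)))) := by
        rw [mul_assoc]
        apply mul_le_mul_of_nonneg_left _ hpos
        apply mul_le_mul_of_nonneg_left _ (pow_nonneg hI2.le _)
        linarith
    _ ≤ (2 - ∏ p, (1 + (Fintype.card I : ℝ) * τ p ^ 2)) ^ 2 *
      S1 τ (fun A => h (sz ν A)) ^ 2 * (∑ c : ι → Option I, if sz ν (supp c) ≤ R / Z then
        wt (fun p => 1 - ((Fintype.card I : ℝ) + 2) * τ p) c *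
          ∏ i, v6F m τ ν h i (part c i) else 0) := mul_le_mul_of_nonneg_left hV3 hpos
    _ = ∑ c : ι → Option I, (2 - ∏ p, (1 + (Fintype.card I : ℝ) * τ p ^ 2)) ^ 2 *
      S1 τ (fun A => h (sz ν A)) ^ 2 * (if sz ν (supp c) ≤ R / Z then
        wt (fun p => 1 - ((Fintype.card I : ℝ) + 2) * τ p) c *
          ∏ i, v6F m τ ν h i (part c i) else 0) := by rw [Finset.mul_sum]
    _ ≤ ∑ c : ι → Option I, wt (fun p => τ p * (1 - (Fintype.card I : ℝ) * τ p)) c *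
      (wt (fun p => -(1 + τ p)) c * TA (fun p => Sk {m} (τ p)) (yh h ν R) c) ^ 2 :=
        Finset.sum_le_sum fun c _ => v6_term m τ ν hτ hν hk hP h hh ha Z R hZ0 hZ c
    _ = ∑ c : ι → Option I, wt (fun p => τ p * (1 - (Fintype.card I : ℝ) * τ p)) c *
      TA (fun p => Zk (τ p)) (TA (fun _ => Dk {m}) (lam τ (yh h ν R))) c ^ 2 := by
        apply Finset.sum_congr rfl
        intro c _
        rw [TA_composite {m} τ hτ (yh h ν R) c]
    _ ≤ QF (fun p => Bk (τ p)) (TA (fun _ => Dk {m}) (lam τ (yh h ν R))) := hQF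

end BVM

end
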