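import Pool.Agent.helper31.BVM.Defs

/-!
# BVM-X08: trivial bound for primes in progressions

PROOFS. `theta_trivial`: the number of `n ≤ y`, `n ≡ a mod q` is at most `y/q + 1 ≤ 2 x / q`
(`Nat.count_modEq_card` or an injection into `range (y/q + 1)`), and each term is `≤ log x`; so
`theta y q a ≤ 2 x log x / q`. On the other side `q ≤ φ(q) (1 + 2 log q)`: with `ω` the number of prime
factors of `q`, `∏_{p ∣ q} (1 - 1/p) ≥ ∏_{j=2}^{ω+1} (1 - 1/j) = 1/(ω+1)` (the `j`-th prime factor is
`≥ j+1`), and `2^ω ≤ q` gives `ω + 1 ≤ 1 + log q / log 2 ≤ 1 + 2 log q`. (Any other proof of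
`q / φ(q) ≤ 1 + 2 log q` is fine.) So `y / φ(q) ≤ (x/q)(1 + 2 log x) ≤ 3 x log x / q` for `x ≥ 3`. Both
quantities are `≥ 0`, so the absolute value of the difference is at most `3 x log x / q`, in particular
at most `5 x log x / q`.
`bv_refine`: `E' q = if q = 0 then 0 else if q ≤ x then min (E q) (5 x log x / q) else E q`. From the
hypothesis with `y = 0`, `a = 1` (coprime to `q`): `0 ≤ E q` for `q ≥ 1` (`theta 0 q 1 = 0`).
-/

noncomputable section

namespace BVM

open Finset

theorem X08_prod (S : Finset ℕ) : (∀ p ∈ S, 2 ≤ p) →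
    (1 : ℝ) / ((S.card : ℝ) + 1) ≤ ∏ p ∈ S, (1 - ((p : ℝ))⁻¹) := by
  induction S using Finset.induction_on_max with
  | empty => intro _; simp
  | insert m S hm ih =>
    intro h
    have hmS : m ∉ S := fun hh => lt_irrefl _ (hm m hh)
    have ih' := ih fun p hp => h p (Finset.mem_insert_of_mem hp)
    have hcard : S.card + 2 ≤ m := by
      have hsub : S ⊆ Finset.Ico 2 m := fun p hp =>
        Finset.mem_Ico.2 ⟨h p (Finset.mem_insert_of_mem hp), hm p hp⟩
      have h1 := Finset.card_le_card hsub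
      rw [Nat.card_Ico] at h1
      have h2 := h m (Finset.mem_insert_self _ _)
      omega
    rw [Finset.prod_insert hmS, Finset.card_insert_of_notMem hmS]
    have hc : ((S.card : ℝ) + 2) ≤ m := by exact_mod_cast hcard
    have hS0 : (0 : ℝ) ≤ S.card := Nat.cast_nonneg _
    have hm0 : (0 : ℝ) < m := by linarith
    have h3 : 1 - 1 / ((S.card : ℝ) + 2) ≤ 1 - ((m : ℝ))⁻¹ := by
      have : ((m : ℝ))⁻¹ ≤ 1 / ((S.card : ℝ) + 2) := by
        rw [← one_div]
        exact one_div_le_one_div_of_le (by linarith) hc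
      linarith
    have h4 : (0 : ℝ) ≤ 1 - 1 / ((S.card : ℝ) + 2) := by
      have : 1 / ((S.card : ℝ) + 2) ≤ 1 := by
        rw [div_le_one (by linarith)]
        linarith
      linarith
    calc (1 : ℝ) / (((S.card + 1 : ℕ) : ℝ) + 1)
        = (1 - 1 / ((S.card : ℝ) + 2)) * (1 / ((S.card : ℝ) + 1)) := by
          push_cast
          field_simp
          ring
      _ ≤ (1 - ((m : ℝ))⁻¹) * ∏ p ∈ S, (1 - ((p : ℝ))⁻¹) :=
          mul_le_mul h3 ih' (by positivity) (le_trans h4 h3)

theorem X08_count (y q a : ℕ) (hq : 1 ≤ q) :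
    ((Finset.range (y + 1)).filter (fun p => p.Prime ∧ p ≡ a [MOD q])).card ≤ y / q + 1 := by
  have h : (((Finset.range (y + 1)).filter
      (fun p => p.Prime ∧ p ≡ a [MOD q])).image (fun n => n / q)).card =
      ((Finset.range (y + 1)).filter (fun p => p.Prime ∧ p ≡ a [MOD q])).card := by
    apply Finset.card_image_of_injOn
    intro n hn n' hn' hnn
    have h1 : n % q = n' % q := by
      have h2 := (Finset.mem_filter.1 hn).2.2
      have h3 := (Finset.mem_filter.1 hn').2.2
      exact h2.trans h3.symm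
    have h2 : n / q = n' / q := hnn
    rw [← Nat.div_add_mod n q, ← Nat.div_add_mod n' q, h1, h2]
  rw [← h]
  have hsub : (((Finset.range (y + 1)).filter
      (fun p => p.Prime ∧ p ≡ a [MOD q])).image (fun n => n / q)) ⊆ Finset.range (y / q + 1) := by
    intro t ht
    obtain ⟨n, hn, rfl⟩ := Finset.mem_image.1 ht
    have h1 := Finset.mem_range.1 (Finset.mem_filter.1 hn).1
    exact Finset.mem_range.2 (Nat.lt_succ_of_le (Nat.div_le_div_right (by omega)))
  have h5 := Finset.card_le_card hsub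
  rwa [Finset.card_range] at h5

theorem X08_log_three (x : ℕ) (hx : 3 ≤ x) : 1 ≤ Real.log x := by
  have hx' : (3 : ℝ) ≤ x := by exact_mod_cast hx
  rw [Real.le_log_iff_exp_le (by linarith)]
  have := Real.exp_one_lt_d9
  linarith

theorem le_totient_mul (q : ℕ) (hq : 1 ≤ q) :
    (q : ℝ) ≤ Nat.totient q * (1 + 2 * Real.log q) := by
  have h1 : (Nat.totient q : ℝ) = q * ∏ p ∈ q.primeFactors, (1 - ((p : ℝ))⁻¹) := by
    have := Nat.totient_eq_mul_prod_factors q
    have h2 : ((Nat.totient q : ℚ) : ℝ) = ((q * ∏ p ∈ q.primeFactors, (1 - ((p : ℚ))⁻¹) : ℚ) : ℝ) := by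
      rw [this]
    push_cast at h2
    exact h2
  have h3 := X08_prod q.primeFactors fun p hp => (Nat.prime_of_mem_primeFactors hp).two_le
  have hq0 : (0 : ℝ) < q := by exact_mod_cast hq
  have h4 : (2 : ℝ) ^ q.primeFactors.card ≤ q := by
    have h5 : 2 ^ q.primeFactors.card ≤ ∏ p ∈ q.primeFactors, p :=
      Finset.pow_card_le_prod _ _ _ fun p hp => (Nat.prime_of_mem_primeFactors hp).two_le
    have h6 : ∏ p ∈ q.primeFactors, p ≤ q := Nat.le_of_dvd hq (Nat.prod_primeFactors_dvd q)
    exact_mod_cast le_trans h5 h6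
  have h7 : (q.primeFactors.card : ℝ) * Real.log 2 ≤ Real.log q := by
    rw [← Real.log_pow]
    exact Real.log_le_log (by positivity) h4
  have h8 : (1 / 2 : ℝ) ≤ Real.log 2 := by
    have := Real.log_two_gt_d9
    linarith
  have h9 : (q.primeFactors.card : ℝ) ≤ 2 * Real.log q := by
    have : (q.primeFactors.card : ℝ) * (1 / 2) ≤ (q.primeFactors.card : ℝ) * Real.log 2 :=
      mul_le_mul_of_nonneg_left h8 (Nat.cast_nonneg _)
    linarith
  have hc : (0 : ℝ) < (q.primeFactors.card : ℝ) + 1 := by positivity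
  have h10 : (q : ℝ) ≤ Nat.totient q * ((q.primeFactors.card : ℝ) + 1) := by
    rw [h1]
    calc (q : ℝ) = q * (1 / ((q.primeFactors.card : ℝ) + 1)) * ((q.primeFactors.card : ℝ) + 1) := by
          field_simp
      _ ≤ q * (∏ p ∈ q.primeFactors, (1 - ((p : ℝ))⁻¹)) * ((q.primeFactors.card : ℝ) + 1) := by
          apply mul_le_mul_of_nonneg_right _ hc.le
          exact mul_le_mul_of_nonneg_left h3 hq0.le
  refine le_trans h10 ?_
  apply mul_le_mul_of_nonneg_left _ (Nat.cast_nonneg _)
  linarith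

theorem theta_trivial (x y q a : ℕ) (hx : 3 ≤ x) (hy : y ≤ x) (hq : 1 ≤ q) (hqx : q ≤ x) :
    |theta y q a - y / Nat.totient q| ≤ 5 * x * Real.log x / q := by
  have hx0 : (0 : ℝ) < x := by
    have : 0 < x := by omega
    exact_mod_cast this
  have hq0 : (0 : ℝ) < q := by exact_mod_cast hq
  have hL := X08_log_three x hx
  have hqx' : (q : ℝ) ≤ x := by exact_mod_cast hqx
  have hyx' : (y : ℝ) ≤ x := by exact_mod_cast hy
  have hA0 : 0 ≤ theta y q a := by
    unfold theta
    exact Finset.sum_nonneg fun p _ => Real.log_natCast_nonneg p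
  have hB0 : 0 ≤ (y : ℝ) / Nat.totient q := by positivity
  have hA : theta y q a ≤ 2 * (x * Real.log x / q) := by
    have h1 : theta y q a ≤
        (((Finset.range (y + 1)).filter (fun p => p.Prime ∧ p ≡ a [MOD q])).card : ℝ) *
          Real.log x := by
      unfold theta
      rw [← nsmul_eq_mul]
      apply Finset.sum_le_card_nsmul
      intro p hp
      have hp' := Finset.mem_filter.1 hp
      have hp1 := Finset.mem_range.1 hp'.1
      apply Real.log_le_log
      · exact_mod_cast hp'.2.1.pos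
      · have : p ≤ x := by omega
        exact_mod_cast this
    have h2 : (((Finset.range (y + 1)).filter (fun p => p.Prime ∧ p ≡ a [MOD q])).card : ℝ) ≤
        2 * (x / q) := by
      have h3 : (((Finset.range (y + 1)).filter (fun p => p.Prime ∧ p ≡ a [MOD q])).card : ℝ) ≤
          ((y / q : ℕ) : ℝ) + 1 := by exact_mod_cast X08_count y q a hq
      have h4 : ((y / q : ℕ) : ℝ) ≤ (y : ℝ) / q := Nat.cast_div_le
      have h5 : (y : ℝ) / q ≤ x / q := by gcongr
      have h6 : 1 ≤ (x : ℝ) / q := by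
        rw [le_div_iff₀ hq0]; linarith
      linarith
    calc theta y q a ≤ _ := h1
      _ ≤ 2 * (x / q) * Real.log x := mul_le_mul_of_nonneg_right h2 (by linarith)
      _ = 2 * (x * Real.log x / q) := by ring
  have hB : (y : ℝ) / Nat.totient q ≤ 3 * (x * Real.log x / q) := by
    have hφ : (0 : ℝ) < Nat.totient q := by exact_mod_cast Nat.totient_pos.2 hq
    have h1 := le_totient_mul q hq
    have h2 : Real.log q ≤ Real.log x := Real.log_le_log hq0 hqx'
    have h3 : (q : ℝ) ≤ Nat.totient q * (3 * Real.log x) := by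
      refine le_trans h1 ?_
      apply mul_le_mul_of_nonneg_left _ hφ.le
      linarith
    calc (y : ℝ) / Nat.totient q ≤ x / Nat.totient q := by gcongr
      _ ≤ 3 * (x * Real.log x / q) := by
        rw [div_le_iff₀ hφ]
        have h4 : 3 * (x * Real.log x / q) * Nat.totient q =
            (x / q) * (Nat.totient q * (3 * Real.log x)) := by
          field_simp
        rw [h4]
        calc (x : ℝ) = x / q * q := by field_simp
          _ ≤ x / q * (Nat.totient q * (3 * Real.log x)) :=
            mul_le_mul_of_nonneg_left h3 (by positivity)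
  have h5 : 5 * x * Real.log x / q = 5 * (x * Real.log x / q) := by ring
  rw [h5, abs_le]
  constructor <;> linarith

theorem bv_refine (x : ℕ) (hx : 3 ≤ x) (E : ℕ → ℝ)
    (hE : ∀ y ≤ x, ∀ q, 1 ≤ q → ∀ c, Nat.Coprime c q →
      |theta y q c - y / Nat.totient q| ≤ E q) :
    ∃ E' : ℕ → ℝ, (∀ q, 0 ≤ E' q) ∧ (∀ q, 1 ≤ q → q ≤ x → E' q ≤ 5 * x * Real.log x / q) ∧
      (∀ q, 1 ≤ q → E' q ≤ E q) ∧
      (∀ y ≤ x, ∀ q, 1 ≤ q → ∀ c, Nat.Coprime c q →
        |theta y q c - y / Nat.totient q| ≤ E' q) := by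
  have hL := X08_log_three x hx
  have hE0 : ∀ q, 1 ≤ q → 0 ≤ E q := fun q hq =>
    le_trans (abs_nonneg _) (hE 0 (Nat.zero_le _) q hq 1 (Nat.coprime_one_left q))
  have hT0 : ∀ q : ℕ, 0 ≤ 5 * (x : ℝ) * Real.log x / q := by
    intro q
    have : 0 ≤ Real.log x := by linarith
    positivity
  refine ⟨fun q => if q = 0 then 0 else if q ≤ x then min (E q) (5 * x * Real.log x / q) else E q,
    ?_, ?_, ?_, ?_⟩
  · intro q
    dsimp only
    split_ifs with h1 h2
    · exact le_rfl
    · exact le_min (hE0 q (by omega)) (hT0 q)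
    · exact hE0 q (by omega)
  · intro q hq hqx
    dsimp only
    rw [if_neg (by omega), if_pos hqx]
    exact min_le_right _ _
  · intro q hq
    dsimp only
    rw [if_neg (by omega)]
    split_ifs with h2
    · exact min_le_left _ _
    · exact le_rfl
  · intro y hy q hq c hc
    dsimp only
    rw [if_neg (by omega)]
    split_ifs with h2
    · exact le_min (hE y hy q hq c hc) (theta_trivial x y q c hx hy hq h2)
    · exact hE y hy q hq c hc

end BVM

end
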