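import Pool.Agent.helper31.BVM.P02
import Pool.Agent.helper31.BVM.P03
import Pool.Agent.helper31.BVM.P04
import Pool.Agent.helper31.BVM.V06
import Pool.Agent.helper31.BVM.V08
import Pool.Agent.helper31.BVM.X06
import Pool.Agent.helper31.BVM.X08

/-!
# BVM-P05: lower bound for one prime, at a fixed scale

`Sm_fixed`: everything at one scale, with explicit error `err`. Notation: `k = card I`, `W = Wd D`,
`h = hst J z`, `z = N^ζ`, `R = N^η`, `Z = z^(2^J)`, `lm = lmN I D J ζ η N`, `λ_m = TA (Dk {m}) lm`.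

PROOF of `Sm_fixed`. For `n ∈ [N,2N)`: `a m n + b m ≤ 2 a m N + b m ≤ x`, so `lgp_le` (P02) gives
`wN n * lgp(..) ≤ log x * (wN n * ip n)`, and `log x > 0`. If `lgp (a m n + b m) ≠ 0` then the form is prime
and `> Nat.sqrt N` (`hY`), so `dsum lm n = dsum λ_m n` (`dsum_congr_prime` with `M = {m}`, `TA_Dk` T05). Hence
`log x ∑ wN ip ≥ ∑_{n ≡ v0} lgp * dsum λ_m ^ 2 ≥ a m N/φ(a m W) QF (Bk τ) λ_m - err`, the last step by
`Sm_bound` (P03), whose hypotheses on `lm := λ_m` hold: `λ_m c = 0` unless `NoLab {m} c`,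
`|λ_m c| ≤ |lam c| ≤ GS^(k+1) ≤ L` (`lam_bound` V08), `λ_m c = 0` for `sz (supp c) > R` (`lam_supp`).
`φ(a m W) = a m φ(W)` (`totient_mul_Wd` X06), so the main term is `N/φ(W) * QF`. Finally `QF_lower` (V06).
-/

noncomputable section

namespace BVM

open Finset Filter

variable {I : Type*} [Fintype I] [DecidableEq I]

theorem Sm_fixed (a : I → ℕ) (b : I → ℤ) (hpos : ∀ i, 0 < a i) (D : ℕ)
    (hsep : Sep D a b) (v0 : ℕ)
    (hv0 : ∀ i, Int.gcd (a i * v0 + b i) (Wd D) = 1) (hD : 1 ≤ D)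
    (hDk : Fintype.card I + 2 ≤ D)
    (hP : Real.exp (2 * Fintype.card I / D) ≤ 2) (J : ℕ) (ζ η : ℝ) (hζ : 0 < ζ)
    (hJ : 2 ^ J * ζ < η) (E : ℕ → ℝ) (x : ℕ) (hx3 : 3 ≤ x)
    (hE : ∀ y ≤ x, ∀ q, 1 ≤ q → ∀ c, Nat.Coprime c q →
      |theta y q c - y / Nat.totient q| ≤ E q)
    (hE0 : ∀ q, 0 ≤ E q) (Qx : ℕ) (hQx : Qx ≤ x)
    (htriv : ∀ q, 1 ≤ q → q ≤ x → E q ≤ 5 * x * Real.log x / q) (Δ : ℝ)
    (hΔ : ∑ q ∈ Finset.Icc 1 Qx, E q ≤ Δ)
    (N : ℕ) (hN2 : 2 ≤ N) (m : I) (hN : ∀ n : ℕ, N ≤ n → (Nat.sqrt N : ℤ) < a m * n + b m)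
    (hx : 2 * (a m : ℤ) * N + b m ≤ x)
    (hQ : (a m * Wd D : ℕ) * ((N : ℝ) ^ η) ^ 2 ≤ Qx) :
    (N / Nat.totient (Wd D) *
        ((2 - Real.exp (2 * Fintype.card I / D)) ^ 2 * J1f D J ζ N ^ 2 *
          I2f D J ζ N ^ (Fintype.card I - 1) *
          (1 - ((Fintype.card I : ℝ) * (Fintype.card I + 2) + (Fintype.card I : ℝ) ^ 2) * (2 / D)
            - (Fintype.card I : ℝ) * M1f D J ζ N /
              (I2f D J ζ N * ((η - 2 ^ J * ζ) * Real.log N))))
      - 2 * (GS (ι := ↥(Ps D (Nat.sqrt N))) tauP nuP ((N : ℝ) ^ η) ∅ ^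
              (Fintype.card I + 1)) ^ 2 *
        (Real.sqrt (5 * x * Real.log x *
          GS (ι := ↥(Ps D (Nat.sqrt N))) tauP nuP (((N : ℝ) ^ η) ^ 2) ∅ ^
            ((3 * Fintype.card I) ^ 2)) * Real.sqrt Δ)) / Real.log x ≤
    ∑ n ∈ Finset.Ico N (2 * N), wN a b D v0 J ζ η N n * ip (a m) (b m) n ∨
    (1 - ((Fintype.card I : ℝ) * (Fintype.card I + 2) + (Fintype.card I : ℝ) ^ 2) * (2 / D)
            - (Fintype.card I : ℝ) * M1f D J ζ N /
              (I2f D J ζ N * ((η - 2 ^ J * ζ) * Real.log N))) < 0 := by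
  classical
  rcases lt_or_ge (1 - ((Fintype.card I : ℝ) * (Fintype.card I + 2) +
    (Fintype.card I : ℝ) ^ 2) * (2 / D) - (Fintype.card I : ℝ) * M1f D J ζ N /
      (I2f D J ζ N * ((η - 2 ^ J * ζ) * Real.log N))) 0 with hBr | hBr
  · exact Or.inr hBr
  left
  have hx0 : (0 : ℝ) < Real.log x := Real.log_pos (by exact_mod_cast (by omega : 1 < x))
  have hN0 : (0 : ℝ) < N := by exact_mod_cast (by omega : 0 < N)
  have hN1 : (1 : ℝ) < N := by exact_mod_cast (by omega : 1 < N)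
  have hlN : 0 < Real.log N := Real.log_pos hN1
  rw [div_le_iff₀ hx0]
  set lm := lmN I D J ζ η N with hlm
  set lm' := TA (fun _ => Dk {m}) lm with hlm'
  have hz1 : (1 : ℝ) ≤ (N : ℝ) ^ ζ := Real.one_le_rpow hN1.le hζ.le
  -- step 1
  have s1 : ∑ n ∈ Finset.Ico N (2 * N),
      (if n ≡ v0 [MOD Wd D] then lgp ((a m : ℤ) * n + b m).toNat * dsum a b lm' n ^ 2 else 0) ≤
      (∑ n ∈ Finset.Ico N (2 * N), wN a b D v0 J ζ η N n * ip (a m) (b m) n) * Real.log x := by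
    rw [Finset.sum_mul]
    refine Finset.sum_le_sum fun n hn => ?_
    obtain ⟨hn1, hn2⟩ := Finset.mem_Ico.1 hn
    unfold wN
    rw [← hlm]
    by_cases hv : n ≡ v0 [MOD Wd D]
    · rw [if_pos hv, if_pos hv]
      by_cases hp : PrimeAt (a m) (b m) n
      · have e1 : dsum a b lm n = dsum a b lm' n := by
          refine dsum_congr_prime a b {m} lm lm' (fun c hc => ((TA_Dk {m} lm c).1 hc).symm) n ?_
          intro m' hm'
          rw [Finset.mem_singleton] at hm'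
          subst hm'
          exact ⟨hp, hN n hn1⟩
        have hxn : (a m : ℤ) * n + b m ≤ x := by
          have h1 : (a m : ℤ) * n ≤ a m * (2 * N) := by
            apply mul_le_mul_of_nonneg_left _ (Int.natCast_nonneg _)
            exact_mod_cast hn2.le
          linarith
        have e2 := lgp_le (a m) (b m) n x hxn
        rw [← e1]
        calc lgp ((a m : ℤ) * n + b m).toNat * dsum a b lm n ^ 2 ≤
            (Real.log x * ip (a m) (b m) n) * dsum a b lm n ^ 2 :=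
              mul_le_mul_of_nonneg_right e2 (sq_nonneg _)
          _ = _ := by ring
      · rw [lgp_eq_zero _ _ _ hp, zero_mul]
        exact mul_nonneg (mul_nonneg (sq_nonneg _) (ip_nonneg _ _ _)) hx0.le
    · rw [if_neg hv, if_neg hv]
      simp
  -- step 2
  have s2 := Sm_bound a b hpos hsep v0 hv0 E x hx3 hE hE0 Qx hQx htriv Δ hΔ N m
    (by have := hN N le_rfl; omega) hx lm' (fun c hc => (TA_Dk {m} lm c).2 hc)
    (GS (ι := ↥(Ps D (Nat.sqrt N))) tauP nuP ((N : ℝ) ^ η) ∅ ^ (Fintype.card I + 1))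
    ((N : ℝ) ^ η)
    (pow_nonneg (by
      unfold GS
      exact Finset.sum_nonneg fun A _ => Finset.prod_nonneg fun p _ => tauP_nonneg p) _)
    (by
      intro c
      by_cases hc : NoLab {m} c
      · rw [hlm', (TA_Dk {m} lm c).1 hc]
        exact lam_bound tauP nuP tauP_nonneg one_le_nuP (hst J ((N : ℝ) ^ ζ))
          (hst_nonneg J _) (hst_le_one J _) ((N : ℝ) ^ η) c
      · rw [hlm', (TA_Dk {m} lm c).2 hc, abs_zero]
        refine pow_nonneg ?_ _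
        unfold GS
        exact Finset.sum_nonneg fun A _ => Finset.prod_nonneg fun p _ => tauP_nonneg p)
    (by
      intro c hS
      by_cases hc : NoLab {m} c
      · rw [hlm', (TA_Dk {m} lm c).1 hc]
        exact lam_supp tauP nuP one_le_nuP (hst J ((N : ℝ) ^ ζ)) ((N : ℝ) ^ η) c hS
      · exact (TA_Dk {m} lm c).2 hc) hQ
  rw [totient_mul_Wd D (a m) (hpos m) (fun p hp hDp => hsep.1 p hp hDp m)] at s2
  have ham : (a m : ℝ) ≠ 0 := by
    have := hpos m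
    exact_mod_cast (by omega : a m ≠ 0)
  have e3 : (a m : ℝ) * N / ((a m * Nat.totient (Wd D) : ℕ) : ℝ) = N / Nat.totient (Wd D) := by
    push_cast
    exact mul_div_mul_left _ _ ham
  rw [e3] at s2
  -- step 3
  have hD0 : (0 : ℝ) < D := by exact_mod_cast (by omega : 0 < D)
  have hk0 : (0 : ℝ) ≤ Fintype.card I := Nat.cast_nonneg _
  have hPe : ∏ p : ↥(Ps D (Nat.sqrt N)), (1 + (Fintype.card I : ℝ) * tauP p ^ 2) ≤
      Real.exp (2 * Fintype.card I / D) := prod_tauP_le_exp D (Nat.sqrt N) hD _ hk0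
  have hZR : ((N : ℝ) ^ ζ) ^ (2 ^ J) = (N : ℝ) ^ (2 ^ J * ζ) := by
    rw [← Real.rpow_natCast, ← Real.rpow_mul (Nat.cast_nonneg N)]
    congr 1
    push_cast
    ring
  have s3 := QF_lower (ι := ↥(Ps D (Nat.sqrt N))) m tauP nuP tauP_nonneg one_le_nuP
    (by
      intro p
      have h1 := tauP_le hD p
      have h2 : (Fintype.card I : ℝ) + 2 ≤ D := by exact_mod_cast hDk
      have h3 : 0 ≤ (Fintype.card I : ℝ) + 2 := by linarith
      calc ((Fintype.card I : ℝ) + 2) * tauP p ≤ ((Fintype.card I : ℝ) + 2) * (1 / D) :=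
            mul_le_mul_of_nonneg_left h1 h3
        _ ≤ D * (1 / D) := mul_le_mul_of_nonneg_right h2 (by positivity)
        _ = 1 := by field_simp)
    (hPe.trans hP) (hst J ((N : ℝ) ^ ζ)) (hst_nonneg J _) (hst_antitone J _)
    (by rw [hst_one J _ hz1]; exact one_pos) (((N : ℝ) ^ ζ) ^ (2 ^ J)) ((N : ℝ) ^ η)
    (one_le_pow₀ hz1)
    (by
      rw [hZR]
      exact Real.rpow_lt_rpow_of_exponent_lt hN1 hJ)
    (fun x hx => hst_zero J _ x hz1 hx)
  have e4 : Real.log ((N : ℝ) ^ η / ((N : ℝ) ^ ζ) ^ (2 ^ J)) = (η - 2 ^ J * ζ) * Real.log N := by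
    rw [hZR, ← Real.rpow_sub hN0, Real.log_rpow hN0]
  rw [e4] at s3
  change (2 - ∏ p : ↥(Ps D (Nat.sqrt N)), (1 + (Fintype.card I : ℝ) * tauP p ^ 2)) ^ 2 *
      J1f D J ζ N ^ 2 * I2f D J ζ N ^ (Fintype.card I - 1) *
      (1 - (Fintype.card I : ℝ) * ((Fintype.card I : ℝ) + 2) *
          ∑ p : ↥(Ps D (Nat.sqrt N)), tauP p ^ 2
        - (Fintype.card I : ℝ) ^ 2 * ∑ p : ↥(Ps D (Nat.sqrt N)), tauP p ^ 2
        - (Fintype.card I : ℝ) * M1f D J ζ N /
            (I2f D J ζ N * ((η - 2 ^ J * ζ) * Real.log N))) ≤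
    QF (fun p => Bk (tauP p)) lm' at s3
  have hsum := sum_tauP_sq_le D (Nat.sqrt N) hD
  have hI2 : 0 ≤ I2f D J ζ N := by
    have := one_le_I2f D J ζ hζ N (by omega)
    linarith
  have s4 : (2 - Real.exp (2 * Fintype.card I / D)) ^ 2 * J1f D J ζ N ^ 2 *
      I2f D J ζ N ^ (Fintype.card I - 1) *
      (1 - ((Fintype.card I : ℝ) * (Fintype.card I + 2) + (Fintype.card I : ℝ) ^ 2) * (2 / D)
        - (Fintype.card I : ℝ) * M1f D J ζ N /
          (I2f D J ζ N * ((η - 2 ^ J * ζ) * Real.log N))) ≤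
      QF (fun p => Bk (tauP p)) lm' := by
    refine le_trans ?_ s3
    have h1 : (2 - Real.exp (2 * Fintype.card I / D)) ^ 2 ≤
        (2 - ∏ p : ↥(Ps D (Nat.sqrt N)), (1 + (Fintype.card I : ℝ) * tauP p ^ 2)) ^ 2 :=
      pow_le_pow_left₀ (by linarith) (by linarith) 2
    have h2 : 0 ≤ J1f D J ζ N ^ 2 := sq_nonneg _
    have h3 : 0 ≤ I2f D J ζ N ^ (Fintype.card I - 1) := pow_nonneg hI2 _
    have h4 : (2 - Real.exp (2 * Fintype.card I / D)) ^ 2 * J1f D J ζ N ^ 2 *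
        I2f D J ζ N ^ (Fintype.card I - 1) ≤
        (2 - ∏ p : ↥(Ps D (Nat.sqrt N)), (1 + (Fintype.card I : ℝ) * tauP p ^ 2)) ^ 2 *
        J1f D J ζ N ^ 2 * I2f D J ζ N ^ (Fintype.card I - 1) :=
      mul_le_mul_of_nonneg_right (mul_le_mul_of_nonneg_right h1 h2) h3
    refine mul_le_mul h4 ?_ hBr (mul_nonneg (mul_nonneg (sq_nonneg _) h2) h3)
    have h5 : ((Fintype.card I : ℝ) * (Fintype.card I + 2) + (Fintype.card I : ℝ) ^ 2) *
        ∑ p : ↥(Ps D (Nat.sqrt N)), tauP p ^ 2 ≤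
        ((Fintype.card I : ℝ) * (Fintype.card I + 2) + (Fintype.card I : ℝ) ^ 2) * (2 / D) :=
      mul_le_mul_of_nonneg_left hsum (by positivity)
    linarith
  have s5 : (N : ℝ) / Nat.totient (Wd D) * ((2 - Real.exp (2 * Fintype.card I / D)) ^ 2 *
      J1f D J ζ N ^ 2 * I2f D J ζ N ^ (Fintype.card I - 1) *
      (1 - ((Fintype.card I : ℝ) * (Fintype.card I + 2) + (Fintype.card I : ℝ) ^ 2) * (2 / D)
        - (Fintype.card I : ℝ) * M1f D J ζ N /
          (I2f D J ζ N * ((η - 2 ^ J * ζ) * Real.log N)))) ≤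
      (N : ℝ) / Nat.totient (Wd D) * QF (fun p => Bk (tauP p)) lm' :=
    mul_le_mul_of_nonneg_left s4 (by positivity)
  have s6 := (abs_le.1 s2).1
  linarith

end BVM

end
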