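import Pool.Agent.helper31.BVM.T02
import Pool.Agent.helper31.BVM.T08

/-!
# BVM-T07: the Selberg extension

`lm0` has no label `m`; `zs = TA (Zk τ) lm0`; `zext` puts Selberg coefficients on the label `m`:
`zext c = zs c0 (-1)^{|U|} 1[sz U ≤ Y] / G(c0)` for `c = (c0, U)`, `G(c0) = GS τ ν Y (supp c0)`.
`lamx = TA (Zk (-τ)) zext`.

PROOFS.
(a) Let `c` have no label `m`. By `TA_Zk_apply` (T02),
`lamx c = ∑_{c' ⊇ c} ∏_{p ∈ c' \ c} (-τ_p) zext c'`. Split `c' = ins m U c0` by `sum_split_label` (T08):
`c ⊆ c'` iff `c ⊆ c0` (as `c` has no label `m` and `U` is disjoint from `supp c0`; note that if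
`p ∈ U` and `c p ≠ none` then `c p = some m` is impossible, so `c ⊆ c'` forces `U ∩ supp c = ∅`,
and then off `U` it says `c p = none ∨ c p = c0 p`; on `U` `c p = none`),
`∏_{c' \ c}(-τ) = ∏_{c0 \ c} (-τ) ∏_U (-τ)` and `∏_U (-τ) (-1)^{|U|} = ∏_U τ`. The sum over `U`
(disjoint from `supp c0`, `sz U ≤ Y`) of `∏_U τ / G(c0)` is `1`, `G(c0) ≥ 1 > 0` by the term `U = ∅`.
So `lamx c = ∑_{c0 ⊇ c, no m} ∏_{c0 \ c}(-τ) zs c0`, which is `TA (Zk (-τ)) zs c` because `zs`
vanishes on the configurations with the label `m` (`TA_Zk_vanish`), and this is `lm0 c` by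
`TA_Zk_inv'`.
(b) Same splitting: `wt τ c = (∏_U τ) wt τ c0`, `zext^2 = zs(c0)^2 1[sz U ≤ Y]/G(c0)^2`.
The right side may be summed over all `c` as `zs c = 0` when `c` carries `m`.
(c) `lamx c = ∑_{c' ⊇ c} ± ∏ τ zext c'`; if `zext c' ≠ 0` then `sz (part c' m) ≤ Y` and
`zs (er m c') ≠ 0`, so `sz (supp (er m c')) ≤ R`; sizes of subsets are smaller as `ν ≥ 1`, and
`part c m ⊆ part c' m`, `supp (er m c) ⊆ supp (er m c')`; `supp c = supp (er m c) ∪ part c m`.
-/

noncomputable section

namespace BVM

open Finset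

variable {ι I : Type*} [Fintype ι] [DecidableEq ι] [Fintype I] [DecidableEq I]

/-- The extended coefficients. -/
def lamx (τ ν : ι → ℝ) (Y : ℝ) (m : I) (lm0 : (ι → Option I) → ℝ) : (ι → Option I) → ℝ :=
  TA (fun p => Zk (-(τ p))) (zext τ ν Y m (TA (fun p => Zk (τ p)) lm0))

theorem GS_ge_one (τ ν : ι → ℝ) (hτ : ∀ p, 0 ≤ τ p) (Y : ℝ) (hY : 1 ≤ Y) (S : Finset ι) :
    1 ≤ GS τ ν Y S := by
  unfold GS
  have h := Finset.single_le_sum (s := (univ : Finset (Finset ι)).filter
      (fun A => Disjoint A S ∧ sz ν A ≤ Y)) (f := fun A => ∏ p ∈ A, τ p) (a := (∅ : Finset ι))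
    (fun A _ => Finset.prod_nonneg fun p _ => hτ p)
    (by
      rw [Finset.mem_filter]
      refine ⟨Finset.mem_univ _, Finset.disjoint_empty_left _, ?_⟩
      simpa [sz] using hY)
  simpa using h

private lemma zext_ins (τ ν : ι → ℝ) (Y : ℝ) (m : I) (zs : (ι → Option I) → ℝ)
    (c0 : ι → Option I) (hc0 : NoLab {m} c0) (U : Finset ι) (hU : Disjoint U (supp c0)) :
    zext τ ν Y m zs (ins m U c0) =
      if sz ν U ≤ Y then zs c0 * (-1) ^ U.card / GS τ ν Y (supp c0) else 0 := by
  unfold zext
  rw [part_ins m U c0 hc0, er_ins m U c0 hc0 hU]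

private lemma sum_U (τ ν : ι → ℝ) (hτ : ∀ p, 0 ≤ τ p) (Y : ℝ) (hY : 1 ≤ Y) (S : Finset ι) :
    ∑ U ∈ univ.filter (fun U : Finset ι => Disjoint U S),
      (if sz ν U ≤ Y then (∏ p ∈ U, τ p) / GS τ ν Y S else 0) = 1 := by
  have hG : 0 < GS τ ν Y S := lt_of_lt_of_le one_pos (GS_ge_one τ ν hτ Y hY S)
  rw [← Finset.sum_filter, Finset.filter_filter, ← Finset.sum_div]
  exact div_self hG.ne'

theorem lamx_eq (τ ν : ι → ℝ) (hτ : ∀ p, 0 ≤ τ p) (Y : ℝ) (hY : 1 ≤ Y) (m : I)
    (lm0 : (ι → Option I) → ℝ) (hl : ∀ c, ¬ NoLab {m} c → lm0 c = 0)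
    (c : ι → Option I) (hc : NoLab {m} c) : lamx τ ν Y m lm0 c = lm0 c := by
  classical
  have hzs : ∀ c, ¬ NoLab {m} c → TA (fun p => Zk (τ p)) lm0 c = 0 :=
    fun c hc => TA_Zk_vanish τ lm0 m hl c hc
  have hinv := congrFun (TA_Zk_inv' τ lm0) c
  unfold lamx
  rw [← hinv]
  generalize TA (fun p => Zk (τ p)) lm0 = zs at hzs
  rw [TA_Zk_apply (fun p => -(τ p)) (zext τ ν Y m zs) c,
    TA_Zk_apply (fun p => -(τ p)) zs c, sum_split_label m]
  -- right side restricted to configurations without the label `m`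
  have hR : (∑ c' : ι → Option I, (if ∀ p, c p = none ∨ c p = c' p then
        (∏ p, if c p = none ∧ c' p ≠ none then -(τ p) else 1) * zs c' else 0))
      = ∑ c' ∈ univ.filter (fun c : ι → Option I => NoLab {m} c),
        (if ∀ p, c p = none ∨ c p = c' p then
        (∏ p, if c p = none ∧ c' p ≠ none then -(τ p) else 1) * zs c' else 0) := by
    symm
    refine Finset.sum_subset (Finset.subset_univ _) fun c' _ hc' => ?_
    have h1 : ¬ NoLab {m} c' := by
      intro h
      exact hc' (Finset.mem_filter.mpr ⟨Finset.mem_univ _, h⟩)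
    rw [hzs c' h1]
    simp
  rw [hR]
  refine Finset.sum_congr rfl fun c0 hc0 => ?_
  have hc0' : NoLab {m} c0 := (Finset.mem_filter.mp hc0).2
  have hterm : ∀ U ∈ univ.filter (fun U : Finset ι => Disjoint U (supp c0)),
      (if ∀ p, c p = none ∨ c p = (ins m U c0) p then
        (∏ p, if c p = none ∧ (ins m U c0) p ≠ none then -(τ p) else 1) *
          zext τ ν Y m zs (ins m U c0) else 0)
      = (if ∀ p, c p = none ∨ c p = c0 p then
        (∏ p, if c p = none ∧ c0 p ≠ none then -(τ p) else 1) * zs c0 else 0) *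
        (if sz ν U ≤ Y then (∏ p ∈ U, τ p) / GS τ ν Y (supp c0) else 0) := by
    intro U hU
    have hU' : Disjoint U (supp c0) := (Finset.mem_filter.mp hU).2
    have hUn : ∀ p ∈ U, c0 p = none := by
      intro p hp
      by_contra h
      have h2 : p ∈ supp c0 := by simp [supp, h]
      exact (Finset.disjoint_left.mp hU' hp) h2
    rw [zext_ins τ ν Y m zs c0 hc0' U hU']
    by_cases hsub : ∀ p, c p = none ∨ c p = c0 p
    · have hsub' : ∀ p, c p = none ∨ c p = (ins m U c0) p := by
        intro p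
        by_cases hp : p ∈ U
        · left
          rcases hsub p with h | h
          · exact h
          · rw [h, hUn p hp]
        · unfold ins
          rw [if_neg hp]
          exact hsub p
      rw [if_pos hsub, if_pos hsub']
      have hprod : (∏ p, if c p = none ∧ (ins m U c0) p ≠ none then -(τ p) else 1)
          = (∏ p ∈ U, -(τ p)) * ∏ p, if c p = none ∧ c0 p ≠ none then -(τ p) else 1 := by
        have h1 : (∏ p ∈ U, -(τ p)) = ∏ p, if p ∈ U then -(τ p) else 1 := by
          rw [Finset.prod_ite_mem, Finset.univ_inter]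
        rw [h1, ← Finset.prod_mul_distrib]
        refine Finset.prod_congr rfl fun p _ => ?_
        by_cases hp : p ∈ U
        · have h2 : c p = none := by
            rcases hsub p with h | h
            · exact h
            · rw [h, hUn p hp]
          simp [ins, hp, h2, hUn p hp]
        · simp [ins, hp]
      rw [hprod, Finset.prod_neg]
      by_cases hY' : sz ν U ≤ Y
      · rw [if_pos hY', if_pos hY']
        have h3 : ((-1:ℝ)) ^ U.card * (-1) ^ U.card = 1 := by
          rw [← mul_pow]; simp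
        calc _ = ((-1:ℝ) ^ U.card * (-1) ^ U.card) * ((∏ p ∈ U, τ p) *
              (∏ p, if c p = none ∧ c0 p ≠ none then -(τ p) else 1) *
              (zs c0 / GS τ ν Y (supp c0))) := by ring
          _ = _ := by rw [h3]; ring
      · rw [if_neg hY', if_neg hY', mul_zero, mul_zero]
    · have hsub' : ¬ ∀ p, c p = none ∨ c p = (ins m U c0) p := by
        intro h
        apply hsub
        intro p
        by_cases hp : p ∈ U
        · rcases h p with h' | h'
          · exact Or.inl h'
          · exfalso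
            unfold ins at h'
            rw [if_pos hp] at h'
            exact hc p m (Finset.mem_singleton_self m) h'
        · rcases h p with h' | h'
          · exact Or.inl h'
          · unfold ins at h'
            rw [if_neg hp] at h'
            exact Or.inr h'
      rw [if_neg hsub, if_neg hsub', zero_mul]
  rw [Finset.sum_congr rfl hterm, ← Finset.mul_sum, sum_U τ ν hτ Y hY, mul_one]

theorem sum_zext_sq (τ ν : ι → ℝ) (hτ : ∀ p, 0 ≤ τ p) (Y : ℝ) (hY : 1 ≤ Y) (m : I)
    (lm0 : (ι → Option I) → ℝ) (hl : ∀ c, ¬ NoLab {m} c → lm0 c = 0) :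
    ∑ c, wt τ c * (zext τ ν Y m (TA (fun p => Zk (τ p)) lm0) c) ^ 2 =
      ∑ c, wt τ c * (TA (fun p => Zk (τ p)) lm0 c) ^ 2 / GS τ ν Y (supp c) := by
  classical
  have hzs : ∀ c, ¬ NoLab {m} c → TA (fun p => Zk (τ p)) lm0 c = 0 :=
    fun c hc => TA_Zk_vanish τ lm0 m hl c hc
  generalize TA (fun p => Zk (τ p)) lm0 = zs at hzs
  rw [sum_split_label m]
  have hR : (∑ c : ι → Option I, wt τ c * (zs c) ^ 2 / GS τ ν Y (supp c))
      = ∑ c ∈ univ.filter (fun c : ι → Option I => NoLab {m} c),
        wt τ c * (zs c) ^ 2 / GS τ ν Y (supp c) := by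
    symm
    refine Finset.sum_subset (Finset.subset_univ _) fun c' _ hc' => ?_
    have h1 : ¬ NoLab {m} c' := by
      intro h
      exact hc' (Finset.mem_filter.mpr ⟨Finset.mem_univ _, h⟩)
    rw [hzs c' h1]
    simp
  rw [hR]
  refine Finset.sum_congr rfl fun c0 hc0 => ?_
  have hc0' : NoLab {m} c0 := (Finset.mem_filter.mp hc0).2
  have hG : 0 < GS τ ν Y (supp c0) := lt_of_lt_of_le one_pos (GS_ge_one τ ν hτ Y hY _)
  have hterm : ∀ U ∈ univ.filter (fun U : Finset ι => Disjoint U (supp c0)),
      wt τ (ins m U c0) * (zext τ ν Y m zs (ins m U c0)) ^ 2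
      = (wt τ c0 * (zs c0) ^ 2 / GS τ ν Y (supp c0)) *
        (if sz ν U ≤ Y then (∏ p ∈ U, τ p) / GS τ ν Y (supp c0) else 0) := by
    intro U hU
    have hU' : Disjoint U (supp c0) := (Finset.mem_filter.mp hU).2
    rw [zext_ins τ ν Y m zs c0 hc0' U hU', wt_ins τ m U c0 hU']
    by_cases hY' : sz ν U ≤ Y
    · rw [if_pos hY', if_pos hY', div_pow, mul_pow]
      have h3 : (((-1:ℝ)) ^ U.card) ^ 2 = 1 := by
        rw [← pow_mul, mul_comm, pow_mul]; simp
      rw [h3]
      field_simp
    · rw [if_neg hY', if_neg hY']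
      simp
  rw [Finset.sum_congr rfl hterm, ← Finset.mul_sum, sum_U τ ν hτ Y hY, mul_one]

private lemma sz_mono (ν : ι → ℝ) (hν : ∀ p, 1 ≤ ν p) {A B : Finset ι} (h : A ⊆ B) :
    sz ν A ≤ sz ν B := by
  unfold sz
  rw [← Finset.prod_sdiff h]
  have h1 : (1:ℝ) ≤ ∏ p ∈ B \ A, ν p := by
    have h2 := Finset.prod_le_prod (s := B \ A) (f := fun _ => (1:ℝ)) (g := ν)
      (fun _ _ => zero_le_one) (fun p _ => hν p)
    simpa using h2
  have h3 : (0:ℝ) ≤ ∏ p ∈ A, ν p := Finset.prod_nonneg fun p _ => zero_le_one.trans (hν p)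
  exact le_mul_of_one_le_left h3 h1

theorem lamx_supp (τ ν : ι → ℝ) (hν : ∀ p, 1 ≤ ν p) (Y R : ℝ) (hY : 0 ≤ Y) (m : I)
    (lm0 : (ι → Option I) → ℝ)
    (hR : ∀ c, R < sz ν (supp c) → TA (fun p => Zk (τ p)) lm0 c = 0)
    (c : ι → Option I) (hc : R * Y < sz ν (supp c)) : lamx τ ν Y m lm0 c = 0 := by
  classical
  unfold lamx
  rw [TA_Zk_apply (fun p => -(τ p))]
  refine Finset.sum_eq_zero fun c' _ => ?_
  split_ifs with hsub
  · have hz : zext τ ν Y m (TA (fun p => Zk (τ p)) lm0) c' = 0 := by
      unfold zext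
      split_ifs with hY'
      · have hR' : R < sz ν (supp (er m c')) := by
          by_contra hcon
          push Not at hcon
          have h1 : supp c ⊆ supp c' := by
            intro p hp
            unfold supp at hp ⊢
            rw [Finset.mem_filter] at hp ⊢
            refine ⟨Finset.mem_univ _, ?_⟩
            rcases hsub p with h | h
            · exact absurd h hp.2
            · rw [← h]; exact hp.2
          have h2 : supp c' = supp (er m c') ∪ part c' m := by
            ext p
            simp only [supp, part, er, Finset.mem_union, Finset.mem_filter, Finset.mem_univ,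
              true_and]
            by_cases hpm : c' p = some m
            · simp [hpm]
            · simp [hpm]
          have h3 : Disjoint (supp (er m c')) (part c' m) := by
            rw [Finset.disjoint_left]
            intro p hp hp'
            simp only [supp, part, er, Finset.mem_filter, Finset.mem_univ, true_and] at hp hp'
            simp [hp'] at hp
          have h4 : sz ν (supp c') = sz ν (supp (er m c')) * sz ν (part c' m) := by
            rw [h2]
            exact Finset.prod_union h3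
          have h5 : sz ν (supp c) ≤ sz ν (supp c') := sz_mono ν hν h1
          have h6 : 0 ≤ sz ν (part c' m) :=
            Finset.prod_nonneg fun p _ => zero_le_one.trans (hν p)
          have h7 : 0 ≤ sz ν (supp (er m c')) :=
            Finset.prod_nonneg fun p _ => zero_le_one.trans (hν p)
          have h8 : sz ν (supp (er m c')) * sz ν (part c' m) ≤ R * Y :=
            mul_le_mul hcon hY' h6 (h7.trans hcon)
          linarith
        rw [hR _ hR']
        simp
      · rfl
    rw [hz, mul_zero]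
  · rfl

/-- `lamx` keeps the absence of any other label. -/
theorem lamx_noLab (τ ν : ι → ℝ) (Y : ℝ) (m m' : I) (hm : m' ≠ m)
    (lm0 : (ι → Option I) → ℝ) (hl : ∀ c, ¬ NoLab {m'} c → lm0 c = 0)
    (c : ι → Option I) (hc : ¬ NoLab {m'} c) : lamx τ ν Y m lm0 c = 0 := by
  classical
  unfold lamx
  refine TA_Zk_vanish (fun p => -(τ p)) _ m' (fun c'' hc'' => ?_) c hc
  have h1 : ¬ NoLab {m'} (er m c'') := by
    intro h
    apply hc''
    intro p j hj hcp
    rw [Finset.mem_singleton] at hj
    subst hj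
    refine h p j (Finset.mem_singleton_self j) ?_
    unfold er
    rw [if_neg, hcp]
    rw [hcp]
    intro h2
    exact hm (Option.some.inj h2)
  unfold zext
  split_ifs with hY'
  · rw [TA_Zk_vanish τ lm0 m' hl _ h1]
    simp
  · rfl

end BVM

end
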