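import Pool.Agent.helper31.BVM.T05
import Pool.Agent.helper31.BVM.T06
import Pool.Agent.helper31.BVM.T07
import Pool.Agent.helper31.BVM.V05

/-!
# BVM-V07: the form with two primes, upper bound

Notation: `lm0 = TA (Dk {m, m'}) (lam τ (yh h ν R))`, `zs = TA (Zk τ) lm0`.

PROOF. By `QF_Bk_le` (V04), `TA_Zk_inv` (T02) and `sum_zext_sq` (T07, label `m'`; `lm0` vanishes on
configurations with the label `m'` by `TA_Dk`, T05),
`QF (Bk τ) (lamx τ ν Y m' lm0) ≤ ∑_c wt τ c zext(c)^2 = ∑_c wt τ c zs(c)^2 / GS τ ν Y (supp c)`.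
By `TA_composite` (T05) `zs c = wt (-(1+τ)) c * TA (Sk {m,m'} τ) (yh h ν R) c`; it vanishes unless
`NoLab {m, m'} c`. By `Sk_close` (T06) and `TA_Sk0_le` (V05), with `P = ∏_p (1 + k τ_p^2)`,
`|TA Sk c| ≤ P TA Sk0 c ≤ P J^2 ∏_{i ∉ {m,m'}} h (sz (part c i))`, `J = S1 τ (h ∘ sz)`, `card {m,m'} = 2`.
By `GS_disjoint_le` (S06) `1 / GS (supp c) ≤ ∏_{p ∈ supp c}(1+τ p) / GS ∅` (positivity:
`GS_ge_one`). So the sum is at most
`P^2 J^4 / GS ∅ ∑_{c : NoLab {m,m'}} wt (τ (1+τ)^3) c ∏_{i∉{m,m'}} h(sz(part c i))^2`,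
and `sum_cfg_prod_le_of_labels` (V01) with the complement of `{m,m'}` (card `k - 2`),
`F A = (∏_{p∈A} τ p (1+τ p)^3) h(sz A)^2`, bounds the sum by `(S1 (τ(1+τ)^3) h^2)^(k-2)`.
-/

noncomputable section

namespace BVM

open Finset

variable {ι I : Type*} [Fintype ι] [DecidableEq ι] [Fintype I] [DecidableEq I]

private lemma v07_wt_sq (τ : ι → ℝ) (c : ι → Option I) :
    (wt (fun p => -(1 + τ p)) c) ^ 2 = (∏ p ∈ supp c, (1 + τ p)) ^ 2 := by
  rw [wt_eq_prod_supp, Finset.prod_neg, mul_pow]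
  have h3 : (((-1:ℝ)) ^ (supp c).card) ^ 2 = 1 := by
    rw [← pow_mul, mul_comm, pow_mul]; simp
  rw [h3, one_mul]

private lemma v07_wt_F (M : Finset I) (f : ι → ℝ) (g : Finset ι → ℝ) (c : ι → Option I)
    (hc : NoLab M c) :
    wt f c * ∏ i ∈ univ.filter (fun i => i ∉ M), g (part c i) =
      ∏ i ∈ univ.filter (fun i => i ∉ M), ((∏ p ∈ part c i, f p) * g (part c i)) := by
  rw [Finset.prod_mul_distrib, wt_eq_prod_part]
  congr 1
  symm
  refine Finset.prod_subset (Finset.subset_univ _) fun i _ hi => ?_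
  have hiM : i ∈ M := by
    by_contra h
    exact hi (Finset.mem_filter.mpr ⟨Finset.mem_univ _, h⟩)
  have hpart : part c i = ∅ := by
    rw [Finset.eq_empty_iff_forall_notMem]
    intro p hp
    unfold part at hp
    exact hc p i hiM (Finset.mem_filter.mp hp).2
  rw [hpart, Finset.prod_empty]

theorem QF_pair (m m' : I) (hm : m ≠ m') (τ ν : ι → ℝ) (hτ : ∀ p, 0 ≤ τ p)
    (hν : ∀ p, 1 ≤ ν p) (hk : ∀ p, (Fintype.card I : ℝ) * τ p ≤ 1)
    (h : ℝ → ℝ) (hh : ∀ x, 0 ≤ h x) (ha : Antitone h) (Y R : ℝ) (hY : 1 ≤ Y) :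
    QF (fun p => Bk (τ p))
      (lamx τ ν Y m' (TA (fun _ => Dk {m, m'}) (lam τ (yh h ν R)))) ≤
    (∏ p, (1 + (Fintype.card I : ℝ) * τ p ^ 2)) ^ 2 * S1 τ (fun A => h (sz ν A)) ^ 4 *
      S1 (fun p => τ p * (1 + τ p) ^ 3) (fun A => h (sz ν A) ^ 2) ^ (Fintype.card I - 2) /
      GS τ ν Y ∅ := by
  classical
  set lm0 : (ι → Option I) → ℝ := TA (fun _ => Dk {m, m'}) (lam τ (yh h ν R)) with hlm0
  set P : ℝ := ∏ p, (1 + (Fintype.card I : ℝ) * τ p ^ 2) with hP
  set J : ℝ := S1 τ (fun A => h (sz ν A)) with hJ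
  have hvan : ∀ c, ¬ NoLab {m, m'} c → lm0 c = 0 := fun c hc => (TA_Dk {m, m'} _ c).2 hc
  have hl' : ∀ c, ¬ NoLab {m'} c → lm0 c = 0 := by
    intro c hc
    refine hvan c fun hcon => hc fun p j hj => hcon p j ?_
    rw [Finset.mem_singleton] at hj
    simp [hj]
  have hl : ∀ c, ¬ NoLab {m} c → lm0 c = 0 := by
    intro c hc
    refine hvan c fun hcon => hc fun p j hj => hcon p j ?_
    rw [Finset.mem_singleton] at hj
    simp [hj]
  -- step 1
  have h1 := QF_Bk_le τ hτ hk (lamx τ ν Y m' lm0)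
  have h2 : TA (fun p => Zk (τ p)) (lamx τ ν Y m' lm0) =
      zext τ ν Y m' (TA (fun p => Zk (τ p)) lm0) := by
    unfold lamx
    exact TA_Zk_inv τ _
  rw [h2, sum_zext_sq τ ν hτ Y hY m' lm0 hl'] at h1
  refine h1.trans ?_
  -- the summands which vanish
  have hzs : ∀ c, ¬ NoLab {m, m'} c → TA (fun p => Zk (τ p)) lm0 c = 0 := by
    intro c hc
    by_cases hc1 : NoLab {m} c
    · have hc2 : ¬ NoLab {m'} c := by
        intro hc2
        apply hc
        intro p j hj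
        rw [Finset.mem_insert, Finset.mem_singleton] at hj
        rcases hj with hj | hj
        · exact hc1 p j (by simp [hj])
        · exact hc2 p j (by simp [hj])
      exact TA_Zk_vanish τ lm0 m' hl' c hc2
    · exact TA_Zk_vanish τ lm0 m hl c hc1
  have hG0 : 0 < GS τ ν Y ∅ := lt_of_lt_of_le one_pos (GS_ge_one τ ν hτ Y hY _)
  have hP0 : 0 ≤ P := Finset.prod_nonneg fun p _ => by positivity
  have hJ0 : 0 ≤ J := by
    rw [hJ]
    unfold S1
    exact Finset.sum_nonneg fun A _ => mul_nonneg (Finset.prod_nonneg fun p _ => hτ p) (hh _)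
  set F : Finset ι → ℝ := fun A => (∏ p ∈ A, τ p * (1 + τ p) ^ 3) * h (sz ν A) ^ 2 with hF
  have hF0 : ∀ A, 0 ≤ F A := by
    intro A
    refine mul_nonneg (Finset.prod_nonneg fun p _ => ?_) (sq_nonneg _)
    have := hτ p
    positivity
  have hterm : ∀ c, NoLab {m, m'} c →
      wt τ c * (TA (fun p => Zk (τ p)) lm0 c) ^ 2 / GS τ ν Y (supp c) ≤
        P ^ 2 * J ^ 4 / GS τ ν Y ∅ *
          ∏ i ∈ univ.filter (fun i => i ∉ ({m, m'} : Finset I)), F (part c i) := by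
    intro c hc
    have hGc : 0 < GS τ ν Y (supp c) := lt_of_lt_of_le one_pos (GS_ge_one τ ν hτ Y hY _)
    set X : ℝ := ∏ p ∈ supp c, (1 + τ p) with hX
    have hX1 : 0 ≤ X := Finset.prod_nonneg fun p _ => by have := hτ p; positivity
    have hcomp : TA (fun p => Zk (τ p)) lm0 c =
        wt (fun p => -(1 + τ p)) c * TA (fun p => Sk {m, m'} (τ p)) (yh h ν R) c :=
      TA_composite {m, m'} τ hτ (yh h ν R) c
    set H : ℝ := ∏ i ∈ univ.filter (fun i => i ∉ ({m, m'} : Finset I)), h (sz ν (part c i)) with hH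
    have hH0 : 0 ≤ H := Finset.prod_nonneg fun i _ => hh _
    have hSk0 : TA (fun p => Sk0 {m, m'} (τ p)) (yh h ν R) c ≤ H * J ^ 2 := by
      have h3 := TA_Sk0_le {m, m'} τ ν hτ h hh R c hc
      rw [Finset.card_pair hm] at h3
      exact h3
    have hSk0' : 0 ≤ TA (fun p => Sk0 {m, m'} (τ p)) (yh h ν R) c :=
      TA_Sk0_nonneg {m, m'} τ hτ _ (fun c => yh_nonneg h hh ν R c) c
    have hcl := Sk_close {m, m'} τ hτ (yh h ν R) (fun c => yh_nonneg h hh ν R c)
      (fun c c' hs => yh_mono h hh ha ν hν R c c' hs) c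
    have habs : |TA (fun p => Sk {m, m'} (τ p)) (yh h ν R) c| ≤ P * (H * J ^ 2) := by
      have h4 : |TA (fun p => Sk {m, m'} (τ p)) (yh h ν R) c| ≤
          P * TA (fun p => Sk0 {m, m'} (τ p)) (yh h ν R) c := by
        have h5 := abs_sub_abs_le_abs_sub (TA (fun p => Sk {m, m'} (τ p)) (yh h ν R) c)
          (TA (fun p => Sk0 {m, m'} (τ p)) (yh h ν R) c)
        rw [abs_of_nonneg hSk0'] at h5
        have h6 := h5.trans hcl
        linarith
      exact h4.trans (mul_le_mul_of_nonneg_left hSk0 hP0)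
    have hsq : (TA (fun p => Sk {m, m'} (τ p)) (yh h ν R) c) ^ 2 ≤ (P * (H * J ^ 2)) ^ 2 := by
      rw [← sq_abs]
      exact pow_le_pow_left₀ (abs_nonneg _) habs 2
    have hGinv : 1 / GS τ ν Y (supp c) ≤ X / GS τ ν Y ∅ := by
      rw [div_le_div_iff₀ hGc hG0, one_mul]
      exact GS_disjoint_le τ ν hτ hν Y (supp c)
    have hwt0 : 0 ≤ wt τ c := by
      rw [wt_eq_prod_supp]
      exact Finset.prod_nonneg fun p _ => hτ p
    have hwt3 : wt (fun p => τ p * (1 + τ p) ^ 3) c = wt τ c * X ^ 3 := by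
      rw [wt_eq_prod_supp, wt_eq_prod_supp, Finset.prod_mul_distrib, Finset.prod_pow]
    have hFprod : ∏ i ∈ univ.filter (fun i => i ∉ ({m, m'} : Finset I)), F (part c i) =
        wt τ c * X ^ 3 * H ^ 2 := by
      rw [← hwt3]
      have h7 := v07_wt_F ({m, m'} : Finset I) (fun p => τ p * (1 + τ p) ^ 3)
        (fun A => h (sz ν A) ^ 2) c hc
      rw [Finset.prod_pow, ← hH] at h7
      rw [h7]
    rw [hFprod, hcomp, mul_pow, v07_wt_sq, ← hX]
    calc wt τ c * (X ^ 2 * TA (fun p => Sk {m, m'} (τ p)) (yh h ν R) c ^ 2) / GS τ ν Y (supp c)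
        = (wt τ c * X ^ 2) * TA (fun p => Sk {m, m'} (τ p)) (yh h ν R) c ^ 2 *
            (1 / GS τ ν Y (supp c)) := by ring
      _ ≤ (wt τ c * X ^ 2) * (P * (H * J ^ 2)) ^ 2 * (X / GS τ ν Y ∅) := by
          have h8 : 0 ≤ wt τ c * X ^ 2 := mul_nonneg hwt0 (sq_nonneg _)
          refine mul_le_mul (mul_le_mul_of_nonneg_left hsq h8) hGinv (by positivity) ?_
          exact mul_nonneg h8 (sq_nonneg _)
      _ = P ^ 2 * J ^ 4 / GS τ ν Y ∅ * (wt τ c * X ^ 3 * H ^ 2) := by ring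
  -- summation
  have hsum : ∑ c, wt τ c * (TA (fun p => Zk (τ p)) lm0 c) ^ 2 / GS τ ν Y (supp c) ≤
      ∑ c ∈ univ.filter (fun c : ι → Option I => NoLab {m, m'} c),
        P ^ 2 * J ^ 4 / GS τ ν Y ∅ *
          ∏ i ∈ univ.filter (fun i => i ∉ ({m, m'} : Finset I)), F (part c i) := by
    have h9 : ∑ c, wt τ c * (TA (fun p => Zk (τ p)) lm0 c) ^ 2 / GS τ ν Y (supp c) =
        ∑ c ∈ univ.filter (fun c : ι → Option I => NoLab {m, m'} c),
          wt τ c * (TA (fun p => Zk (τ p)) lm0 c) ^ 2 / GS τ ν Y (supp c) := by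
      symm
      refine Finset.sum_subset (Finset.subset_univ _) fun c _ hc => ?_
      have hc' : ¬ NoLab {m, m'} c := by
        intro hcon
        exact hc (Finset.mem_filter.mpr ⟨Finset.mem_univ _, hcon⟩)
      rw [hzs c hc']
      simp
    rw [h9]
    exact Finset.sum_le_sum fun c hc => hterm c (Finset.mem_filter.mp hc).2
  refine hsum.trans ?_
  rw [← Finset.mul_sum]
  have hlab := sum_cfg_prod_le_of_labels (univ.filter (fun i => i ∉ ({m, m'} : Finset I))) F hF0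
    (univ.filter (fun c : ι → Option I => NoLab {m, m'} c)) (by
      intro c hc p j hcp
      rw [Finset.mem_filter]
      refine ⟨Finset.mem_univ _, fun hj => ?_⟩
      exact (Finset.mem_filter.mp hc).2 p j hj hcp)
  have hcard : (univ.filter (fun i => i ∉ ({m, m'} : Finset I))).card = Fintype.card I - 2 := by
    have h10 : univ.filter (fun i => i ∉ ({m, m'} : Finset I)) = ({m, m'} : Finset I)ᶜ := by
      ext i; simp
    rw [h10, Finset.card_compl, Finset.card_pair hm]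
  rw [hcard] at hlab
  have hS1 : S1 (fun p => τ p * (1 + τ p) ^ 3) (fun A => h (sz ν A) ^ 2) = ∑ A, F A := rfl
  rw [hS1]
  have hc0 : 0 ≤ P ^ 2 * J ^ 4 / GS τ ν Y ∅ := by positivity
  calc _ ≤ P ^ 2 * J ^ 4 / GS τ ν Y ∅ * (∑ A, F A) ^ (Fintype.card I - 2) :=
        mul_le_mul_of_nonneg_left hlab hc0
    _ = _ := by ring

end BVM

end
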