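import Pool.Agent.helper31.BVM.T05
import Pool.Agent.helper31.BVM.T06
import Pool.Agent.helper31.BVM.T07
import Pool.Agent.helper31.BVM.V05
import Pool.Agent.helper31.BVM.V08

/-!
# BVM-V09: size of the extended coefficients

Notation: `G X = GS τ ν X ∅`, `k = card I`, `P = ∏_p (1 + k τ_p^2)`.

PROOFS. `zs_supp`: `zs = TA (Zk τ) (TA (Dk M) (lam τ yh)) = wt (-(1+τ)) c * TA (Sk M τ) yh c`
(`TA_composite`, T05); the kernel `Sk` only involves `c'` with `SubC c c'`, so `zs c = 0` if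
`sz (supp c) > R`.
`lamx_bound`: `|zs c| ≤ wt (1+τ) c * P * J^2` for `sz (supp c) ≤ R` (`Sk_close`, T06; `TA_Sk0_le`, V05;
`h ≤ 1`). Here `J = S1 τ (h ∘ sz) ≤ G R` because `h ≤ 1` and `h (sz A) = 0` for `sz A > Z`, `Z ≤ R`, and
`wt (1+τ) c ≤ G R` (`prod_one_add_le_GS`, S06). So `|zs c| ≤ P (G X)^3` for all `c`. Then
`|zext c'| ≤ |zs (er m' c')|` if `sz (part c' m') ≤ Y`, else `0` (`GS_ge_one`), and by `TA_Zk_apply` (T02)
`|lamx c| ≤ ∑_{c' ⊇ c} ∏_{c' minus c} τ |zext c'| ≤ P (G X)^3 ∑_e wt τ e` over `e = c' minus c`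
(`e p = if c p = none then c' p else none`), all of whose parts have size `≤ X` (`X ≥ R`, `X ≥ Y`; a part of
`e` is contained in the part of `c'`, which for the label `m'` has size `≤ Y` and for the other labels is
contained in `supp (er m' c')`, of size `≤ R`), so `≤ P (G X)^(k+3)` by `sum_wt_le'` (V08).
-/

set_option linter.unusedSectionVars false

noncomputable section

namespace BVM

open Finset

variable {ι I : Type*} [Fintype ι] [DecidableEq ι] [Fintype I] [DecidableEq I]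

private theorem sk_supp (M : Finset I) (τ : ι → ℝ) (c c' : ι → Option I)
    (h : ∏ p, Sk M (τ p) (c p) (c' p) ≠ 0) : supp c ⊆ supp c' := by
  intro p hp
  rw [supp, Finset.mem_filter] at hp ⊢
  refine ⟨Finset.mem_univ _, ?_⟩
  intro hc'
  have h1 : Sk M (τ p) (c p) (c' p) ≠ 0 := (Finset.prod_ne_zero_iff.1 h) p (Finset.mem_univ _)
  apply h1
  rw [hc']
  cases hcp : c p with
  | none => exact absurd hcp hp.2
  | some i => rfl

theorem zs_supp (M : Finset I) (τ ν : ι → ℝ) (hτ : ∀ p, 0 ≤ τ p) (hν : ∀ p, 1 ≤ ν p)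
    (h : ℝ → ℝ) (R : ℝ) (c : ι → Option I) (hc : R < sz ν (supp c)) :
    TA (fun p => Zk (τ p)) (TA (fun _ => Dk M) (lam τ (yh h ν R))) c = 0 := by
  rw [TA_composite M τ hτ]
  have h1 : TA (fun p => Sk M (τ p)) (yh h ν R) c = 0 := by
    unfold TA
    apply Finset.sum_eq_zero
    intro c' _
    by_cases h0 : ∏ p, Sk M (τ p) (c p) (c' p) = 0
    · rw [h0, zero_mul]
    · have h2 := sk_supp M τ c c' h0
      have h3 : R < sz ν (supp c') := lt_of_lt_of_le hc (sz_mono ν hν _ _ h2)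
      have h4 : yh h ν R c' = 0 := by
        unfold yh
        rw [if_neg (not_le.2 h3)]
      rw [h4, mul_zero]
  rw [h1, mul_zero]

private theorem abs_wt_neg (τ : ι → ℝ) (hτ : ∀ p, 0 ≤ τ p) (c : ι → Option I) :
    |wt (fun p => -(1 + τ p)) c| = ∏ p ∈ supp c, (1 + τ p) := by
  rw [wt_eq_prod_supp, Finset.abs_prod]
  apply Finset.prod_congr rfl
  intro p _
  rw [abs_neg, abs_of_nonneg]
  have := hτ p
  linarith

private theorem GS_nonneg' (τ ν : ι → ℝ) (hτ : ∀ p, 0 ≤ τ p) (X : ℝ) (S : Finset ι) :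
    0 ≤ GS τ ν X S := by
  unfold GS
  apply Finset.sum_nonneg
  intro A _
  exact Finset.prod_nonneg fun p _ => hτ p

private theorem S1_le_GS (τ ν : ι → ℝ) (hτ : ∀ p, 0 ≤ τ p) (h : ℝ → ℝ) (hh : ∀ x, 0 ≤ h x)
    (hh1 : ∀ x, h x ≤ 1) (Z X : ℝ) (hZ : ∀ x, Z < x → h x = 0) (hZX : Z ≤ X) :
    S1 τ (fun A => h (sz ν A)) ≤ GS τ ν X ∅ := by
  unfold S1 GS
  rw [Finset.sum_filter]
  apply Finset.sum_le_sum
  intro A _
  have h0 : 0 ≤ ∏ p ∈ A, τ p := Finset.prod_nonneg fun p _ => hτ p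
  by_cases hA : sz ν A ≤ X
  · rw [if_pos ⟨Finset.disjoint_empty_right A, hA⟩]
    calc (∏ p ∈ A, τ p) * h (sz ν A) ≤ (∏ p ∈ A, τ p) * 1 :=
          mul_le_mul_of_nonneg_left (hh1 _) h0
      _ = ∏ p ∈ A, τ p := mul_one _
  · rw [if_neg (fun hc => hA hc.2)]
    push Not at hA
    have h9 : h (sz ν A) = 0 := hZ _ (lt_of_le_of_lt hZX hA)
    simp only [h9, mul_zero, le_refl]

private theorem one_le_P (τ : ι → ℝ) :
    1 ≤ ∏ p, (1 + (Fintype.card I : ℝ) * τ p ^ 2) := by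
  have h1 : (∏ _p : ι, (1 : ℝ)) ≤ ∏ p, (1 + (Fintype.card I : ℝ) * τ p ^ 2) := by
    apply Finset.prod_le_prod
    · intro p _; exact zero_le_one
    · intro p _
      have : 0 ≤ (Fintype.card I : ℝ) * τ p ^ 2 := by positivity
      linarith
  rwa [Finset.prod_const_one] at h1

private theorem TA_Sk0_le_sq (m m' : I) (hm : m ≠ m') (τ ν : ι → ℝ) (hτ : ∀ p, 0 ≤ τ p)
    (h : ℝ → ℝ) (hh : ∀ x, 0 ≤ h x) (hh1 : ∀ x, h x ≤ 1) (Z R X : ℝ)
    (hX : 1 ≤ X) (hZ : ∀ x, Z < x → h x = 0) (hZX : Z ≤ X) (c : ι → Option I) :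
    TA (fun p => Sk0 {m, m'} (τ p)) (yh h ν R) c ≤ GS τ ν X ∅ ^ 2 := by
  have hG1 : 1 ≤ GS τ ν X ∅ := GS_ge_one τ ν hτ X hX ∅
  by_cases hc : NoLab {m, m'} c
  · have h1 := TA_Sk0_le {m, m'} τ ν hτ h hh R c hc
    have hcard : ({m, m'} : Finset I).card = 2 := Finset.card_pair hm
    rw [hcard] at h1
    have hJ := S1_le_GS τ ν hτ h hh hh1 Z X hZ hZX
    have hJ0 : 0 ≤ S1 τ (fun A => h (sz ν A)) := by
      unfold S1
      apply Finset.sum_nonneg
      intro A _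
      exact mul_nonneg (Finset.prod_nonneg fun p _ => hτ p) (hh _)
    have h2 : (∏ i ∈ univ.filter (fun i => i ∉ ({m, m'} : Finset I)), h (sz ν (part c i))) ≤ 1 :=
      Finset.prod_le_one (fun i _ => hh _) (fun i _ => hh1 _)
    calc TA (fun p => Sk0 {m, m'} (τ p)) (yh h ν R) c
        ≤ (∏ i ∈ univ.filter (fun i => i ∉ ({m, m'} : Finset I)), h (sz ν (part c i))) *
          S1 τ (fun A => h (sz ν A)) ^ 2 := h1
      _ ≤ 1 * S1 τ (fun A => h (sz ν A)) ^ 2 :=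
          mul_le_mul_of_nonneg_right h2 (pow_nonneg hJ0 2)
      _ = S1 τ (fun A => h (sz ν A)) ^ 2 := one_mul _
      _ ≤ GS τ ν X ∅ ^ 2 := pow_le_pow_left₀ hJ0 hJ 2
  · have h1 : TA (fun p => Sk0 {m, m'} (τ p)) (yh h ν R) c = 0 := by
      unfold NoLab at hc
      push Not at hc
      obtain ⟨p, j, hj, hpj⟩ := hc
      unfold TA
      apply Finset.sum_eq_zero
      intro c' _
      have h2 : (∏ p, Sk0 {m, m'} (τ p) (c p) (c' p)) = 0 := by
        apply Finset.prod_eq_zero (Finset.mem_univ p)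
        rw [hpj]
        cases hcp : c' p with
        | none => rfl
        | some i =>
          unfold Sk0
          simp only
          rw [if_neg]
          rintro ⟨_, h3⟩
          exact h3 hj
      rw [h2, zero_mul]
    rw [h1]
    positivity

private theorem zs_bound (m m' : I) (hm : m ≠ m') (τ ν : ι → ℝ) (hτ : ∀ p, 0 ≤ τ p)
    (hν : ∀ p, 1 ≤ ν p) (h : ℝ → ℝ) (hh : ∀ x, 0 ≤ h x) (hh1 : ∀ x, h x ≤ 1)
    (ha : Antitone h) (Z R X : ℝ) (hX : 1 ≤ X) (hZ : ∀ x, Z < x → h x = 0)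
    (hZR : Z ≤ R) (hRX : R ≤ X) (c : ι → Option I) :
    |TA (fun p => Zk (τ p)) (TA (fun _ => Dk {m, m'}) (lam τ (yh h ν R))) c| ≤
      (∏ p, (1 + (Fintype.card I : ℝ) * τ p ^ 2)) * GS τ ν X ∅ ^ 3 := by
  have hG1 : 1 ≤ GS τ ν X ∅ := GS_ge_one τ ν hτ X hX ∅
  have hP1 : 1 ≤ ∏ p, (1 + (Fintype.card I : ℝ) * τ p ^ 2) := one_le_P τ
  by_cases hc : sz ν (supp c) ≤ R
  · rw [TA_composite {m, m'} τ hτ, abs_mul, abs_wt_neg τ hτ]
    have h1 : ∏ p ∈ supp c, (1 + τ p) ≤ GS τ ν X ∅ :=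
      prod_one_add_le_GS τ ν hτ hν X (supp c) (hc.trans hRX)
    have h2 := Sk_close {m, m'} τ hτ (yh h ν R) (yh_nonneg h hh ν R)
      (yh_mono h hh ha ν hν R) c
    have h3 := TA_Sk0_le_sq m m' hm τ ν hτ h hh hh1 Z R X hX hZ (hZR.trans hRX) c
    have h4 := TA_Sk0_nonneg {m, m'} τ hτ (yh h ν R) (yh_nonneg h hh ν R) c
    have h5 : |TA (fun p => Sk {m, m'} (τ p)) (yh h ν R) c| ≤
        (∏ p, (1 + (Fintype.card I : ℝ) * τ p ^ 2)) *
          TA (fun p => Sk0 {m, m'} (τ p)) (yh h ν R) c := by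
      have h6 : |TA (fun p => Sk {m, m'} (τ p)) (yh h ν R) c| ≤
          |TA (fun p => Sk {m, m'} (τ p)) (yh h ν R) c -
            TA (fun p => Sk0 {m, m'} (τ p)) (yh h ν R) c| +
          |TA (fun p => Sk0 {m, m'} (τ p)) (yh h ν R) c| := by
        have := abs_add_le (TA (fun p => Sk {m, m'} (τ p)) (yh h ν R) c -
            TA (fun p => Sk0 {m, m'} (τ p)) (yh h ν R) c)
          (TA (fun p => Sk0 {m, m'} (τ p)) (yh h ν R) c)
        rwa [sub_add_cancel] at this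
      rw [abs_of_nonneg h4] at h6
      have h7 : (∏ p, (1 + (Fintype.card I : ℝ) * τ p ^ 2)) *
          TA (fun p => Sk0 {m, m'} (τ p)) (yh h ν R) c =
          (∏ p, (1 + (Fintype.card I : ℝ) * τ p ^ 2) - 1) *
            TA (fun p => Sk0 {m, m'} (τ p)) (yh h ν R) c +
          TA (fun p => Sk0 {m, m'} (τ p)) (yh h ν R) c := by ring
      rw [h7]
      linarith
    have h8 : |TA (fun p => Sk {m, m'} (τ p)) (yh h ν R) c| ≤
        (∏ p, (1 + (Fintype.card I : ℝ) * τ p ^ 2)) * GS τ ν X ∅ ^ 2 :=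
      h5.trans (mul_le_mul_of_nonneg_left h3 (by linarith))
    calc (∏ p ∈ supp c, (1 + τ p)) * |TA (fun p => Sk {m, m'} (τ p)) (yh h ν R) c|
        ≤ GS τ ν X ∅ * ((∏ p, (1 + (Fintype.card I : ℝ) * τ p ^ 2)) * GS τ ν X ∅ ^ 2) :=
          mul_le_mul h1 h8 (abs_nonneg _) (by linarith)
      _ = (∏ p, (1 + (Fintype.card I : ℝ) * τ p ^ 2)) * GS τ ν X ∅ ^ 3 := by ring
  · push Not at hc
    rw [zs_supp {m, m'} τ ν hτ hν h R c hc, abs_zero]
    have : 0 ≤ GS τ ν X ∅ := by linarith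
    positivity

theorem lamx_bound (m m' : I) (hm : m ≠ m') (τ ν : ι → ℝ) (hτ : ∀ p, 0 ≤ τ p)
    (hν : ∀ p, 1 ≤ ν p) (h : ℝ → ℝ) (hh : ∀ x, 0 ≤ h x) (hh1 : ∀ x, h x ≤ 1)
    (ha : Antitone h) (Z Y R X : ℝ) (hY : 1 ≤ Y) (hR : 1 ≤ R) (hZ : ∀ x, Z < x → h x = 0)
    (hZR : Z ≤ R) (hRX : R ≤ X) (hYX : Y ≤ X) (c : ι → Option I) :
    |lamx τ ν Y m' (TA (fun _ => Dk {m, m'}) (lam τ (yh h ν R))) c| ≤
      (∏ p, (1 + (Fintype.card I : ℝ) * τ p ^ 2)) * GS τ ν X ∅ ^ (Fintype.card I + 3) := by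
  classical
  have hX : 1 ≤ X := hR.trans hRX
  have hG1 : 1 ≤ GS τ ν X ∅ := GS_ge_one τ ν hτ X hX ∅
  have hP1 : 1 ≤ ∏ p, (1 + (Fintype.card I : ℝ) * τ p ^ 2) := one_le_P τ
  set P := ∏ p, (1 + (Fintype.card I : ℝ) * τ p ^ 2) with hPdef
  set zs := TA (fun p => Zk (τ p)) (TA (fun _ => Dk {m, m'}) (lam τ (yh h ν R))) with hzs
  have hzsb : ∀ c, |zs c| ≤ P * GS τ ν X ∅ ^ 3 := fun c =>
    zs_bound m m' hm τ ν hτ hν h hh hh1 ha Z R X hX hZ hZR hRX c
  set T' : Finset (ι → Option I) := univ.filter (fun c' => (∀ p, c p = none ∨ c p = c' p) ∧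
    sz ν (part c' m') ≤ Y ∧ sz ν (supp (er m' c')) ≤ R) with hT'
  have hze : ∀ c', |zext τ ν Y m' zs c'| ≤
      if sz ν (part c' m') ≤ Y ∧ sz ν (supp (er m' c')) ≤ R then P * GS τ ν X ∅ ^ 3 else 0 := by
    intro c'
    unfold zext
    by_cases h1 : sz ν (part c' m') ≤ Y
    · rw [if_pos h1]
      by_cases h2 : sz ν (supp (er m' c')) ≤ R
      · rw [if_pos ⟨h1, h2⟩]
        have h3 := GS_ge_one τ ν hτ Y hY (supp (er m' c'))
        rw [abs_div, abs_mul, abs_pow, abs_neg, abs_one, one_pow, mul_one,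
          abs_of_pos (lt_of_lt_of_le zero_lt_one h3)]
        calc |zs (er m' c')| / GS τ ν Y (supp (er m' c')) ≤ |zs (er m' c')| :=
              div_le_self (abs_nonneg _) h3
          _ ≤ P * GS τ ν X ∅ ^ 3 := hzsb _
      · rw [if_neg (fun hc => h2 hc.2)]
        push Not at h2
        have h3 : zs (er m' c') = 0 := zs_supp {m, m'} τ ν hτ hν h R _ h2
        rw [h3, zero_mul, zero_div, abs_zero]
    · rw [if_neg h1, if_neg (fun hc => h1 hc.1), abs_zero]
  unfold lamx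
  rw [TA_Zk_apply]
  -- the extension e
  let e : (ι → Option I) → (ι → Option I) := fun c' p => if c p = none then c' p else none
  have hstep : |∑ c' : ι → Option I, (if ∀ p, c p = none ∨ c p = c' p then
        (∏ p, if c p = none ∧ c' p ≠ none then -(τ p) else 1) * zext τ ν Y m' zs c' else 0)| ≤
      ∑ c' ∈ T', wt τ (e c') * (P * GS τ ν X ∅ ^ 3) := by
    refine (Finset.abs_sum_le_sum_abs _ _).trans ?_
    rw [hT', Finset.sum_filter]
    apply Finset.sum_le_sum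
    intro c' _
    by_cases h1 : ∀ p, c p = none ∨ c p = c' p
    · rw [if_pos h1, abs_mul]
      have h2 : |∏ p, if c p = none ∧ c' p ≠ none then -(τ p) else 1| = wt τ (e c') := by
        unfold wt
        rw [Finset.abs_prod]
        apply Finset.prod_congr rfl
        intro p _
        simp only [e]
        by_cases h3 : c p = none
        · by_cases h4 : c' p = none
          · simp [h3, h4]
          · simp [h3, h4, abs_of_nonneg (hτ p)]
        · simp [h3]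
      rw [h2]
      have h5 := hze c'
      have h6 : 0 ≤ wt τ (e c') := by
        unfold wt
        apply Finset.prod_nonneg
        intro p _
        split_ifs
        · exact zero_le_one
        · exact hτ p
      by_cases h7 : sz ν (part c' m') ≤ Y ∧ sz ν (supp (er m' c')) ≤ R
      · rw [if_pos h7] at h5
        rw [if_pos ⟨h1, h7.1, h7.2⟩]
        exact mul_le_mul_of_nonneg_left h5 h6
      · rw [if_neg h7] at h5
        rw [if_neg (fun hc => h7 ⟨hc.2.1, hc.2.2⟩)]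
        have h8 : |zext τ ν Y m' zs c'| = 0 := le_antisymm h5 (abs_nonneg _)
        rw [h8, mul_zero]
    · rw [if_neg h1, abs_zero, if_neg (fun hc => h1 hc.1)]
  refine hstep.trans ?_
  rw [← Finset.sum_mul]
  have hinj : ∀ c₁ ∈ T', ∀ c₂ ∈ T', e c₁ = e c₂ → c₁ = c₂ := by
    intro c₁ h1 c₂ h2 h12
    rw [hT', Finset.mem_filter] at h1 h2
    funext p
    have h3 := congrFun h12 p
    simp only [e] at h3
    by_cases h4 : c p = none
    · rw [if_pos h4, if_pos h4] at h3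
      exact h3
    · have h5 := (h1.2.1 p).resolve_left h4
      have h6 := (h2.2.1 p).resolve_left h4
      rw [← h5, ← h6]
  have hsum : ∑ c' ∈ T', wt τ (e c') = ∑ e' ∈ T'.image e, wt τ e' := by
    rw [Finset.sum_image]
    intro c₁ h1 c₂ h2 h12
    exact hinj c₁ h1 c₂ h2 h12
  have hparts : ∀ e' ∈ T'.image e, ∀ i, sz ν (part e' i) ≤ X := by
    intro e' he' i
    rw [Finset.mem_image] at he'
    obtain ⟨c', hc', rfl⟩ := he'
    rw [hT', Finset.mem_filter] at hc'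
    have hsub : part (e c') i ⊆ part c' i := by
      intro p hp
      rw [part, Finset.mem_filter] at hp ⊢
      refine ⟨hp.1, ?_⟩
      have h3 := hp.2
      simp only [e] at h3
      by_cases h4 : c p = none
      · rwa [if_pos h4] at h3
      · rw [if_neg h4] at h3
        exact absurd h3 (by simp)
    by_cases him : i = m'
    · rw [him] at hsub ⊢
      exact ((sz_mono ν hν _ _ hsub).trans hc'.2.2.1).trans hYX
    · have hsub2 : part c' i ⊆ supp (er m' c') := by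
        intro p hp
        rw [part, Finset.mem_filter] at hp
        rw [supp, Finset.mem_filter]
        refine ⟨hp.1, ?_⟩
        unfold er
        rw [hp.2, if_neg]
        · simp
        · intro hc
          exact him (Option.some.inj hc)
      exact ((sz_mono ν hν _ _ (hsub.trans hsub2)).trans hc'.2.2.2).trans hRX
  rw [hsum]
  have hfin := sum_wt_le' τ ν hτ X (T'.image e) hparts
  have hPG : 0 ≤ P * GS τ ν X ∅ ^ 3 := by
    have h1 : 0 ≤ GS τ ν X ∅ := by linarith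
    positivity
  calc (∑ e' ∈ T'.image e, wt τ e') * (P * GS τ ν X ∅ ^ 3)
      ≤ GS τ ν X ∅ ^ Fintype.card I * (P * GS τ ν X ∅ ^ 3) :=
        mul_le_mul_of_nonneg_right hfin hPG
    _ = P * GS τ ν X ∅ ^ (Fintype.card I + 3) := by rw [pow_add]; ring

end BVM

end
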