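import Pool.Agent.helper31.BVM.P02
import Pool.Agent.helper31.BVM.P03
import Pool.Agent.helper31.BVM.P04
import Pool.Agent.helper31.BVM.V07
import Pool.Agent.helper31.BVM.V09
import Pool.Agent.helper31.BVM.X06
import Pool.Agent.helper31.BVM.X08

/-!
# BVM-P06: upper bound for two primes, at a fixed scale

Notation: `k = card I`, `W = Wd D`, `h = hst J z`, `z = N^ζ`, `R = N^η`, `Y = N^y`, `lm = lmN I D J ζ η N`,
`lm0 = TA (Dk {m, m'}) lm`, `lx = lamx τ nuP Y m' lm0`.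

PROOF. If both forms are prime at `n ∈ [N,2N)` (both are `> Nat.sqrt N` by `hN`), then
`dsum lm n = dsum lx n` (`dsum_congr_prime`, P02, with `M = {m, m'}`: for `NoLab {m,m'} c`,
`lx c = lm0 c` by `lamx_eq` (T07; `lm0` vanishes on configurations with the label `m'`, `TA_Dk` T05) and
`lm0 c = lm c` by `TA_Dk`). So `wN n ip_m ip_m' ≤ [n ≡ v0] ip_m(n) dsum lx n ^ 2 ≤
[n ≡ v0] lgp(a m n + b m)/log (N/2) dsum lx n ^ 2` (`ip_le` with `y = N/2`, `hN'`). Sum and use `Sm_bound`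
(P03) for `lx`: it has no label `m` (`lamx_noLab` T07), `|lx| ≤ P GS(X)^(k+3) ≤ 2 GS(X)^(k+3)`
(`lamx_bound` V09 with `Z = z^(2^J) = N^(2^J ζ) ≤ R`, `X = N^(η+y) ≥ R, Y`; `P ≤ exp(2k/D) ≤ 2`), and
`lx c = 0` for `sz (supp c) > R Y = N^(η+y)` (`lamx_supp` T07 with `zs_supp` V09). The main term is
`N/φ(W) * QF (Bk τ) lx` (`totient_mul_Wd` X06) and `QF_pair` (V07) with `P ≤ exp(2k/D)`
(`prod_tauP_le_exp` S04) and `S1 (τ(1+τ)^3) h^2 ≤ exp(14/D) I2f` (`S1_compare` S06, `c = 7`, as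
`(1+τ)^3 ≤ 1 + 7τ` for `0 ≤ τ ≤ 1`), so `QF ≤ exp(4k/D) J1f^4 (exp(14/D) I2f)^(k-2)/GS(Y)
≤ exp(18k/D) J1f^4 I2f^(k-2)/GS(Y)`.
-/

noncomputable section

namespace BVM

open Finset Filter

variable {I : Type*} [Fintype I] [DecidableEq I]

private theorem P06_pow (N : ℕ) (ζ : ℝ) (J : ℕ) :
    ((N : ℝ) ^ ζ) ^ (2 ^ J) = (N : ℝ) ^ (2 ^ J * ζ) := by
  rw [← Real.rpow_natCast, ← Real.rpow_mul (Nat.cast_nonneg N)]
  congr 1
  push_cast
  ring

/-- the form with two primes, with the constants of the module -/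
private theorem P06_QF (D : ℕ) (hD : 1 ≤ D) (hDk : Fintype.card I ≤ D) (J : ℕ) (ζ η y : ℝ)
    (hζ : 0 < ζ) (hy : 0 < y) (N : ℕ) (hN : 1 ≤ N) (m m' : I) (hm : m ≠ m') :
    QF (fun p : ↥(Ps D (Nat.sqrt N)) => Bk (tauP p))
      (lamx tauP nuP ((N : ℝ) ^ y) m' (TA (fun _ => Dk {m, m'}) (lmN I D J ζ η N))) ≤
    Real.exp (18 * Fintype.card I / D) * J1f D J ζ N ^ 4 *
      I2f D J ζ N ^ (Fintype.card I - 2) /
        GS (ι := ↥(Ps D (Nat.sqrt N))) tauP nuP ((N : ℝ) ^ y) ∅ := by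
  classical
  have hN1 : (1 : ℝ) ≤ N := by exact_mod_cast hN
  have hD0 : (0 : ℝ) < D := by exact_mod_cast hD
  have hY : (1 : ℝ) ≤ (N : ℝ) ^ y := Real.one_le_rpow hN1 hy.le
  have hz : (1 : ℝ) ≤ (N : ℝ) ^ ζ := Real.one_le_rpow hN1 hζ.le
  have hτ0 : ∀ p : ↥(Ps D (Nat.sqrt N)), 0 ≤ tauP p := fun p => tauP_nonneg p
  have hν : ∀ p : ↥(Ps D (Nat.sqrt N)), 1 ≤ nuP p := fun p => one_le_nuP p
  have hτD : ∀ p : ↥(Ps D (Nat.sqrt N)), tauP p ≤ 1 / (D : ℝ) := fun p => tauP_le hD p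
  have hk : ∀ p : ↥(Ps D (Nat.sqrt N)), (Fintype.card I : ℝ) * tauP p ≤ 1 := by
    intro p
    have h1 : (Fintype.card I : ℝ) ≤ D := by exact_mod_cast hDk
    calc (Fintype.card I : ℝ) * tauP p ≤ D * (1 / (D : ℝ)) :=
          mul_le_mul h1 (hτD p) (hτ0 p) hD0.le
      _ = 1 := by field_simp
  have h1 := QF_pair m m' hm (tauP : ↥(Ps D (Nat.sqrt N)) → ℝ) nuP hτ0 hν hk
    (hst J ((N : ℝ) ^ ζ)) (hst_nonneg J _) (hst_antitone J _) ((N : ℝ) ^ y) ((N : ℝ) ^ η) hY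
  refine h1.trans ?_
  have hG0 : 0 < GS (ι := ↥(Ps D (Nat.sqrt N))) tauP nuP ((N : ℝ) ^ y) ∅ :=
    lt_of_lt_of_le one_pos (GS_ge_one _ _ hτ0 _ hY _)
  apply div_le_div_of_nonneg_right _ hG0.le
  have hP := prod_tauP_le_exp D (Nat.sqrt N) hD (Fintype.card I : ℝ) (Nat.cast_nonneg _)
  have hP0 : 0 ≤ ∏ p : ↥(Ps D (Nat.sqrt N)), (1 + (Fintype.card I : ℝ) * tauP p ^ 2) :=
    Finset.prod_nonneg fun p _ => by positivity
  have hI0 : 0 ≤ I2f D J ζ N := le_trans zero_le_one (one_le_I2f D J ζ hζ N hN)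
  have hS : S1 (ι := ↥(Ps D (Nat.sqrt N))) (fun p => tauP p * (1 + tauP p) ^ 3)
      (fun A => hst J ((N : ℝ) ^ ζ) (sz nuP A) ^ 2) ≤ Real.exp (14 / D) * I2f D J ζ N := by
    have h2 := S1_compare (tauP : ↥(Ps D (Nat.sqrt N)) → ℝ)
      (fun p => tauP p * (1 + tauP p) ^ 3) 7 (by norm_num) hτ0
      (fun p => by have := hτ0 p; positivity) ?_
      (fun A => hst J ((N : ℝ) ^ ζ) (sz nuP A) ^ 2) (fun A => sq_nonneg _) ?_
    · refine h2.trans ?_
      unfold I2f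
      apply mul_le_mul_of_nonneg_right
      · have h3 := prod_tauP_le_exp D (Nat.sqrt N) hD (7 : ℝ) (by norm_num)
        refine h3.trans (le_of_eq ?_)
        congr 1
        ring
      · unfold I2f at hI0
        exact hI0
    · intro p
      have h3 := hτ0 p
      have h4 : tauP p ≤ 1 := by
        refine (hτD p).trans ?_
        rw [div_le_one hD0]
        exact_mod_cast hD
      apply mul_le_mul_of_nonneg_left _ h3
      nlinarith [mul_nonneg h3 (sub_nonneg.2 h4), mul_nonneg (mul_nonneg h3 h3) (sub_nonneg.2 h4)]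
    · intro A B hAB
      have h3 : hst J ((N : ℝ) ^ ζ) (sz nuP B) ≤ hst J ((N : ℝ) ^ ζ) (sz nuP A) :=
        hst_antitone J _ (sz_mono nuP hν A B hAB)
      exact pow_le_pow_left₀ (hst_nonneg J _ _) h3 2
  have hS0 : 0 ≤ S1 (ι := ↥(Ps D (Nat.sqrt N))) (fun p => tauP p * (1 + tauP p) ^ 3)
      (fun A => hst J ((N : ℝ) ^ ζ) (sz nuP A) ^ 2) := by
    unfold S1
    refine Finset.sum_nonneg fun A _ => mul_nonneg (Finset.prod_nonneg fun p _ => ?_) (sq_nonneg _)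
    have := hτ0 p
    positivity
  have hJ0 : 0 ≤ J1f D J ζ N := by
    unfold J1f S1
    exact Finset.sum_nonneg fun A _ => mul_nonneg (Finset.prod_nonneg fun p _ => hτ0 p)
      (hst_nonneg J _ _)
  have e1 : (Real.exp (2 * (Fintype.card I : ℝ) / D)) ^ 2 *
      (Real.exp (14 / (D : ℝ))) ^ (Fintype.card I - 2) ≤
      Real.exp (18 * (Fintype.card I : ℝ) / D) := by
    rw [← Real.exp_nat_mul, ← Real.exp_nat_mul, ← Real.exp_add]
    apply Real.exp_le_exp.2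
    have h3 : ((Fintype.card I - 2 : ℕ) : ℝ) ≤ Fintype.card I := by
      exact_mod_cast Nat.sub_le _ _
    have h4 : ((Fintype.card I - 2 : ℕ) : ℝ) * (14 / (D : ℝ)) ≤ Fintype.card I * (14 / (D : ℝ)) :=
      mul_le_mul_of_nonneg_right h3 (by positivity)
    calc ((2 : ℕ) : ℝ) * (2 * (Fintype.card I : ℝ) / D) +
          ((Fintype.card I - 2 : ℕ) : ℝ) * (14 / (D : ℝ))
        ≤ ((2 : ℕ) : ℝ) * (2 * (Fintype.card I : ℝ) / D) + Fintype.card I * (14 / (D : ℝ)) := by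
          linarith
      _ = 18 * (Fintype.card I : ℝ) / D := by
          push_cast
          ring
  have e2 : (∏ p : ↥(Ps D (Nat.sqrt N)), (1 + (Fintype.card I : ℝ) * tauP p ^ 2)) ^ 2 ≤
      (Real.exp (2 * (Fintype.card I : ℝ) / D)) ^ 2 := pow_le_pow_left₀ hP0 hP 2
  have e3 := pow_le_pow_left₀ hS0 hS (Fintype.card I - 2)
  rw [mul_pow] at e3
  change _ * J1f D J ζ N ^ 4 * _ ≤ _
  calc (∏ p : ↥(Ps D (Nat.sqrt N)), (1 + (Fintype.card I : ℝ) * tauP p ^ 2)) ^ 2 *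
        J1f D J ζ N ^ 4 * S1 (ι := ↥(Ps D (Nat.sqrt N))) (fun p => tauP p * (1 + tauP p) ^ 3)
          (fun A => hst J ((N : ℝ) ^ ζ) (sz nuP A) ^ 2) ^ (Fintype.card I - 2)
      ≤ (Real.exp (2 * (Fintype.card I : ℝ) / D)) ^ 2 * J1f D J ζ N ^ 4 *
        (Real.exp (14 / (D : ℝ)) ^ (Fintype.card I - 2) *
          I2f D J ζ N ^ (Fintype.card I - 2)) := by
        refine mul_le_mul (mul_le_mul_of_nonneg_right e2 (by positivity)) e3 (by positivity)
          (by positivity)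
    _ = ((Real.exp (2 * (Fintype.card I : ℝ) / D)) ^ 2 *
        Real.exp (14 / (D : ℝ)) ^ (Fintype.card I - 2)) * (J1f D J ζ N ^ 4 *
          I2f D J ζ N ^ (Fintype.card I - 2)) := by ring
    _ ≤ Real.exp (18 * (Fintype.card I : ℝ) / D) * (J1f D J ζ N ^ 4 *
          I2f D J ζ N ^ (Fintype.card I - 2)) :=
        mul_le_mul_of_nonneg_right e1 (by positivity)
    _ = _ := by ring

theorem pair_fixed (a : I → ℕ) (b : I → ℤ) (hpos : ∀ i, 0 < a i) (D : ℕ)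
    (hsep : Sep D a b) (v0 : ℕ)
    (hv0 : ∀ i, Int.gcd (a i * v0 + b i) (Wd D) = 1) (hD : 1 ≤ D)
    (hDk : Fintype.card I ≤ D)
    (hP : Real.exp (2 * Fintype.card I / D) ≤ 2) (J : ℕ) (ζ η y : ℝ) (hζ : 0 < ζ)
    (hy : 0 < y) (hJ : 2 ^ J * ζ < η) (E : ℕ → ℝ) (x : ℕ) (hx3 : 3 ≤ x)
    (hE : ∀ y ≤ x, ∀ q, 1 ≤ q → ∀ c, Nat.Coprime c q →
      |theta y q c - y / Nat.totient q| ≤ E q)
    (hE0 : ∀ q, 0 ≤ E q) (Qx : ℕ) (hQx : Qx ≤ x)
    (htriv : ∀ q, 1 ≤ q → q ≤ x → E q ≤ 5 * x * Real.log x / q) (Δ : ℝ)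
    (hΔ : ∑ q ∈ Finset.Icc 1 Qx, E q ≤ Δ)
    (N : ℕ) (hN4 : 4 ≤ N) (m m' : I) (hm : m ≠ m')
    (hN : ∀ n : ℕ, N ≤ n → (Nat.sqrt N : ℤ) < a m * n + b m)
    (hNm' : ∀ n : ℕ, N ≤ n → (Nat.sqrt N : ℤ) < a m' * n + b m')
    (hN' : ∀ n : ℕ, N ≤ n → (N : ℝ) / 2 ≤ ((a m : ℤ) * n + b m : ℤ))
    (hx : 2 * (a m : ℤ) * N + b m ≤ x)
    (hQ : (a m * Wd D : ℕ) * ((N : ℝ) ^ (η + y)) ^ 2 ≤ Qx) :
    ∑ n ∈ Finset.Ico N (2 * N),
        wN a b D v0 J ζ η N n * (ip (a m) (b m) n * ip (a m') (b m') n) ≤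
    (N / Nat.totient (Wd D) *
        (Real.exp (18 * Fintype.card I / D) * J1f D J ζ N ^ 4 *
          I2f D J ζ N ^ (Fintype.card I - 2) /
          GS (ι := ↥(Ps D (Nat.sqrt N))) tauP nuP ((N : ℝ) ^ y) ∅)
      + 2 * (2 * GS (ι := ↥(Ps D (Nat.sqrt N))) tauP nuP ((N : ℝ) ^ (η + y)) ∅ ^
              (Fintype.card I + 3)) ^ 2 *
        (Real.sqrt (5 * x * Real.log x *
          GS (ι := ↥(Ps D (Nat.sqrt N))) tauP nuP (((N : ℝ) ^ (η + y)) ^ 2) ∅ ^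
            ((3 * Fintype.card I) ^ 2)) * Real.sqrt Δ)) / Real.log ((N : ℝ) / 2) := by
  classical
  have hN1 : 1 ≤ N := by omega
  have hN1' : (1 : ℝ) ≤ N := by exact_mod_cast hN1
  have hN0 : (0 : ℝ) < N := by linarith
  have hN4' : (4 : ℝ) ≤ N := by exact_mod_cast hN4
  have hlog : 0 < Real.log ((N : ℝ) / 2) := Real.log_pos (by linarith)
  have hη : 0 < η := lt_of_le_of_lt (by positivity) hJ
  have hY : (1 : ℝ) ≤ (N : ℝ) ^ y := Real.one_le_rpow hN1' hy.le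
  have hR : (1 : ℝ) ≤ (N : ℝ) ^ η := Real.one_le_rpow hN1' hη.le
  have hz : (1 : ℝ) ≤ (N : ℝ) ^ ζ := Real.one_le_rpow hN1' hζ.le
  have hτ0 : ∀ p : ↥(Ps D (Nat.sqrt N)), 0 ≤ tauP p := fun p => tauP_nonneg p
  have hν : ∀ p : ↥(Ps D (Nat.sqrt N)), 1 ≤ nuP p := fun p => one_le_nuP p
  set lm := lmN I D J ζ η N with hlm
  set lm0 : (↥(Ps D (Nat.sqrt N)) → Option I) → ℝ := TA (fun _ => Dk {m, m'}) lm with hlm0
  set lx : (↥(Ps D (Nat.sqrt N)) → Option I) → ℝ := lamx tauP nuP ((N : ℝ) ^ y) m' lm0 with hlx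
  have hvan : ∀ c, ¬ NoLab {m, m'} c → lm0 c = 0 := fun c hc => (TA_Dk {m, m'} _ c).2 hc
  have hl' : ∀ c, ¬ NoLab {m'} c → lm0 c = 0 := by
    intro c hc
    refine hvan c fun hcon => hc fun p j hj => hcon p j ?_
    rw [Finset.mem_singleton] at hj
    simp [hj]
  have hl : ∀ c, ¬ NoLab {m} c → lm0 c = 0 := by
    intro c hc
    refine hvan c fun hcon => hc fun p j hj => hcon p j ?_
    rw [Finset.mem_singleton] at hj
    simp [hj]
  have hfg : ∀ c, NoLab {m, m'} c → lm c = lx c := by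
    intro c hc
    have h1 : NoLab {m'} c := by
      intro p j hj
      rw [Finset.mem_singleton] at hj
      exact hc p j (by simp [hj])
    rw [hlx, lamx_eq tauP nuP hτ0 _ hY m' lm0 hl' c h1]
    exact ((TA_Dk {m, m'} lm c).1 hc).symm
  -- pointwise bound
  have hpt : ∀ n ∈ Finset.Ico N (2 * N),
      wN a b D v0 J ζ η N n * (ip (a m) (b m) n * ip (a m') (b m') n) ≤
      (if n ≡ v0 [MOD Wd D] then lgp ((a m : ℤ) * n + b m).toNat * dsum a b lx n ^ 2 else 0) /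
        Real.log ((N : ℝ) / 2) := by
    intro n hn
    have hNn : N ≤ n := (Finset.mem_Ico.1 hn).1
    unfold wN
    by_cases hv : n ≡ v0 [MOD Wd D]
    · rw [if_pos hv, if_pos hv]
      have hrhs : 0 ≤ lgp ((a m : ℤ) * n + b m).toNat * dsum a b lx n ^ 2 /
          Real.log ((N : ℝ) / 2) :=
        div_nonneg (mul_nonneg (lgp_nonneg _) (sq_nonneg _)) hlog.le
      by_cases hpm : PrimeAt (a m) (b m) n
      · by_cases hpm' : PrimeAt (a m') (b m') n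
        · have hds : dsum a b lm n = dsum a b lx n := by
            refine dsum_congr_prime a b {m, m'} lm lx hfg n ?_
            intro j hj
            rw [Finset.mem_insert, Finset.mem_singleton] at hj
            rcases hj with rfl | rfl
            · exact ⟨hpm, hN n hNn⟩
            · exact ⟨hpm', hNm' n hNn⟩
          have h1 := ip_le (a m) (b m) n ((N : ℝ) / 2) (by linarith) (hN' n hNn)
          have h2 := ip_le_one (a m') (b m') n
          have h3 := ip_nonneg (a m) (b m) n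
          have h4 : ip (a m) (b m) n * ip (a m') (b m') n ≤
              lgp ((a m : ℤ) * n + b m).toNat / Real.log ((N : ℝ) / 2) := by
            calc ip (a m) (b m) n * ip (a m') (b m') n ≤ ip (a m) (b m) n * 1 :=
                  mul_le_mul_of_nonneg_left h2 h3
              _ ≤ _ := by rw [mul_one]; exact h1
          rw [← hlm, hds]
          calc dsum a b lx n ^ 2 * (ip (a m) (b m) n * ip (a m') (b m') n) ≤
                dsum a b lx n ^ 2 *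
                  (lgp ((a m : ℤ) * n + b m).toNat / Real.log ((N : ℝ) / 2)) :=
                mul_le_mul_of_nonneg_left h4 (sq_nonneg _)
            _ = _ := by ring
        · have h1 : ip (a m') (b m') n = 0 := by
            unfold ip
            rw [if_neg hpm']
          rw [h1, mul_zero, mul_zero]
          exact hrhs
      · have h1 : ip (a m) (b m) n = 0 := by
          unfold ip
          rw [if_neg hpm]
        rw [h1, zero_mul, mul_zero]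
        exact hrhs
    · rw [if_neg hv, if_neg hv, zero_mul, zero_div]
  refine (Finset.sum_le_sum hpt).trans ?_
  rw [← Finset.sum_div]
  apply div_le_div_of_nonneg_right _ hlog.le
  -- the sum with one prime
  have hNm : 1 ≤ (a m : ℤ) * N + b m := by
    have h1 := hN N le_rfl
    have h2 : (0 : ℤ) ≤ (Nat.sqrt N : ℤ) := Int.natCast_nonneg _
    omega
  have hadd : (N : ℝ) ^ (η + y) = (N : ℝ) ^ η * (N : ℝ) ^ y := Real.rpow_add hN0 η y
  have hZR : ((N : ℝ) ^ ζ) ^ (2 ^ J) ≤ (N : ℝ) ^ η := by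
    rw [P06_pow]
    exact Real.rpow_le_rpow_of_exponent_le hN1' hJ.le
  have hRX : (N : ℝ) ^ η ≤ (N : ℝ) ^ (η + y) :=
    Real.rpow_le_rpow_of_exponent_le hN1' (by linarith)
  have hYX : (N : ℝ) ^ y ≤ (N : ℝ) ^ (η + y) :=
    Real.rpow_le_rpow_of_exponent_le hN1' (by linarith)
  have hX1 : (1 : ℝ) ≤ (N : ℝ) ^ (η + y) := hR.trans hRX
  have hG1 : 1 ≤ GS (ι := ↥(Ps D (Nat.sqrt N))) tauP nuP ((N : ℝ) ^ (η + y)) ∅ :=
    GS_ge_one _ _ hτ0 _ hX1 _
  have hbd : ∀ c, |lx c| ≤ 2 * GS (ι := ↥(Ps D (Nat.sqrt N))) tauP nuP ((N : ℝ) ^ (η + y)) ∅ ^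
      (Fintype.card I + 3) := by
    intro c
    have h1 := lamx_bound m m' hm (tauP : ↥(Ps D (Nat.sqrt N)) → ℝ) nuP hτ0 hν
      (hst J ((N : ℝ) ^ ζ)) (hst_nonneg J _) (hst_le_one J _) (hst_antitone J _)
      (((N : ℝ) ^ ζ) ^ (2 ^ J)) ((N : ℝ) ^ y) ((N : ℝ) ^ η) ((N : ℝ) ^ (η + y)) hY hR
      (fun x hx => hst_zero J _ x hz hx) hZR hRX hYX c
    refine h1.trans ?_
    apply mul_le_mul_of_nonneg_right _ (by positivity)
    exact (prod_tauP_le_exp D (Nat.sqrt N) hD (Fintype.card I : ℝ) (Nat.cast_nonneg _)).trans hP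
  have hzs : ∀ c, (N : ℝ) ^ η < sz nuP (supp c) → TA (fun p => Zk (tauP p)) lm0 c = 0 := by
    intro c hc
    exact zs_supp {m, m'} tauP nuP hτ0 hν (hst J ((N : ℝ) ^ ζ)) ((N : ℝ) ^ η) c hc
  have hsupp : ∀ c, (N : ℝ) ^ (η + y) < sz nuP (supp c) → lx c = 0 := by
    intro c hc
    rw [hadd] at hc
    exact lamx_supp tauP nuP hν ((N : ℝ) ^ y) ((N : ℝ) ^ η) (by positivity) m' lm0 hzs c hc
  have hno : ∀ c, ¬ NoLab {m} c → lx c = 0 :=
    fun c hc => lamx_noLab tauP nuP ((N : ℝ) ^ y) m' m hm lm0 hl c hc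
  have hmain := Sm_bound a b hpos hsep v0 hv0 E x hx3 hE hE0 Qx hQx htriv Δ hΔ N m hNm hx lx hno
    (2 * GS (ι := ↥(Ps D (Nat.sqrt N))) tauP nuP ((N : ℝ) ^ (η + y)) ∅ ^ (Fintype.card I + 3))
    ((N : ℝ) ^ (η + y)) (by positivity) hbd hsupp hQ
  have hmain' := (abs_le.1 hmain).2
  have ham : 0 < a m := hpos m
  have ham' : (0 : ℝ) < a m := by exact_mod_cast ham
  have htot := totient_mul_Wd D (a m) ham (fun p hp hDp => hsep.1 p hp hDp m)
  have hcoef : (a m : ℝ) * N / Nat.totient (a m * Wd D) = N / Nat.totient (Wd D) := by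
    rw [htot]
    push_cast
    rw [mul_div_mul_left _ _ ham'.ne']
  rw [hcoef] at hmain'
  have hQF := P06_QF (I := I) D hD hDk J ζ η y hζ hy N hN1 m m' hm
  have h5 : (N : ℝ) / Nat.totient (Wd D) * QF (fun p : ↥(Ps D (Nat.sqrt N)) => Bk (tauP p)) lx ≤
      N / Nat.totient (Wd D) *
        (Real.exp (18 * Fintype.card I / D) * J1f D J ζ N ^ 4 *
          I2f D J ζ N ^ (Fintype.card I - 2) /
          GS (ι := ↥(Ps D (Nat.sqrt N))) tauP nuP ((N : ℝ) ^ y) ∅) :=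
    mul_le_mul_of_nonneg_left hQF (by positivity)
  linarith

end BVM

end
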