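import Pool.Agent.helper31.BVM.P05

/-!
# BVM-P07: lower bound for one prime, asymptotically

PROOF. Let `c = 4 ∑ a i`, `N = x / c`, `k = card I`, `W = Wd D`, `e = exp(2k/D)`. For large `x`: `N ≥ 4`,
`N ≥ x/(2c)` (`div_ge` P04), `a m n + b m > Nat.sqrt N` for all `n ≥ N` and all `m` (finitely many `m`;
`a m n + b m ≥ N - |b m|`), `2 a m N + b m ≤ x/2 + b m ≤ x`, `Qx = ⌊√x/(log x)^B⌋ ≤ x` (`Qx_le`), and
`(a m W) N^(2η) ≤ Qx` (`Qx_large` with `q0 = a m W`, `σ = 2η < 1/2`; `(N^η)^2 = N^(2η)`). Take `E` from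
`DataAt`, refine it by `bv_refine` (X08) to `E'`; `∑_{q ≤ Qx} E' ≤ Δ := C x/(log x)^(Ak k)`. Apply
`Sm_fixed` (P05). The second alternative is impossible for large `N`: by `M1f_le`, `I2f_tendsto` (S07;
`(3 - 2^(-J))/2 ≥ 1`) the bracket is `≥ brc k D J ζ η - δ > 0`. Error: `GS ≤ GW ≤ 3(1 + log x)` for all
arguments `≤ x` (`GS_le_GW`, `GW_log_le`), so the error is at most the left side of `err_small` (P04),
`≤ x/(log x)^2`, and after dividing by `log x` it is `≤ (s/2) N/W ≤ (s/2)(N/W) I2f^k`.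
Main term: divided by `(N/W) I2f^k` it is
`(W/φ(W)) (2-e)^2 (bracket) J1f^2/(I2f log x) → (2-e)^2 (bracket) ζ cJ J`, because
`J1f^2/(I2f log N) → (κζ(1+J/2))^2/(κζ(3-2^(-J))/2) = κ ζ cJ J`, `κ = kap D = φ(W)/W`, and
`log N/log x → 1` (`log_div_tendsto`). The liminf of the bracket is `≥ brc`. So eventually the main term is
`≥ lbc - s/2`.
-/

noncomputable section

namespace BVM

open Finset Filter

variable {I : Type*} [Fintype I] [DecidableEq I]

private def p07br (k D J : ℕ) (ζ η : ℝ) (N : ℕ) : ℝ :=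
  1 - ((k : ℝ) * (k + 2) + (k : ℝ) ^ 2) * (2 / D)
    - (k : ℝ) * M1f D J ζ N / (I2f D J ζ N * ((η - 2 ^ J * ζ) * Real.log N))

private theorem p07br_ev (k D J : ℕ) (ζ η : ℝ) (hk : 1 ≤ k) (hζ : 0 < ζ)
    (hJ : 2 ^ J * ζ < η) (hη2 : η < 1 / 4) (δ : ℝ) (hδ : 0 < δ) :
    ∀ᶠ N : ℕ in atTop, brc k D J ζ η - δ ≤ p07br k D J ζ η N := by
  have hJ2 : 2 ^ J * ζ < 1 / 2 := by linarith
  have hκ := kap_pos D
  obtain ⟨κ, hκe⟩ : ∃ κ, κ = kap D := ⟨_, rfl⟩
  rw [← hκe] at hκ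
  obtain ⟨u, hue⟩ : ∃ u, u = η - 2 ^ J * ζ := ⟨_, rfl⟩
  have hu : 0 < u := by rw [hue]; linarith
  have hk0 : (0 : ℝ) < k := by exact_mod_cast hk
  obtain ⟨c2, hc2e⟩ : ∃ c2 : ℝ, c2 = (3 - (1 / 2 : ℝ) ^ J) / 2 := ⟨_, rfl⟩
  have hc2 : 1 ≤ c2 := by
    have h1 : (1 / 2 : ℝ) ^ J ≤ 1 := pow_le_one₀ (by norm_num) (by norm_num)
    rw [hc2e]
    linarith
  obtain ⟨s1, hs1e⟩ : ∃ s1 : ℝ, s1 = δ * κ * ζ * u / (2 * k) := ⟨_, rfl⟩
  have hs1 : 0 < s1 := by rw [hs1e]; positivity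
  obtain ⟨w, hwe⟩ : ∃ w : ℝ, w = 1 + 3 * (J : ℝ) / 4 := ⟨_, rfl⟩
  have hw : 0 < w := by rw [hwe]; positivity
  have hI := I2f_tendsto D J ζ hζ hJ2
  rw [← hc2e, ← hκe] at hI
  have hIpos : 0 < κ * ζ * c2 := by positivity
  have hlim : Tendsto (fun N : ℕ => (k : ℝ) * (κ * ζ ^ 2 * w + s1) /
      ((I2f D J ζ N / Real.log N) * u)) atTop
      (nhds ((k : ℝ) * (κ * ζ ^ 2 * w + s1) / ((κ * ζ * c2) * u))) :=
    Tendsto.div tendsto_const_nhds (hI.mul_const u) (by positivity)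
  have hlt : (k : ℝ) * (κ * ζ ^ 2 * w + s1) / ((κ * ζ * c2) * u) < k * (ζ * w) / u + δ := by
    have h1 : (k : ℝ) * (κ * ζ ^ 2 * w + s1) / ((κ * ζ * c2) * u) ≤
        (k : ℝ) * (κ * ζ ^ 2 * w + s1) / ((κ * ζ * 1) * u) := by
      apply div_le_div_of_nonneg_left (by positivity) (by positivity)
      have : κ * ζ * 1 ≤ κ * ζ * c2 := mul_le_mul_of_nonneg_left hc2 (by positivity)
      exact mul_le_mul_of_nonneg_right this hu.le
    have h2 : (k : ℝ) * (κ * ζ ^ 2 * w + s1) / ((κ * ζ * 1) * u) = k * (ζ * w) / u + δ / 2 := by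
      rw [hs1e]
      field_simp
    linarith
  have hM := M1f_le D J ζ hζ hJ2 s1 hs1
  rw [← hwe, ← hκe] at hM
  filter_upwards [hlim.eventually_lt_const hlt, hM, hI.eventually_const_lt hIpos,
    eventually_ge_atTop 2] with N h1 h2 h3 h4
  have hL : 0 < Real.log N := Real.log_pos (by exact_mod_cast h4)
  have hI0 : 0 < I2f D J ζ N := by
    by_contra hcon
    push Not at hcon
    have : I2f D J ζ N / Real.log N ≤ 0 := div_nonpos_of_nonpos_of_nonneg hcon hL.le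
    linarith
  have h5 : (k : ℝ) * M1f D J ζ N / (I2f D J ζ N * (u * Real.log N)) ≤
      (k : ℝ) * (κ * ζ ^ 2 * w + s1) / ((I2f D J ζ N / Real.log N) * u) := by
    have h6 : (k : ℝ) * (κ * ζ ^ 2 * w + s1) / ((I2f D J ζ N / Real.log N) * u) =
        (k : ℝ) * ((κ * ζ ^ 2 * w + s1) * Real.log N ^ 2) /
          (I2f D J ζ N * (u * Real.log N)) := by
      field_simp
    rw [h6]
    apply div_le_div_of_nonneg_right _ (by positivity)
    exact mul_le_mul_of_nonneg_left h2 hk0.le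
  unfold p07br brc
  rw [← hue, ← hwe]
  linarith

private theorem p07main (D J : ℕ) (ζ : ℝ) (hζ : 0 < ζ) (hJ2 : 2 ^ J * ζ < 1 / 2) :
    Tendsto (fun N : ℕ => (kap D)⁻¹ * ((J1f D J ζ N / Real.log N) ^ 2 /
      (I2f D J ζ N / Real.log N))) atTop (nhds (ζ * cJ J)) := by
  have hκ := kap_pos D
  have hc2 : 0 < (3 - (1 / 2 : ℝ) ^ J) / 2 := by
    have h1 : (1 / 2 : ℝ) ^ J ≤ 1 := pow_le_one₀ (by norm_num) (by norm_num)
    linarith
  have h := (((J1f_tendsto D J ζ hζ hJ2).pow 2).div (I2f_tendsto D J ζ hζ hJ2)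
    (by positivity)).const_mul (kap D)⁻¹
  have he : (kap D)⁻¹ * ((kap D * ζ * (1 + (J : ℝ) / 2)) ^ 2 /
      (kap D * ζ * ((3 - (1 / 2 : ℝ) ^ J) / 2))) = ζ * cJ J := by
    unfold cJ
    field_simp
  rw [he] at h
  exact h

private theorem p07cJ_nonneg (J : ℕ) : 0 ≤ cJ J := by
  unfold cJ
  have h1 : (1 / 2 : ℝ) ^ J ≤ 1 := pow_le_one₀ (by norm_num) (by norm_num)
  have h2 : 0 < (3 - (1 / 2 : ℝ) ^ J) / 2 := by linarith
  positivity

private theorem p07kap (D : ℕ) : (kap D)⁻¹ = (Wd D : ℝ) / Nat.totient (Wd D) := by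
  unfold kap
  rw [inv_div]

private theorem p07W (D : ℕ) : (0 : ℝ) < Wd D := by
  have h : 0 < Wd D := by
    unfold Wd
    exact Finset.prod_pos fun p hp => (Finset.mem_filter.mp hp).2.pos
  exact_mod_cast h

private theorem p07alg (N L W φ I1 J1 ex br : ℝ) (k' : ℕ) (hL : L ≠ 0) (hW : W ≠ 0) (hφ : φ ≠ 0)
    (hI : I1 ≠ 0) :
    N / φ * (ex * J1 ^ 2 * I1 ^ k' * br) =
      (N / W * (I1 ^ k' * I1)) * (L * (ex * (W / φ * ((J1 / L) ^ 2 / (I1 / L))))) * br := by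
  field_simp

theorem Sm_lower (a : I → ℕ) (b : I → ℤ) (hpos : ∀ i, 0 < a i) (D : ℕ)
    (hsep : Sep D a b) (v0 : ℕ)
    (hv0 : ∀ i, Int.gcd (a i * v0 + b i) (Wd D) = 1) (hD : 1 ≤ D)
    (hDk : Fintype.card I + 2 ≤ D)
    (hP : Real.exp (2 * Fintype.card I / D) ≤ 2) (J : ℕ) (ζ η : ℝ) (hζ : 0 < ζ)
    (hJ : 2 ^ J * ζ < η) (hη2 : η < 1 / 4) (hbr : 0 < brc (Fintype.card I) D J ζ η)
    (B : ℕ) (C s : ℝ) (hs : 0 < s) :
    ∀ᶠ x : ℕ in atTop, DataAt (Ak (Fintype.card I)) B C x → ∀ m : I,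
      ∀ N : ℕ, N = x / (4 * ∑ i, a i) →
      (lbc (Fintype.card I) D J ζ η - s) * (N / Wd D) * I2f D J ζ N ^ Fintype.card I ≤
        ∑ n ∈ Finset.Ico N (2 * N), wN a b D v0 J ζ η N n * ip (a m) (b m) n := by
  rcases isEmpty_or_nonempty I with hI | hI
  · exact Eventually.of_forall fun x _ m => (hI.false m).elim
  have hk : 1 ≤ Fintype.card I := Fintype.card_pos
  obtain ⟨k, hke⟩ : ∃ k, k = Fintype.card I := ⟨_, rfl⟩
  rw [← hke] at hk hDk hP hbr
  have hJ2 : 2 ^ J * ζ < 1 / 2 := by linarith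
  have hη : 0 < η := lt_trans (by positivity) hJ
  obtain ⟨c, hce⟩ : ∃ c : ℕ, c = 4 * ∑ i, a i := ⟨_, rfl⟩
  have hca : ∀ m, 4 * a m ≤ c := by
    intro m
    rw [hce]
    exact Nat.mul_le_mul_left 4 (Finset.single_le_sum (f := a) (fun i _ => Nat.zero_le _)
      (Finset.mem_univ m))
  have hc0 : 0 < c := by
    obtain ⟨m⟩ := hI
    have h1 := hca m
    have h2 := hpos m
    omega
  have hW := p07W D
  -- the constants
  obtain ⟨P, hPe⟩ : ∃ P : ℝ, P = (2 - Real.exp (2 * k / D)) ^ 2 * (ζ * cJ J) := ⟨_, rfl⟩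
  have hP0 : 0 ≤ P := by
    rw [hPe]
    exact mul_nonneg (sq_nonneg _) (mul_nonneg hζ.le (p07cJ_nonneg J))
  obtain ⟨δ, hδ, hδbr, hδP⟩ : ∃ δ : ℝ, 0 < δ ∧ δ < brc k D J ζ η ∧ P * δ ≤ s / 4 := by
    refine ⟨min (brc k D J ζ η / 2) (s / (4 * (P + 1))), ?_, ?_, ?_⟩
    · exact lt_min (by linarith) (by positivity)
    · exact lt_of_le_of_lt (min_le_left _ _) (by linarith)
    · calc P * min (brc k D J ζ η / 2) (s / (4 * (P + 1)))
          ≤ P * (s / (4 * (P + 1))) := mul_le_mul_of_nonneg_left (min_le_right _ _) hP0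
        _ = (s / 4) * (P / (P + 1)) := by field_simp
        _ ≤ (s / 4) * 1 := by
            apply mul_le_mul_of_nonneg_left _ (by positivity)
            rw [div_le_one (by positivity)]
            linarith
        _ = s / 4 := mul_one _
  -- the map `x ↦ x / c`
  have hdiv : Tendsto (fun x : ℕ => x / c) atTop atTop := Nat.tendsto_div_const_atTop hc0.ne'
  -- limits
  have hQ : Tendsto (fun x : ℕ => (Real.log ((x / c : ℕ) : ℝ) / Real.log x) *
      ((2 - Real.exp (2 * k / D)) ^ 2 * ((kap D)⁻¹ * ((J1f D J ζ (x / c) /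
        Real.log ((x / c : ℕ) : ℝ)) ^ 2 / (I2f D J ζ (x / c) / Real.log ((x / c : ℕ) : ℝ)))))
        * (brc k D J ζ η - δ)) atTop (nhds (P * (brc k D J ζ η - δ))) := by
    have h1 := (log_div_tendsto c hc0).mul
      (((p07main D J ζ hζ hJ2).comp hdiv).const_mul ((2 - Real.exp (2 * k / D)) ^ 2))
    have h2 := h1.mul_const (brc k D J ζ η - δ)
    rw [one_mul, ← hPe] at h2
    exact h2
  have hQlt : lbc k D J ζ η - s / 2 < P * (brc k D J ζ η - δ) := by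
    have h1 : lbc k D J ζ η = P * brc k D J ζ η := by
      unfold lbc
      rw [hPe]
      ring
    rw [h1, mul_sub]
    linarith
  -- the error term
  have herr : Tendsto (fun x : ℕ => 2 * (c : ℝ) * Wd D / Real.log x) atTop (nhds 0) := by
    exact (Real.tendsto_log_atTop.comp tendsto_natCast_atTop_atTop).const_div_atTop _
  have hs2 : (0 : ℝ) < s / 2 := by linarith
  -- elementary largeness
  have hbig : ∀ᶠ x : ℕ in atTop, ∀ m : I, 2 * (b m).natAbs + 5 ≤ x / c := by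
    rw [eventually_all]
    exact fun m => hdiv.eventually_ge_atTop _
  have hbig2 : ∀ᶠ x : ℕ in atTop, ∀ m : I, 2 * (b m).natAbs ≤ x := by
    rw [eventually_all]
    exact fun m => eventually_ge_atTop _
  have hQx : ∀ᶠ x : ℕ in atTop, ∀ m : I, ∀ N : ℕ, N ≤ x →
      ((a m * Wd D : ℕ) : ℝ) * (N : ℝ) ^ (2 * η) ≤ (⌊Real.sqrt x / Real.log x ^ B⌋₊ : ℝ) := by
    rw [eventually_all]
    exact fun m => Qx_large B (a m * Wd D) (2 * η) (by linarith) (by linarith)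
  filter_upwards [hbig, hbig2, hQx, Qx_le B, eventually_ge_atTop 3, div_ge c hc0,
    err_small k C, hQ.eventually_const_lt hQlt, herr.eventually_lt_const hs2,
    hdiv.eventually (p07br_ev k D J ζ η hk hζ hJ hη2 δ hδ)] with
    x h1 h2 h3 h4 h5 h6 h7 h8 h9 h10
  rintro ⟨E, hE, hEsum⟩ m N hN
  rw [← hke] at hEsum ⊢
  rw [← hce] at hN
  obtain ⟨E', hE'0, hE'triv, hE'le, hE'⟩ := bv_refine x h5 E hE
  rw [← hN] at h6 h8 h10
  have hN5 : 2 * (b m).natAbs + 5 ≤ N := by rw [hN]; exact h1 m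
  have hNx : N ≤ x := by rw [hN]; exact Nat.div_le_self _ _
  have hcN : c * N ≤ x := by rw [hN]; exact Nat.mul_div_le x c
  have hN2 : 2 ≤ N := by omega
  have hsq : 2 * Nat.sqrt N ≤ N := by
    have h11 : Nat.sqrt N * Nat.sqrt N ≤ N := Nat.sqrt_le N
    have h12 : 2 ≤ Nat.sqrt N := by
      rw [Nat.le_sqrt]
      omega
    calc 2 * Nat.sqrt N ≤ Nat.sqrt N * Nat.sqrt N := Nat.mul_le_mul_right _ h12
      _ ≤ N := h11
  have hbm : -((b m).natAbs : ℤ) ≤ b m := by omega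
  have hbm' : b m ≤ ((b m).natAbs : ℤ) := by omega
  have hNn : ∀ n : ℕ, N ≤ n → (Nat.sqrt N : ℤ) < a m * n + b m := by
    intro n hn
    have h11 : (n : ℤ) ≤ a m * n := by
      have : n ≤ a m * n := Nat.le_mul_of_pos_left n (hpos m)
      exact_mod_cast this
    omega
  have hx2 : 2 * (a m : ℤ) * N + b m ≤ x := by
    have h11 : 4 * a m * N ≤ x := le_trans (Nat.mul_le_mul_right N (hca m)) hcN
    have h12 : (4 * a m * N : ℤ) ≤ x := by exact_mod_cast h11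
    have h13 := h2 m
    have h14 : (2 * (a m : ℤ) * N) * 2 = 4 * a m * N := by ring
    omega
  have hQq : (a m * Wd D : ℕ) * ((N : ℝ) ^ η) ^ 2 ≤
      (⌊Real.sqrt x / Real.log x ^ B⌋₊ : ℝ) := by
    have h11 := h3 m N hNx
    have h12 : ((N : ℝ) ^ η) ^ 2 = (N : ℝ) ^ (2 * η) := by
      rw [← Real.rpow_natCast, ← Real.rpow_mul (Nat.cast_nonneg N)]
      congr 1
      push_cast
      ring
    rw [h12]
    exact h11
  have hΔ : ∑ q ∈ Finset.Icc 1 ⌊Real.sqrt x / Real.log x ^ B⌋₊, E' q ≤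
      C * x / Real.log x ^ Ak k :=
    (Finset.sum_le_sum fun q hq => hE'le q (Finset.mem_Icc.mp hq).1).trans hEsum
  have hfix := Sm_fixed a b hpos D hsep v0 hv0 hD (hke ▸ hDk) (hke ▸ hP) J ζ η hζ hJ E' x h5
    hE' hE'0 _ h4 hE'triv _ hΔ N hN2 m hNn hx2 hQq
  rw [← hke] at hfix
  have hL : 0 < Real.log N := Real.log_pos (by exact_mod_cast hN2)
  have hLx : 0 < Real.log x := Real.log_pos (by
    have : 2 ≤ x := by omega
    exact_mod_cast this)
  have hI1 : 1 ≤ I2f D J ζ N := one_le_I2f D J ζ hζ N (by omega)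
  have hI0 : 0 < I2f D J ζ N := by linarith
  have hN0 : (0 : ℝ) < N := by
    have : 0 < N := by omega
    exact_mod_cast this
  have hx0 : (0 : ℝ) < x := by
    have : 0 < x := by omega
    exact_mod_cast this
  have hφ : (0 : ℝ) < Nat.totient (Wd D) := by
    have h11 : 0 < Wd D := by exact_mod_cast hW
    exact_mod_cast Nat.totient_pos.mpr h11
  rcases hfix with hfix | hfix
  swap
  · exfalso
    have h11 : p07br k D J ζ η N < 0 := hfix
    linarith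
  refine le_trans ?_ hfix
  have hbrN : brc k D J ζ η - δ ≤ p07br k D J ζ η N := h10
  change _ ≤ (N / Nat.totient (Wd D) * ((2 - Real.exp (2 * k / D)) ^ 2 * J1f D J ζ N ^ 2 *
    I2f D J ζ N ^ (k - 1) * p07br k D J ζ η N) - _) / Real.log x
  -- the error
  obtain ⟨G1, hG1⟩ : ∃ G1, G1 = GS (ι := ↥(Ps D (Nat.sqrt N))) tauP nuP ((N : ℝ) ^ η) ∅ :=
    ⟨_, rfl⟩
  obtain ⟨G2, hG2⟩ : ∃ G2, G2 =
      GS (ι := ↥(Ps D (Nat.sqrt N))) tauP nuP (((N : ℝ) ^ η) ^ 2) ∅ := ⟨_, rfl⟩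
  rw [← hG1, ← hG2]
  have hN1r : (1 : ℝ) ≤ N := by
    have : 1 ≤ N := by omega
    exact_mod_cast this
  have hNη : (1 : ℝ) ≤ (N : ℝ) ^ η := Real.one_le_rpow hN1r hη.le
  have hGb : ∀ y : ℝ, 1 ≤ y → y ≤ N →
      GS (ι := ↥(Ps D (Nat.sqrt N))) tauP nuP y ∅ ≤ 3 * (1 + Real.log x) := by
    intro y hy hyN
    have h11 := GS_le_GW D (Nat.sqrt N) y (by linarith)
    have h12 := GW_log_le D hD y hy
    have h13 : Real.log y ≤ Real.log x := by
      apply Real.log_le_log (by linarith)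
      have : (N : ℝ) ≤ x := by exact_mod_cast hNx
      linarith
    linarith
  have hGn : ∀ y : ℝ, 0 ≤ GS (ι := ↥(Ps D (Nat.sqrt N))) tauP nuP y ∅ := by
    intro y
    unfold GS
    exact Finset.sum_nonneg fun A _ => Finset.prod_nonneg fun p _ => tauP_nonneg p
  have hNle : (N : ℝ) ^ η ≤ N := by
    calc (N : ℝ) ^ η ≤ (N : ℝ) ^ (1 : ℝ) := Real.rpow_le_rpow_of_exponent_le hN1r (by linarith)
      _ = N := Real.rpow_one _
  have hNle2 : ((N : ℝ) ^ η) ^ 2 ≤ N := by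
    have h12 : ((N : ℝ) ^ η) ^ 2 = (N : ℝ) ^ (2 * η) := by
      rw [← Real.rpow_natCast, ← Real.rpow_mul (Nat.cast_nonneg N)]
      congr 1
      push_cast
      ring
    rw [h12]
    calc (N : ℝ) ^ (2 * η) ≤ (N : ℝ) ^ (1 : ℝ) :=
          Real.rpow_le_rpow_of_exponent_le hN1r (by linarith)
      _ = N := Real.rpow_one _
  have hG1b : G1 ≤ 3 * (1 + Real.log x) := by rw [hG1]; exact hGb _ hNη hNle
  have hG2b : G2 ≤ 3 * (1 + Real.log x) := by
    rw [hG2]; exact hGb _ (one_le_pow₀ hNη) hNle2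
  have hG1n : 0 ≤ G1 := by rw [hG1]; exact hGn _
  have hG2n : 0 ≤ G2 := by rw [hG2]; exact hGn _
  have hT1 : (1 : ℝ) ≤ 3 * (1 + Real.log x) := by linarith
  obtain ⟨T, hTe⟩ : ∃ T, T = 3 * (1 + Real.log x) := ⟨_, rfl⟩
  rw [← hTe] at hG1b hG2b hT1 h7
  have hErr : 2 * (G1 ^ (k + 1)) ^ 2 * (Real.sqrt (5 * x * Real.log x * G2 ^ ((3 * k) ^ 2)) *
      Real.sqrt (C * x / Real.log x ^ Ak k)) ≤ x / Real.log x ^ 2 := by
    refine le_trans ?_ h7
    have h11 : G1 ^ (k + 1) ≤ 2 * T ^ (k + 3) := by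
      calc G1 ^ (k + 1) ≤ T ^ (k + 1) := pow_le_pow_left₀ hG1n hG1b _
        _ ≤ T ^ (k + 3) := pow_le_pow_right₀ hT1 (by omega)
        _ ≤ 2 * T ^ (k + 3) := by
            have : 0 ≤ T ^ (k + 3) := by positivity
            linarith
    have h12 : (G1 ^ (k + 1)) ^ 2 ≤ (2 * T ^ (k + 3)) ^ 2 :=
      pow_le_pow_left₀ (by positivity) h11 2
    have h13 : Real.sqrt (5 * x * Real.log x * G2 ^ ((3 * k) ^ 2)) ≤
        Real.sqrt (5 * x * Real.log x * T ^ ((3 * k) ^ 2)) := by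
      apply Real.sqrt_le_sqrt
      apply mul_le_mul_of_nonneg_left _ (by positivity)
      exact pow_le_pow_left₀ hG2n hG2b _
    apply mul_le_mul
    · linarith
    · exact mul_le_mul_of_nonneg_right h13 (Real.sqrt_nonneg _)
    · positivity
    · positivity
  -- the main term
  obtain ⟨ex, hexe⟩ : ∃ ex, ex = (2 - Real.exp (2 * k / D)) ^ 2 := ⟨_, rfl⟩
  have hex0 : 0 ≤ ex := by rw [hexe]; exact sq_nonneg _
  rw [← hexe] at h8 ⊢
  obtain ⟨M, hMe⟩ : ∃ M, M = (N : ℝ) / Wd D * I2f D J ζ N ^ k := ⟨_, rfl⟩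
  have hM0 : 0 < M := by rw [hMe]; positivity
  have hMN : (N : ℝ) / Wd D ≤ M := by
    rw [hMe]
    exact le_mul_of_one_le_right (by positivity) (one_le_pow₀ hI1)
  have hmain : (N : ℝ) / Nat.totient (Wd D) * (ex * J1f D J ζ N ^ 2 *
      I2f D J ζ N ^ (k - 1) * p07br k D J ζ η N) =
      M * (Real.log N * (ex * ((kap D)⁻¹ * ((J1f D J ζ N / Real.log N) ^ 2 /
        (I2f D J ζ N / Real.log N))))) * p07br k D J ζ η N := by
    rw [p07kap, hMe]
    obtain ⟨k', hk'⟩ : ∃ k', k = k' + 1 := ⟨k - 1, by omega⟩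
    rw [hk', Nat.add_sub_cancel, pow_succ]
    exact p07alg _ _ _ _ _ _ _ _ _ hL.ne' hW.ne' hφ.ne' hI0.ne'
  rw [hmain]
  obtain ⟨A, hAe⟩ : ∃ A, A = ex * ((kap D)⁻¹ * ((J1f D J ζ N / Real.log N) ^ 2 /
        (I2f D J ζ N / Real.log N))) := ⟨_, rfl⟩
  rw [← hAe] at h8 ⊢
  have hA0 : 0 ≤ A := by
    rw [hAe]
    have := kap_pos D
    positivity
  have hstep1 : M * (Real.log N * A) * (brc k D J ζ η - δ) ≤
      M * (Real.log N * A) * p07br k D J ζ η N :=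
    mul_le_mul_of_nonneg_left hbrN (by positivity)
  have hstep2 : (lbc k D J ζ η - s / 2) * (M * Real.log x) ≤
      M * (Real.log N * A) * (brc k D J ζ η - δ) := by
    have h11 : M * (Real.log N * A) * (brc k D J ζ η - δ) =
        (Real.log N / Real.log x * A * (brc k D J ζ η - δ)) * (M * Real.log x) := by
      field_simp
    rw [h11]
    exact mul_le_mul_of_nonneg_right h8.le (by positivity)
  have hstep3 : (x : ℝ) / Real.log x ^ 2 ≤ (s / 2) * (M * Real.log x) := by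
    have h11 : (x : ℝ) / (2 * c) ≤ N := h6
    have hc0r : (0 : ℝ) < c := by exact_mod_cast hc0
    have h12 : (x : ℝ) ≤ N * (2 * c) := by
      rwa [div_le_iff₀ (by positivity)] at h11
    have h13 : 2 * (c : ℝ) * Wd D ≤ s / 2 * Real.log x := by
      rw [div_lt_iff₀ hLx] at h9
      exact h9.le
    have hx1 : (1 : ℝ) ≤ Real.log x := X08_log_three x h5
    calc (x : ℝ) / Real.log x ^ 2 ≤ x := by
          apply div_le_self hx0.le
          exact one_le_pow₀ hx1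
      _ ≤ N * (2 * c) := h12
      _ = (N / Wd D) * (2 * c * Wd D) := by field_simp
      _ ≤ (N / Wd D) * (s / 2 * Real.log x) := mul_le_mul_of_nonneg_left h13 (by positivity)
      _ ≤ M * (s / 2 * Real.log x) := mul_le_mul_of_nonneg_right hMN (by positivity)
      _ = (s / 2) * (M * Real.log x) := by ring
  rw [le_div_iff₀ hLx]
  have hgoal : (lbc k D J ζ η - s) * (N / Wd D) * I2f D J ζ N ^ k * Real.log x =
      (lbc k D J ζ η - s) * (M * Real.log x) := by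
    rw [hMe]
    ring
  rw [hgoal]
  have hsplit : (lbc k D J ζ η - s) * (M * Real.log x) =
      (lbc k D J ζ η - s / 2) * (M * Real.log x) - (s / 2) * (M * Real.log x) := by ring
  rw [hsplit]
  linarith

end BVM

end
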