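import Pool.Agent.helper31.BVM.P06

/-!
# BVM-P08: upper bound for two primes, asymptotically

PROOF. As for P07: `c = 4 ∑ a i`, `N = x / c`, `k = card I`, `W = Wd D`. For large `x` all the hypotheses of
`pair_fixed` (P06) hold (`Qx_large` with `σ = 2(η+y) < 1/2`, `(N^(η+y))^2 = N^(2(η+y))`; the form `a m n + b m`
is `≥ N - |b m| ≥ N/2` for `n ≥ N`), with `E'` from `bv_refine` and `Δ = C x/(log x)^(Ak k)`. Error: at
most the left side of `err_small` (P04) `≤ x/(log x)^2`; divided by `log(N/2)` it is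
`≤ (s/2)(N/W) ≤ (s/2)(N/W) I2f^k`.
Main term divided by `(N/W) I2f^k`: `(W/φ(W)) exp(18k/D) J1f^4/(I2f^2 GS(N^y) log(N/2))`
(`k ≥ 2` as `m ≠ m'`). By S07: `J1f/log N → κζ(1+J/2)`, `I2f/log N → κζ(3-2^(-J))/2`, `GS(N^y)/log N → κ y`,
`log(N/2)/log N → 1`, so it tends to `(1/κ) exp(18k/D) κ^4ζ^4(1+J/2)^4/(κ^2ζ^2((3-2^(-J))/2)^2 κ y) =
exp(18k/D) (ζ cJ J)^2/y = ubc k D J ζ y`.
-/

noncomputable section

namespace BVM

open Finset Filter

variable {I : Type*} [Fintype I] [DecidableEq I]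

private theorem p08_log_half : Tendsto (fun N : ℕ => Real.log ((N : ℝ) / 2) / Real.log N)
    atTop (nhds 1) := by
  have h1 : Tendsto (fun N : ℕ => Real.log (N : ℝ)) atTop atTop :=
    Real.tendsto_log_atTop.comp tendsto_natCast_atTop_atTop
  have h2 : Tendsto (fun N : ℕ => 1 - Real.log 2 / Real.log (N : ℝ)) atTop (nhds (1 - 0)) :=
    tendsto_const_nhds.sub (h1.const_div_atTop _)
  rw [sub_zero] at h2
  refine h2.congr' ?_
  filter_upwards [eventually_ge_atTop 2] with N hN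
  have hN0 : (0 : ℝ) < N := by
    have : 0 < N := by omega
    exact_mod_cast this
  have hlog : 0 < Real.log N := Real.log_pos (by
    have : 1 < N := by omega
    exact_mod_cast this)
  rw [Real.log_div hN0.ne' (by norm_num)]
  field_simp

private theorem p08_GS_nonneg (D Y : ℕ) (y : ℝ) :
    0 ≤ GS (ι := ↥(Ps D Y)) tauP nuP y ∅ := by
  unfold GS
  exact Finset.sum_nonneg fun A _ => Finset.prod_nonneg fun p _ => tauP_nonneg p

private theorem p08_GS_le (D Y : ℕ) (hD : 1 ≤ D) (y X : ℝ) (hy : 1 ≤ y) (hX : y ≤ X) :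
    GS (ι := ↥(Ps D Y)) tauP nuP y ∅ ≤ 3 * (1 + Real.log X) := by
  refine (GS_le_GW D Y y (by linarith)).trans ((GW_log_le D hD y hy).trans ?_)
  have := Real.log_le_log (by linarith) hX
  linarith

private theorem p08_main (D k J : ℕ) (ζ y s : ℝ) (hζ : 0 < ζ) (hJ : 2 ^ J * ζ < 1 / 2)
    (hy : 0 < y) (hy2 : y < 1 / 2) (hs : 0 < s) (hk : 2 ≤ k) :
    ∀ᶠ N : ℕ in atTop,
      (N : ℝ) / Nat.totient (Wd D) * (Real.exp (18 * k / D) * J1f D J ζ N ^ 4 *
        I2f D J ζ N ^ (k - 2) / GS (ι := ↥(Ps D (Nat.sqrt N))) tauP nuP ((N : ℝ) ^ y) ∅) /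
        Real.log ((N : ℝ) / 2) ≤ (ubc k D J ζ y + s) * (N / Wd D) * I2f D J ζ N ^ k := by
  have hκ := kap_pos D
  have hJ1 := J1f_tendsto D J ζ hζ hJ
  have hI2 := I2f_tendsto D J ζ hζ hJ
  have hGS := GS_tendsto D y hy hy2
  have hL := p08_log_half
  have hpos : (0 : ℝ) < (3 - (1 / 2 : ℝ) ^ J) / 2 := by
    have : (1 / 2 : ℝ) ^ J ≤ 1 := pow_le_one₀ (by norm_num) (by norm_num)
    linarith
  have hlim : Tendsto (fun N : ℕ => (1 / kap D) * Real.exp (18 * k / D) *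
      (J1f D J ζ N / Real.log N) ^ 4 / ((I2f D J ζ N / Real.log N) ^ 2 *
        (GS (ι := ↥(Ps D (Nat.sqrt N))) tauP nuP ((N : ℝ) ^ y) ∅ / Real.log N) *
        (Real.log ((N : ℝ) / 2) / Real.log N))) atTop (nhds (ubc k D J ζ y)) := by
    have h1 := ((hJ1.pow 4).const_mul ((1 / kap D) * Real.exp (18 * k / D))).div
      (((hI2.pow 2).mul hGS).mul hL) (by positivity)
    refine Eq.mp ?_ h1
    congr 2
    unfold ubc cJ
    field_simp
  have h2 : ubc k D J ζ y < ubc k D J ζ y + s := by linarith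
  filter_upwards [hlim.eventually_le_const h2, eventually_ge_atTop 3,
    (hGS.eventually_const_lt (show (0 : ℝ) < kap D * y by positivity))] with N hN hN3 hG
  have hN0 : (0 : ℝ) < N := by
    have : 0 < N := by omega
    exact_mod_cast this
  have hlog : 0 < Real.log N := Real.log_pos (by
    have : 1 < N := by omega
    exact_mod_cast this)
  have hN3' : (3 : ℝ) ≤ N := by exact_mod_cast hN3
  have hlog2 : 0 < Real.log ((N : ℝ) / 2) := Real.log_pos (by linarith)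
  have hI1 := one_le_I2f D J ζ hζ N (by omega)
  have hI0 : 0 < I2f D J ζ N := by linarith
  set G := GS (ι := ↥(Ps D (Nat.sqrt N))) tauP nuP ((N : ℝ) ^ y) ∅ with hGdef
  have hG0 : 0 < G := by
    have := (div_pos_iff.mp hG)
    rcases this with h | h
    · exact h.1
    · linarith [h.2]
  have hW : (0 : ℝ) < Wd D := by
    have h := hκ
    unfold kap at h
    rcases div_pos_iff.mp h with h | h
    · exact h.2
    · have := h.2
      have h3 : (0 : ℝ) ≤ Wd D := Nat.cast_nonneg _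
      linarith
  have hφ : (0 : ℝ) < Nat.totient (Wd D) := by
    have h := hκ
    unfold kap at h
    rcases div_pos_iff.mp h with h | h
    · exact h.1
    · have := h.2
      linarith
  obtain ⟨j, rfl⟩ : ∃ j, k = j + 2 := ⟨k - 2, by omega⟩
  have e1 : (N : ℝ) / Nat.totient (Wd D) * (Real.exp (18 * ((j + 2 : ℕ) : ℝ) / D) *
      J1f D J ζ N ^ 4 * I2f D J ζ N ^ (j + 2 - 2) / G) / Real.log ((N : ℝ) / 2) =
      ((1 / kap D) * Real.exp (18 * ((j + 2 : ℕ) : ℝ) / D) *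
      (J1f D J ζ N / Real.log N) ^ 4 / ((I2f D J ζ N / Real.log N) ^ 2 *
        (G / Real.log N) * (Real.log ((N : ℝ) / 2) / Real.log N))) *
        (N / Wd D) * I2f D J ζ N ^ (j + 2) := by
    unfold kap
    rw [show j + 2 - 2 = j from rfl]
    field_simp
    ring
  rw [e1]
  refine mul_le_mul_of_nonneg_right (mul_le_mul_of_nonneg_right hN (by positivity)) ?_
  positivity

private theorem p08_mono (k : ℕ) (g1 g2 G U V : ℝ) (h1 : 0 ≤ g1) (h1' : g1 ≤ G)
    (h2 : 0 ≤ g2) (h2' : g2 ≤ G) (hU : 0 ≤ U) (hV : 0 ≤ V) :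
    2 * (2 * g1 ^ (k + 3)) ^ 2 * (Real.sqrt (U * g2 ^ ((3 * k) ^ 2)) * V) ≤
      2 * (2 * G ^ (k + 3)) ^ 2 * (Real.sqrt (U * G ^ ((3 * k) ^ 2)) * V) := by
  generalize (3 * k) ^ 2 = e
  gcongr

private theorem p08_err (D : ℕ) (hD : 1 ≤ D) (k J c : ℕ) (hc : 0 < c) (ζ u C s : ℝ) (hζ : 0 < ζ)
    (hu : 0 < u) (hu2 : 2 * u < 1 / 2) (hs : 0 < s) :
    ∀ᶠ x : ℕ in atTop, ∀ N : ℕ, N = x / c →
      2 * (2 * GS (ι := ↥(Ps D (Nat.sqrt N))) tauP nuP ((N : ℝ) ^ u) ∅ ^ (k + 3)) ^ 2 *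
        (Real.sqrt (5 * x * Real.log x *
          GS (ι := ↥(Ps D (Nat.sqrt N))) tauP nuP (((N : ℝ) ^ u) ^ 2) ∅ ^ ((3 * k) ^ 2)) *
          Real.sqrt (C * x / Real.log x ^ Ak k)) / Real.log ((N : ℝ) / 2) ≤
      s * (N / Wd D) * I2f D J ζ N ^ k := by
  have hW : (0 : ℝ) < Wd D := by
    have h := kap_pos D
    unfold kap at h
    rcases div_pos_iff.mp h with h | h
    · exact h.2
    · have := h.2
      have h3 : (0 : ℝ) ≤ Wd D := Nat.cast_nonneg _
      linarith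
  have hN : Tendsto (fun x : ℕ => x / c) atTop atTop := Nat.tendsto_div_const_atTop hc.ne'
  have hlogx : Tendsto (fun x : ℕ => Real.log (x : ℝ)) atTop atTop :=
    Real.tendsto_log_atTop.comp tendsto_natCast_atTop_atTop
  filter_upwards [err_small k C, div_ge c hc, hN.eventually_ge_atTop 6,
    hlogx.eventually_ge_atTop (max 1 (2 * c * Wd D / s))] with x hx1 hx2 hx3 hx4 N hNx
  subst hNx
  set N := x / c with hNdef
  have hNle : N ≤ x := Nat.div_le_self _ _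
  have hN6 : (6 : ℝ) ≤ N := by exact_mod_cast hx3
  have hNx' : (N : ℝ) ≤ x := by exact_mod_cast hNle
  have hx0 : (0 : ℝ) < x := by linarith
  have hlx1 : 1 ≤ Real.log x := (le_max_left _ _).trans hx4
  have hlx2 : 2 * c * Wd D / s ≤ Real.log x := (le_max_right _ _).trans hx4
  have hpow : ∀ v : ℝ, 0 ≤ v → v ≤ 1 → 1 ≤ (N : ℝ) ^ v ∧ (N : ℝ) ^ v ≤ x := by
    intro v hv hv1
    refine ⟨Real.one_le_rpow (by linarith) hv, ?_⟩
    calc (N : ℝ) ^ v ≤ (N : ℝ) ^ (1 : ℝ) := Real.rpow_le_rpow_of_exponent_le (by linarith) hv1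
      _ = N := Real.rpow_one _
      _ ≤ x := hNx'
  have h1 := hpow u hu.le (by linarith)
  have h2 : 1 ≤ ((N : ℝ) ^ u) ^ 2 ∧ ((N : ℝ) ^ u) ^ 2 ≤ x := by
    have e : ((N : ℝ) ^ u) ^ 2 = (N : ℝ) ^ (2 * u) := by
      rw [← Real.rpow_natCast, ← Real.rpow_mul (Nat.cast_nonneg N)]
      congr 1
      push_cast
      ring
    rw [e]
    exact hpow (2 * u) (by linarith) (by linarith)
  have hG1 := p08_GS_le D (Nat.sqrt N) hD _ _ h1.1 h1.2
  have hG2 := p08_GS_le D (Nat.sqrt N) hD _ _ h2.1 h2.2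
  have hG1' := p08_GS_nonneg D (Nat.sqrt N) ((N : ℝ) ^ u)
  have hG2' := p08_GS_nonneg D (Nat.sqrt N) (((N : ℝ) ^ u) ^ 2)
  have hlog2 : 1 ≤ Real.log ((N : ℝ) / 2) := by
    rw [Real.le_log_iff_exp_le (by linarith)]
    have := Real.exp_one_lt_d9
    linarith
  have hI1 := one_le_I2f D J ζ hζ N (by omega)
  have hmono : 2 * (2 * GS (ι := ↥(Ps D (Nat.sqrt N))) tauP nuP ((N : ℝ) ^ u) ∅ ^ (k + 3)) ^ 2 *
        (Real.sqrt (5 * x * Real.log x *
          GS (ι := ↥(Ps D (Nat.sqrt N))) tauP nuP (((N : ℝ) ^ u) ^ 2) ∅ ^ ((3 * k) ^ 2)) *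
          Real.sqrt (C * x / Real.log x ^ Ak k)) ≤
      2 * (2 * (3 * (1 + Real.log x)) ^ (k + 3)) ^ 2 *
        (Real.sqrt (5 * x * Real.log x * (3 * (1 + Real.log x)) ^ ((3 * k) ^ 2)) *
          Real.sqrt (C * x / Real.log x ^ Ak k)) := by
    have hlx0 : 0 ≤ Real.log x := by linarith
    exact p08_mono k _ _ _ _ _ hG1' hG1 hG2' hG2 (by positivity) (Real.sqrt_nonneg _)
  have h5 := hmono.trans hx1
  refine (div_le_div_of_nonneg_right h5 (by linarith)).trans ?_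
  have h6 : (x : ℝ) / Real.log x ^ 2 / Real.log ((N : ℝ) / 2) ≤ x / Real.log x ^ 2 :=
    div_le_self (by positivity) hlog2
  refine h6.trans ?_
  have h7 : (x : ℝ) / Real.log x ^ 2 ≤ s * (N / Wd D) := by
    have hc' : (0 : ℝ) < c := by exact_mod_cast hc
    have h8 : 2 * c * Wd D / s ≤ Real.log x ^ 2 := by nlinarith
    have h9 : (x : ℝ) / Real.log x ^ 2 ≤ x / (2 * c * Wd D / s) := by
      apply div_le_div_of_nonneg_left hx0.le (by positivity) h8
    refine h9.trans ?_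
    have h10 : (x : ℝ) / (2 * c * Wd D / s) = s * ((x / (2 * c)) / Wd D) := by
      field_simp
    rw [h10]
    gcongr
  refine h7.trans ?_
  exact le_mul_of_one_le_right (by positivity) (one_le_pow₀ hI1)

theorem pair_upper (a : I → ℕ) (b : I → ℤ) (hpos : ∀ i, 0 < a i) (D : ℕ)
    (hsep : Sep D a b) (v0 : ℕ)
    (hv0 : ∀ i, Int.gcd (a i * v0 + b i) (Wd D) = 1) (hD : 1 ≤ D)
    (hDk : Fintype.card I + 2 ≤ D)
    (hP : Real.exp (2 * Fintype.card I / D) ≤ 2) (J : ℕ) (ζ η y : ℝ) (hζ : 0 < ζ)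
    (hJ : 2 ^ J * ζ < η) (hy : 0 < y) (hηy : 2 * (η + y) < 1 / 2)
    (B : ℕ) (C s : ℝ) (hs : 0 < s) :
    ∀ᶠ x : ℕ in atTop, DataAt (Ak (Fintype.card I)) B C x → ∀ m m' : I, m ≠ m' →
      ∀ N : ℕ, N = x / (4 * ∑ i, a i) →
      ∑ n ∈ Finset.Ico N (2 * N),
          wN a b D v0 J ζ η N n * (ip (a m) (b m) n * ip (a m') (b m') n) ≤
        (ubc (Fintype.card I) D J ζ y + s) * (N / Wd D) *
          I2f D J ζ N ^ Fintype.card I := by
  have hη : 0 < η := lt_trans (by positivity) hJ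
  by_cases hcard : Fintype.card I < 2
  · refine Eventually.of_forall ?_
    intro x _ m m' hmm
    exact absurd (Fintype.card_le_one_iff.mp (by omega) m m') hmm
  push Not at hcard
  have hne : Nonempty I := Fintype.card_pos_iff.mp (by omega)
  set c := 4 * ∑ i, a i with hc
  have hle : ∀ m, a m ≤ ∑ i, a i := fun m =>
    Finset.single_le_sum (f := a) (fun i _ => Nat.zero_le _) (Finset.mem_univ m)
  have hcpos : 0 < c := by
    obtain ⟨m⟩ := hne
    have h1 := hle m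
    have h2 := hpos m
    omega
  have hN : Tendsto (fun x : ℕ => x / c) atTop atTop := Nat.tendsto_div_const_atTop hcpos.ne'
  have hbig : ∀ᶠ x : ℕ in atTop, ∀ m : I, 2 * (b m).natAbs + 4 ≤ x / c := by
    rw [eventually_all]
    intro m
    exact hN.eventually_ge_atTop _
  have hQ : ∀ᶠ x : ℕ in atTop, ∀ m : I, ∀ N : ℕ, N ≤ x →
      ((a m * Wd D : ℕ) : ℝ) * (N : ℝ) ^ (2 * (η + y)) ≤
        (⌊Real.sqrt x / Real.log x ^ B⌋₊ : ℝ) := by
    rw [eventually_all]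
    intro m
    exact Qx_large B (a m * Wd D) (2 * (η + y)) (by linarith) hηy
  have hmain := hN.eventually (p08_main D (Fintype.card I) J ζ y (s / 2) hζ (by linarith) hy
    (by linarith) (by linarith) hcard)
  have herr := p08_err D hD (Fintype.card I) J c hcpos ζ (η + y) C (s / 2) hζ (by linarith) hηy
    (by linarith)
  filter_upwards [hbig, hQ, hmain, herr, Qx_le B, eventually_ge_atTop 3] with
    x hx1 hx2 hx3 hx4 hx5 hx6 hdata m m' hmm N hNx
  obtain ⟨E, hE, hEs⟩ := hdata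
  obtain ⟨E', hE0, htriv, hEE, hE'⟩ := bv_refine x hx6 E hE
  subst hNx
  set N := x / c with hNdef
  have hNle : N ≤ x := Nat.div_le_self _ _
  have hform : ∀ m : I, ∀ n : ℕ, N ≤ n → (n : ℤ) - (b m).natAbs ≤ a m * n + b m := by
    intro m n _
    have h1 : (1 : ℤ) ≤ a m := by exact_mod_cast hpos m
    have h2 : (n : ℤ) ≤ a m * n := by nlinarith [Int.natCast_nonneg n]
    have h3 : -((b m).natAbs : ℤ) ≤ b m := by omega
    linarith
  have hN4 : 4 ≤ N := by have := hx1 m; omega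
  have hsq : 2 * Nat.sqrt N ≤ N := by
    have h1 : 2 ≤ Nat.sqrt N := by
      rw [Nat.le_sqrt]
      omega
    have h2 : Nat.sqrt N * Nat.sqrt N ≤ N := Nat.sqrt_le N
    nlinarith
  have hNs : ∀ m : I, ∀ n : ℕ, N ≤ n → (Nat.sqrt N : ℤ) < a m * n + b m := by
    intro m n hn
    have h1 := hform m n hn
    have h2 := hx1 m
    omega
  have hNh : ∀ n : ℕ, N ≤ n → (N : ℝ) / 2 ≤ ((a m : ℤ) * n + b m : ℤ) := by
    intro n hn
    have h1 := hform m n hn
    have h2 := hx1 m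
    have h3 : (N : ℤ) ≤ 2 * ((a m : ℤ) * n + b m) := by
      omega
    have h4 : ((N : ℤ) : ℝ) ≤ ((2 * ((a m : ℤ) * n + b m) : ℤ) : ℝ) := by exact_mod_cast h3
    rw [Int.cast_mul] at h4
    push_cast at h4 ⊢
    linarith
  have hxx : 2 * (a m : ℤ) * N + b m ≤ x := by
    have h1 : c * N ≤ x := Nat.mul_div_le x c
    have h2 : 4 * a m ≤ c := by
      have := hle m
      omega
    have h3 : 4 * a m * N ≤ x := (Nat.mul_le_mul_right N h2).trans h1
    have h4 := hx1 m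
    have h5 : 1 ≤ a m := hpos m
    have h6 : N ≤ a m * N := Nat.le_mul_of_pos_left N h5
    have h7 : (4 : ℤ) * a m * N ≤ x := by exact_mod_cast h3
    have h8 : (N : ℤ) ≤ a m * N := by exact_mod_cast h6
    have h9 : b m ≤ ((b m).natAbs : ℤ) := by omega
    have h10 : (2 * ((b m).natAbs : ℤ)) + 4 ≤ N := by exact_mod_cast h4
    have h11 : (4 : ℤ) * a m * N = 4 * (a m * N) := by ring
    have h12 : (2 : ℤ) * a m * N = 2 * (a m * N) := by ring
    rw [h11] at h7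
    rw [h12]
    omega
  have hQQ : (a m * Wd D : ℕ) * ((N : ℝ) ^ (η + y)) ^ 2 ≤
      (⌊Real.sqrt x / Real.log x ^ B⌋₊ : ℝ) := by
    have e : ((N : ℝ) ^ (η + y)) ^ 2 = (N : ℝ) ^ (2 * (η + y)) := by
      rw [← Real.rpow_natCast, ← Real.rpow_mul (Nat.cast_nonneg N)]
      congr 1
      push_cast
      ring
    rw [e]
    exact hx2 m N hNle
  have hΔ : ∑ q ∈ Finset.Icc 1 ⌊Real.sqrt x / Real.log x ^ B⌋₊, E' q ≤
      C * x / Real.log x ^ Ak (Fintype.card I) :=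
    (Finset.sum_le_sum fun q hq => hEE q (Finset.mem_Icc.mp hq).1).trans hEs
  have key := pair_fixed a b hpos D hsep v0 hv0 hD (by omega) hP J ζ η y hζ hy hJ E' x hx6
    hE' hE0 _ hx5 htriv _ hΔ N hN4 m m' hmm (hNs m) (hNs m') hNh hxx hQQ
  refine key.trans ?_
  rw [add_div]
  have h4 := hx4 N rfl
  have e2 : (ubc (Fintype.card I) D J ζ y + s) * (N / Wd D) * I2f D J ζ N ^ Fintype.card I =
      (ubc (Fintype.card I) D J ζ y + s / 2) * (N / Wd D) * I2f D J ζ N ^ Fintype.card I +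
      s / 2 * (N / Wd D) * I2f D J ζ N ^ Fintype.card I := by ring
  rw [e2]
  exact add_le_add hx3 h4

end BVM

end
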