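import Pool.Agent.helper31.BVM.P01
import Pool.Agent.helper31.BVM.P07
import Pool.Agent.helper31.BVM.P08
import Pool.Agent.helper31.BVM.P09

/-!
# BVM-P10: the weights theorem

PROOF. Take `η, J, K` from `params ε H` (P09). Let `card I = k ≥ K`, `ζ = η²/(k(4+3J))`, `y = 1/4 - 2η`,
`α = (1-2η) ζ cJ J > 0`; `H ≤ k α`. `exists_sep` (X06) gives `D₁`; `params2` gives `D ≥ D₁` and `s`; then
`Sep D a b` and `v0`. `I` is nonempty (`k ≥ 1`), `c = 4 ∑ a i > 0`. Let `e = exp(2k/D) + s ≥ 1`.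
`BVInput.data` with `A = Ak k` gives `B, C`. Given `N₀`, take `x` large with `DataAt (Ak k) B C x`, such that
`N = x / c ≥ max(N₀, 1)` and the three eventual statements `S0_upper` (at `N`, `Tendsto (x / c)`),
`Sm_lower`, `pair_upper` hold (`2^J ζ ≤ η/2 < η`, `η < 1/4`, `2(η + y) = 1/2 - 2η < 1/2`). Put
`w n = wN n / (e * (N/W) * I2f^k)` (the denominator is `> 0`: `one_le_I2f`). Then `w ≥ 0`, `∑ w ≤ 1`,
`∑ w ip ≥ (lbc - s)/e ≥ α`, and the pair sums are `≤ (ubc + s)/e ≤ ubc + s ≤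
(1+η)/y (ζ cJ)² ≤ (4+ε)(1-2η)²(ζ cJ)² = (4+ε) α²` (`ubc + s ≥ 0`, `e ≥ 1`).
-/

noncomputable section

namespace BVM

open Finset Filter

/-- The weights theorem (Maynard-Tao weights with second moment). -/
theorem weights_of_BV (hBV : BVInput) (ε H : ℝ) (hε : 0 < ε) :
    ∃ K : ℕ, ∀ (I : Type) [Fintype I] [DecidableEq I] (a : I → ℕ) (b : I → ℤ), Adm a b →
      K ≤ Fintype.card I → ∃ α : ℝ, 0 < α ∧ H ≤ Fintype.card I * α ∧
        HasWeights a b α (4 + ε) := by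
  obtain ⟨η, J, K, hη0, hη1, hpar, hK⟩ := params ε H hε
  refine ⟨K, fun I _ _ a b hA hcard => ?_⟩
  obtain ⟨hk1, hJζ, hH⟩ := hK (Fintype.card I) hcard
  set k : ℕ := Fintype.card I with hk
  set ζ : ℝ := η ^ 2 / (k * (4 + 3 * (J : ℝ))) with hζ
  have hkpos : (0 : ℝ) < k := by exact_mod_cast hk1
  have hζ0 : 0 < ζ := by
    rw [hζ]; positivity
  have hcJ := cJ_pos J
  obtain ⟨D₁, hD₁⟩ := exists_sep a b hA
  obtain ⟨D, s, hDD, hkD, hs, hexp, hbr, hl, hu⟩ :=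
    params2 k J hk1 η ζ hη0 hη1 rfl hJζ D₁
  obtain ⟨hsep, v0, hv0⟩ := hD₁ D hDD
  have hα : 0 < (1 - 2 * η) * (ζ * cJ J) := by
    have : 0 < 1 - 2 * η := by linarith
    positivity
  refine ⟨(1 - 2 * η) * (ζ * cJ J), hα, hH, ?_⟩
  intro N₀
  have hne : Nonempty I := Fintype.card_pos_iff.1 (by omega)
  have hsum : 0 < ∑ i, a i := Finset.sum_pos (fun i _ => hA.pos i) Finset.univ_nonempty
  have hc : 0 < 4 * ∑ i, a i := by omega
  obtain ⟨B, C, hdata⟩ := hBV.data (Ak k)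
  have hD1 : 1 ≤ D := by omega
  have e1 := S0_upper a b D hsep v0 hv0 hD1 (by omega) J ζ η hζ0 hη0 (by linarith) s hs
  have hJlt : 2 ^ J * ζ < η := by linarith
  have e2 := Sm_lower a b hA.pos D hsep v0 hv0 hD1 hkD hexp J ζ η hζ0 hJlt (by linarith)
    hbr B C s hs
  have e3 := pair_upper a b hA.pos D hsep v0 hv0 hD1 hkD hexp J ζ η (1 / 4 - 2 * η) hζ0 hJlt
    (by linarith) (by linarith) B C s hs
  have tN : Tendsto (fun x : ℕ => x / (4 * ∑ i, a i)) atTop atTop := by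
    refine tendsto_atTop.2 fun m => ?_
    filter_upwards [eventually_ge_atTop (m * (4 * ∑ i, a i))] with x hx
    exact (Nat.le_div_iff_mul_le hc).2 hx
  have e1' := tN.eventually e1
  have e4 := tN.eventually_ge_atTop (max N₀ 1)
  obtain ⟨x0, hx0⟩ := (e1'.and (e2.and (e3.and e4))).exists_forall_of_atTop
  obtain ⟨x, hx, hDat⟩ := hdata x0
  obtain ⟨h1, h2, h3, h4⟩ := hx0 x hx
  set N : ℕ := x / (4 * ∑ i, a i) with hN
  have hNpos : 1 ≤ N := le_trans (le_max_right _ _) h4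
  have hNR : (0 : ℝ) < N := by exact_mod_cast hNpos
  have hI2 := one_le_I2f D J ζ hζ0 N hNpos
  have hI2pos : 0 < I2f D J ζ N ^ k := by positivity
  have hW : (0 : ℝ) < Wd D := by
    have := kap_pos D
    unfold kap at this
    by_contra hcon
    have h0 : (Wd D : ℝ) = 0 := le_antisymm (not_lt.1 hcon) (Nat.cast_nonneg _)
    rw [h0, div_zero] at this
    exact lt_irrefl _ this
  have he1 : 1 ≤ Real.exp (2 * k / D) := by
    apply Real.one_le_exp
    positivity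
  set e : ℝ := Real.exp (2 * k / D) + s with he
  have hepos : 1 ≤ e := by linarith
  have hX0 : 0 < (N : ℝ) / Wd D * I2f D J ζ N ^ k := by positivity
  have hden : 0 < e * ((N : ℝ) / Wd D * I2f D J ζ N ^ k) := by
    have : 0 < e := by linarith
    positivity
  refine ⟨N, le_trans (le_max_left _ _) h4,
    fun n => wN a b D v0 J ζ η N n / (e * ((N : ℝ) / Wd D * I2f D J ζ N ^ k)), ?_, ?_, ?_, ?_⟩
  · intro n
    refine div_nonneg ?_ hden.le
    unfold wN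
    split_ifs
    · positivity
    · exact le_rfl
  · rw [← Finset.sum_div, div_le_one hden]
    calc _ ≤ (Real.exp (2 * k / D) + s) * (N / Wd D) * I2f D J ζ N ^ k := h1
      _ = _ := by rw [he]; ring
  · intro i
    have h2i := h2 hDat i N rfl
    have : ∑ n ∈ Finset.Ico N (2 * N),
        wN a b D v0 J ζ η N n / (e * ((N : ℝ) / Wd D * I2f D J ζ N ^ k)) * ip (a i) (b i) n =
        (∑ n ∈ Finset.Ico N (2 * N), wN a b D v0 J ζ η N n * ip (a i) (b i) n) /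
          (e * ((N : ℝ) / Wd D * I2f D J ζ N ^ k)) := by
      rw [Finset.sum_div]
      exact Finset.sum_congr rfl fun n _ => by ring
    rw [this, le_div_iff₀ hden]
    calc (1 - 2 * η) * (ζ * cJ J) * (e * ((N : ℝ) / Wd D * I2f D J ζ N ^ k))
        = ((1 - 2 * η) * (ζ * cJ J) * e) * ((N : ℝ) / Wd D * I2f D J ζ N ^ k) := by ring
      _ ≤ (lbc k D J ζ η - s) * ((N : ℝ) / Wd D * I2f D J ζ N ^ k) :=
          mul_le_mul_of_nonneg_right hl hX0.le
      _ = (lbc k D J ζ η - s) * (N / Wd D) * I2f D J ζ N ^ k := by ring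
      _ ≤ _ := h2i
  · intro i j hij
    have h3i := h3 hDat i j hij N rfl
    have : ∑ n ∈ Finset.Ico N (2 * N),
        wN a b D v0 J ζ η N n / (e * ((N : ℝ) / Wd D * I2f D J ζ N ^ k)) *
          (ip (a i) (b i) n * ip (a j) (b j) n) =
        (∑ n ∈ Finset.Ico N (2 * N),
          wN a b D v0 J ζ η N n * (ip (a i) (b i) n * ip (a j) (b j) n)) /
          (e * ((N : ℝ) / Wd D * I2f D J ζ N ^ k)) := by
      rw [Finset.sum_div]
      exact Finset.sum_congr rfl fun n _ => by ring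
    rw [this, div_le_iff₀ hden]
    have hζc : 0 ≤ (ζ * cJ J) ^ 2 := by positivity
    have hfin : ubc k D J ζ (1 / 4 - 2 * η) + s ≤
        (4 + ε) * ((1 - 2 * η) * (ζ * cJ J)) ^ 2 * e := by
      have hA1 : (1 + η) / (1 / 4 - 2 * η) * (ζ * cJ J) ^ 2 ≤
          (4 + ε) * (1 - 2 * η) ^ 2 * (ζ * cJ J) ^ 2 := mul_le_mul_of_nonneg_right hpar hζc
      have hA2 : 0 ≤ (4 + ε) * (1 - 2 * η) ^ 2 * (ζ * cJ J) ^ 2 := by positivity
      calc ubc k D J ζ (1 / 4 - 2 * η) + s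
          ≤ (1 + η) / (1 / 4 - 2 * η) * (ζ * cJ J) ^ 2 := hu
        _ ≤ (4 + ε) * (1 - 2 * η) ^ 2 * (ζ * cJ J) ^ 2 := hA1
        _ ≤ (4 + ε) * (1 - 2 * η) ^ 2 * (ζ * cJ J) ^ 2 * e := le_mul_of_one_le_right hA2 hepos
        _ = _ := by ring
    calc ∑ n ∈ Finset.Ico N (2 * N),
          wN a b D v0 J ζ η N n * (ip (a i) (b i) n * ip (a j) (b j) n)
        ≤ (ubc k D J ζ (1 / 4 - 2 * η) + s) * (N / Wd D) * I2f D J ζ N ^ k := h3i
      _ = (ubc k D J ζ (1 / 4 - 2 * η) + s) * ((N : ℝ) / Wd D * I2f D J ζ N ^ k) := by ring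
      _ ≤ (4 + ε) * ((1 - 2 * η) * (ζ * cJ J)) ^ 2 * e *
            ((N : ℝ) / Wd D * I2f D J ζ N ^ k) := mul_le_mul_of_nonneg_right hfin hX0.le
      _ = _ := by ring

end BVM

end
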