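import Pool.Agent.helper31.BVM.S06

/-!
# BVM-S05: the step function

`hst J z x` is `2^(-j)` for `z^(2^(j-1)) < x ≤ z^(2^j)`, `1` for `x ≤ z`, `0` for `x > z^(2^J)`.

PROOFS. All `bet J j`, `bet2 J j` are `≥ 0`. Telescoping: for `j0 ≤ J`,
`∑_{j=j0}^{J} bet J j = 2^(-j0)` and `∑_{j=j0}^{J} bet2 J j = 4^(-j0)` (induction on `J - j0`, or
`∑_{j<J} (1/2)^(j+1) = 1 - (1/2)^J` shifted). For `z ≥ 1` the thresholds `z^(2^j)` are nondecreasing, so
`{j : x ≤ z^(2^j)}` is `{j0, ..., J}` or empty, hence `hst_sq`. `S1_hst`, `S1_hst_sq`: exchange the sums;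
`GS τ ν y ∅ = ∑_A [sz A ≤ y] ∏ τ` (`Disjoint A ∅` is true). `S1_hst_log`: `hst^2 log x =
∑_j bet2 [x ≤ z^(2^j)] log x` and `log x ≤ 2^j log z` when `1 ≤ x ≤ z^(2^j)`.
-/

noncomputable section

namespace BVM

open Finset Filter

def bet (J j : ℕ) : ℝ := if j = J then (1 / 2) ^ J else (1 / 2) ^ (j + 1)

def bet2 (J j : ℕ) : ℝ := if j = J then (1 / 4) ^ J else 3 * (1 / 4) ^ (j + 1)

def hst (J : ℕ) (z x : ℝ) : ℝ :=
  ∑ j ∈ Finset.range (J + 1), bet J j * (if x ≤ z ^ (2 ^ j) then 1 else 0)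

private theorem S05_sum (f : ℕ → ℝ) (J : ℕ) :
    ∑ j ∈ Finset.range (J + 2), bet (J + 1) j * f j =
      ∑ j ∈ Finset.range (J + 1), bet J j * f j + (1 / 2) ^ (J + 1) * (f (J + 1) - f J) := by
  rw [Finset.sum_range_succ, Finset.sum_range_succ, Finset.sum_range_succ]
  have h1 : ∑ j ∈ Finset.range J, bet (J + 1) j * f j = ∑ j ∈ Finset.range J, bet J j * f j := by
    apply Finset.sum_congr rfl
    intro j hj
    have hj' := Finset.mem_range.1 hj
    unfold bet
    rw [if_neg (by omega), if_neg (by omega)]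
  have h2 : bet (J + 1) J = (1 / 2) ^ (J + 1) := by
    unfold bet
    rw [if_neg (by omega)]
  have h3 : bet (J + 1) (J + 1) = (1 / 2) ^ (J + 1) := by
    unfold bet
    rw [if_pos rfl]
  have h4 : bet J J = (1 / 2) ^ J := by
    unfold bet
    rw [if_pos rfl]
  rw [h1, h2, h3, h4, pow_succ]
  ring

private theorem S05_sum2 (f : ℕ → ℝ) (J : ℕ) :
    ∑ j ∈ Finset.range (J + 2), bet2 (J + 1) j * f j =
      ∑ j ∈ Finset.range (J + 1), bet2 J j * f j + (1 / 4) ^ (J + 1) * (f (J + 1) - f J) := by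
  rw [Finset.sum_range_succ, Finset.sum_range_succ, Finset.sum_range_succ]
  have h1 : ∑ j ∈ Finset.range J, bet2 (J + 1) j * f j =
      ∑ j ∈ Finset.range J, bet2 J j * f j := by
    apply Finset.sum_congr rfl
    intro j hj
    have hj' := Finset.mem_range.1 hj
    unfold bet2
    rw [if_neg (by omega), if_neg (by omega)]
  have h2 : bet2 (J + 1) J = 3 * (1 / 4) ^ (J + 1) := by
    unfold bet2
    rw [if_neg (by omega)]
  have h3 : bet2 (J + 1) (J + 1) = (1 / 4) ^ (J + 1) := by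
    unfold bet2
    rw [if_pos rfl]
  have h4 : bet2 J J = (1 / 4) ^ J := by
    unfold bet2
    rw [if_pos rfl]
  rw [h1, h2, h3, h4, pow_succ]
  ring

theorem bet_nonneg (J j : ℕ) : 0 ≤ bet J j := by
  unfold bet
  split_ifs <;> positivity

theorem bet2_nonneg (J j : ℕ) : 0 ≤ bet2 J j := by
  unfold bet2
  split_ifs <;> positivity

theorem hst_nonneg (J : ℕ) (z x : ℝ) : 0 ≤ hst J z x := by
  unfold hst
  refine Finset.sum_nonneg fun j _ => mul_nonneg (bet_nonneg J j) ?_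
  split_ifs
  · exact zero_le_one
  · exact le_rfl

theorem hst_le_one (J : ℕ) (z x : ℝ) : hst J z x ≤ 1 := by
  have h1 : ∀ J : ℕ, ∑ j ∈ Finset.range (J + 1), bet J j * (fun _ : ℕ => (1 : ℝ)) j = 1 := by
    intro J
    induction J with
    | zero => simp [bet]
    | succ J ih =>
      rw [S05_sum, ih]
      ring
  rw [← h1 J]
  unfold hst
  refine Finset.sum_le_sum fun j _ => mul_le_mul_of_nonneg_left ?_ (bet_nonneg J j)
  split_ifs
  · exact le_rfl
  · exact zero_le_one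

theorem hst_antitone (J : ℕ) (z : ℝ) : Antitone (hst J z) := by
  intro x y hxy
  unfold hst
  refine Finset.sum_le_sum fun j _ => mul_le_mul_of_nonneg_left ?_ (bet_nonneg J j)
  split_ifs with h1 h2
  · exact le_rfl
  · exact absurd (hxy.trans h1) h2
  · exact zero_le_one
  · exact le_rfl

theorem hst_one (J : ℕ) (z : ℝ) (hz : 1 ≤ z) : hst J z 1 = 1 := by
  have h1 : ∀ J : ℕ, ∑ j ∈ Finset.range (J + 1), bet J j * (fun _ : ℕ => (1 : ℝ)) j = 1 := by
    intro J
    induction J with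
    | zero => simp [bet]
    | succ J ih =>
      rw [S05_sum, ih]
      ring
  refine Eq.trans ?_ (h1 J)
  unfold hst
  refine Finset.sum_congr rfl fun j _ => ?_
  rw [if_pos (one_le_pow₀ hz)]

theorem hst_zero (J : ℕ) (z x : ℝ) (hz : 1 ≤ z) (hx : z ^ (2 ^ J) < x) : hst J z x = 0 := by
  unfold hst
  refine Finset.sum_eq_zero fun j hj => ?_
  have hj' := Finset.mem_range.1 hj
  have h1 : z ^ (2 ^ j) ≤ z ^ (2 ^ J) :=
    pow_le_pow_right₀ hz (Nat.pow_le_pow_right (by norm_num) (by omega))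
  rw [if_neg (by linarith), mul_zero]

theorem hst_sq (J : ℕ) (z x : ℝ) (hz : 1 ≤ z) : hst J z x ^ 2 =
    ∑ j ∈ Finset.range (J + 1), bet2 J j * (if x ≤ z ^ (2 ^ j) then 1 else 0) := by
  have hmono : ∀ i j : ℕ, i ≤ j → x ≤ z ^ (2 ^ i) → x ≤ z ^ (2 ^ j) := by
    intro i j hij h
    exact h.trans (pow_le_pow_right₀ hz (Nat.pow_le_pow_right (by norm_num) hij))
  unfold hst
  induction J with
  | zero => by_cases h : x ≤ z ^ (2 ^ 0) <;> simp [bet, bet2]
  | succ J ih =>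
    rw [S05_sum (fun j => if x ≤ z ^ (2 ^ j) then (1 : ℝ) else 0),
      S05_sum2 (fun j => if x ≤ z ^ (2 ^ j) then (1 : ℝ) else 0)]
    by_cases h : x ≤ z ^ (2 ^ J)
    · have h' := hmono J (J + 1) (by omega) h
      simp only [h, h', if_true, sub_self, mul_zero, add_zero]
      exact ih
    · have h0 : ∀ j ∈ Finset.range (J + 1), (if x ≤ z ^ (2 ^ j) then (1 : ℝ) else 0) = 0 := by
        intro j hj
        have hj' := Finset.mem_range.1 hj
        exact if_neg fun h1 => h (hmono j J (by omega) h1)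
      have h1 : ∑ j ∈ Finset.range (J + 1), bet J j * (if x ≤ z ^ (2 ^ j) then (1 : ℝ) else 0) = 0 :=
        Finset.sum_eq_zero fun j hj => by rw [h0 j hj, mul_zero]
      have h2 : ∑ j ∈ Finset.range (J + 1), bet2 J j * (if x ≤ z ^ (2 ^ j) then (1 : ℝ) else 0) = 0 :=
        Finset.sum_eq_zero fun j hj => by rw [h0 j hj, mul_zero]
      have h3 : ((1 / 2 : ℝ) ^ (J + 1)) ^ 2 = (1 / 4) ^ (J + 1) := by
        rw [← pow_mul, mul_comm, pow_mul]
        norm_num
      rw [h1, h2]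
      simp only [h, if_false, sub_zero, zero_add]
      by_cases h' : x ≤ z ^ (2 ^ (J + 1))
      · simp only [h', if_true, mul_one]
        exact h3
      · simp only [h', if_false, mul_zero]
        norm_num

theorem sum_bet (J : ℕ) : ∑ j ∈ Finset.range (J + 1), bet J j * 2 ^ j = 1 + (J : ℝ) / 2 := by
  induction J with
  | zero => simp [bet]
  | succ J ih =>
    rw [S05_sum (fun j => (2 : ℝ) ^ j), ih]
    have h1 : (1 / 2 : ℝ) ^ (J + 1) * 2 ^ (J + 1) = 1 := by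
      rw [← mul_pow]
      norm_num
    have h2 : (2 : ℝ) ^ J = 2 ^ (J + 1) / 2 := by
      rw [pow_succ]
      ring
    rw [h2]
    push_cast
    linear_combination (1 / 2 : ℝ) * h1

theorem sum_bet2 (J : ℕ) :
    ∑ j ∈ Finset.range (J + 1), bet2 J j * 2 ^ j = (3 - (1 / 2 : ℝ) ^ J) / 2 := by
  induction J with
  | zero =>
    simp [bet2]
    norm_num
  | succ J ih =>
    rw [S05_sum2 (fun j => (2 : ℝ) ^ j), ih]
    have h1 : (1 / 4 : ℝ) ^ (J + 1) * 2 ^ (J + 1) = (1 / 2) ^ (J + 1) := by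
      rw [← mul_pow]
      norm_num
    have h2 : (2 : ℝ) ^ J = 2 ^ (J + 1) / 2 := by
      rw [pow_succ]
      ring
    have h3 : (1 / 2 : ℝ) ^ J = 2 * (1 / 2) ^ (J + 1) := by
      rw [pow_succ]
      ring
    rw [h2, h3]
    linear_combination (1 / 2 : ℝ) * h1

theorem sum_bet2' (J : ℕ) :
    ∑ j ∈ Finset.range (J + 1), bet2 J j * 4 ^ j = 1 + 3 * (J : ℝ) / 4 := by
  induction J with
  | zero => simp [bet2]
  | succ J ih =>
    rw [S05_sum2 (fun j => (4 : ℝ) ^ j), ih]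
    have h1 : (1 / 4 : ℝ) ^ (J + 1) * 4 ^ (J + 1) = 1 := by
      rw [← mul_pow]
      norm_num
    have h2 : (4 : ℝ) ^ J = 4 ^ (J + 1) / 4 := by
      rw [pow_succ]
      ring
    rw [h2]
    push_cast
    linear_combination (3 / 4 : ℝ) * h1

variable {ι : Type*} [Fintype ι] [DecidableEq ι]

theorem S1_hst (τ ν : ι → ℝ) (J : ℕ) (z : ℝ) :
    S1 τ (fun A => hst J z (sz ν A)) =
      ∑ j ∈ Finset.range (J + 1), bet J j * GS τ ν (z ^ (2 ^ j)) ∅ := by
  unfold S1 hst GS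
  simp only [Finset.mul_sum]
  rw [Finset.sum_comm]
  refine Finset.sum_congr rfl fun j _ => ?_
  rw [Finset.sum_filter]
  refine Finset.sum_congr rfl fun A _ => ?_
  by_cases h : sz ν A ≤ z ^ (2 ^ j)
  · simp [h, mul_comm]
  · simp [h]

theorem S1_hst_sq (τ ν : ι → ℝ) (J : ℕ) (z : ℝ) (hz : 1 ≤ z) :
    S1 τ (fun A => hst J z (sz ν A) ^ 2) =
      ∑ j ∈ Finset.range (J + 1), bet2 J j * GS τ ν (z ^ (2 ^ j)) ∅ := by
  unfold S1 GS
  simp only [hst_sq J z _ hz, Finset.mul_sum]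
  rw [Finset.sum_comm]
  refine Finset.sum_congr rfl fun j _ => ?_
  rw [Finset.sum_filter]
  refine Finset.sum_congr rfl fun A _ => ?_
  by_cases h : sz ν A ≤ z ^ (2 ^ j)
  · simp [h, mul_comm]
  · simp [h]

theorem S1_hst_log (τ ν : ι → ℝ) (hτ : ∀ p, 0 ≤ τ p) (hν : ∀ p, 1 ≤ ν p) (J : ℕ) (z : ℝ)
    (hz : 1 ≤ z) :
    S1 τ (fun A => hst J z (sz ν A) ^ 2 * Real.log (sz ν A)) ≤
      Real.log z * ∑ j ∈ Finset.range (J + 1), bet2 J j * 2 ^ j * GS τ ν (z ^ (2 ^ j)) ∅ := by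
  unfold S1 GS
  simp only [hst_sq J z _ hz, Finset.mul_sum, Finset.sum_mul]
  rw [Finset.sum_comm]
  refine Finset.sum_le_sum fun j _ => ?_
  rw [Finset.sum_filter]
  refine Finset.sum_le_sum fun A _ => ?_
  have hb := bet2_nonneg J j
  have hp : 0 ≤ ∏ p ∈ A, τ p := Finset.prod_nonneg fun p _ => hτ p
  have hs : 0 < sz ν A := by
    unfold sz
    exact Finset.prod_pos fun p _ => lt_of_lt_of_le one_pos (hν p)
  by_cases h : sz ν A ≤ z ^ (2 ^ j)
  · have h1 : Real.log (sz ν A) ≤ 2 ^ j * Real.log z := by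
      have h2 := Real.log_le_log hs h
      rw [Real.log_pow] at h2
      push_cast at h2
      exact h2
    simp only [h, Finset.disjoint_empty_right, and_self, if_true, mul_one]
    have h3 := mul_le_mul_of_nonneg_left h1 (mul_nonneg hp hb)
    calc _ = (∏ p ∈ A, τ p) * bet2 J j * Real.log (sz ν A) := by ring
      _ ≤ _ := h3
      _ = _ := by ring
  · simp [h]

end BVM

end
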