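import Pool.Agent.helper31.BVM.S03
import Pool.Agent.helper31.BVM.S04
import Pool.Agent.helper31.BVM.S05

/-!
# BVM-S07: asymptotics of the one-dimensional sums at scale `N`

All index types are `↥(Ps D (Nat.sqrt N))`.

PROOFS. `GS_tendsto`: for large `N`, `N^s ≤ Nat.sqrt N` (`s < 1/2`; `Nat.sqrt N ≥ √N - 1`), so
`GS = GW D (N^s)` by `GS_eq_GW` (S04), and `GW D (N^s) / log N = s * GW D (N^s) / log (N^s) → s kap D` by
`GW_tendsto` (S03) composed with `N^s → ∞`.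
`J1f_tendsto`, `I2f_tendsto`: `S1_hst`, `S1_hst_sq` (S05; `(N^ζ)^(2^j) = N^(2^j ζ)`, and
`2^j ζ ≤ 2^J ζ < 1/2`), a finite sum of limits, `sum_bet`, `sum_bet2`.
`M1f_le`: `S1_hst_log` with `log z = ζ log N`, so `M1f / (log N)^2` is at most
`ζ ∑_j bet2 2^j GS(N^(2^j ζ)) / log N → ζ ∑_j bet2 2^j (2^j ζ) kap D = ζ^2 kap D (1 + 3J/4)` (`sum_bet2'`).
`one_le_I2f`: the term `A = ∅` (`hst J z 1 = 1`).
-/

noncomputable section

namespace BVM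

open Finset Filter

def J1f (D J : ℕ) (ζ : ℝ) (N : ℕ) : ℝ :=
  S1 (ι := ↥(Ps D (Nat.sqrt N))) tauP (fun A => hst J ((N : ℝ) ^ ζ) (sz nuP A))

def I2f (D J : ℕ) (ζ : ℝ) (N : ℕ) : ℝ :=
  S1 (ι := ↥(Ps D (Nat.sqrt N))) tauP (fun A => hst J ((N : ℝ) ^ ζ) (sz nuP A) ^ 2)

def M1f (D J : ℕ) (ζ : ℝ) (N : ℕ) : ℝ :=
  S1 (ι := ↥(Ps D (Nat.sqrt N))) tauP
    (fun A => hst J ((N : ℝ) ^ ζ) (sz nuP A) ^ 2 * Real.log (sz nuP A))

private theorem s07_le_sqrt (s : ℝ) (hs2 : s < 1 / 2) (hs : 0 < s) :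
    ∀ᶠ N : ℕ in atTop, (N : ℝ) ^ s ≤ ((Nat.sqrt N : ℕ) : ℝ) := by
  have h1 : Tendsto (fun N : ℕ => (N : ℝ) ^ (1 / 2 - s)) atTop atTop :=
    (tendsto_rpow_atTop (by linarith)).comp tendsto_natCast_atTop_atTop
  filter_upwards [h1.eventually_ge_atTop 2, eventually_ge_atTop 1] with N hN hN1
  have hN0 : (0 : ℝ) < N := by exact_mod_cast hN1
  have hN1' : (1 : ℝ) ≤ N := by exact_mod_cast hN1
  have h2 : (N : ℝ) ^ (1 / 2 : ℝ) = (N : ℝ) ^ (1 / 2 - s) * (N : ℝ) ^ s := by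
    rw [← Real.rpow_add hN0]
    congr 1
    ring
  have h3 : (1 : ℝ) ≤ (N : ℝ) ^ s := Real.one_le_rpow hN1' hs.le
  have h4 : (N : ℝ) ^ s + 1 ≤ (N : ℝ) ^ (1 / 2 : ℝ) := by
    rw [h2]
    nlinarith
  have h5 : N < (Nat.sqrt N + 1) * (Nat.sqrt N + 1) := Nat.lt_succ_sqrt N
  have h6 : (N : ℝ) < (((Nat.sqrt N : ℕ) : ℝ) + 1) ^ 2 := by
    have : (N : ℝ) < (((Nat.sqrt N + 1) * (Nat.sqrt N + 1) : ℕ) : ℝ) := by exact_mod_cast h5
    push_cast at this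
    nlinarith
  have h7 : (N : ℝ) ^ (1 / 2 : ℝ) ≤ ((Nat.sqrt N : ℕ) : ℝ) + 1 := by
    rw [← Real.sqrt_eq_rpow]
    exact Real.sqrt_le_iff.mpr ⟨by positivity, h6.le⟩
  linarith

theorem GS_tendsto (D : ℕ) (s : ℝ) (hs : 0 < s) (hs2 : s < 1 / 2) :
    Tendsto (fun N : ℕ => GS (ι := ↥(Ps D (Nat.sqrt N))) tauP nuP ((N : ℝ) ^ s) ∅ /
      Real.log N) atTop (nhds (kap D * s)) := by
  have h1 : Tendsto (fun N : ℕ => (N : ℝ) ^ s) atTop atTop :=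
    (tendsto_rpow_atTop hs).comp tendsto_natCast_atTop_atTop
  have h2 := ((GW_tendsto D).comp h1).mul_const s
  refine h2.congr' ?_
  filter_upwards [s07_le_sqrt s hs2 hs, eventually_ge_atTop 2] with N hN hN2
  have hN0 : (0 : ℝ) < N := by
    have : 0 < N := by omega
    exact_mod_cast this
  have hlog : 0 < Real.log N := Real.log_pos (by
    have : 1 < N := by omega
    exact_mod_cast this)
  rw [GS_eq_GW D (Nat.sqrt N) _ hN (by positivity)]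
  simp only [Function.comp]
  rw [Real.log_rpow hN0]
  field_simp

private theorem s07_pow (N : ℕ) (ζ : ℝ) (j : ℕ) :
    ((N : ℝ) ^ ζ) ^ (2 ^ j) = (N : ℝ) ^ (2 ^ j * ζ) := by
  rw [← Real.rpow_natCast, ← Real.rpow_mul (Nat.cast_nonneg N)]
  congr 1
  push_cast
  ring

private theorem s07_lt {J j : ℕ} {ζ : ℝ} (hζ : 0 < ζ) (hJ : 2 ^ J * ζ < 1 / 2) (hj : j ≤ J) :
    0 < 2 ^ j * ζ ∧ 2 ^ j * ζ < 1 / 2 := by
  refine ⟨by positivity, ?_⟩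
  have h1 : (2 : ℝ) ^ j ≤ 2 ^ J := pow_le_pow_right₀ (by norm_num) hj
  nlinarith

private theorem s07_sum (D J : ℕ) (ζ : ℝ) (hζ : 0 < ζ) (hJ : 2 ^ J * ζ < 1 / 2)
    (c : ℕ → ℝ) (L : ℝ) (hL : ∑ j ∈ Finset.range (J + 1), c j * 2 ^ j = L) :
    Tendsto (fun N : ℕ => (∑ j ∈ Finset.range (J + 1), c j *
      GS (ι := ↥(Ps D (Nat.sqrt N))) tauP nuP (((N : ℝ) ^ ζ) ^ (2 ^ j)) ∅) / Real.log N) atTop
      (nhds (kap D * ζ * L)) := by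
  have h1 : ∀ j ∈ Finset.range (J + 1), Tendsto (fun N : ℕ => c j *
      (GS (ι := ↥(Ps D (Nat.sqrt N))) tauP nuP (((N : ℝ) ^ ζ) ^ (2 ^ j)) ∅ / Real.log N)) atTop
      (nhds (c j * (kap D * (2 ^ j * ζ)))) := by
    intro j hj
    rw [Finset.mem_range] at hj
    obtain ⟨h2, h3⟩ := s07_lt hζ hJ (show j ≤ J by omega)
    have h4 := (GS_tendsto D (2 ^ j * ζ) h2 h3).const_mul (c j)
    refine h4.congr ?_
    intro N
    rw [s07_pow]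
  have h5 := tendsto_finsetSum (Finset.range (J + 1)) h1
  have h6 : ∑ j ∈ Finset.range (J + 1), c j * (kap D * (2 ^ j * ζ)) = kap D * ζ * L := by
    rw [← hL, Finset.mul_sum]
    apply Finset.sum_congr rfl
    intro j _
    ring
  rw [h6] at h5
  refine h5.congr ?_
  intro N
  rw [Finset.sum_div]
  apply Finset.sum_congr rfl
  intro j _
  ring

theorem J1f_tendsto (D J : ℕ) (ζ : ℝ) (hζ : 0 < ζ) (hJ : 2 ^ J * ζ < 1 / 2) :
    Tendsto (fun N : ℕ => J1f D J ζ N / Real.log N) atTop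
      (nhds (kap D * ζ * (1 + (J : ℝ) / 2))) := by
  refine (s07_sum D J ζ hζ hJ (bet J) _ (sum_bet J)).congr ?_
  intro N
  unfold J1f
  rw [S1_hst]

theorem I2f_tendsto (D J : ℕ) (ζ : ℝ) (hζ : 0 < ζ) (hJ : 2 ^ J * ζ < 1 / 2) :
    Tendsto (fun N : ℕ => I2f D J ζ N / Real.log N) atTop
      (nhds (kap D * ζ * ((3 - (1 / 2 : ℝ) ^ J) / 2))) := by
  refine (s07_sum D J ζ hζ hJ (bet2 J) _ (sum_bet2 J)).congr' ?_
  filter_upwards [eventually_ge_atTop 1] with N hN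
  have hN1 : (1 : ℝ) ≤ N := by exact_mod_cast hN
  unfold I2f
  rw [S1_hst_sq _ _ _ _ (Real.one_le_rpow hN1 hζ.le)]

theorem M1f_le (D J : ℕ) (ζ : ℝ) (hζ : 0 < ζ) (hJ : 2 ^ J * ζ < 1 / 2) (s : ℝ)
    (hs : 0 < s) :
    ∀ᶠ N : ℕ in atTop, M1f D J ζ N ≤
      (kap D * ζ ^ 2 * (1 + 3 * (J : ℝ) / 4) + s) * Real.log N ^ 2 := by
  have hL : ∑ j ∈ Finset.range (J + 1), (bet2 J j * 2 ^ j) * 2 ^ j = 1 + 3 * (J : ℝ) / 4 := by
    rw [← sum_bet2']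
    apply Finset.sum_congr rfl
    intro j _
    rw [show (4 : ℝ) = 2 * 2 by norm_num, mul_pow]
    ring
  have h1 := s07_sum D J ζ hζ hJ (fun j => bet2 J j * 2 ^ j) _ hL
  have h2 : kap D * ζ * (1 + 3 * (J : ℝ) / 4) < kap D * ζ * (1 + 3 * (J : ℝ) / 4) + s / ζ := by
    have : 0 < s / ζ := by positivity
    linarith
  filter_upwards [h1.eventually_le_const h2, eventually_ge_atTop 2] with N hN hN2
  have hN1 : (1 : ℝ) ≤ N := by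
    have : 1 ≤ N := by omega
    exact_mod_cast this
  have hN0 : (0 : ℝ) < N := by linarith
  have hlog : 0 < Real.log N := Real.log_pos (by
    have : 1 < N := by omega
    exact_mod_cast this)
  have h3 := S1_hst_log (ι := ↥(Ps D (Nat.sqrt N))) tauP nuP tauP_nonneg one_le_nuP J
    ((N : ℝ) ^ ζ) (Real.one_le_rpow hN1 hζ.le)
  rw [Real.log_rpow hN0] at h3
  have h4 : (∑ j ∈ Finset.range (J + 1), bet2 J j * 2 ^ j *
      GS (ι := ↥(Ps D (Nat.sqrt N))) tauP nuP (((N : ℝ) ^ ζ) ^ (2 ^ j)) ∅) ≤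
      (kap D * ζ * (1 + 3 * (J : ℝ) / 4) + s / ζ) * Real.log N := by
    rw [← div_le_iff₀ hlog]
    exact hN
  calc M1f D J ζ N ≤ ζ * Real.log N * ∑ j ∈ Finset.range (J + 1), bet2 J j * 2 ^ j *
      GS (ι := ↥(Ps D (Nat.sqrt N))) tauP nuP (((N : ℝ) ^ ζ) ^ (2 ^ j)) ∅ := h3
    _ ≤ ζ * Real.log N * ((kap D * ζ * (1 + 3 * (J : ℝ) / 4) + s / ζ) * Real.log N) := by
        apply mul_le_mul_of_nonneg_left h4
        positivity
    _ = (kap D * ζ ^ 2 * (1 + 3 * (J : ℝ) / 4) + s) * Real.log N ^ 2 := by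
        field_simp

theorem one_le_I2f (D J : ℕ) (ζ : ℝ) (hζ : 0 < ζ) (N : ℕ) (hN : 1 ≤ N) :
    1 ≤ I2f D J ζ N := by
  have hN1 : (1 : ℝ) ≤ N := by exact_mod_cast hN
  unfold I2f S1
  have h1 : (∏ p ∈ (∅ : Finset ↥(Ps D (Nat.sqrt N))), tauP p) *
      hst J ((N : ℝ) ^ ζ) (sz nuP (∅ : Finset ↥(Ps D (Nat.sqrt N)))) ^ 2 = 1 := by
    unfold sz
    rw [Finset.prod_empty, Finset.prod_empty, hst_one _ _ (Real.one_le_rpow hN1 hζ.le)]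
    norm_num
  calc (1 : ℝ) = (∏ p ∈ (∅ : Finset ↥(Ps D (Nat.sqrt N))), tauP p) *
      hst J ((N : ℝ) ^ ζ) (sz nuP (∅ : Finset ↥(Ps D (Nat.sqrt N)))) ^ 2 := h1.symm
    _ ≤ _ := by
        apply Finset.single_le_sum
          (f := fun A : Finset ↥(Ps D (Nat.sqrt N)) =>
            (∏ p ∈ A, tauP p) * hst J ((N : ℝ) ^ ζ) (sz nuP A) ^ 2) _ (Finset.mem_univ ∅)
        intro A _
        exact mul_nonneg (Finset.prod_nonneg (fun p _ => tauP_nonneg p)) (sq_nonneg _)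

end BVM

end
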