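import Pool.Agent.helper31.BVM.X05
import Pool.Agent.helper31.BVM.S07

/-!
# Project BVM, part B: definitions for the assembly

Exponents: `R = N^η`, `z = N^ζ` (steps of the Maynard function), `Y = N^y` (Selberg sieve for the second
prime), with `2^J ζ < η` and `2 η + 2 y < 1/2`.
-/

noncomputable section

namespace BVM

open Finset Filter

variable {I : Type*} [Fintype I] [DecidableEq I]

/-- The sieve coefficients at scale `N`. -/
def lmN (I : Type*) [Fintype I] [DecidableEq I] (D J : ℕ) (ζ η : ℝ) (N : ℕ) :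
    (↥(Ps D (Nat.sqrt N)) → Option I) → ℝ :=
  lam tauP (yh (hst J ((N : ℝ) ^ ζ)) nuP ((N : ℝ) ^ η))

/-- The Maynard weight at scale `N`. -/
def wN (a : I → ℕ) (b : I → ℤ) (D v0 J : ℕ) (ζ η : ℝ) (N : ℕ) (n : ℕ) : ℝ :=
  if n ≡ v0 [MOD Wd D] then dsum a b (lmN I D J ζ η N) n ^ 2 else 0

/-- The data given by Bombieri-Vinogradov at the scale `x`. -/
def DataAt (A B : ℕ) (C : ℝ) (x : ℕ) : Prop :=
  ∃ E : ℕ → ℝ,
    (∀ y ≤ x, ∀ q, 1 ≤ q → ∀ a, Nat.Coprime a q →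
      |theta y q a - y / Nat.totient q| ≤ E q) ∧
    ∑ q ∈ Finset.Icc 1 ⌊Real.sqrt x / Real.log x ^ B⌋₊, E q ≤ C * x / Real.log x ^ A

theorem BVInput.data (h : BVInput) (A : ℕ) :
    ∃ B : ℕ, ∃ C : ℝ, ∀ x₀ : ℕ, ∃ x : ℕ, x₀ ≤ x ∧ DataAt A B C x := h A

/-- The constant `(1 + J/2)^2 / ((3 - 2^(-J))/2)`. -/
def cJ (J : ℕ) : ℝ := (1 + (J : ℝ) / 2) ^ 2 / ((3 - (1 / 2 : ℝ) ^ J) / 2)

/-- The exponent of the logarithm used, for `k` forms. -/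
def Ak (k : ℕ) : ℕ := 9 * k ^ 2 + 4 * k + 30

/-- The factor lost in the lower bound. -/
def brc (k D J : ℕ) (ζ η : ℝ) : ℝ :=
  1 - ((k : ℝ) * (k + 2) + (k : ℝ) ^ 2) * (2 / D)
    - (k : ℝ) * (ζ * (1 + 3 * (J : ℝ) / 4)) / (η - 2 ^ J * ζ)

/-- The constant of the lower bound for one prime. -/
def lbc (k D J : ℕ) (ζ η : ℝ) : ℝ :=
  (2 - Real.exp (2 * k / D)) ^ 2 * brc k D J ζ η * (ζ * cJ J)

/-- The constant of the upper bound for two primes. -/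
def ubc (k D J : ℕ) (ζ y : ℝ) : ℝ :=
  Real.exp (18 * k / D) * (ζ * cJ J) ^ 2 / y

end BVM

end
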