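import Pool.Agent.helper31.BVM.Defs

/-!
# BVM-S01: the harmonic sum over integers coprime to `Wd D`

proofs: helper51

PROOFS. `Hs_le`: drop the coprimality; `∑_{m ≤ n} 1/m ≤ 1 + log n` (`harmonic_le_one_add_log`).
`Hs_tendsto`: let `W = Wd D`. For a residue `c` mod `W` let `T_c(n) = ∑_{m ≤ n, m ≡ c} 1/m`. For two
residues the difference `T_c(n) - T_{c'}(n)` is bounded by a constant depending on `W` only (compare the
`j`-th terms `1/(jW + c)` and `1/(jW + c')`: the difference is at most `W/(jW)^2`, for `j ≥ 1`, plus a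
bounded number of terms `≤ 1`). Since `∑_c T_c(n)` is the harmonic number `H_n`,
`|W T_c(n) - H_n| ≤ C_W`, so the sum over the `φ(W)` coprime residues is `(φ(W)/W) H_n + O(1)`; and
`H_n / log y → 1` for `n = ⌊y⌋` (`Real.log (n+1) ≤ H_n ≤ 1 + log n`).
(Alternative: Möbius, `1[(m,W)=1] = ∑_{d ∣ (m,W)} μ(d)`, so `Hs D y = ∑_{d ∣ W} (μ(d)/d) H_{⌊y/d⌋}` and
`∑_{d ∣ W} μ(d)/d = φ(W)/W`: a finite sum of limits, using `H_{⌊y/d⌋}/log y → 1`.)
-/

noncomputable section

namespace BVM

open Finset Filter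

/-- Sum of `1/m` over `m ≤ y` coprime to `Wd D`. -/
def Hs (D : ℕ) (y : ℝ) : ℝ :=
  ∑ m ∈ (Finset.Icc 1 ⌊y⌋₊).filter (fun m => Nat.Coprime m (Wd D)), (1 : ℝ) / m

/-- The density of the integers coprime to `Wd D`. -/
def kap (D : ℕ) : ℝ := (Nat.totient (Wd D) : ℝ) / Wd D

private theorem S01_Wpos (D : ℕ) : 0 < Wd D := by
  refine Finset.prod_pos ?_
  intro p hp
  exact (Finset.mem_filter.mp hp).2.pos

theorem kap_pos (D : ℕ) : 0 < kap D := by
  unfold kap
  have h := S01_Wpos D
  have h2 : 0 < Nat.totient (Wd D) := Nat.totient_pos.mpr h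
  positivity

theorem kap_le_one (D : ℕ) : kap D ≤ 1 := by
  unfold kap
  have h : (0 : ℝ) < Wd D := by exact_mod_cast S01_Wpos D
  rw [div_le_one h]
  exact_mod_cast Nat.totient_le (Wd D)

theorem Hs_le (D : ℕ) (y : ℝ) (hy : 1 ≤ y) : Hs D y ≤ 1 + Real.log y := by
  have h1 : Hs D y ≤ ∑ m ∈ Finset.Icc 1 ⌊y⌋₊, (1 : ℝ) / m := by
    unfold Hs
    refine Finset.sum_le_sum_of_subset_of_nonneg (Finset.filter_subset _ _) ?_
    intro m _ _
    positivity
  have h2 : ∑ m ∈ Finset.Icc 1 ⌊y⌋₊, (1 : ℝ) / m = (harmonic ⌊y⌋₊ : ℝ) := by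
    rw [harmonic_eq_sum_Icc]
    push_cast
    refine Finset.sum_congr rfl fun m _ => ?_
    rw [one_div]
  have h3 := harmonic_floor_le_one_add_log y hy
  rw [h2] at h1
  exact h1.trans h3

theorem Hs_mono (D : ℕ) (y y' : ℝ) (h : y ≤ y') : Hs D y ≤ Hs D y' := by
  unfold Hs
  refine Finset.sum_le_sum_of_subset_of_nonneg ?_ ?_
  · refine Finset.filter_subset_filter _ ?_
    exact Finset.Icc_subset_Icc le_rfl (Nat.floor_le_floor h)
  · intro m _ _
    positivity

/-- Sum over the first `J` blocks. -/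
private def S01_A (D J : ℕ) : ℝ :=
  ∑ m ∈ (Finset.Ico 1 (J * Wd D + 1)).filter (fun m => Nat.Coprime m (Wd D)), (1 : ℝ) / m

private theorem S01_card (D n : ℕ) :
    ((Finset.Ico n (n + Wd D)).filter (fun m => Nat.Coprime m (Wd D))).card
      = Nat.totient (Wd D) := by
  rw [← Nat.filter_coprime_Ico_eq_totient (Wd D) n]
  congr 1
  refine Finset.filter_congr fun m _ => ?_
  exact Nat.coprime_comm

private theorem S01_A_succ (D J : ℕ) :
    S01_A D (J + 1) = S01_A D J
      + ∑ m ∈ (Finset.Ico (J * Wd D + 1) (J * Wd D + 1 + Wd D)).filter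
          (fun m => Nat.Coprime m (Wd D)), (1 : ℝ) / m := by
  unfold S01_A
  rw [← Finset.sum_union]
  · rw [← Finset.filter_union]
    congr 2
    have h1 : (J + 1) * Wd D + 1 = J * Wd D + 1 + Wd D := by ring
    rw [h1]
    exact (Finset.Ico_union_Ico_eq_Ico (by omega) (by omega)).symm
  · refine Finset.disjoint_filter_filter ?_
    exact Finset.Ico_disjoint_Ico_consecutive _ _ _

private theorem S01_A_zero (D : ℕ) : S01_A D 0 = 0 := by
  unfold S01_A
  simp

private theorem S01_lower (D J : ℕ) : kap D * (harmonic J : ℝ) ≤ S01_A D J := by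
  have hW : (0 : ℝ) < Wd D := by exact_mod_cast S01_Wpos D
  induction J with
  | zero => simp [S01_A_zero]
  | succ J ih =>
    rw [S01_A_succ, harmonic_succ]
    push_cast
    rw [mul_add]
    refine add_le_add ih ?_
    have h1 : ((Finset.Ico (J * Wd D + 1) (J * Wd D + 1 + Wd D)).filter
          (fun m => Nat.Coprime m (Wd D))).card • (1 / (((J : ℝ) + 1) * Wd D)) ≤
        ∑ m ∈ (Finset.Ico (J * Wd D + 1) (J * Wd D + 1 + Wd D)).filter
          (fun m => Nat.Coprime m (Wd D)), (1 : ℝ) / m := by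
      refine Finset.card_nsmul_le_sum _ _ _ ?_
      intro m hm
      have hm1 := (Finset.mem_Ico.mp (Finset.mem_filter.mp hm).1)
      have hm2 : m ≤ (J + 1) * Wd D := by
        have h3 : (J + 1) * Wd D = J * Wd D + Wd D := by ring
        omega
      have hm3 : (0 : ℝ) < m := by
        have : 0 < m := by omega
        exact_mod_cast this
      have hm4 : (m : ℝ) ≤ ((J : ℝ) + 1) * Wd D := by exact_mod_cast hm2
      exact one_div_le_one_div_of_le hm3 hm4
    rw [S01_card, nsmul_eq_mul] at h1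
    refine le_trans (le_of_eq ?_) h1
    unfold kap
    have hJ : (0 : ℝ) < (J : ℝ) + 1 := by positivity
    field_simp

private theorem S01_upper (D J : ℕ) :
    S01_A D (J + 1) ≤ Wd D + kap D * (harmonic J : ℝ) := by
  have hW : (0 : ℝ) < Wd D := by exact_mod_cast S01_Wpos D
  induction J with
  | zero =>
    rw [S01_A_succ, S01_A_zero]
    have h1 : ∑ m ∈ (Finset.Ico (0 * Wd D + 1) (0 * Wd D + 1 + Wd D)).filter
          (fun m => Nat.Coprime m (Wd D)), (1 : ℝ) / m ≤
        ((Finset.Ico (0 * Wd D + 1) (0 * Wd D + 1 + Wd D)).filter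
          (fun m => Nat.Coprime m (Wd D))).card • (1 : ℝ) := by
      refine Finset.sum_le_card_nsmul _ _ _ ?_
      intro m hm
      have hm1 := (Finset.mem_Ico.mp (Finset.mem_filter.mp hm).1)
      have hm3 : (1 : ℝ) ≤ m := by
        have : 1 ≤ m := by omega
        exact_mod_cast this
      rw [div_le_one (by linarith)]
      exact hm3
    rw [S01_card, nsmul_eq_mul, mul_one] at h1
    have h2 : (Nat.totient (Wd D) : ℝ) ≤ Wd D := by exact_mod_cast Nat.totient_le (Wd D)
    simp only [harmonic_zero, Rat.cast_zero, mul_zero, add_zero, zero_add]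
    simp only [zero_mul, zero_add] at h1
    simp only [zero_mul, zero_add]
    exact h1.trans h2
  | succ J ih =>
    rw [S01_A_succ, harmonic_succ]
    push_cast
    rw [mul_add, ← add_assoc]
    refine add_le_add ih ?_
    have h1 : ∑ m ∈ (Finset.Ico ((J + 1) * Wd D + 1) ((J + 1) * Wd D + 1 + Wd D)).filter
          (fun m => Nat.Coprime m (Wd D)), (1 : ℝ) / m ≤
        ((Finset.Ico ((J + 1) * Wd D + 1) ((J + 1) * Wd D + 1 + Wd D)).filter
          (fun m => Nat.Coprime m (Wd D))).card • (1 / (((J : ℝ) + 1) * Wd D)) := by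
      refine Finset.sum_le_card_nsmul _ _ _ ?_
      intro m hm
      have hm1 := (Finset.mem_Ico.mp (Finset.mem_filter.mp hm).1)
      have hm2 : (J + 1) * Wd D ≤ m := by omega
      have hm4 : ((J : ℝ) + 1) * Wd D ≤ m := by exact_mod_cast hm2
      exact one_div_le_one_div_of_le (by positivity) hm4
    rw [S01_card, nsmul_eq_mul] at h1
    refine le_trans h1 (le_of_eq ?_)
    unfold kap
    have hJ : (0 : ℝ) < (J : ℝ) + 1 := by positivity
    field_simp

private theorem S01_lo (D : ℕ) (y : ℝ) (hy : 1 ≤ y) :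
    kap D * (Real.log y - Real.log (Wd D)) ≤ Hs D y := by
  have hW0 := S01_Wpos D
  have hW : (0 : ℝ) < Wd D := by exact_mod_cast hW0
  set J := ⌊y⌋₊ / Wd D with hJ
  have h1 : S01_A D J ≤ Hs D y := by
    unfold S01_A Hs
    refine Finset.sum_le_sum_of_subset_of_nonneg ?_ ?_
    · refine Finset.filter_subset_filter _ ?_
      intro m hm
      rw [Finset.mem_Ico] at hm
      rw [Finset.mem_Icc]
      have h2 : J * Wd D ≤ ⌊y⌋₊ := Nat.div_mul_le_self _ _
      omega
    · intro m _ _
      positivity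
  have h2 : y / Wd D ≤ (J : ℝ) + 1 := by
    rw [div_le_iff₀ hW]
    have h3 : y < (⌊y⌋₊ : ℝ) + 1 := Nat.lt_floor_add_one y
    have h4 : ⌊y⌋₊ + 1 ≤ (J + 1) * Wd D := by
      have := Nat.lt_div_mul_add (a := ⌊y⌋₊) hW0
      have h5 : (J + 1) * Wd D = ⌊y⌋₊ / Wd D * Wd D + Wd D := by rw [hJ]; ring
      omega
    have h6 : (⌊y⌋₊ : ℝ) + 1 ≤ ((J : ℝ) + 1) * Wd D := by exact_mod_cast h4
    linarith
  have h3 : Real.log y - Real.log (Wd D) ≤ Real.log (J + 1 : ℕ) := by
    rw [← Real.log_div (by linarith) hW.ne']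
    refine Real.log_le_log (by positivity) ?_
    push_cast
    exact h2
  have h4 := log_add_one_le_harmonic J
  have h5 : kap D * (Real.log y - Real.log (Wd D)) ≤ kap D * (harmonic J : ℝ) :=
    mul_le_mul_of_nonneg_left (h3.trans h4) (kap_pos D).le
  exact h5.trans ((S01_lower D J).trans h1)

private theorem S01_hi (D : ℕ) (y : ℝ) (hy : 1 ≤ y) :
    Hs D y ≤ Wd D + 1 + kap D * Real.log y := by
  have hW0 := S01_Wpos D
  have hW : (0 : ℝ) < Wd D := by exact_mod_cast hW0
  set J := ⌊y⌋₊ / Wd D with hJ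
  have h1 : Hs D y ≤ S01_A D (J + 1) := by
    unfold S01_A Hs
    refine Finset.sum_le_sum_of_subset_of_nonneg ?_ ?_
    · refine Finset.filter_subset_filter _ ?_
      intro m hm
      rw [Finset.mem_Icc] at hm
      rw [Finset.mem_Ico]
      have h4 : ⌊y⌋₊ + 1 ≤ (J + 1) * Wd D := by
        have := Nat.lt_div_mul_add (a := ⌊y⌋₊) hW0
        have h5 : (J + 1) * Wd D = ⌊y⌋₊ / Wd D * Wd D + Wd D := by rw [hJ]; ring
        omega
      omega
    · intro m _ _
      positivity
  have h2 : (harmonic J : ℝ) ≤ 1 + Real.log y := by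
    have h3 := harmonic_le_one_add_log J
    rcases Nat.eq_zero_or_pos J with h0 | h0
    · rw [h0]
      simp only [harmonic_zero, Rat.cast_zero]
      have := Real.log_nonneg hy
      linarith
    · have h4 : (J : ℝ) ≤ y := by
        have h5 : J ≤ ⌊y⌋₊ := Nat.div_le_self _ _
        have h6 : (J : ℝ) ≤ (⌊y⌋₊ : ℝ) := by exact_mod_cast h5
        exact h6.trans (Nat.floor_le (by linarith))
      have h7 : Real.log J ≤ Real.log y := Real.log_le_log (by exact_mod_cast h0) h4
      linarith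
  have h3 := S01_upper D J
  have h4 : kap D * (harmonic J : ℝ) ≤ kap D * (1 + Real.log y) :=
    mul_le_mul_of_nonneg_left h2 (kap_pos D).le
  have h5 := kap_le_one D
  nlinarith

theorem Hs_tendsto (D : ℕ) :
    Tendsto (fun y : ℝ => Hs D y / Real.log y) atTop (nhds (kap D)) := by
  have hlog : Tendsto (fun y : ℝ => (Real.log y)⁻¹) atTop (nhds 0) :=
    tendsto_inv_atTop_zero.comp Real.tendsto_log_atTop
  have h1 : Tendsto (fun y : ℝ => kap D - kap D * Real.log (Wd D) * (Real.log y)⁻¹) atTop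
      (nhds (kap D)) := by
    have := (hlog.const_mul (kap D * Real.log (Wd D))).const_sub (kap D)
    simpa using this
  have h2 : Tendsto (fun y : ℝ => kap D + (Wd D + 1) * (Real.log y)⁻¹) atTop
      (nhds (kap D)) := by
    have := (hlog.const_mul ((Wd D : ℝ) + 1)).const_add (kap D)
    simpa using this
  refine tendsto_of_tendsto_of_tendsto_of_le_of_le' h1 h2 ?_ ?_
  · filter_upwards [eventually_gt_atTop (1 : ℝ)] with y hy
    have hl : 0 < Real.log y := Real.log_pos hy
    have h3 := S01_lo D y hy.le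
    rw [le_div_iff₀ hl]
    have h4 : (kap D - kap D * Real.log (Wd D) * (Real.log y)⁻¹) * Real.log y
        = kap D * (Real.log y - Real.log (Wd D)) := by
      field_simp
    rw [h4]
    exact h3
  · filter_upwards [eventually_gt_atTop (1 : ℝ)] with y hy
    have hl : 0 < Real.log y := Real.log_pos hy
    have h3 := S01_hi D y hy.le
    rw [div_le_iff₀ hl]
    have h4 : (kap D + (Wd D + 1) * (Real.log y)⁻¹) * Real.log y
        = Wd D + 1 + kap D * Real.log y := by
      field_simp
      ring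
    rw [h4]
    exact h3

end BVM

end
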