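import Pool.Agent.helper31.BVM.S01

/-!
# BVM-S02: comparison of `GW` with the harmonic sum

PROOFS. Let `W = Wd D`, `D ≥ 1`; the prime factors of an integer coprime to `W` are `> D`.
`GW_le`: for squarefree `r`, `1/φ(r) = (1/r) ∏_{p ∣ r} (1 + 1/(p-1)) = (1/r) ∑_{d ∣ r} 1/φ(d)`
(`r/φ(r) = ∑_{d∣r} μ²(d)/φ(d)`; for squarefree `r` all divisors are squarefree). Write `r = d m`:
`GW D y ≤ ∑_{d ≤ y, squarefree, (d,W)=1} 1/(d φ(d)) ∑_{m ≤ y/d, (m,W)=1} 1/m
 ≤ Hs D y * ∑_{d ≤ y, squarefree, (d,W)=1} 1/(d φ(d))`, and the last sum is at most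
`∏_{D < p ≤ y} (1 + 1/(p(p-1))) ≤ exp(∑_{n > D} 1/(n(n-1))) ≤ exp(1/D) ≤ 1 + 2/D` (telescoping, and
`exp x ≤ 1 + 2x` on `[0,1]`).
`GW_ge`: `φ(r) ≤ r`, so `GW D y ≥ ∑_{r ≤ y, squarefree, (r,W)=1} 1/r`, and `Hs D y` minus this is the
sum over the non-squarefree `m`, at most `∑_{D < p ≤ y} ∑_{m ≤ y, p² ∣ m, (m,W)=1} 1/m ≤
∑_{p > D} (1/p²) Hs D y ≤ (1/D) Hs D y`.
-/

noncomputable section

namespace BVM

open Finset Filter

/-- sum over the multiples of `k` -/
theorem S02_mult (D N k : ℕ) (hk : 1 ≤ k) :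
    ∑ m ∈ (Finset.Icc 1 N).filter (fun m => Nat.Coprime m (Wd D) ∧ k ∣ m), (1 : ℝ) / m
      ≤ (1 / (k : ℝ)) * ∑ m ∈ (Finset.Icc 1 N).filter (fun m => Nat.Coprime m (Wd D)), (1 : ℝ) / m := by
  rw [Finset.mul_sum]
  have h1 : ∑ m ∈ (Finset.Icc 1 N).filter (fun m => Nat.Coprime m (Wd D) ∧ k ∣ m), (1 : ℝ) / m
      = ∑ m ∈ (Finset.Icc 1 N).filter (fun m => Nat.Coprime m (Wd D) ∧ k ∣ m),
        (1 / (k : ℝ)) * (1 / ((m / k : ℕ) : ℝ)) := by
    apply Finset.sum_congr rfl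
    intro m hm
    rw [Finset.mem_filter, Finset.mem_Icc] at hm
    obtain ⟨j, hj⟩ := hm.2.2
    have hk0 : (k : ℝ) ≠ 0 := by exact_mod_cast (by omega : k ≠ 0)
    have hj0 : j ≠ 0 := by rintro rfl; omega
    have hj0' : (j : ℝ) ≠ 0 := by exact_mod_cast hj0
    have e : m / k = j := by rw [hj]; exact Nat.mul_div_cancel_left j (by omega)
    rw [e, hj]
    push_cast
    field_simp
  rw [h1]
  have h2 : ∑ m ∈ (Finset.Icc 1 N).filter (fun m => Nat.Coprime m (Wd D) ∧ k ∣ m),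
        (1 / (k : ℝ)) * (1 / ((m / k : ℕ) : ℝ))
      = ∑ j ∈ ((Finset.Icc 1 N).filter (fun m => Nat.Coprime m (Wd D) ∧ k ∣ m)).image (fun m => m / k),
        (1 / (k : ℝ)) * (1 / (j : ℝ)) := by
    rw [Finset.sum_image]
    intro a ha b hb hab
    simp only [Finset.coe_filter, Finset.mem_Icc, Set.mem_ofPred_eq] at ha hb
    obtain ⟨i, hi⟩ := ha.2.2
    obtain ⟨j, hj⟩ := hb.2.2
    have e1 : a / k = i := by rw [hi]; exact Nat.mul_div_cancel_left i (by omega)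
    have e2 : b / k = j := by rw [hj]; exact Nat.mul_div_cancel_left j (by omega)
    simp only at hab
    rw [e1, e2] at hab
    rw [hi, hj, hab]
  rw [h2]
  apply Finset.sum_le_sum_of_subset_of_nonneg
  · intro j hj
    rw [Finset.mem_image] at hj
    obtain ⟨m, hm, rfl⟩ := hj
    rw [Finset.mem_filter, Finset.mem_Icc] at hm ⊢
    obtain ⟨i, hi⟩ := hm.2.2
    have e1 : m / k = i := by rw [hi]; exact Nat.mul_div_cancel_left i (by omega)
    rw [e1]
    have hi0 : i ≠ 0 := by rintro rfl; omega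
    refine ⟨⟨by omega, ?_⟩, Nat.Coprime.coprime_dvd_left ⟨k, by rw [hi]; ring⟩ hm.2.1⟩
    have : i ≤ k * i := Nat.le_mul_of_pos_left i (by omega)
    omega
  · intro j _ _
    positivity

theorem S02_biUnion (s : Finset ℕ) (g : ℕ → Finset ℕ) (f : ℕ → ℝ) (hf : ∀ m, 0 ≤ f m) :
    ∑ m ∈ s.biUnion g, f m ≤ ∑ p ∈ s, ∑ m ∈ g p, f m := by
  induction s using Finset.induction_on with
  | empty => simp
  | insert a s ha ih =>
    rw [Finset.biUnion_insert, Finset.sum_insert ha]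
    have h := Finset.sum_union_inter (s₁ := g a) (s₂ := s.biUnion g) (f := f)
    have h2 : 0 ≤ ∑ x ∈ g a ∩ s.biUnion g, f x := Finset.sum_nonneg fun x _ => hf x
    linarith

theorem S02_tele (D N : ℕ) (hD : 1 ≤ D) (hN : D ≤ N) :
    ∑ n ∈ Finset.Ioc D N, (1 : ℝ) / (n * (n - 1)) = 1 / D - 1 / N := by
  induction N, hN using Nat.le_induction with
  | base => simp
  | succ N hN ih =>
    rw [Finset.sum_Ioc_succ_top (by omega), ih]
    have hN0 : (N : ℝ) ≠ 0 := by exact_mod_cast (by omega : N ≠ 0)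
    have hN1 : (N : ℝ) + 1 ≠ 0 := by positivity
    push_cast
    rw [add_sub_cancel_right]
    field_simp
    ring

theorem S02_sum_Ps (D N : ℕ) (hD : 1 ≤ D) :
    ∑ p ∈ Ps D N, (1 : ℝ) / (p * (p - 1)) ≤ 1 / D := by
  have h0 : ∀ n : ℕ, (0 : ℝ) ≤ 1 / ((n : ℝ) * ((n : ℝ) - 1)) := by
    intro n
    rcases Nat.eq_zero_or_pos n with rfl | hn
    · simp
    · have : (1 : ℝ) ≤ n := by exact_mod_cast hn
      have h1 : 0 ≤ (n : ℝ) - 1 := by linarith
      positivity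
  have h1 : ∑ p ∈ Ps D N, (1 : ℝ) / (p * (p - 1)) ≤ ∑ n ∈ Finset.Ioc D N, (1 : ℝ) / (n * (n - 1)) := by
    apply Finset.sum_le_sum_of_subset_of_nonneg
    · intro p hp
      unfold Ps at hp
      rw [Finset.mem_filter, Finset.mem_range] at hp
      rw [Finset.mem_Ioc]
      omega
    · intro n _ _
      exact h0 n
  refine h1.trans ?_
  rcases le_total D N with h | h
  · rw [S02_tele D N hD h]
    have : (0 : ℝ) ≤ 1 / N := by positivity
    linarith
  · rw [Finset.Ioc_eq_empty (by omega)]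
    simp

theorem S02_totient {r : ℕ} (hr : Squarefree r) :
    (1 : ℝ) / Nat.totient r
      = (1 / (r : ℝ)) * ∑ t ∈ r.primeFactors.powerset, ∏ p ∈ t, (1 : ℝ) / ((p : ℝ) - 1) := by
  have hr0 : r ≠ 0 := hr.ne_zero
  have h1 : Nat.totient r = ∏ p ∈ r.primeFactors, (p - 1) := by
    have h := Nat.totient_eq_div_primeFactors_mul r
    rw [Nat.prod_primeFactors_of_squarefree hr, Nat.div_self (Nat.pos_of_ne_zero hr0), one_mul] at h
    exact h
  have h2 : (r : ℝ) = ∏ p ∈ r.primeFactors, (p : ℝ) := by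
    have h := Nat.prod_primeFactors_of_squarefree hr
    have h' : ((∏ p ∈ r.primeFactors, p : ℕ) : ℝ) = (r : ℝ) := by rw [h]
    rw [← h']
    push_cast
    rfl
  rw [← Finset.prod_one_add, h1, h2]
  rw [Nat.cast_prod, one_div, one_div, ← Finset.prod_inv_distrib, ← Finset.prod_inv_distrib,
    ← Finset.prod_mul_distrib]
  apply Finset.prod_congr rfl
  intro p hp
  have hp' := Nat.prime_of_mem_primeFactors hp
  have h3 : (2 : ℝ) ≤ p := by exact_mod_cast hp'.two_le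
  rw [Nat.cast_sub hp'.one_le, Nat.cast_one]
  have h4 : (p : ℝ) - 1 ≠ 0 := by linarith
  have h5 : (p : ℝ) ≠ 0 := by linarith
  field_simp
  ring

theorem S02_mem_Ps {D N r p : ℕ} (hr1 : 1 ≤ r) (hr : r ≤ N) (hc : Nat.Coprime r (Wd D))
    (hp : p.Prime) (hpr : p ∣ r) : p ∈ Ps D N := by
  unfold Ps
  rw [Finset.mem_filter, Finset.mem_range]
  refine ⟨?_, hp, ?_⟩
  · have := Nat.le_of_dvd (by omega) hpr
    omega
  · by_contra hD
    have h1 : p ∣ Wd D := by
      unfold Wd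
      apply Finset.dvd_prod_of_mem (fun p => p)
      rw [Finset.mem_filter, Finset.mem_range]
      exact ⟨by omega, hp⟩
    have h2 := Nat.dvd_gcd hpr h1
    rw [hc] at h2
    exact hp.one_lt.ne' (Nat.dvd_one.1 h2)

theorem GW_le (D : ℕ) (hD : 1 ≤ D) (y : ℝ) (hy : 1 ≤ y) :
    GW D y ≤ (1 + 2 / (D : ℝ)) * Hs D y := by
  obtain ⟨N, hN⟩ : ∃ N : ℕ, N = ⌊y⌋₊ := ⟨_, rfl⟩
  have hHs : Hs D y = ∑ m ∈ (Finset.Icc 1 N).filter (fun m => Nat.Coprime m (Wd D)), (1 : ℝ) / m := by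
    rw [hN]; rfl
  have hH0 : 0 ≤ Hs D y := by
    rw [hHs]
    exact Finset.sum_nonneg fun m _ => by positivity
  obtain ⟨R, hR⟩ : ∃ R, R = (Finset.Icc 1 N).filter
    (fun r => Squarefree r ∧ Nat.Coprime r (Wd D)) := ⟨_, rfl⟩
  have hGW : GW D y = ∑ r ∈ R, ∑ t ∈ (Ps D N).powerset,
      if t ⊆ r.primeFactors then (1 / (r : ℝ)) * ∏ p ∈ t, (1 : ℝ) / ((p : ℝ) - 1) else 0 := by
    unfold GW
    rw [← hN, ← hR]
    apply Finset.sum_congr rfl
    intro r hr
    rw [hR, Finset.mem_filter, Finset.mem_Icc] at hr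
    rw [S02_totient hr.2.1, Finset.mul_sum, ← Finset.sum_filter]
    apply Finset.sum_congr _ (fun _ _ => rfl)
    ext t
    rw [Finset.mem_filter, Finset.mem_powerset, Finset.mem_powerset]
    constructor
    · intro h
      refine ⟨fun p hp => ?_, h⟩
      have hp' := h hp
      exact S02_mem_Ps hr.1.1 hr.1.2 hr.2.2 (Nat.prime_of_mem_primeFactors hp')
        (Nat.dvd_of_mem_primeFactors hp')
    · exact fun h => h.2
  rw [hGW, Finset.sum_comm]
  have h1 : ∀ t ∈ (Ps D N).powerset, ∑ r ∈ R, (if t ⊆ r.primeFactors then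
      (1 / (r : ℝ)) * ∏ p ∈ t, (1 : ℝ) / ((p : ℝ) - 1) else 0)
      ≤ Hs D y * ∏ p ∈ t, (1 : ℝ) / ((p : ℝ) * ((p : ℝ) - 1)) := by
    intro t ht
    rw [Finset.mem_powerset] at ht
    have htp : ∀ p ∈ t, p.Prime := by
      intro p hp
      have h := ht hp
      unfold Ps at h
      rw [Finset.mem_filter] at h
      exact h.2.1
    obtain ⟨k, hk⟩ : ∃ k : ℕ, k = ∏ p ∈ t, p := ⟨_, rfl⟩
    have hk1 : 1 ≤ k := by
      rw [hk]
      exact Finset.prod_pos fun p hp => (htp p hp).pos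
    have hg0 : 0 ≤ ∏ p ∈ t, (1 : ℝ) / ((p : ℝ) - 1) := by
      apply Finset.prod_nonneg
      intro p hp
      have : (2 : ℝ) ≤ p := by exact_mod_cast (htp p hp).two_le
      have h' : 0 ≤ (p : ℝ) - 1 := by linarith
      positivity
    rw [← Finset.sum_filter, ← Finset.sum_mul]
    have h2 : ∑ r ∈ R.filter (fun r => t ⊆ r.primeFactors), (1 : ℝ) / r ≤ (1 / (k : ℝ)) * Hs D y := by
      rw [hHs]
      refine le_trans ?_ (S02_mult D N k hk1)
      apply Finset.sum_le_sum_of_subset_of_nonneg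
      · intro r hr
        rw [Finset.mem_filter, hR, Finset.mem_filter, Finset.mem_Icc] at hr
        rw [Finset.mem_filter, Finset.mem_Icc]
        refine ⟨hr.1.1, hr.1.2.2, ?_⟩
        rw [hk]
        have h3 : ∏ p ∈ t, p ∣ ∏ p ∈ r.primeFactors, p := Finset.prod_dvd_prod_of_subset _ _ _ hr.2
        rwa [Nat.prod_primeFactors_of_squarefree hr.1.2.1] at h3
      · intro r _ _
        positivity
    have h4 : (1 / (k : ℝ)) * ∏ p ∈ t, (1 : ℝ) / ((p : ℝ) - 1)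
        = ∏ p ∈ t, (1 : ℝ) / ((p : ℝ) * ((p : ℝ) - 1)) := by
      rw [hk, Nat.cast_prod, one_div, ← Finset.prod_inv_distrib, ← Finset.prod_mul_distrib]
      apply Finset.prod_congr rfl
      intro p _
      rw [one_div, one_div, mul_inv]
    calc (∑ r ∈ R.filter (fun r => t ⊆ r.primeFactors), (1 : ℝ) / r)
          * ∏ p ∈ t, (1 : ℝ) / ((p : ℝ) - 1)
        ≤ ((1 / (k : ℝ)) * Hs D y) * ∏ p ∈ t, (1 : ℝ) / ((p : ℝ) - 1) :=
          mul_le_mul_of_nonneg_right h2 hg0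
      _ = Hs D y * ((1 / (k : ℝ)) * ∏ p ∈ t, (1 : ℝ) / ((p : ℝ) - 1)) := by ring
      _ = _ := by rw [h4]
  refine (Finset.sum_le_sum h1).trans ?_
  rw [← Finset.mul_sum, ← Finset.prod_one_add, mul_comm]
  apply mul_le_mul_of_nonneg_right _ hH0
  have hterm : ∀ p ∈ Ps D N, (0 : ℝ) ≤ 1 / ((p : ℝ) * ((p : ℝ) - 1)) := by
    intro p hp
    unfold Ps at hp
    rw [Finset.mem_filter] at hp
    have : (2 : ℝ) ≤ p := by exact_mod_cast hp.2.1.two_le
    have h' : 0 ≤ (p : ℝ) - 1 := by linarith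
    positivity
  have h5 : ∏ p ∈ Ps D N, (1 + (1 : ℝ) / ((p : ℝ) * ((p : ℝ) - 1)))
      ≤ Real.exp (∑ p ∈ Ps D N, (1 : ℝ) / ((p : ℝ) * ((p : ℝ) - 1))) := by
    rw [Real.exp_sum]
    apply Finset.prod_le_prod
    · intro p hp
      have := hterm p hp
      linarith
    · intro p _
      rw [add_comm]
      exact Real.add_one_le_exp _
  have hD' : (1 : ℝ) ≤ D := by exact_mod_cast hD
  have hD1 : (1 : ℝ) / D ≤ 1 := by
    rw [div_le_one (by linarith)]
    exact hD'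
  have hD0 : (0 : ℝ) ≤ 1 / D := by positivity
  have h6 : Real.exp (1 / (D : ℝ)) ≤ 1 + 2 / D := by
    have h := Real.abs_exp_sub_one_le (x := 1 / (D : ℝ)) (by rw [abs_of_nonneg hD0]; exact hD1)
    have h7 := (abs_le.1 h).2
    rw [abs_of_nonneg hD0] at h7
    have e : (2 : ℝ) / D = 2 * (1 / D) := by ring
    rw [e]
    linarith
  exact h5.trans ((Real.exp_le_exp.2 (S02_sum_Ps D N hD)).trans h6)

theorem GW_ge (D : ℕ) (hD : 1 ≤ D) (y : ℝ) (hy : 1 ≤ y) :
    (1 - 1 / (D : ℝ)) * Hs D y ≤ GW D y := by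
  obtain ⟨N, hN⟩ : ∃ N : ℕ, N = ⌊y⌋₊ := ⟨_, rfl⟩
  have hHs : Hs D y = ∑ m ∈ (Finset.Icc 1 N).filter (fun m => Nat.Coprime m (Wd D)), (1 : ℝ) / m := by
    rw [hN]; rfl
  have hH0 : 0 ≤ Hs D y := by
    rw [hHs]
    exact Finset.sum_nonneg fun m _ => by positivity
  have h1 : ∑ m ∈ (Finset.Icc 1 N).filter (fun r => Squarefree r ∧ Nat.Coprime r (Wd D)), (1 : ℝ) / m
      ≤ GW D y := by
    unfold GW
    rw [← hN]
    apply Finset.sum_le_sum
    intro r hr
    rw [Finset.mem_filter, Finset.mem_Icc] at hr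
    have h2 : (0 : ℝ) < Nat.totient r := by exact_mod_cast Nat.totient_pos.2 (by omega)
    have h3 : (Nat.totient r : ℝ) ≤ r := by exact_mod_cast Nat.totient_le r
    exact one_div_le_one_div_of_le h2 h3
  have h2 : Hs D y ≤ ∑ m ∈ (Finset.Icc 1 N).filter (fun r => Squarefree r ∧ Nat.Coprime r (Wd D)),
      (1 : ℝ) / m + ∑ p ∈ Ps D N, ∑ m ∈ (Finset.Icc 1 N).filter
        (fun m => Nat.Coprime m (Wd D) ∧ p * p ∣ m), (1 : ℝ) / m := by
    have h3 : Hs D y = ∑ m ∈ (Finset.Icc 1 N).filter (fun r => Squarefree r ∧ Nat.Coprime r (Wd D)),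
        (1 : ℝ) / m + ∑ m ∈ (Finset.Icc 1 N).filter (fun r => ¬ Squarefree r ∧ Nat.Coprime r (Wd D)),
        (1 : ℝ) / m := by
      rw [hHs, ← Finset.sum_filter_add_sum_filter_not _ (fun r => Squarefree r)]
      rw [Finset.filter_filter, Finset.filter_filter]
      congr 1
      · apply Finset.sum_congr _ (fun _ _ => rfl)
        ext m
        simp only [Finset.mem_filter]
        tauto
      · apply Finset.sum_congr _ (fun _ _ => rfl)
        ext m
        simp only [Finset.mem_filter]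
        tauto
    rw [h3]
    have h4 : ∑ m ∈ (Finset.Icc 1 N).filter (fun r => ¬ Squarefree r ∧ Nat.Coprime r (Wd D)),
        (1 : ℝ) / m ≤ ∑ m ∈ (Ps D N).biUnion (fun p => (Finset.Icc 1 N).filter
          (fun m => Nat.Coprime m (Wd D) ∧ p * p ∣ m)), (1 : ℝ) / m := by
      apply Finset.sum_le_sum_of_subset_of_nonneg
      · intro m hm
        rw [Finset.mem_filter, Finset.mem_Icc] at hm
        have h5 := hm.2.1
        rw [Nat.squarefree_iff_prime_squarefree] at h5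
        push Not at h5
        obtain ⟨p, hp, hpm⟩ := h5
        rw [Finset.mem_biUnion]
        refine ⟨p, S02_mem_Ps hm.1.1 hm.1.2 hm.2.2 hp ((Dvd.intro p rfl).trans hpm), ?_⟩
        rw [Finset.mem_filter, Finset.mem_Icc]
        exact ⟨hm.1, hm.2.2, hpm⟩
      · intro m _ _
        positivity
    have h5 := S02_biUnion (Ps D N) (fun p => (Finset.Icc 1 N).filter
          (fun m => Nat.Coprime m (Wd D) ∧ p * p ∣ m)) (fun m : ℕ => (1 : ℝ) / m)
          (fun m => by positivity)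
    linarith [h4.trans h5]
  have h3 : ∑ p ∈ Ps D N, ∑ m ∈ (Finset.Icc 1 N).filter
        (fun m => Nat.Coprime m (Wd D) ∧ p * p ∣ m), (1 : ℝ) / m ≤ (1 / (D : ℝ)) * Hs D y := by
    have h4 : ∑ p ∈ Ps D N, ∑ m ∈ (Finset.Icc 1 N).filter
        (fun m => Nat.Coprime m (Wd D) ∧ p * p ∣ m), (1 : ℝ) / m
        ≤ ∑ p ∈ Ps D N, (1 / ((p : ℝ) * ((p : ℝ) - 1))) * Hs D y := by
      apply Finset.sum_le_sum
      intro p hp
      unfold Ps at hp
      rw [Finset.mem_filter] at hp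
      have hp2 : (2 : ℝ) ≤ p := by exact_mod_cast hp.2.1.two_le
      have h5 := S02_mult D N (p * p) (Nat.mul_pos hp.2.1.pos hp.2.1.pos)
      rw [← hHs] at h5
      refine h5.trans ?_
      apply mul_le_mul_of_nonneg_right _ hH0
      push_cast
      apply one_div_le_one_div_of_le
      · have : 0 < (p : ℝ) - 1 := by linarith
        positivity
      · nlinarith
    refine h4.trans ?_
    rw [← Finset.sum_mul]
    exact mul_le_mul_of_nonneg_right (S02_sum_Ps D N hD) hH0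
  have e : (1 - 1 / (D : ℝ)) * Hs D y = Hs D y - 1 / (D : ℝ) * Hs D y := by ring
  rw [e]
  linarith

end BVM

end
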