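import Pool.Agent.helper31.BVM.S02

/-!
# BVM-S03: asymptotics of `GW`

PROOF. Let `D' ≥ max(D, 2)`, `V = ∏_{D < p ≤ D'} p`, so `Wd D' = Wd D * V`. Every squarefree `r` coprime to
`Wd D` is uniquely `r = d m` with `d ∣ V` and `m` squarefree coprime to `Wd D'`; `φ(r) = φ(d) φ(m)`. Hence
(`GW_split`) `GW D y = ∑_{d ∣ V} (1/φ(d)) GW D' (y/d)`. By S02 and `Hs_tendsto`, for every `d`,
`GW D' (y/d)/log y` is eventually between `(1 - 1/D') kap D' - ε` and `(1 + 2/D') kap D' + ε`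
(`log (y/d)/log y → 1`). Also `∑_{d ∣ V} 1/φ(d) = ∏_{p ∣ V} (1 + 1/(p-1)) = kap D / kap D'`. So eventually
`(1 - 1/D') kap D - ε' ≤ GW D y / log y ≤ (1 + 2/D') kap D + ε'`; `D'` is arbitrary.
`GW_log_le`: S02 and `Hs_le`.
-/

noncomputable section

namespace BVM

open Finset Filter

private theorem S03_mem_Ps {D D' p : ℕ} : p ∈ Ps D D' ↔ p < D' + 1 ∧ p.Prime ∧ D < p := by
  unfold Ps
  rw [Finset.mem_filter, Finset.mem_range]

private theorem S03_sq (D D' : ℕ) : Squarefree (∏ p ∈ Ps D D', p) := by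
  refine Finset.squarefree_prod_of_pairwise_isCoprime (fun p hp q hq hpq => ?_) fun p hp => ?_
  · rw [Finset.mem_coe, S03_mem_Ps] at hp hq
    change IsRelPrime p q
    rw [← Nat.coprime_iff_isRelPrime]
    exact (Nat.coprime_primes hp.2.1 hq.2.1).2 hpq
  · rw [S03_mem_Ps] at hp
    exact hp.2.1.prime.squarefree

private theorem S03_cop (D D' : ℕ) : Nat.Coprime (∏ p ∈ Ps D D', p) (Wd D) := by
  unfold Wd
  refine Nat.Coprime.prod_left fun p hp => Nat.Coprime.prod_right fun q hq => ?_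
  rw [S03_mem_Ps] at hp
  rw [Finset.mem_filter, Finset.mem_range] at hq
  exact (Nat.coprime_primes hp.2.1 hq.2).2 (by omega)

private theorem S03_Wd {D D' : ℕ} (h : D ≤ D') : Wd D' = Wd D * ∏ p ∈ Ps D D', p := by
  unfold Wd
  rw [← Finset.prod_union]
  · refine Finset.prod_congr ?_ fun _ _ => rfl
    ext p
    rw [Finset.mem_union, S03_mem_Ps, Finset.mem_filter, Finset.mem_filter, Finset.mem_range,
      Finset.mem_range]
    constructor
    · rintro ⟨h1, h2⟩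
      by_cases h3 : p < D + 1
      · exact Or.inl ⟨h3, h2⟩
      · exact Or.inr ⟨h1, h2, by omega⟩
    · rintro (⟨h1, h2⟩ | ⟨h1, h2, -⟩)
      · exact ⟨by omega, h2⟩
      · exact ⟨h1, h2⟩
  · rw [Finset.disjoint_left]
    intro p hp hp'
    rw [S03_mem_Ps] at hp'
    rw [Finset.mem_filter, Finset.mem_range] at hp
    omega

private theorem S03_V_pos (D D' : ℕ) : 0 < ∏ p ∈ Ps D D', p :=
  Finset.prod_pos fun p hp => (S03_mem_Ps.1 hp).2.1.pos

private theorem S03_Wd_pos (D : ℕ) : 0 < Wd D :=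
  Finset.prod_pos fun p hp => (Finset.mem_filter.1 hp).2.pos

/-- For squarefree `n` the sum of `1/φ(d)` over the divisors is `n/φ(n)`. -/
private theorem S03_sum_div {n : ℕ} (hn : Squarefree n) :
    (n : ℝ) = (Nat.totient n : ℝ) * ∑ d ∈ n.divisors, 1 / (Nat.totient d : ℝ) := by
  have hn0 : n ≠ 0 := hn.ne_zero
  obtain ⟨f, hf⟩ : ∃ f : ArithmeticFunction ℝ, ∀ m, f m = 1 / (Nat.totient m : ℝ) :=
    ⟨⟨fun m => 1 / (Nat.totient m : ℝ), by simp⟩, fun m => rfl⟩
  have hmul : f.IsMultiplicative := by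
    refine ⟨?_, fun {a b} hab => ?_⟩
    · rw [hf]; simp
    · rw [hf, hf, hf, Nat.totient_mul hab, Nat.cast_mul, one_div_mul_one_div]
  have h1 := hmul.prodPrimeFactors_one_add_of_squarefree hn
  simp only [hf] at h1
  rw [← h1]
  have h2 := Nat.totient_mul_prod_primeFactors n
  have h3 : (Nat.totient n : ℝ) * ∏ p ∈ n.primeFactors, (p : ℝ) =
      n * ∏ p ∈ n.primeFactors, ((p : ℝ) - 1) := by
    have h4 : ((Nat.totient n * ∏ p ∈ n.primeFactors, p : ℕ) : ℝ) =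
        ((n * ∏ p ∈ n.primeFactors, (p - 1) : ℕ) : ℝ) := by rw [h2]
    rw [Nat.cast_mul, Nat.cast_mul, Nat.cast_prod, Nat.cast_prod] at h4
    rw [h4]
    congr 1
    refine Finset.prod_congr rfl fun p hp => ?_
    rw [Nat.cast_sub (Nat.prime_of_mem_primeFactors hp).one_le, Nat.cast_one]
  have hpos : (0 : ℝ) < ∏ p ∈ n.primeFactors, ((p : ℝ) - 1) := by
    refine Finset.prod_pos fun p hp => ?_
    have : (1 : ℝ) < p := by exact_mod_cast (Nat.prime_of_mem_primeFactors hp).one_lt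
    linarith
  have h5 : (∏ p ∈ n.primeFactors, (1 + 1 / (Nat.totient p : ℝ))) *
      ∏ p ∈ n.primeFactors, ((p : ℝ) - 1) = ∏ p ∈ n.primeFactors, (p : ℝ) := by
    rw [← Finset.prod_mul_distrib]
    refine Finset.prod_congr rfl fun p hp => ?_
    have hp' := Nat.prime_of_mem_primeFactors hp
    have : (1 : ℝ) < p := by exact_mod_cast hp'.one_lt
    rw [Nat.totient_prime hp', Nat.cast_sub hp'.one_le, Nat.cast_one]
    have h6 : (p : ℝ) - 1 ≠ 0 := by linarith
    field_simp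
    ring
  have h7 : (Nat.totient n : ℝ) * (∏ p ∈ n.primeFactors, (1 + 1 / (Nat.totient p : ℝ))) *
      ∏ p ∈ n.primeFactors, ((p : ℝ) - 1) = n * ∏ p ∈ n.primeFactors, ((p : ℝ) - 1) := by
    rw [mul_assoc, h5, h3]
  exact (mul_right_cancel₀ hpos.ne' h7).symm

theorem GW_split (D D' : ℕ) (h : D ≤ D') (y : ℝ) :
    GW D y = ∑ d ∈ Nat.divisors (∏ p ∈ Ps D D', p),
      (1 / (Nat.totient d : ℝ)) * GW D' (y / d) := by
  obtain ⟨V, hV⟩ : ∃ V, V = ∏ p ∈ Ps D D', p := ⟨_, rfl⟩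
  have hVsq : Squarefree V := hV ▸ S03_sq D D'
  have hVW : Nat.Coprime V (Wd D) := hV ▸ S03_cop D D'
  have hVpos : 0 < V := hV ▸ S03_V_pos D D'
  have hWd : Wd D' = Wd D * V := hV ▸ S03_Wd h
  rw [← hV]
  unfold GW
  simp only [Finset.mul_sum]
  rw [Finset.sum_sigma']
  refine Finset.sum_nbij' (fun r => ⟨Nat.gcd r V, r / Nat.gcd r V⟩) (fun x => x.1 * x.2)
    ?_ ?_ ?_ ?_ ?_
  · intro r hr
    rw [Finset.mem_filter, Finset.mem_Icc] at hr
    obtain ⟨⟨hr1, hry⟩, hrsq, hrW⟩ := hr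
    obtain ⟨d, hd⟩ : ∃ d, d = Nat.gcd r V := ⟨_, rfl⟩
    have hdr : d ∣ r := hd ▸ Nat.gcd_dvd_left r V
    have hdV : d ∣ V := hd ▸ Nat.gcd_dvd_right r V
    obtain ⟨m, hm⟩ := hdr
    have hd0 : 0 < d := Nat.pos_of_dvd_of_pos hdV hVpos
    have hrd : r / Nat.gcd r V = m := by rw [← hd, hm, Nat.mul_div_cancel_left _ hd0]
    have hcop : Nat.Coprime d m := Nat.coprime_of_squarefree_mul (hm ▸ hrsq)
    have hm1 : 1 ≤ m := by
      rcases Nat.eq_zero_or_pos m with h0 | h0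
      · rw [h0, mul_zero] at hm; omega
      · exact h0
    have hmr : m ∣ r := ⟨d, by rw [hm, mul_comm]⟩
    have hmV : Nat.Coprime m V := by
      have h1 : Nat.gcd m V ∣ d := by
        rw [hd]
        exact Nat.dvd_gcd ((Nat.gcd_dvd_left m V).trans hmr) (Nat.gcd_dvd_right m V)
      have h2 : Nat.gcd m V ∣ Nat.gcd d m := Nat.dvd_gcd h1 (Nat.gcd_dvd_left m V)
      rw [Nat.Coprime] at hcop
      rw [hcop] at h2
      exact Nat.dvd_one.1 h2
    simp only [Finset.mem_sigma, Nat.mem_divisors, Finset.mem_filter, Finset.mem_Icc]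
    rw [hrd, ← hd]
    refine ⟨⟨hdV, by omega⟩, ⟨hm1, ?_⟩, hrsq.squarefree_of_dvd hmr, ?_⟩
    · refine Nat.le_floor ?_
      rw [le_div_iff₀ (by exact_mod_cast hd0)]
      have h3 : (r : ℝ) ≤ y := (Nat.le_floor_iff' (by omega)).1 hry
      rw [hm, Nat.cast_mul] at h3
      linarith
    · rw [hWd]
      exact Nat.Coprime.mul_right (hrW.coprime_dvd_left hmr) hmV
  · rintro ⟨d, m⟩ hx
    simp only [Finset.mem_sigma, Nat.mem_divisors, Finset.mem_filter, Finset.mem_Icc] at hx ⊢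
    obtain ⟨⟨hdV, -⟩, ⟨hm1, hmy⟩, hmsq, hmW⟩ := hx
    rw [hWd] at hmW
    have hmW1 : Nat.Coprime m (Wd D) := hmW.coprime_mul_right_right
    have hmV : Nat.Coprime m V := hmW.coprime_mul_left_right
    have hd0 : 0 < d := Nat.pos_of_dvd_of_pos hdV hVpos
    have hdm : Nat.Coprime d m := (hmV.coprime_dvd_right hdV).symm
    refine ⟨⟨Nat.mul_pos hd0 (by omega), ?_⟩, ?_, ?_⟩
    · refine Nat.le_floor ?_
      have h3 : (m : ℝ) ≤ y / d := (Nat.le_floor_iff' (by omega)).1 hmy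
      rw [le_div_iff₀ (by exact_mod_cast hd0)] at h3
      rw [Nat.cast_mul]
      linarith
    · exact (Nat.squarefree_mul hdm).2 ⟨hVsq.squarefree_of_dvd hdV, hmsq⟩
    · exact Nat.Coprime.mul_left (hVW.coprime_dvd_left hdV) hmW1
  · intro r hr
    exact Nat.mul_div_cancel' (Nat.gcd_dvd_left r V)
  · rintro ⟨d, m⟩ hx
    simp only [Finset.mem_sigma, Nat.mem_divisors, Finset.mem_filter, Finset.mem_Icc] at hx
    obtain ⟨⟨hdV, -⟩, ⟨hm1, hmy⟩, hmsq, hmW⟩ := hx
    rw [hWd] at hmW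
    have hmV : Nat.Coprime m V := hmW.coprime_mul_left_right
    have hd0 : 0 < d := Nat.pos_of_dvd_of_pos hdV hVpos
    have h1 : Nat.gcd (d * m) V = d := by
      rw [Nat.Coprime.gcd_mul_right_cancel d hmV]
      exact Nat.gcd_eq_left hdV
    simp only [h1, Nat.mul_div_cancel_left m hd0]
  · intro r hr
    rw [Finset.mem_filter, Finset.mem_Icc] at hr
    obtain ⟨⟨hr1, hry⟩, hrsq, hrW⟩ := hr
    have h1 : Nat.gcd r V * (r / Nat.gcd r V) = r := Nat.mul_div_cancel' (Nat.gcd_dvd_left r V)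
    have hcop : Nat.Coprime (Nat.gcd r V) (r / Nat.gcd r V) :=
      Nat.coprime_of_squarefree_mul (by rw [h1]; exact hrsq)
    have h2 : Nat.totient r = Nat.totient (Nat.gcd r V) * Nat.totient (r / Nat.gcd r V) := by
      rw [← Nat.totient_mul hcop, h1]
    simp only
    rw [h2, Nat.cast_mul, one_div_mul_one_div]

theorem kap_split (D D' : ℕ) (h : D ≤ D') :
    kap D = kap D' * ∑ d ∈ Nat.divisors (∏ p ∈ Ps D D', p), 1 / (Nat.totient d : ℝ) := by
  obtain ⟨V, hV⟩ : ∃ V, V = ∏ p ∈ Ps D D', p := ⟨_, rfl⟩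
  have hVsq : Squarefree V := hV ▸ S03_sq D D'
  have hVW : Nat.Coprime V (Wd D) := hV ▸ S03_cop D D'
  have hVpos : 0 < V := hV ▸ S03_V_pos D D'
  have hWd : Wd D' = Wd D * V := hV ▸ S03_Wd h
  have h1 := S03_sum_div hVsq
  rw [← hV]
  unfold kap
  rw [hWd, Nat.totient_mul hVW.symm]
  have hW0 : (Wd D : ℝ) ≠ 0 := by exact_mod_cast (S03_Wd_pos D).ne'
  have hV0 : (V : ℝ) ≠ 0 := by exact_mod_cast hVpos.ne'
  push_cast
  rw [div_mul_eq_mul_div, mul_assoc, ← h1]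
  field_simp

theorem GW_log_le (D : ℕ) (hD : 1 ≤ D) (y : ℝ) (hy : 1 ≤ y) :
    GW D y ≤ 3 * (1 + Real.log y) := by
  have h1 := GW_le D hD y hy
  have h2 := Hs_le D y hy
  have h3 : (1 + 2 / (D : ℝ)) ≤ 3 := by
    have h4 : (1 : ℝ) ≤ D := by exact_mod_cast hD
    have h5 : 2 / (D : ℝ) ≤ 2 := by
      rw [div_le_iff₀ (by linarith)]
      linarith
    linarith
  have h6 : 0 ≤ Hs D y := by
    unfold Hs
    exact Finset.sum_nonneg fun m _ => by positivity
  nlinarith [Real.log_nonneg hy]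

private theorem S03_lim (D' : ℕ) (V : ℕ) :
    Tendsto (fun y : ℝ => ∑ d ∈ V.divisors, (1 / (Nat.totient d : ℝ)) *
      (Hs D' (y / d) / Real.log y)) atTop
      (nhds (kap D' * ∑ d ∈ V.divisors, 1 / (Nat.totient d : ℝ))) := by
  rw [Finset.mul_sum]
  refine tendsto_finsetSum _ fun d hd => ?_
  have hd0 : (0 : ℝ) < d := by exact_mod_cast Nat.pos_of_mem_divisors hd
  rw [mul_comm (kap D')]
  refine Tendsto.const_mul _ ?_
  have h1 : Tendsto (fun y : ℝ => y / d) atTop atTop := tendsto_id.atTop_div_const hd0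
  have h2 : Tendsto (fun y : ℝ => Hs D' (y / d) / Real.log (y / d)) atTop (nhds (kap D')) :=
    (Hs_tendsto D').comp h1
  have h3 : Tendsto (fun y : ℝ => Real.log (y / d) / Real.log y) atTop (nhds 1) := by
    have h4 : Tendsto (fun y : ℝ => 1 - Real.log d / Real.log y) atTop (nhds (1 - 0)) :=
      Tendsto.const_sub _ (Tendsto.const_div_atTop Real.tendsto_log_atTop _)
    rw [sub_zero] at h4
    refine h4.congr' ?_
    filter_upwards [eventually_gt_atTop (1 : ℝ)] with y hy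
    have h5 : 0 < Real.log y := Real.log_pos hy
    rw [Real.log_div (by linarith) hd0.ne', sub_div, div_self h5.ne']
  have h6 := h2.mul h3
  rw [mul_one] at h6
  refine h6.congr' ?_
  filter_upwards [eventually_gt_atTop (d : ℝ), eventually_gt_atTop (1 : ℝ)] with y hy hy1
  have h7 : 0 < Real.log (y / d) := Real.log_pos (by rw [lt_div_iff₀ hd0]; linarith)
  have h8 : 0 < Real.log y := Real.log_pos hy1
  field_simp

theorem GW_tendsto (D : ℕ) :
    Tendsto (fun y : ℝ => GW D y / Real.log y) atTop (nhds (kap D)) := by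
  rw [Metric.tendsto_atTop]
  intro ε hε
  obtain ⟨D', hD'D, hD'1, hD'ε⟩ : ∃ D' : ℕ, D ≤ D' ∧ 1 ≤ D' ∧ 8 / ε ≤ D' := by
    obtain ⟨N, hN⟩ := exists_nat_ge (8 / ε)
    refine ⟨max D (max 1 N), le_max_left _ _, (le_max_left _ _).trans (le_max_right _ _), ?_⟩
    refine hN.trans ?_
    exact_mod_cast (le_max_right 1 N).trans (le_max_right D (max 1 N))
  obtain ⟨V, hV⟩ : ∃ V, V = ∏ p ∈ Ps D D', p := ⟨_, rfl⟩
  have hVpos : 0 < V := hV ▸ S03_V_pos D D'
  have hlim := S03_lim D' V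
  have hk := kap_split D D' hD'D
  rw [← hV] at hk
  rw [← hk, Metric.tendsto_atTop] at hlim
  obtain ⟨δ, hδ⟩ : ∃ δ : ℝ, δ = min (ε / 2) 1 := ⟨_, rfl⟩
  have hδ0 : 0 < δ := by rw [hδ]; exact lt_min (by linarith) one_pos
  have hδ1 : δ ≤ 1 := by rw [hδ]; exact min_le_right _ _
  have hδ2 : δ ≤ ε / 2 := by rw [hδ]; exact min_le_left _ _
  obtain ⟨N, hN⟩ := hlim δ hδ0
  refine ⟨max N (max V 2), fun y hy => ?_⟩
  have hyN : N ≤ y := (le_max_left _ _).trans hy
  have hyV : (V : ℝ) ≤ y := ((le_max_left _ _).trans (le_max_right _ _)).trans hy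
  have hy2 : 2 ≤ y := ((le_max_right _ _).trans (le_max_right _ _)).trans hy
  have hly : 0 < Real.log y := Real.log_pos (by linarith)
  have h1 := hN y hyN
  obtain ⟨G, hG⟩ : ∃ G : ℝ, G = ∑ d ∈ V.divisors, (1 / (Nat.totient d : ℝ)) *
      (Hs D' (y / d) / Real.log y) := ⟨_, rfl⟩
  rw [← hG, Real.dist_eq, abs_lt] at h1
  have hG0 : 0 ≤ G := by
    rw [hG]
    refine Finset.sum_nonneg fun d _ => mul_nonneg (by positivity) (div_nonneg ?_ hly.le)
    unfold Hs
    exact Finset.sum_nonneg fun m _ => by positivity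
  have hD0 : (0 : ℝ) < D' := by exact_mod_cast hD'1
  have hsplit : GW D y / Real.log y = ∑ d ∈ V.divisors, (1 / (Nat.totient d : ℝ)) *
      (GW D' (y / d) / Real.log y) := by
    rw [GW_split D D' hD'D y, ← hV, Finset.sum_div]
    refine Finset.sum_congr rfl fun d _ => ?_
    rw [mul_div_assoc]
  have hyd : ∀ d ∈ V.divisors, 1 ≤ y / (d : ℝ) := by
    intro d hd
    have hd0 : (0 : ℝ) < d := by exact_mod_cast Nat.pos_of_mem_divisors hd
    rw [le_div_iff₀ hd0, one_mul]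
    have h2 : (d : ℝ) ≤ V := by exact_mod_cast Nat.divisor_le hd
    linarith
  have hup : GW D y / Real.log y ≤ (1 + 2 / (D' : ℝ)) * G := by
    rw [hsplit, hG, Finset.mul_sum]
    refine Finset.sum_le_sum fun d hd => ?_
    have h2 := GW_le D' hD'1 (y / d) (hyd d hd)
    have h3 : GW D' (y / d) / Real.log y ≤ (1 + 2 / (D' : ℝ)) * Hs D' (y / d) / Real.log y :=
      div_le_div_of_nonneg_right h2 hly.le
    have h4 : (0 : ℝ) ≤ 1 / (Nat.totient d : ℝ) := by positivity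
    calc (1 / (Nat.totient d : ℝ)) * (GW D' (y / d) / Real.log y)
        ≤ (1 / (Nat.totient d : ℝ)) * ((1 + 2 / (D' : ℝ)) * Hs D' (y / d) / Real.log y) :=
          mul_le_mul_of_nonneg_left h3 h4
      _ = _ := by ring
  have hlo : (1 - 1 / (D' : ℝ)) * G ≤ GW D y / Real.log y := by
    rw [hsplit, hG, Finset.mul_sum]
    refine Finset.sum_le_sum fun d hd => ?_
    have h2 := GW_ge D' hD'1 (y / d) (hyd d hd)
    have h3 : (1 - 1 / (D' : ℝ)) * Hs D' (y / d) / Real.log y ≤ GW D' (y / d) / Real.log y :=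
      div_le_div_of_nonneg_right h2 hly.le
    have h4 : (0 : ℝ) ≤ 1 / (Nat.totient d : ℝ) := by positivity
    calc (1 - 1 / (D' : ℝ)) * ((1 / (Nat.totient d : ℝ)) * (Hs D' (y / d) / Real.log y))
        = (1 / (Nat.totient d : ℝ)) * ((1 - 1 / (D' : ℝ)) * Hs D' (y / d) / Real.log y) := by
          ring
      _ ≤ _ := mul_le_mul_of_nonneg_left h3 h4
  have hk1 := kap_le_one D
  have hG2 : G ≤ 2 := by linarith
  have h8 : 1 / (D' : ℝ) ≤ ε / 8 := by
    rw [div_le_iff₀ hε] at hD'ε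
    rw [div_le_div_iff₀ hD0 (by norm_num)]
    linarith
  have h9 : 2 / (D' : ℝ) = 2 * (1 / (D' : ℝ)) := by ring
  have h10 : 0 < 1 / (D' : ℝ) := by positivity
  have h11 : 1 / (D' : ℝ) * G ≤ ε / 8 * 2 := by
    exact mul_le_mul h8 hG2 hG0 (by linarith)
  rw [Real.dist_eq, abs_lt]
  rw [h9] at hup
  constructor
  · nlinarith
  · nlinarith

end BVM

end
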