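import Pool.Agent.helper31.BVM.Defs

/-!
# BVM-T01: tensor operators compose locally

PROOF. Unfold `TA`. `TA M (TA N f) c = ∑_{c'} (∏_p M p (c p) (c' p)) ∑_{c''} (∏_p N p (c' p) (c'' p)) f c''`.
Exchange the sums (`Finset.sum_comm`), combine the two products (`Finset.prod_mul_distrib`), and
use `∑_{c' : ι → Option I} ∏_p g p (c' p) = ∏_p ∑_w g p w` (`Finset.prod_univ_sum` together with
`Fintype.piFinset_univ`, or `Fintype.sum_prod_univ...`: search `Finset.prod_univ_sum`).
The quadratic form version: expand
`QF M (TA N f) = ∑_{c,c'} ∏_p M p (c p)(c' p) ∑_{d,d'} ∏_p N p (c p)(d p) ∏_p N p (c' p)(d' p) f d f d'`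
and sum over `c`, `c'` first, with the same identity used twice.
-/

noncomputable section

namespace BVM

open Finset

variable {ι I : Type*} [Fintype ι] [DecidableEq ι] [Fintype I] [DecidableEq I]

theorem sum_prod_cfg (g : ι → Option I → ℝ) :
    ∑ c : ι → Option I, ∏ p, g p (c p) = ∏ p, ∑ x : Option I, g p x := by
  exact (Fintype.prod_sum g).symm

theorem TA_TA (M N : ι → Option I → Option I → ℝ) (f : (ι → Option I) → ℝ)
    (c : ι → Option I) :
    TA M (TA N f) c = TA (fun p x y => ∑ w : Option I, M p x w * N p w y) f c := by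
  unfold TA
  simp only [Finset.mul_sum]
  rw [Finset.sum_comm]
  refine Finset.sum_congr rfl fun d _ => ?_
  rw [← sum_prod_cfg (fun p w => M p (c p) w * N p w (d p)), Finset.sum_mul]
  refine Finset.sum_congr rfl fun c' _ => ?_
  rw [Finset.prod_mul_distrib]
  ring

theorem QF_TA (M N : ι → Option I → Option I → ℝ) (f : (ι → Option I) → ℝ) :
    QF M (TA N f) =
      QF (fun p x y => ∑ u : Option I, ∑ v : Option I, N p u x * M p u v * N p v y) f := by
  unfold QF TA
  have h1 : ∀ d d' : ι → Option I,
      (∏ p, ∑ u : Option I, ∑ v : Option I, N p u (d p) * M p u v * N p v (d' p)) =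
      ∑ c : ι → Option I, ∑ c' : ι → Option I,
        ∏ p, (N p (c p) (d p) * M p (c p) (c' p) * N p (c' p) (d' p)) := by
    intro d d'
    rw [← sum_prod_cfg (fun p u => ∑ v : Option I, N p u (d p) * M p u v * N p v (d' p))]
    refine Finset.sum_congr rfl fun c _ => ?_
    rw [← sum_prod_cfg (fun p v => N p (c p) (d p) * M p (c p) v * N p v (d' p))]
  simp only [h1]
  have h2 : ∀ c c' : ι → Option I,
      (∏ p, M p (c p) (c' p)) *
        ((∑ d : ι → Option I, (∏ p, N p (c p) (d p)) * f d) *
          ∑ d' : ι → Option I, (∏ p, N p (c' p) (d' p)) * f d') =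
      ∑ d : ι → Option I, ∑ d' : ι → Option I,
        (∏ p, (N p (c p) (d p) * M p (c p) (c' p) * N p (c' p) (d' p))) * (f d * f d') := by
    intro c c'
    rw [Finset.sum_mul_sum, Finset.mul_sum]
    refine Finset.sum_congr rfl fun d _ => ?_
    rw [Finset.mul_sum]
    refine Finset.sum_congr rfl fun d' _ => ?_
    rw [Finset.prod_mul_distrib, Finset.prod_mul_distrib]
    ring
  simp only [h2]
  simp only [Finset.sum_mul]
  rw [Finset.sum_congr rfl fun c _ => Finset.sum_comm, Finset.sum_comm]
  refine Finset.sum_congr rfl fun d _ => ?_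
  rw [Finset.sum_congr rfl fun c _ => Finset.sum_comm, Finset.sum_comm]

end BVM

end
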