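import Pool.Agent.helper31.BVM.T01

/-!
# BVM-T02: inversion of `Zk`

PROOF. By `TA_TA` the composite of `Zk s` and `Zk t` has local kernel
`∑_w Zk s x w * Zk t w y`. On `Option I` (use `Fintype.sum_option`) this is
`none, none`: `1`; `none, some j`: `1 * t + ∑_i s * [i = j] = t + s`; `some i, some j`: `[i = j]`;
`some i, none`: `0`. So it is `Zk (s + t)`. For `t = 0` the kernel `∏_p Zk 0 (c p) (c' p)` is
`1` if `c = c'` and `0` otherwise (`Zk 0 x y = if x = y then 1 else 0`).
-/

noncomputable section

namespace BVM

open Finset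

variable {ι I : Type*} [Fintype ι] [DecidableEq ι] [Fintype I] [DecidableEq I]

omit [Fintype ι] [DecidableEq ι] in
private theorem T02_kernel (s t : ℝ) (x y : Option I) :
    ∑ w : Option I, Zk s x w * Zk t w y = Zk (s + t) x y := by
  rw [Fintype.sum_option]
  cases x with
  | none =>
    cases y with
    | none => simp [Zk]
    | some j => simp [Zk, add_comm]
  | some i =>
    cases y with
    | none => simp [Zk]
    | some j => simp [Zk]

theorem TA_Zk_Zk (s t : ι → ℝ) (f : (ι → Option I) → ℝ) :
    TA (fun p => Zk (s p)) (TA (fun p => Zk (t p)) f) = TA (fun p => Zk (s p + t p)) f := by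
  funext c
  rw [TA_TA]
  simp only [T02_kernel]

theorem TA_Zk_zero (f : (ι → Option I) → ℝ) : TA (fun _ => Zk 0) f = f := by
  funext c
  unfold TA
  rw [Finset.sum_eq_single c]
  · have h1 : ∏ p, Zk (0 : ℝ) (c p) (c p) = 1 := by
      refine Finset.prod_eq_one fun p _ => ?_
      cases c p <;> simp [Zk]
    rw [h1, one_mul]
  · intro c' _ hne
    obtain ⟨p, hp⟩ : ∃ p, c' p ≠ c p := by
      by_contra hcon
      push Not at hcon
      exact hne (funext hcon)
    have h1 : ∏ p, Zk (0 : ℝ) (c p) (c' p) = 0 := by
      refine Finset.prod_eq_zero (Finset.mem_univ p) ?_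
      revert hp
      cases c' p with
      | none =>
        cases c p with
        | none => simp
        | some j => simp [Zk]
      | some i =>
        cases c p with
        | none => simp [Zk]
        | some j =>
          intro h
          have h2 : ¬ j = i := fun h3 => h (by rw [h3])
          simp [Zk, h2]
    rw [h1, zero_mul]
  · intro h
    exact absurd (Finset.mem_univ c) h

theorem TA_Zk_inv (t : ι → ℝ) (f : (ι → Option I) → ℝ) :
    TA (fun p => Zk (t p)) (TA (fun p => Zk (-(t p))) f) = f := by
  rw [TA_Zk_Zk]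
  have h : (fun p => Zk (I := I) (t p + -(t p))) = fun _ => Zk 0 := by
    funext p
    rw [add_neg_cancel]
  rw [h, TA_Zk_zero]

theorem TA_Zk_inv' (t : ι → ℝ) (f : (ι → Option I) → ℝ) :
    TA (fun p => Zk (-(t p))) (TA (fun p => Zk (t p)) f) = f := by
  rw [TA_Zk_Zk]
  have h : (fun p => Zk (I := I) (-(t p) + t p)) = fun _ => Zk 0 := by
    funext p
    rw [neg_add_cancel]
  rw [h, TA_Zk_zero]

/-- `TA (Zk t) f` at `c` only involves configurations containing `c`: explicit form. -/
theorem TA_Zk_apply (t : ι → ℝ) (f : (ι → Option I) → ℝ) (c : ι → Option I) :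
    TA (fun p => Zk (t p)) f c =
      ∑ c' : ι → Option I, (if ∀ p, c p = none ∨ c p = c' p then
        (∏ p, if c p = none ∧ c' p ≠ none then t p else 1) * f c' else 0) := by
  unfold TA
  refine Finset.sum_congr rfl fun c' _ => ?_
  split_ifs with h
  · congr 1
    refine Finset.prod_congr rfl fun p _ => ?_
    rcases h p with h1 | h1
    · rw [h1]
      cases c' p <;> simp [Zk]
    · rw [← h1]
      cases c p <;> simp [Zk]
  · push Not at h
    obtain ⟨p, hp1, hp2⟩ := h
    have h1 : ∏ p, Zk (t p) (c p) (c' p) = 0 := by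
      refine Finset.prod_eq_zero (Finset.mem_univ p) ?_
      revert hp1 hp2
      cases c p with
      | none => simp
      | some i =>
        cases c' p with
        | none => simp [Zk]
        | some j =>
          intro _ h
          have h2 : ¬ i = j := fun h3 => h (by rw [h3])
          simp [Zk, h2]
    rw [h1, zero_mul]

/-- If `f` vanishes on the configurations carrying the label `m`, so does `TA (Zk t) f`. -/
theorem TA_Zk_vanish (t : ι → ℝ) (f : (ι → Option I) → ℝ) (m : I)
    (hf : ∀ c, ¬ NoLab {m} c → f c = 0) (c : ι → Option I) (hc : ¬ NoLab {m} c) :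
    TA (fun p => Zk (t p)) f c = 0 := by
  rw [TA_Zk_apply]
  refine Finset.sum_eq_zero fun c' _ => ?_
  split_ifs with h
  · have h1 : f c' = 0 := by
      refine hf c' fun h2 => hc fun p j hj hcj => ?_
      rcases h p with h3 | h3
      · rw [h3] at hcj
        exact absurd hcj (by simp)
      · exact h2 p j hj (by rw [← h3]; exact hcj)
    rw [h1, mul_zero]
  · rfl

end BVM

end
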