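import Pool.Agent.helper31.BVM.T02

/-!
# BVM-T03: the quadratic form in `z` coordinates

PROOF. By `QF_TA` (T01) with `M = Bt t`, `N = Zk t`, it is enough that
`∑_u ∑_v Zk t u x * Bt t u v * Zk t v y = Bk t x y` for all `x y : Option I`
(then `QF (Bt t) (TA (Zk t) f) = QF (fun p x y => Bk (t p) x y) f`; use `funext`).
The column `x = none` of `Zk t` is `(1, 0, ..., 0)`, the column `x = some i` has entry `t` at `none`
and `1` at `some i`. So: `none, none`: `1`. `none, some j`: `1 * 1 * t + 0 = t`.
`some i, some j`: `t * 1 * t + Bt t (some i) (some j) = t^2 + t ([i=j] - t) = t [i = j]`.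
Use `Fintype.sum_option` and `Finset.sum_ite_eq`.
-/

noncomputable section

namespace BVM

open Finset

variable {ι I : Type*} [Fintype ι] [DecidableEq ι] [Fintype I] [DecidableEq I]

theorem QF_Bk_eq (t : ι → ℝ) (f : (ι → Option I) → ℝ) :
    QF (fun p => Bk (t p)) f = QF (fun p => Bt (t p)) (TA (fun p => Zk (t p)) f) := by
  rw [QF_TA]
  congr 1
  funext p x y
  rcases x with _ | i <;> rcases y with _ | j
  · simp [Fintype.sum_option, Bk, Bt, Zk]
  · simp [Fintype.sum_option, Bk, Bt, Zk]
  · simp [Fintype.sum_option, Bk, Bt, Zk]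
  · have h1 : ∀ u : I, ∑ v : I, (if u = i then (1 : ℝ) else 0) * (t p * ((if u = v then 1 else 0) - t p)) *
        (if v = j then 1 else 0) = if u = i then t p * ((if i = j then 1 else 0) - t p) else 0 := by
      intro u
      by_cases hu : u = i
      · subst hu
        simp only [if_true, one_mul, mul_ite, mul_one, mul_zero]
        rw [Finset.sum_ite_eq' Finset.univ j]
        simp
      · simp [hu]
    simp only [Fintype.sum_option, Bk, Bt, Zk]
    simp only [h1]
    by_cases hij : i = j
    · simp only [hij, if_true, mul_one, one_mul, Finset.sum_ite_eq', Finset.mem_univ]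
      simp
      try ring
    · simp only [hij, if_false]
      simp [hij]

end BVM

end
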