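import Pool.Agent.helper31.BVM.T01

/-!
# BVM-T05: the composite transform

PROOF. `lam τ y = TA (Zk (-t)) (zc τ y)`, `t = τ/(1+τ)`, `zc τ y c = wt (-(1+τ)) c * y c`.
By `TA_TA` twice the left side is `TA K (zc τ y) c` with local kernel
`K x y = ∑_u ∑_v Zk τ x u * Dk M u v * Zk (-t) v y` (compute with `Fintype.sum_option`):
`none, none`: `1`; `none, some j` with `j ∈ M`: `-t`; `none, some j` with `j ∉ M`: `-t + τ`;
`some i, some j`: `[i = j, i ∉ M]`; `some i, none`: `0`.
Now `zc` contributes the factor `-(1+τ)` at every labelled prime, and
`(-t)(-(1+τ)) = τ`, `(τ - t)(-(1+τ)) = -τ^2` (as `τ - t = τ^2/(1+τ)`), while on a prime where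
`c p = some i`, `c' p = some i`, the factor is `-(1+τ)`, which is the factor of `wt (-(1+τ)) c`.
So prime by prime `K (c p) (c' p) * (if c' p = none then 1 else -(1+τ p)) =
(if c p = none then 1 else -(1+τ p)) * Sk M (τ p) (c p) (c' p)`; multiply over `p`
(`Finset.prod_mul_distrib`) and sum over `c'`.
-/

noncomputable section

namespace BVM

open Finset

variable {ι I : Type*} [Fintype ι] [DecidableEq ι] [Fintype I] [DecidableEq I]

private theorem T05_dk (M : Finset I) (f : Option I → ℝ) (x : Option I) :
    ∑ v : Option I, Dk M x v * f v = Option.elim x (f none) (fun i => if i ∈ M then 0 else f (some i)) := by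
  rw [Fintype.sum_option]
  cases x with
  | none => simp [Dk]
  | some i =>
    simp only [Dk, zero_mul, zero_add, Option.elim]
    rw [Finset.sum_eq_single i]
    · by_cases h : i ∈ M <;> simp [h]
    · intro j _ hj
      rw [if_neg (fun h => hj h.1.symm), zero_mul]
    · intro h
      exact absurd (Finset.mem_univ i) h

private theorem T05_local (M : Finset I) {τ : ℝ} (hτ : 0 ≤ τ) (x y : Option I) :
    (∑ w : Option I, Zk τ x w * ∑ v : Option I, Dk M w v * Zk (-(τ / (1 + τ))) v y) *
        (if y = none then 1 else -(1 + τ)) =
      (if x = none then 1 else -(1 + τ)) * Sk M τ x y := by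
  have h1 : (1 + τ) ≠ 0 := by positivity
  simp only [T05_dk M (fun v => Zk (-(τ / (1 + τ))) v y)]
  rw [Fintype.sum_option]
  cases x with
  | none =>
    simp only [Zk, Option.elim, one_mul]
    rw [← Finset.mul_sum]
    cases y with
    | none => simp [Sk]
    | some j =>
      have e1 : ∑ i : I, (if i ∈ M then (0 : ℝ) else Zk (-(τ / (1 + τ))) (some i) (some j)) =
          if j ∈ M then 0 else 1 := by
        rw [Finset.sum_eq_single j]
        · simp [Zk]
        · intro i _ hij
          simp [Zk, hij]
        · intro h
          exact absurd (Finset.mem_univ j) h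
      simp only [Zk] at e1 ⊢
      rw [e1]
      by_cases hj : j ∈ M
      · simp only [hj, if_true, Sk, reduceCtorEq, if_false]
        field_simp
        ring
      · simp only [hj, if_true, Sk, reduceCtorEq, if_false]
        field_simp
        ring
  | some i =>
    simp only [Zk, Option.elim, zero_mul, zero_add]
    rw [Finset.sum_eq_single i]
    · cases y with
      | none => simp [Sk]
      | some j =>
        by_cases hi : i ∈ M
        · simp [Sk, hi]
        · by_cases hij : i = j
          · subst hij
            simp [Sk, hi]
          · simp [Sk, hi, hij]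
    · intro k _ hk
      rw [if_neg (Ne.symm hk), zero_mul]
    · intro h
      exact absurd (Finset.mem_univ i) h

theorem TA_composite (M : Finset I) (τ : ι → ℝ) (hτ : ∀ p, 0 ≤ τ p)
    (y : (ι → Option I) → ℝ) (c : ι → Option I) :
    TA (fun p => Zk (τ p)) (TA (fun _ => Dk M) (lam τ y)) c =
      wt (fun p => -(1 + τ p)) c * TA (fun p => Sk M (τ p)) y c := by
  have e0 : TA (fun _ => Dk M) (lam τ y) = TA (fun p x y => ∑ w : Option I,
      Dk M x w * Zk (-(τ p / (1 + τ p))) w y) (zc τ y) := by
    funext d
    exact TA_TA (fun _ => Dk M) (fun p => Zk (-(τ p / (1 + τ p)))) (zc τ y) d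
  rw [e0, TA_TA]
  unfold TA
  rw [Finset.mul_sum]
  apply Finset.sum_congr rfl
  intro c' _
  have e1 : (∏ p, ∑ w : Option I, Zk (τ p) (c p) w * ∑ v : Option I,
      Dk M w v * Zk (-(τ p / (1 + τ p))) v (c' p)) * wt (fun p => -(1 + τ p)) c' =
      wt (fun p => -(1 + τ p)) c * ∏ p, Sk M (τ p) (c p) (c' p) := by
    unfold wt
    rw [← Finset.prod_mul_distrib, ← Finset.prod_mul_distrib]
    exact Finset.prod_congr rfl fun p _ => T05_local M (hτ p) (c p) (c' p)
  unfold zc
  rw [← mul_assoc, e1, mul_assoc]

/-- `Dk M` keeps the configurations without labels in `M` and kills the others. -/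
theorem TA_Dk (M : Finset I) (f : (ι → Option I) → ℝ) (c : ι → Option I) :
    (NoLab M c → TA (fun _ => Dk M) f c = f c) ∧
      (¬ NoLab M c → TA (fun _ => Dk M) f c = 0) := by
  constructor
  · intro h
    unfold TA
    rw [Finset.sum_eq_single c]
    · have e1 : ∏ p, Dk M (c p) (c p) = 1 := by
        apply Finset.prod_eq_one
        intro p _
        cases hc : c p with
        | none => rfl
        | some i =>
          have hi : i ∉ M := fun hi => h p i hi hc
          simp [Dk, hi]
      rw [e1, one_mul]
    · intro c' _ hc'
      have e1 : ∏ p, Dk M (c p) (c' p) = 0 := by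
        by_contra hne
        apply hc'
        funext p
        have h1 : Dk M (c p) (c' p) ≠ 0 := fun h0 => hne (Finset.prod_eq_zero (Finset.mem_univ p) h0)
        revert h1
        cases c p with
        | none =>
          cases c' p with
          | none => exact fun _ => rfl
          | some j => exact fun h1 => absurd rfl h1
        | some i =>
          cases c' p with
          | none => exact fun h1 => absurd rfl h1
          | some j =>
            intro h1
            by_cases hij : i = j
            · rw [hij]
            · exact absurd (by simp [Dk, hij]) h1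
      rw [e1, zero_mul]
    · intro h0
      exact absurd (Finset.mem_univ c) h0
  · intro h
    unfold NoLab at h
    push Not at h
    obtain ⟨p, j, hj, hp⟩ := h
    unfold TA
    apply Finset.sum_eq_zero
    intro c' _
    have e1 : ∏ p, Dk M (c p) (c' p) = 0 := by
      apply Finset.prod_eq_zero (Finset.mem_univ p)
      rw [hp]
      cases c' p with
      | none => rfl
      | some i => simp [Dk, hj]
    rw [e1, zero_mul]

end BVM

end
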