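import Pool.Agent.helper31.BVM.T08

/-!
# BVM-T09: the main kernel as a sum over overlays (proofs: helper51)

PROOF. In `TA (Sk0 M τ) y c = ∑_{c'} (∏_p Sk0 M (τ p) (c p) (c' p)) * y c'` the product is nonzero only
if for every `p`: `c p = some i` forces `c' p = some i` (and `i ∉ M`, true as `NoLab M c`), and
`c p = none` forces `c' p = none` (factor `1`) or `c' p = some j`, `j ∈ M` (factor `τ p`). So `c'`
is `jn c e` for the unique `e` with labels in `M` and support disjoint from `supp c`
(`e p = if c p = none then c' p else none`), and the product is `wt τ e`. Use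
`Finset.sum_bij'`/`Finset.sum_nbij'` after dropping the zero terms.
-/

noncomputable section

namespace BVM

open Finset

variable {ι I : Type*} [Fintype ι] [DecidableEq ι] [Fintype I] [DecidableEq I]

open Classical in
theorem TA_Sk0_eq (M : Finset I) (τ : ι → ℝ) (y : (ι → Option I) → ℝ) (c : ι → Option I)
    (hc : NoLab M c) :
    TA (fun p => Sk0 M (τ p)) y c =
      ∑ e ∈ univ.filter (fun e : ι → Option I =>
        (∀ p j, e p = some j → j ∈ M) ∧ Disjoint (supp e) (supp c)), wt τ e * y (jn c e) := by
  set Good : Finset (ι → Option I) := univ.filter fun c' : ι → Option I =>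
    ∀ p, (∀ i, c p = some i → c' p = some i) ∧ (c p = none → ∀ j, c' p = some j → j ∈ M) with hGood
  have h1 : TA (fun p => Sk0 M (τ p)) y c =
      ∑ c' ∈ Good, (∏ p, Sk0 M (τ p) (c p) (c' p)) * y c' := by
    unfold TA
    symm
    apply Finset.sum_subset (Finset.subset_univ _)
    intro c' _ hc'
    rw [hGood, Finset.mem_filter] at hc'
    push Not at hc'
    obtain ⟨p, hp⟩ := hc' (Finset.mem_univ _)
    have h0 : Sk0 M (τ p) (c p) (c' p) = 0 := by
      by_cases h2 : ∀ i, c p = some i → c' p = some i
      · obtain ⟨h3, j, h4, h5⟩ := hp h2
        rw [h3, h4]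
        simp only [Sk0]
        rw [if_neg h5]
      · push Not at h2
        obtain ⟨i, h3, h4⟩ := h2
        rw [h3]
        cases h5 : c' p with
        | none => rfl
        | some j =>
          simp only [Sk0]
          rw [if_neg]
          rintro ⟨h6, -⟩
          exact h4 (by rw [h5, h6])
    rw [Finset.prod_eq_zero (Finset.mem_univ p) h0, zero_mul]
  rw [h1]
  refine Finset.sum_nbij' (fun c' p => if (c p).isSome then none else c' p) (fun e => jn c e)
    ?_ ?_ ?_ ?_ ?_
  · intro c' hc'
    rw [hGood, Finset.mem_filter] at hc'
    rw [Finset.mem_filter]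
    refine ⟨Finset.mem_univ _, ?_, ?_⟩
    · intro p j hj
      cases h2 : c p with
      | none =>
        simp only [h2, Option.isSome_none, Bool.false_eq_true, if_false] at hj
        exact (hc'.2 p).2 h2 j hj
      | some i => simp [h2] at hj
    · rw [Finset.disjoint_left]
      intro p hp hp'
      simp only [supp, Finset.mem_filter, Finset.mem_univ, true_and] at hp hp'
      rw [if_pos (Option.isSome_iff_ne_none.2 hp')] at hp
      exact hp rfl
  · intro e he
    rw [Finset.mem_filter] at he
    rw [hGood, Finset.mem_filter]
    refine ⟨Finset.mem_univ _, fun p => ⟨fun i hi => ?_, fun hn j hj => ?_⟩⟩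
    · simp [jn, hi]
    · simp only [jn, hn, Option.isSome_none, Bool.false_eq_true, if_false] at hj
      exact he.2.1 p j hj
  · intro c' hc'
    rw [hGood, Finset.mem_filter] at hc'
    funext p
    cases h2 : c p with
    | none => simp [jn, h2]
    | some i =>
      have h3 := (hc'.2 p).1 i h2
      simp [jn, h2, h3]
  · intro e he
    rw [Finset.mem_filter] at he
    funext p
    cases h2 : c p with
    | none => simp [jn, h2]
    | some i =>
      have h3 : p ∉ supp e := by
        intro h4
        exact Finset.disjoint_left.1 he.2.2 h4 (by simp [supp, h2])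
      have h4 : e p = none := by
        by_contra h5
        exact h3 (by simp [supp, h5])
      simp [h2, h4]
  · intro c' hc'
    rw [hGood, Finset.mem_filter] at hc'
    have h3 : jn c (fun p => if (c p).isSome then none else c' p) = c' := by
      funext p
      cases h2 : c p with
      | none => simp [jn, h2]
      | some i =>
        have h3 := (hc'.2 p).1 i h2
        simp [jn, h2, h3]
    rw [h3]
    congr 1
    unfold wt
    refine Finset.prod_congr rfl fun p _ => ?_
    cases h2 : c p with
    | none =>
      cases h4 : c' p with
      | none => simp [Sk0, h2, h4]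
      | some j =>
        have h5 := (hc'.2 p).2 h2 j h4
        simp [Sk0, h2, h4, h5]
    | some i =>
      have h4 := (hc'.2 p).1 i h2
      have h5 : i ∉ M := fun hi => hc p i hi h2
      simp [Sk0, h2, h4, h5]

theorem TA_Sk0_nonneg (M : Finset I) (τ : ι → ℝ) (hτ : ∀ p, 0 ≤ τ p)
    (y : (ι → Option I) → ℝ) (hy : ∀ c, 0 ≤ y c) (c : ι → Option I) :
    0 ≤ TA (fun p => Sk0 M (τ p)) y c := by
  unfold TA
  refine Finset.sum_nonneg fun c' _ => mul_nonneg (Finset.prod_nonneg fun p _ => ?_) (hy c')
  cases c p with
  | none =>
    cases c' p with
    | none => simp [Sk0]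
    | some j =>
      simp only [Sk0]
      split_ifs
      · exact hτ p
      · exact le_rfl
  | some i =>
    cases c' p with
    | none => simp [Sk0]
    | some j =>
      simp only [Sk0]
      split_ifs
      · exact zero_le_one
      · exact le_rfl

/-- Parts of an overlay. -/
theorem part_jn (c e : ι → Option I) (hd : Disjoint (supp e) (supp c)) (i : I) :
    part (jn c e) i = part c i ∪ part e i := by
  ext p
  simp only [part, Finset.mem_union, Finset.mem_filter, Finset.mem_univ, true_and]
  cases h2 : c p with
  | none => simp [jn, h2]
  | some k =>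
    have h3 : p ∉ supp e := fun h4 => Finset.disjoint_left.1 hd h4 (by simp [supp, h2])
    have h4 : e p = none := by
      by_contra h5
      exact h3 (by simp [supp, h5])
    simp [jn, h2, h4]

theorem supp_jn (c e : ι → Option I) : supp (jn c e) = supp c ∪ supp e := by
  ext p
  simp only [supp, Finset.mem_union, Finset.mem_filter, Finset.mem_univ, true_and]
  cases h2 : c p with
  | none => simp [jn, h2]
  | some k => simp [jn, h2]

end BVM

end
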