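import Pool.Agent.helper31.BVM.V01

/-!
# BVM-V02: pointwise inequality for tuples, and expectations over product weights

PROOF of `tuple_pointwise`. All three subtracted sums are `≥ 0` (`ν ≥ 1`, `Q > 1`).
If the tuple is not pairwise disjoint, some `p ∈ f i ∩ f j`, `i ≠ j`, makes the second sum `≥ 1`, so the
left side is `≤ 0`. If it is pairwise disjoint but `∏_i sz ν (f i) > Q`, take logarithms: the third
sum is `> 1`. Otherwise use the Weierstrass inequality `1 - ∑ x ≤ ∏ (1 - x)` for `0 ≤ x ≤ 1`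
(`Finset.one_sub_sum_le_prod_one_sub` or by induction) over the pairs `(i, p)`, `p ∈ f i`.
PROOF of the expectations: `∑_f (∏_j F j (f j)) φ (f i) = ∏_j ∑_A F' j A` with `F' i = F i * φ`,
`F' j = F j` otherwise (`Finset.prod_univ_sum`), then split off the factor `i`
(`Finset.mul_prod_erase`).
-/

noncomputable section

namespace BVM

open Finset

variable {ι I : Type*} [Fintype ι] [DecidableEq ι] [Fintype I] [DecidableEq I]

private theorem V02_weier {β : Type*} (s : Finset β) (x : β → ℝ)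
    (h0 : ∀ b ∈ s, 0 ≤ x b) (h1 : ∀ b ∈ s, x b ≤ 1) :
    1 - ∑ b ∈ s, x b ≤ ∏ b ∈ s, (1 - x b) ∧ ∏ b ∈ s, (1 - x b) ≤ 1 ∧
      0 ≤ ∏ b ∈ s, (1 - x b) := by
  classical
  induction s using Finset.induction_on with
  | empty => simp
  | insert a s ha ih =>
    obtain ⟨i1, i2, i3⟩ := ih (fun b hb => h0 b (Finset.mem_insert_of_mem hb))
      (fun b hb => h1 b (Finset.mem_insert_of_mem hb))
    have a0 := h0 a (Finset.mem_insert_self a s)
    have a1 := h1 a (Finset.mem_insert_self a s)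
    rw [Finset.sum_insert ha, Finset.prod_insert ha]
    refine ⟨?_, ?_, ?_⟩
    · nlinarith
    · nlinarith
    · exact mul_nonneg (by linarith) i3

open Classical in
theorem tuple_pointwise (τ ν : ι → ℝ) (κ Q : ℝ) (hτ : ∀ p, 0 ≤ τ p) (hκ : 0 ≤ κ)
    (hκτ : ∀ p, κ * τ p ≤ 1) (hν : ∀ p, 1 ≤ ν p) (hQ : 1 < Q) (f : I → Finset ι) :
    1 - ∑ i, ∑ p ∈ f i, κ * τ p
      - ∑ i, ∑ j, (if i ≠ j then ∑ p, (if p ∈ f i ∧ p ∈ f j then (1 : ℝ) else 0) else 0)
      - ∑ i, Real.log (sz ν (f i)) / Real.log Q ≤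
    if (∀ i j, i ≠ j → Disjoint (f i) (f j)) ∧ ∏ i, sz ν (f i) ≤ Q then
      ∏ i, ∏ p ∈ f i, (1 - κ * τ p) else 0 := by
  have hsz : ∀ i, 1 ≤ sz ν (f i) := fun i => by
    unfold sz
    refine Finset.prod_induction _ (fun y => (1 : ℝ) ≤ y) (fun a b ha hb => ?_) (le_refl 1)
      fun p _ => hν p
    nlinarith
  have hlQ : 0 < Real.log Q := Real.log_pos hQ
  have hS1 : 0 ≤ ∑ i, ∑ p ∈ f i, κ * τ p :=
    Finset.sum_nonneg fun i _ => Finset.sum_nonneg fun p _ => mul_nonneg hκ (hτ p)
  have hpr : ∀ i j : I, 0 ≤ ∑ p, (if p ∈ f i ∧ p ∈ f j then (1 : ℝ) else 0) := fun i j =>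
    Finset.sum_nonneg fun p _ => by split_ifs <;> norm_num
  have hS2i : ∀ i j : I, 0 ≤
      (if i ≠ j then ∑ p, (if p ∈ f i ∧ p ∈ f j then (1 : ℝ) else 0) else 0) := fun i j => by
    split_ifs
    · exact hpr i j
    · exact le_refl 0
  have hS2 : 0 ≤ ∑ i, ∑ j, (if i ≠ j then ∑ p, (if p ∈ f i ∧ p ∈ f j then (1 : ℝ) else 0)
      else 0) := Finset.sum_nonneg fun i _ => Finset.sum_nonneg fun j _ => hS2i i j
  have hS3 : 0 ≤ ∑ i, Real.log (sz ν (f i)) / Real.log Q :=
    Finset.sum_nonneg fun i _ => div_nonneg (Real.log_nonneg (hsz i)) hlQ.le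
  by_cases hdis : ∀ i j, i ≠ j → Disjoint (f i) (f j)
  · by_cases hprod : ∏ i, sz ν (f i) ≤ Q
    · rw [if_pos ⟨hdis, hprod⟩]
      have h1 := (V02_weier (Finset.univ.sigma f) (fun b : (_ : I) × ι => κ * τ b.2)
        (fun b _ => mul_nonneg hκ (hτ _)) (fun b _ => hκτ _)).1
      rw [Finset.sum_sigma, Finset.prod_sigma] at h1
      linarith
    · rw [if_neg (fun h => hprod h.2)]
      push Not at hprod
      have h1 : ∑ i, Real.log (sz ν (f i)) / Real.log Q =
          Real.log (∏ i, sz ν (f i)) / Real.log Q := by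
        rw [Real.log_prod fun i _ => (by linarith [hsz i] : sz ν (f i) ≠ 0), Finset.sum_div]
      have h2 : 1 < Real.log (∏ i, sz ν (f i)) / Real.log Q := by
        rw [lt_div_iff₀ hlQ, one_mul]
        exact Real.log_lt_log (by linarith) hprod
      rw [← h1] at h2
      linarith
  · rw [if_neg (fun h => hdis h.1)]
    push Not at hdis
    obtain ⟨i, j, hij, hnd⟩ := hdis
    rw [Finset.not_disjoint_iff] at hnd
    obtain ⟨p, hpi, hpj⟩ := hnd
    have h1 : (1 : ℝ) ≤ ∑ p, (if p ∈ f i ∧ p ∈ f j then (1 : ℝ) else 0) := by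
      have h2 := Finset.single_le_sum (f := fun p => if p ∈ f i ∧ p ∈ f j then (1 : ℝ) else 0)
        (s := Finset.univ) (fun p _ => by split_ifs <;> norm_num) (Finset.mem_univ p)
      simp only [hpi, hpj, and_self, if_true] at h2
      exact h2
    have h3 := Finset.single_le_sum (f := fun j => if i ≠ j then
      ∑ p, (if p ∈ f i ∧ p ∈ f j then (1 : ℝ) else 0) else 0) (s := Finset.univ)
      (fun j _ => hS2i i j) (Finset.mem_univ j)
    rw [if_pos hij] at h3
    have h4 := Finset.single_le_sum (f := fun i => ∑ j, (if i ≠ j then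
      ∑ p, (if p ∈ f i ∧ p ∈ f j then (1 : ℝ) else 0) else 0)) (s := Finset.univ)
      (fun i _ => Finset.sum_nonneg fun j _ => hS2i i j) (Finset.mem_univ i)
    linarith

variable {α : Type*} [Fintype α]

omit [Fintype α] in
private theorem V02_update (F : I → α → ℝ) (φ : α → ℝ) (i : I) (f : I → α) :
    (∏ j, F j (f j)) * φ (f i) =
      ∏ j, Function.update F i (fun x => F i x * φ x) j (f j) := by
  rw [← Finset.mul_prod_erase _ _ (Finset.mem_univ i),
    ← Finset.mul_prod_erase Finset.univ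
      (fun j => Function.update F i (fun x => F i x * φ x) j (f j))
      (Finset.mem_univ i), Function.update_self]
  have h : ∏ x ∈ univ.erase i, Function.update F i (fun x => F i x * φ x) x (f x) =
      ∏ x ∈ univ.erase i, F x (f x) := by
    refine Finset.prod_congr rfl fun j hj => ?_
    rw [Function.update_of_ne (Finset.ne_of_mem_erase hj)]
  rw [h]
  ring

theorem sum_tuple_single (F : I → α → ℝ) (φ : α → ℝ) (i : I) :
    ∑ f : I → α, (∏ j, F j (f j)) * φ (f i) =
      (∑ x, F i x * φ x) * ∏ j ∈ univ.erase i, ∑ x, F j x := by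
  have h1 : ∀ f : I → α, (∏ j, F j (f j)) * φ (f i) =
      ∏ j, Function.update F i (fun x => F i x * φ x) j (f j) := V02_update F φ i
  simp only [h1]
  have h2 := (Finset.prod_univ_sum (fun _ : I => (Finset.univ : Finset α))
    (Function.update F i (fun x => F i x * φ x))).symm
  rw [Fintype.piFinset_univ] at h2
  rw [h2, ← Finset.mul_prod_erase _ _ (Finset.mem_univ i), Function.update_self]
  congr 1
  refine Finset.prod_congr rfl fun j hj => ?_
  rw [Function.update_of_ne (Finset.ne_of_mem_erase hj)]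

theorem sum_tuple_pair (F : I → α → ℝ) (φ ψ : α → ℝ) (i j : I) (hij : i ≠ j) :
    ∑ f : I → α, (∏ l, F l (f l)) * (φ (f i) * ψ (f j)) =
      (∑ x, F i x * φ x) * (∑ x, F j x * ψ x) *
        ∏ l ∈ (univ.erase i).erase j, ∑ x, F l x := by
  have h1 : ∀ f : I → α, (∏ l, F l (f l)) * (φ (f i) * ψ (f j)) =
      (∏ l, Function.update F j (fun x => F j x * ψ x) l (f l)) * φ (f i) := by
    intro f
    rw [← V02_update F ψ j f]
    ring
  simp only [h1]
  rw [sum_tuple_single, Function.update_of_ne hij, mul_assoc]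
  congr 1
  have hj : j ∈ univ.erase i := Finset.mem_erase.2 ⟨hij.symm, Finset.mem_univ j⟩
  rw [← Finset.mul_prod_erase _ _ hj, Function.update_self]
  congr 1
  refine Finset.prod_congr rfl fun l hl => ?_
  rw [Function.update_of_ne (Finset.ne_of_mem_erase hl)]

end BVM

end
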