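import Pool.Agent.helper31.BVM.Defs

/-!
# BVM-X01: expanding the square of a divisor sum

PROOF. `∑_ω F ω (∑_c [c | ω] lm c)^2 = ∑_{c,c'} lm c lm c' ∑_ω F ω [c | ω][c' | ω]`, where `[c | ω]` means
`∀ p i, c p = some i → Ev p i ω`. If `c`, `c'` are not compatible (some `p` with `c p = some i`,
`c' p = some j`, `i ≠ j`) the inner sum is `0` by `hdisj`, and `∏_p Bk (t p) (c p) (c' p) = 0`. If they
are compatible let `e = jn c c'` (`e p = c p` if `c p` is a label, else `c' p`): then `[c | ω][c' | ω] =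
[e | ω]`, the labels of `e` lie in `J` when `lm c ≠ 0 ≠ lm c'`, `supp e = supp c ∪ supp c'`, and
`∏_p Bk (t p) (c p) (c' p) = wt t e` (prime by prime: `Bk` is `1` at `(none, none)` and `t` at
`(some i, none)`, `(none, some i)`, `(some i, some i)`). So the inner sum is `X ∏_p Bk + O(E (supp e))`;
sum the error with the triangle inequality.
-/

noncomputable section

namespace BVM

open Finset

variable {ι I : Type*} [Fintype ι] [DecidableEq ι] [Fintype I] [DecidableEq I]

/-- No prime carries two different labels. -/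
def Compat (c c' : ι → Option I) : Prop := ∀ p, c p = none ∨ c' p = none ∨ c p = c' p

private theorem jn_cases_X01 (c c' : ι → Option I) (p : ι) :
    (c p = none ∧ jn c c' p = c' p) ∨ ∃ i, c p = some i ∧ jn c c' p = some i := by
  rcases hc : c p with _ | i
  · left
    refine ⟨rfl, ?_⟩
    simp [jn, hc]
  · right
    refine ⟨i, rfl, ?_⟩
    simp [jn, hc]

private theorem holds_jn_X01 {Q : ι → I → Prop} {c c' : ι → Option I} (h : Compat c c') :
    (∀ p i, jn c c' p = some i → Q p i) ↔
      (∀ p i, c p = some i → Q p i) ∧ (∀ p i, c' p = some i → Q p i) := by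
  constructor
  · intro hj
    refine ⟨fun p i hp => hj p i ?_, fun p i hp => hj p i ?_⟩
    · rcases jn_cases_X01 c c' p with ⟨h1, _⟩ | ⟨j, h1, h2⟩
      · rw [h1] at hp
        cases hp
      · rw [h2, ← h1, hp]
    · rcases jn_cases_X01 c c' p with ⟨_, h2⟩ | ⟨j, h1, h2⟩
      · rw [h2, hp]
      · rcases h p with h3 | h3 | h3
        · rw [h1] at h3
          cases h3
        · rw [hp] at h3
          cases h3
        · rw [h2, ← h1, h3, hp]
  · rintro ⟨hc, hc'⟩ p i hp
    rcases jn_cases_X01 c c' p with ⟨_, h2⟩ | ⟨j, h1, h2⟩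
    · rw [h2] at hp
      exact hc' p i hp
    · rw [h2, ← h1] at hp
      exact hc p i hp

private theorem wt_jn_X01 (t : ι → ℝ) {c c' : ι → Option I} (h : Compat c c') :
    wt t (jn c c') = ∏ p, Bk (t p) (c p) (c' p) := by
  unfold wt
  refine Finset.prod_congr rfl fun p _ => ?_
  rcases jn_cases_X01 c c' p with ⟨h1, h2⟩ | ⟨j, h1, h2⟩
  · rw [h1, h2]
    rcases c' p with _ | j
    · simp [Bk]
    · simp [Bk]
  · rw [h1, h2]
    rcases h p with h3 | h3 | h3
    · rw [h1] at h3
      cases h3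
    · rw [h3]
      simp [Bk]
    · rw [← h3, h1]
      simp [Bk]

private theorem supp_jn_X01 (c c' : ι → Option I) : supp (jn c c') = supp c ∪ supp c' := by
  ext p
  simp only [supp, Finset.mem_union, Finset.mem_filter, Finset.mem_univ, true_and]
  rcases jn_cases_X01 c c' p with ⟨h1, h2⟩ | ⟨j, h1, h2⟩
  · rw [h1, h2]
    simp
  · rw [h1, h2]
    simp

open Classical in
theorem expansion {Ω : Type*} (T : Finset Ω) (F : Ω → ℝ) (Ev : ι → I → Ω → Prop)
    (hdisj : ∀ ω ∈ T, ∀ p i j, i ≠ j → Ev p i ω → Ev p j ω → False)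
    (J : Finset I) (X : ℝ) (t : ι → ℝ) (E : Finset ι → ℝ)
    (hE : ∀ e : ι → Option I, (∀ p i, e p = some i → i ∈ J) →
      |∑ ω ∈ T, (if ∀ p i, e p = some i → Ev p i ω then F ω else 0) - X * wt t e| ≤
        E (supp e))
    (lm : (ι → Option I) → ℝ) (hlm : ∀ c, lm c ≠ 0 → ∀ p i, c p = some i → i ∈ J) :
    |∑ ω ∈ T, F ω * (∑ c : ι → Option I,
        if ∀ p i, c p = some i → Ev p i ω then lm c else 0) ^ 2
      - X * QF (fun p => Bk (t p)) lm| ≤
    ∑ c : ι → Option I, ∑ c' : ι → Option I,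
      if Compat c c' then |lm c| * |lm c'| * E (supp c ∪ supp c') else 0 := by
  set P : (ι → Option I) → (ι → Option I) → ℝ := fun c c' => ∑ ω ∈ T,
    (if (∀ p i, c p = some i → Ev p i ω) ∧ (∀ p i, c' p = some i → Ev p i ω) then F ω else 0) with hP
  have h1 : ∑ ω ∈ T, F ω * (∑ c : ι → Option I,
      if ∀ p i, c p = some i → Ev p i ω then lm c else 0) ^ 2 =
      ∑ c : ι → Option I, ∑ c' : ι → Option I, lm c * lm c' * P c c' := by
    have e1 : ∀ ω ∈ T, F ω * (∑ c : ι → Option I,
        if ∀ p i, c p = some i → Ev p i ω then lm c else 0) ^ 2 =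
        ∑ c : ι → Option I, ∑ c' : ι → Option I, lm c * lm c' *
          (if (∀ p i, c p = some i → Ev p i ω) ∧ (∀ p i, c' p = some i → Ev p i ω) then F ω else 0) := by
      intro ω _
      rw [sq, Finset.sum_mul_sum, Finset.mul_sum]
      refine Finset.sum_congr rfl fun c _ => ?_
      rw [Finset.mul_sum]
      refine Finset.sum_congr rfl fun c' _ => ?_
      by_cases hc : ∀ p i, c p = some i → Ev p i ω
      · by_cases hc' : ∀ p i, c' p = some i → Ev p i ω
        · rw [if_pos hc, if_pos hc', if_pos ⟨hc, hc'⟩]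
          ring
        · rw [if_neg hc', if_neg (show ¬ (_ ∧ _) from fun h => hc' h.2)]
          ring
      · rw [if_neg hc, if_neg (show ¬ (_ ∧ _) from fun h => hc h.1)]
        ring
    rw [Finset.sum_congr rfl e1, Finset.sum_comm]
    refine Finset.sum_congr rfl fun c _ => ?_
    rw [Finset.sum_comm]
    refine Finset.sum_congr rfl fun c' _ => ?_
    rw [hP, Finset.mul_sum]
  have h2 : X * QF (fun p => Bk (t p)) lm =
      ∑ c : ι → Option I, ∑ c' : ι → Option I, lm c * lm c' * (X * ∏ p, Bk (t p) (c p) (c' p)) := by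
    rw [QF, Finset.mul_sum]
    refine Finset.sum_congr rfl fun c _ => ?_
    rw [Finset.mul_sum]
    refine Finset.sum_congr rfl fun c' _ => ?_
    ring
  rw [h1, h2, ← Finset.sum_sub_distrib]
  refine (Finset.abs_sum_le_sum_abs _ _).trans (Finset.sum_le_sum fun c _ => ?_)
  rw [← Finset.sum_sub_distrib]
  refine (Finset.abs_sum_le_sum_abs _ _).trans (Finset.sum_le_sum fun c' _ => ?_)
  rw [← mul_sub, abs_mul, abs_mul]
  by_cases hcomp : Compat c c'
  · rw [if_pos hcomp]
    by_cases hc0 : lm c = 0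
    · simp [hc0]
    by_cases hc0' : lm c' = 0
    · simp [hc0']
    refine mul_le_mul_of_nonneg_left ?_ (by positivity)
    have e1 := hE (jn c c') (by
      intro p i hp
      rcases jn_cases_X01 c c' p with ⟨_, h4⟩ | ⟨j, h3, h4⟩
      · rw [h4] at hp
        exact hlm c' hc0' p i hp
      · rw [h4, ← h3] at hp
        exact hlm c hc0 p i hp)
    rw [supp_jn_X01, wt_jn_X01 t hcomp] at e1
    have e2 : P c c' = ∑ ω ∈ T, (if ∀ p i, jn c c' p = some i → Ev p i ω then F ω else 0) := by
      rw [hP]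
      refine Finset.sum_congr rfl fun ω _ => ?_
      exact if_congr (holds_jn_X01 (Q := fun p i => Ev p i ω) hcomp).symm rfl rfl
    rw [e2]
    exact e1
  · rw [if_neg hcomp]
    have hex : ∃ p, c p ≠ none ∧ c' p ≠ none ∧ c p ≠ c' p := by
      unfold Compat at hcomp
      push Not at hcomp
      exact hcomp
    obtain ⟨p, hp1, hp2, hp3⟩ := hex
    obtain ⟨i, hi⟩ := Option.ne_none_iff_exists'.mp hp1
    obtain ⟨j, hj⟩ := Option.ne_none_iff_exists'.mp hp2
    have hij : i ≠ j := by
      rintro rfl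
      exact hp3 (hi.trans hj.symm)
    have e1 : ∏ p, Bk (t p) (c p) (c' p) = 0 := by
      refine Finset.prod_eq_zero (Finset.mem_univ p) ?_
      rw [hi, hj]
      simp [Bk, hij]
    have e2 : P c c' = 0 := by
      rw [hP]
      refine Finset.sum_eq_zero fun ω hω => ?_
      rw [if_neg]
      rintro ⟨ha, hb⟩
      exact hdisj ω hω p i j hij (ha p i hi) (hb p j hj)
    rw [e1, e2]
    simp

end BVM

end
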