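import Pool.Agent.helper31.BVM.X01
import Pool.Agent.helper31.BVM.S06
import Pool.Agent.helper31.BVM.T08

/-!
# BVM-X02: grouping the error terms by the union of supports

PROOF. Only pairs with `sz (supp c) ≤ S`, `sz (supp c') ≤ S` contribute, and then
`sz (supp c ∪ supp c') ≤ sz (supp c) * sz (supp c') ≤ S^2` (`ν ≥ 1`). So the left side is at most
`Λ^2 ∑_{U : sz U ≤ S^2} #{(c, c') compatible, supp c ∪ supp c' = U} E U` (group by
`U = supp c ∪ supp c'`: `Finset.sum_fiberwise` or `Finset.sum_comm` with the indicator of equality).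
The number of compatible pairs with union `U` is at most `(3 k)^{|U|}`: the pair is determined by the
function `U → {1,2,3} × I`, `p ↦ (1, i)` if `(c p, c' p) = (some i, none)`, `(2, i)` if `(none, some i)`,
`(3, i)` if `(some i, some i)`, and off `U` both are `none`. (Injection into
`↥U → Fin 3 × I`, `Fintype.card_fun`; or count by a product over `p` with `sum_prod` on the type
`ι → Option I × Option I`.)
-/

noncomputable section

namespace BVM

open Finset

variable {ι I : Type*} [Fintype ι] [DecidableEq ι] [Fintype I] [DecidableEq I]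

omit [Fintype ι] [DecidableEq ι] [Fintype I] [DecidableEq I] in
theorem x02_compat_local (c c' : ι → Option I) (h : Compat c c') (p : ι)
    (hp : c p ≠ none ∨ c' p ≠ none) :
    ∃ x : Fin 3 × I, c p = (if x.1 = 1 then none else some x.2) ∧
      c' p = (if x.1 = 0 then none else some x.2) := by
  rcases hcp : c p with _ | i
  · rcases hcp' : c' p with _ | j
    · simp [hcp, hcp'] at hp
    · exact ⟨(1, j), by simp, by simp⟩
  · rcases hcp' : c' p with _ | j
    · exact ⟨(0, i), by simp, by simp⟩
    · have hij : i = j := by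
        rcases h p with h1 | h1 | h1
        · simp [hcp] at h1
        · simp [hcp'] at h1
        · rw [hcp, hcp'] at h1
          exact Option.some.inj h1
      subst hij
      refine ⟨(2, i), ?_, ?_⟩
      · rw [if_neg (show ¬ ((2 : Fin 3) = 1) by decide)]
      · rw [if_neg (show ¬ ((2 : Fin 3) = 0) by decide)]

open Classical in
theorem x02_card_compat_le (U : Finset ι) :
    ((univ : Finset ((ι → Option I) × (ι → Option I))).filter
      (fun x => Compat x.1 x.2 ∧ supp x.1 ∪ supp x.2 = U)).card ≤
      (3 * Fintype.card I) ^ U.card := by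
  have hcard : (univ : Finset (↥U → Fin 3 × I)).card = (3 * Fintype.card I) ^ U.card := by
    rw [Finset.card_univ, Fintype.card_fun, Fintype.card_prod, Fintype.card_fin,
      Fintype.card_coe]
  rw [← hcard]
  let g : (↥U → Fin 3 × I) → (ι → Option I) × (ι → Option I) := fun φ =>
    (fun p => if h : p ∈ U then (if (φ ⟨p, h⟩).1 = 1 then none else some (φ ⟨p, h⟩).2) else none,
     fun p => if h : p ∈ U then (if (φ ⟨p, h⟩).1 = 0 then none else some (φ ⟨p, h⟩).2) else none)
  refine Finset.card_le_card_of_surjOn g ?_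
  rintro ⟨c, c'⟩ hx
  simp only [coe_filter, mem_univ, true_and, Set.mem_ofPred_eq] at hx
  obtain ⟨hc, hU⟩ := hx
  have hloc : ∀ p : ↥U, ∃ x : Fin 3 × I, c p = (if x.1 = 1 then none else some x.2) ∧
      c' p = (if x.1 = 0 then none else some x.2) := by
    intro p
    apply x02_compat_local c c' hc p
    have hp : (p : ι) ∈ supp c ∪ supp c' := hU.symm ▸ p.2
    rw [Finset.mem_union] at hp
    rcases hp with hp | hp
    · left
      simpa [supp] using hp
    · right
      simpa [supp] using hp
  choose φ hφ using hloc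
  refine ⟨φ, by simp, ?_⟩
  have hout : ∀ p, p ∉ U → c p = none ∧ c' p = none := by
    intro p hp
    rw [← hU, Finset.mem_union, not_or] at hp
    constructor
    · have := hp.1
      simpa [supp] using this
    · have := hp.2
      simpa [supp] using this
  refine Prod.ext ?_ ?_
  · funext p
    by_cases hp : p ∈ U
    · simp only [g, dif_pos hp]
      exact (hφ ⟨p, hp⟩).1.symm
    · simp only [g, dif_neg hp]
      exact (hout p hp).1.symm
  · funext p
    by_cases hp : p ∈ U
    · simp only [g, dif_pos hp]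
      exact (hφ ⟨p, hp⟩).2.symm
    · simp only [g, dif_neg hp]
      exact (hout p hp).2.symm

omit [Fintype ι] in
theorem x02_sz_union_le (ν : ι → ℝ) (hν : ∀ p, 1 ≤ ν p) (A B : Finset ι) :
    sz ν (A ∪ B) ≤ sz ν A * sz ν B := by
  unfold sz
  have h := Finset.prod_union_inter (s₁ := A) (s₂ := B) (f := ν)
  rw [← h]
  have h1 : 1 ≤ ∏ p ∈ A ∩ B, ν p := by
    have := Finset.prod_le_prod (s := A ∩ B) (f := fun _ => (1 : ℝ)) (g := ν)
      (fun _ _ => zero_le_one) (fun p _ => hν p)
    simpa using this
  have h0 : 0 ≤ ∏ p ∈ A ∪ B, ν p := Finset.prod_nonneg (fun p _ => zero_le_one.trans (hν p))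
  nlinarith

open Classical in
theorem error_group (ν : ι → ℝ) (hν : ∀ p, 1 ≤ ν p) (E : Finset ι → ℝ) (hE : ∀ U, 0 ≤ E U)
    (lm : (ι → Option I) → ℝ) (L S : ℝ) (hL : 0 ≤ L) (hlm : ∀ c, |lm c| ≤ L)
    (hS : ∀ c, S < sz ν (supp c) → lm c = 0) :
    ∑ c : ι → Option I, ∑ c' : ι → Option I,
      (if Compat c c' then |lm c| * |lm c'| * E (supp c ∪ supp c') else 0) ≤
    L ^ 2 * ∑ U ∈ univ.filter (fun U : Finset ι => sz ν U ≤ S ^ 2),
      (3 * (Fintype.card I : ℝ)) ^ U.card * E U := by
  have hstep : ∀ c c' : ι → Option I,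
      (if Compat c c' then |lm c| * |lm c'| * E (supp c ∪ supp c') else 0) ≤
      ∑ U ∈ univ.filter (fun U : Finset ι => sz ν U ≤ S ^ 2),
        (if Compat c c' ∧ supp c ∪ supp c' = U then L ^ 2 * E U else 0) := by
    intro c c'
    have hnn : ∀ U ∈ univ.filter (fun U : Finset ι => sz ν U ≤ S ^ 2),
        0 ≤ (if Compat c c' ∧ supp c ∪ supp c' = U then L ^ 2 * E U else 0) := by
      intro U _
      split_ifs
      · exact mul_nonneg (sq_nonneg L) (hE U)
      · exact le_refl 0
    by_cases hc : Compat c c'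
    · rw [if_pos hc]
      by_cases h1 : lm c = 0
      · rw [h1, abs_zero, zero_mul, zero_mul]
        exact Finset.sum_nonneg hnn
      by_cases h2 : lm c' = 0
      · rw [h2, abs_zero, mul_zero, zero_mul]
        exact Finset.sum_nonneg hnn
      have hs1 : sz ν (supp c) ≤ S := not_lt.mp (fun h => h1 (hS c h))
      have hs2 : sz ν (supp c') ≤ S := not_lt.mp (fun h => h2 (hS c' h))
      have hz1 : 0 ≤ sz ν (supp c) := Finset.prod_nonneg (fun p _ => zero_le_one.trans (hν p))
      have hz2 : 0 ≤ sz ν (supp c') := Finset.prod_nonneg (fun p _ => zero_le_one.trans (hν p))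
      have hmem : supp c ∪ supp c' ∈ univ.filter (fun U : Finset ι => sz ν U ≤ S ^ 2) := by
        rw [Finset.mem_filter]
        refine ⟨Finset.mem_univ _, ?_⟩
        calc sz ν (supp c ∪ supp c') ≤ sz ν (supp c) * sz ν (supp c') :=
              x02_sz_union_le ν hν _ _
          _ ≤ S * S := mul_le_mul hs1 hs2 hz2 (hz1.trans hs1)
          _ = S ^ 2 := (sq S).symm
      refine le_trans ?_ (Finset.single_le_sum hnn hmem)
      rw [if_pos ⟨hc, rfl⟩]
      apply mul_le_mul_of_nonneg_right _ (hE _)
      rw [sq]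
      exact mul_le_mul (hlm c) (hlm c') (abs_nonneg _) hL
    · rw [if_neg hc]
      exact Finset.sum_nonneg hnn
  calc ∑ c : ι → Option I, ∑ c' : ι → Option I,
      (if Compat c c' then |lm c| * |lm c'| * E (supp c ∪ supp c') else 0)
      ≤ ∑ c : ι → Option I, ∑ c' : ι → Option I,
        ∑ U ∈ univ.filter (fun U : Finset ι => sz ν U ≤ S ^ 2),
          (if Compat c c' ∧ supp c ∪ supp c' = U then L ^ 2 * E U else 0) :=
        Finset.sum_le_sum (fun c _ => Finset.sum_le_sum (fun c' _ => hstep c c'))
    _ = ∑ x : (ι → Option I) × (ι → Option I),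
        ∑ U ∈ univ.filter (fun U : Finset ι => sz ν U ≤ S ^ 2),
          (if Compat x.1 x.2 ∧ supp x.1 ∪ supp x.2 = U then L ^ 2 * E U else 0) := by
        rw [Fintype.sum_prod_type]
    _ = ∑ U ∈ univ.filter (fun U : Finset ι => sz ν U ≤ S ^ 2),
        ∑ x : (ι → Option I) × (ι → Option I),
          (if Compat x.1 x.2 ∧ supp x.1 ∪ supp x.2 = U then L ^ 2 * E U else 0) :=
        Finset.sum_comm
    _ ≤ ∑ U ∈ univ.filter (fun U : Finset ι => sz ν U ≤ S ^ 2),
        L ^ 2 * ((3 * (Fintype.card I : ℝ)) ^ U.card * E U) := by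
        apply Finset.sum_le_sum
        intro U _
        rw [← Finset.sum_filter, Finset.sum_const, nsmul_eq_mul]
        have h1 := x02_card_compat_le (I := I) U
        have h2 : (((univ : Finset ((ι → Option I) × (ι → Option I))).filter
          (fun x => Compat x.1 x.2 ∧ supp x.1 ∪ supp x.2 = U)).card : ℝ) ≤
          (3 * (Fintype.card I : ℝ)) ^ U.card := by exact_mod_cast h1
        calc _ ≤ (3 * (Fintype.card I : ℝ)) ^ U.card * (L ^ 2 * E U) :=
              mul_le_mul_of_nonneg_right h2 (mul_nonneg (sq_nonneg L) (hE U))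
          _ = L ^ 2 * ((3 * (Fintype.card I : ℝ)) ^ U.card * E U) := by ring
    _ = L ^ 2 * ∑ U ∈ univ.filter (fun U : Finset ι => sz ν U ≤ S ^ 2),
      (3 * (Fintype.card I : ℝ)) ^ U.card * E U := by rw [Finset.mul_sum]

end BVM

end
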